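import Pool.Agent.Q258.LQ.Stm
import Pool.Agent.TH857.J3095

/-!
# Totally split primes in arbitrary extensions
-/

set_option autoImplicit false
set_option linter.deprecated false

open NumberField Filter Topology

namespace Pool.Agent.Q258.LQ

open Pool.Agent.TH444.ML

namespace Split

theorem ncard_le (E L : Type) [Field E] [NumberField E] [Field L] [NumberField L] [Algebra E L]
    (p : Ideal (𝓞 E)) (hp : p.IsPrime) (hp0 : p ≠ ⊥) :
    (p.primesOver (𝓞 L)).Finite ∧ Set.ncard (p.primesOver (𝓞 L)) ≤ Module.finrank E L := by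
  have hm : p.IsMaximal := hp.isMaximal hp0
  have h1 := IsDedekindDomain.coe_primesOverFinset hp0 (𝓞 L)
  haveI : NoZeroSMulDivisors (𝓞 E) (𝓞 L) := ⟨by
    intro c x h
    rw [Algebra.smul_def, mul_eq_zero] at h
    rcases h with h | h
    · left
      exact (injective_iff_map_eq_zero _).1 (FaithfulSMul.algebraMap_injective (𝓞 E) (𝓞 L)) _ h
    · right
      exact h⟩
  have h2 := Ideal.card_primesOverFinset_le_finrank (R := 𝓞 E) (S := 𝓞 L) E L hp0
  rw [← h1, Set.ncard_coe_finset]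
  exact ⟨Finset.finite_toSet _, h2⟩

theorem split_tower (K M N : Type) [Field K] [NumberField K] [Field M] [NumberField M]
    [Field N] [NumberField N] [Algebra K M] [Algebra K N] [Algebra M N] [IsScalarTower K M N]
    (p : Ideal (𝓞 K)) (hp : p.IsPrime) (hp0 : p ≠ ⊥)
    (h : Set.ncard (p.primesOver (𝓞 N)) = Module.finrank K N) :
    Set.ncard (p.primesOver (𝓞 M)) = Module.finrank K M := by
  classical
  obtain ⟨hfM, hleM⟩ := ncard_le K M p hp hp0
  obtain ⟨hfN, -⟩ := ncard_le K N p hp hp0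
  refine le_antisymm hleM ?_
  have hmaps : ∀ Q ∈ hfN.toFinset, Q.under (𝓞 M) ∈ hfM.toFinset := by
    intro Q hQ
    rw [Set.Finite.mem_toFinset] at hQ ⊢
    obtain ⟨hQ1, hQ2⟩ := hQ
    refine ⟨inferInstance, ⟨?_⟩⟩
    rw [Ideal.under_under]
    exact hQ2.over
  have h1 := Finset.card_le_mul_card_image_of_maps_to (s := hfN.toFinset) (t := hfM.toFinset)
    (f := fun Q => Q.under (𝓞 M)) hmaps (Module.finrank M N) (by
      intro P hP
      rw [Set.Finite.mem_toFinset] at hP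
      have hPp := hP.1
      have hP0 : P ≠ ⊥ := by
        haveI := hP.2
        exact Ideal.ne_bot_of_liesOver_of_ne_bot hp0 P
      obtain ⟨hfP, hleP⟩ := ncard_le M N P hPp hP0
      refine le_trans ?_ hleP
      rw [← Set.ncard_coe_finset]
      refine Set.ncard_le_ncard ?_ hfP
      intro Q hQ
      rw [Finset.mem_coe, Finset.mem_filter, Set.Finite.mem_toFinset] at hQ
      exact ⟨hQ.1.1, ⟨hQ.2.symm⟩⟩)
  rw [← Set.ncard_eq_toFinset_card _ hfN, ← Set.ncard_eq_toFinset_card _ hfM, h,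
    ← Module.finrank_mul_finrank K M N, mul_comm] at h1
  exact Nat.le_of_mul_le_mul_left h1 Module.finrank_pos

theorem two_finite (K : Type) [Field K] [NumberField K] :
    {p : Ideal (𝓞 K) | p.IsPrime ∧ p ≠ ⊥ ∧ (2 : 𝓞 K) ∈ p}.Finite := by
  have h2 : (Ideal.span {(2 : 𝓞 K)}) ≠ 0 := by
    rw [Ne, Ideal.zero_eq_bot, Ideal.span_singleton_eq_bot]
    exact two_ne_zero
  have h := (Ideal.finite_factors h2).image (fun v => v.asIdeal)
  refine h.subset fun p hp => ?_
  refine ⟨⟨p, hp.1, hp.2.1⟩, ?_, rfl⟩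
  show p ∣ Ideal.span {(2 : 𝓞 K)}
  rw [Ideal.dvd_span_singleton]
  exact hp.2.2

end Split

open Split in
theorem splitSum2 : SplitSum2 := by
  classical
  intro K M _ _ _ _ _ hs
  let Ω := AlgebraicClosure M
  let N := IntermediateField.normalClosure K M Ω
  haveI : FiniteDimensional K N := inferInstance
  haveI : Normal K N := inferInstance
  haveI : NumberField N := NumberField.of_module_finite K N
  haveI : IsGalois K N := { }
  have hN := Pool.Agent.TH857.J3095.splitSum K N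
  apply hN
  set f : Ideal (𝓞 K) → ℝ := fun p => (1 : ℝ) / Ideal.absNorm p with hf
  have hf0 : ∀ p, 0 ≤ f p := fun p => by simp only [hf]; positivity
  have hs2 := (summable_subtype_iff_indicator (f := f) (s := {p : Ideal (𝓞 K) | p.IsPrime ∧ p ≠ ⊥ ∧
    (2 : 𝓞 K) ∉ p ∧ Set.ncard (p.primesOver (𝓞 M)) = Module.finrank K M})).1 hs
  have hs3 : Summable (Set.indicator {p : Ideal (𝓞 K) | p.IsPrime ∧ p ≠ ⊥ ∧ (2 : 𝓞 K) ∈ p} f) :=
    summable_of_finite_support ((two_finite K).subset Set.support_indicator_subset)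
  refine (summable_subtype_iff_indicator (f := f) (s := {p : Ideal (𝓞 K) | p.IsPrime ∧ p ≠ ⊥ ∧
    Set.ncard (p.primesOver (𝓞 N)) = Module.finrank K N})).2 ?_
  refine Summable.of_nonneg_of_le (fun p => Set.indicator_nonneg (fun p _ => hf0 p) p)
    (fun p => ?_) (hs2.add hs3)
  rw [Set.indicator_apply]
  split_ifs with hp
  · by_cases h2 : (2 : 𝓞 K) ∈ p
    · have hm : p ∈ {p : Ideal (𝓞 K) | p.IsPrime ∧ p ≠ ⊥ ∧ (2 : 𝓞 K) ∈ p} :=
        ⟨hp.1, hp.2.1, h2⟩
      rw [Set.indicator_of_mem hm f]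
      have h9 := Set.indicator_nonneg (s := {p : Ideal (𝓞 K) | p.IsPrime ∧ p ≠ ⊥ ∧
        (2 : 𝓞 K) ∉ p ∧ Set.ncard (p.primesOver (𝓞 M)) = Module.finrank K M})
        (fun p _ => hf0 p) p
      linarith
    · have hm : p ∈ {p : Ideal (𝓞 K) | p.IsPrime ∧ p ≠ ⊥ ∧
          (2 : 𝓞 K) ∉ p ∧ Set.ncard (p.primesOver (𝓞 M)) = Module.finrank K M} :=
        ⟨hp.1, hp.2.1, h2, split_tower K M N p hp.1 hp.2.1 hp.2.2⟩
      rw [Set.indicator_of_mem hm f]
      have := Set.indicator_nonneg (s := {p : Ideal (𝓞 K) | p.IsPrime ∧ p ≠ ⊥ ∧ (2 : 𝓞 K) ∈ p})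
        (fun p _ => hf0 p) p
      linarith
  · exact add_nonneg (Set.indicator_nonneg (fun p _ => hf0 p) p)
      (Set.indicator_nonneg (fun p _ => hf0 p) p)

end Pool.Agent.Q258.LQ
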