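import Pool.Agent.Q258.LQ.Stm
import Pool.Agent.TH444.ML.Main

/-!
# Towers of quadratic extensions : assembly
-/

set_option autoImplicit false
set_option linter.unusedSectionVars false

open NumberField Filter Topology

namespace Pool.Agent.Q258.LQ

open Pool.Agent.TH444.ML

section

variable {K Ω : Type} [Field K] [NumberField K] [Field Ω] [Algebra K Ω] [IsAlgClosure K Ω]

/-- the quadratic extensions of `F` with a second subfield of index two -/
def BS (F : IntermediateField K Ω) (Y : ℝ) : Set (IntermediateField K Ω) :=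
  {L : IntermediateField K Ω | F ≤ L ∧
      Module.finrank K L = 2 * Module.finrank K F ∧
      (∃ F' : IntermediateField K Ω, F' ≤ L ∧ F' ≠ F ∧
        Module.finrank K F' = Module.finrank K F) ∧ dsc L ≤ Y * dsc F ^ 2}

theorem BS_sub (F : IntermediateField K Ω) (Y : ℝ) : BS F Y ⊆ AS F Y :=
  fun _ h => ⟨h.1, h.2.1, h.2.2.2⟩

theorem bound_AS (hu : QuadUnif2) (m : ℕ) (hm : 0 < m) :
    ∃ C : ℝ, 0 ≤ C ∧ ∀ F : IntermediateField K Ω, Module.finrank K F = m → ∀ X : ℝ, 0 < X →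
      (AS F (X / dsc F ^ 2)).Finite ∧
      (Set.ncard (AS F (X / dsc F ^ 2)) : ℝ) ≤ C * X * (dsc F) ^ (-(5 / 4) : ℝ) := by
  have hac : IsAlgClosed Ω := IsAlgClosure.isAlgClosed K
  obtain ⟨C, hC0, hC⟩ := hu (Module.finrank ℚ K * m)
  refine ⟨C, hC0.le, ?_⟩
  intro F hF X hX
  have hfd : FiniteDimensional K F := fd_of_finrank hm hF
  have hnf : NumberField F := nf_of_fd F
  have hdeg : Module.finrank ℚ F = Module.finrank ℚ K * m := by
    rw [← hF, Module.finrank_mul_finrank ℚ K F]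
  set d : ℝ := dsc F with hd
  have hd1 : 1 ≤ d := one_le_dsc F
  have hd0 : 0 < d := by linarith
  have hY : 0 ≤ X / d ^ 2 := by positivity
  obtain ⟨h1, h2⟩ := hC F Ω hdeg (X / d ^ 2) hY
  refine ⟨finite_AS F _ h1, ?_⟩
  rw [ncard_AS]
  rw [← dsc_eq F, ← hd] at h2
  refine h2.trans (le_of_eq ?_)
  have h4 : d ^ (3 / 4 : ℝ) * (d ^ 2)⁻¹ = d ^ (-(5 / 4) : ℝ) := by
    rw [← Real.rpow_natCast, ← Real.rpow_neg hd0.le, ← Real.rpow_add hd0]
    norm_num
  rw [← h4]
  ring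

theorem lim_AS (hl : QuadLim) (hp : QuadPos) (hb : BadSmall2)
    (F : IntermediateField K Ω) [FiniteDimensional K F] :
    ∃ c : ℝ, 0 < c ∧
      Tendsto (fun X : ℝ => (Set.ncard (AS F (X / dsc F ^ 2)) : ℝ) / X) atTop (𝓝 c) ∧
      Tendsto (fun X : ℝ => (Set.ncard (BS F (X / dsc F ^ 2)) : ℝ) / X) atTop (𝓝 0) := by
  have hnf : NumberField F := nf_of_fd F
  have hac : IsAlgClosed Ω := IsAlgClosure.isAlgClosed K
  obtain ⟨c, hc⟩ := hl F Ω
  have hc0 : 0 ≤ c := by
    refine ge_of_tendsto hc ?_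
    filter_upwards [eventually_ge_atTop (0 : ℝ)] with Y hY
    positivity
  have hc1 : c ≠ 0 := by
    intro h
    rw [h] at hc
    exact hp F Ω hc
  have hcpos : 0 < c := lt_of_le_of_ne hc0 (Ne.symm hc1)
  set d : ℝ := dsc F with hd
  have hd1 : 1 ≤ d := one_le_dsc F
  have hd0 : 0 < d := by linarith
  have hsub : Tendsto (fun X : ℝ => X / d ^ 2) atTop atTop :=
    tendsto_id.atTop_div_const (by positivity)
  have e1 : ∀ a X : ℝ, 0 < X → a / (X / d ^ 2) * (1 / d ^ 2) = a / X := by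
    intro a X hX
    field_simp
  refine ⟨c * (1 / d ^ 2), by positivity, ?_, ?_⟩
  · refine ((hc.comp hsub).mul_const (1 / d ^ 2)).congr' ?_
    filter_upwards [eventually_gt_atTop (0 : ℝ)] with X hX
    simp only [Function.comp]
    rw [e1 _ X hX, ncard_AS]
  · have h2 := ((hb K Ω F).comp hsub).mul_const (1 / d ^ 2)
    rw [zero_mul] at h2
    refine h2.congr' ?_
    filter_upwards [eventually_gt_atTop (0 : ℝ)] with X hX
    simp only [Function.comp]
    rw [e1 _ X hX]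
    rfl

/-- the members of `Up 𝓕` of bounded discriminant -/
def UX (𝓕 : Set (IntermediateField K Ω)) (X : ℝ) : Set (IntermediateField K Ω) :=
  {L | L ∈ Up 𝓕 ∧ dsc L ≤ X}

theorem UX_eq (𝓕 : Set (IntermediateField K Ω)) (X : ℝ) :
    UX 𝓕 X = ⋃ F : 𝓕, AS F.1 (X / dsc F.1 ^ 2) := by
  have e : ∀ F : IntermediateField K Ω, X / dsc F ^ 2 * dsc F ^ 2 = X := by
    intro F
    have : 1 ≤ dsc F := one_le_dsc F
    have : dsc F ≠ 0 := by linarith
    field_simp
  ext L
  simp only [Set.mem_iUnion]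
  constructor
  · rintro ⟨⟨F, hF, h1, h2⟩, h3⟩
    exact ⟨⟨F, hF⟩, h1, h2, by rw [e]; exact h3⟩
  · rintro ⟨F, h1, h2, h3⟩
    rw [e] at h3
    exact ⟨⟨F.1, F.2, h1, h2⟩, h3⟩

/-- **One step.** The number of the quadratic extensions of the members of `𝓕`. -/
theorem step_gen (hl : QuadLim) (hp : QuadPos) (hb : BadSmall2)
    (𝓕 : Set (IntermediateField K Ω)) (m : ℕ) (hm : 0 < m)
    (hF : ∀ F ∈ 𝓕, Module.finrank K F = m) (hne : 𝓕.Nonempty) (e : ℝ)
    (hbound : ∃ C : ℝ, 0 ≤ C ∧ ∀ F : IntermediateField K Ω, Module.finrank K F = m →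
      ∀ X : ℝ, 0 < X → (AS F (X / dsc F ^ 2)).Finite ∧
      (Set.ncard (AS F (X / dsc F ^ 2)) : ℝ) ≤ C * X * (dsc F) ^ e)
    (hsum : Summable (fun F : 𝓕 => (dsc F.1) ^ e)) :
    (∀ X : ℝ, 0 < X → (UX 𝓕 X).Finite) ∧ ∃ c : ℝ, 0 < c ∧
      Tendsto (fun X : ℝ => (Set.ncard (UX 𝓕 X) : ℝ) / X) atTop (𝓝 c) := by
  classical
  obtain ⟨C, hC0, hC⟩ := hbound
  have hlim : ∀ F : 𝓕, ∃ c : ℝ, 0 < c ∧
      Tendsto (fun X : ℝ => (Set.ncard (AS F.1 (X / dsc F.1 ^ 2)) : ℝ) / X) atTop (𝓝 c) ∧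
      Tendsto (fun X : ℝ => (Set.ncard (BS F.1 (X / dsc F.1 ^ 2)) : ℝ) / X) atTop (𝓝 0) := by
    intro F
    have hfd : FiniteDimensional K F.1 := fd_of_finrank hm (hF F.1 F.2)
    exact lim_AS hl hp hb F.1
  choose cF hcF0 hcF hbF using hlim
  have hsum' : Summable (fun F : 𝓕 => C * (dsc F.1) ^ e) := hsum.mul_left C
  have hbd : ∀ (F : 𝓕) (X : ℝ), 0 < X →
      (Set.ncard (AS F.1 (X / dsc F.1 ^ 2)) : ℝ) ≤ X * (C * (dsc F.1) ^ e) := by
    intro F X hX
    refine (hC F.1 (hF F.1 F.2) X hX).2.trans (le_of_eq (by ring))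
  have hfinA : ∀ (F : 𝓕) (X : ℝ), 0 < X → (AS F.1 (X / dsc F.1 ^ 2)).Finite :=
    fun F X hX => (hC F.1 (hF F.1 F.2) X hX).1
  have hBA : ∀ (F : 𝓕) (X : ℝ), 0 < X →
      Set.ncard (BS F.1 (X / dsc F.1 ^ 2)) ≤ Set.ncard (AS F.1 (X / dsc F.1 ^ 2)) :=
    fun F X hX => Set.ncard_le_ncard (BS_sub _ _) (hfinA F X hX)
  -- for fixed `X`
  have key : ∀ X : ℝ, 0 < X → (UX 𝓕 X).Finite ∧
      (Set.ncard (UX 𝓕 X) : ℝ) ≤ ∑' F : 𝓕, (Set.ncard (AS F.1 (X / dsc F.1 ^ 2)) : ℝ) ∧
      ∑' F : 𝓕, ((Set.ncard (AS F.1 (X / dsc F.1 ^ 2)) : ℝ) -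
        Set.ncard (BS F.1 (X / dsc F.1 ^ 2))) ≤ (Set.ncard (UX 𝓕 X) : ℝ) := by
    intro X hX
    have hs1 : Summable (fun F : 𝓕 => (Set.ncard (AS F.1 (X / dsc F.1 ^ 2)) : ℝ)) :=
      Summable.of_nonneg_of_le (fun F => by positivity) (fun F => hbd F X hX)
        (hsum'.mul_left X)
    have hfs : {F : 𝓕 | (AS F.1 (X / dsc F.1 ^ 2)).Nonempty}.Finite := by
      have h := hs1.tendsto_cofinite_zero.eventually (gt_mem_nhds (zero_lt_one (α := ℝ)))
      rw [Filter.eventually_cofinite] at h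
      refine h.subset ?_
      intro F hFn
      simp only [Set.mem_ofPred_eq, not_lt]
      have : 0 < Set.ncard (AS F.1 (X / dsc F.1 ^ 2)) := (Set.ncard_pos (hfinA F X hX)).2 hFn
      exact_mod_cast this
    have hzero : ∀ F : 𝓕, F ∉ hfs.toFinset → Set.ncard (AS F.1 (X / dsc F.1 ^ 2)) = 0 := by
      intro F hFn
      have : ¬ (AS F.1 (X / dsc F.1 ^ 2)).Nonempty := by
        intro h; exact hFn (by simpa using h)
      rw [Set.not_nonempty_iff_eq_empty] at this
      rw [this]; simp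
    have hT : UX 𝓕 X = ⋃ F ∈ hfs.toFinset, AS F.1 (X / dsc F.1 ^ 2) := by
      rw [UX_eq]
      ext L
      simp only [Set.mem_iUnion, Set.Finite.mem_toFinset, Set.mem_ofPred_eq, exists_prop]
      constructor
      · rintro ⟨F, hFL⟩
        exact ⟨F, ⟨L, hFL⟩, hFL⟩
      · rintro ⟨F, -, hFL⟩
        exact ⟨F, hFL⟩
    have hTf : (UX 𝓕 X).Finite := by
      rw [hT]
      exact Set.Finite.biUnion hfs.toFinset.finite_toSet (fun F _ => hfinA F X hX)
    refine ⟨hTf, ?_, ?_⟩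
    · have hTb : hTf.toFinset =
          hfs.toFinset.biUnion (fun F => (hfinA F X hX).toFinset) := by
        ext L
        rw [Set.Finite.mem_toFinset, hT]
        simp only [Set.mem_iUnion, Finset.mem_biUnion, Set.Finite.mem_toFinset, exists_prop]
      have hcard : (UX 𝓕 X).ncard ≤
          ∑ F ∈ hfs.toFinset, (AS F.1 (X / dsc F.1 ^ 2)).ncard := by
        rw [Set.ncard_eq_toFinset_card _ hTf, hTb]
        refine Finset.card_biUnion_le.trans (le_of_eq ?_)
        refine Finset.sum_congr rfl fun F _ => ?_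
        exact (Set.ncard_eq_toFinset_card _ (hfinA F X hX)).symm
      rw [tsum_eq_sum (s := hfs.toFinset) (fun F hFn => by rw [hzero F hFn]; simp)]
      exact_mod_cast hcard
    · rw [tsum_eq_sum (s := hfs.toFinset)]
      · have hG : ∀ F : 𝓕, ((AS F.1 (X / dsc F.1 ^ 2)) \ (BS F.1 (X / dsc F.1 ^ 2))).Finite :=
          fun F => (hfinA F X hX).subset Set.sdiff_subset
        have hsub : hfs.toFinset.biUnion (fun F => (hG F).toFinset) ⊆ hTf.toFinset := by
          intro L hL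
          rw [Finset.mem_biUnion] at hL
          obtain ⟨F, hF1, hF2⟩ := hL
          rw [Set.Finite.mem_toFinset] at hF2 ⊢
          rw [hT]
          simp only [Set.mem_iUnion, exists_prop]
          exact ⟨F, hF1, hF2.1⟩
        have hdis : ∀ F ∈ hfs.toFinset, ∀ F' ∈ hfs.toFinset, F ≠ F' →
            Disjoint (hG F).toFinset (hG F').toFinset := by
          intro F _ F' _ hne'
          rw [Finset.disjoint_left]
          intro L h1 h2
          rw [Set.Finite.mem_toFinset] at h1 h2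
          apply h1.2
          refine ⟨h1.1.1, h1.1.2.1, ⟨F'.1, h2.1.1, fun h => hne' (Subtype.ext h.symm), ?_⟩,
            h1.1.2.2⟩
          rw [hF F.1 F.2, hF F'.1 F'.2]
        have hcard : ∑ F ∈ hfs.toFinset,
            ((AS F.1 (X / dsc F.1 ^ 2)) \ (BS F.1 (X / dsc F.1 ^ 2))).ncard ≤ (UX 𝓕 X).ncard := by
          rw [Set.ncard_eq_toFinset_card _ hTf]
          refine le_trans (le_of_eq ?_) (Finset.card_le_card hsub)
          rw [Finset.card_biUnion hdis]
          refine Finset.sum_congr rfl fun F _ => ?_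
          exact Set.ncard_eq_toFinset_card _ (hG F)
        have hcard' : ((∑ F ∈ hfs.toFinset,
            ((AS F.1 (X / dsc F.1 ^ 2)) \ (BS F.1 (X / dsc F.1 ^ 2))).ncard : ℕ) : ℝ) ≤
            (UX 𝓕 X).ncard := by exact_mod_cast hcard
        refine le_trans (le_of_eq ?_) hcard'
        push_cast
        refine Finset.sum_congr rfl fun F _ => ?_
        have h3 := Set.ncard_sdiff_add_ncard_of_subset (BS_sub F.1 (X / dsc F.1 ^ 2))
          (hfinA F X hX)
        rw [← h3]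
        push_cast
        ring
      · intro F hFn
        have h1 := hzero F hFn
        have h2 := hBA F X hX
        rw [h1] at h2
        rw [h1, Nat.le_zero.1 h2]
        simp
  refine ⟨fun X hX => (key X hX).1, ∑' F : 𝓕, cF F, ?_, ?_⟩
  · have hle : ∀ F : 𝓕, cF F ≤ C * (dsc F.1) ^ e := by
      intro F
      refine le_of_tendsto (hcF F) ?_
      filter_upwards [eventually_gt_atTop (0 : ℝ)] with X hX
      rw [div_le_iff₀ hX]
      have := hbd F X hX
      linarith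
    have hs : Summable cF :=
      Summable.of_nonneg_of_le (fun F => (hcF0 F).le) hle hsum'
    obtain ⟨F₀, hF₀⟩ := hne
    exact hs.tsum_pos (fun F => (hcF0 F).le) ⟨F₀, hF₀⟩ (hcF0 _)
  · have hup := tendsto_tsum_of_dominated_convergence (𝓕 := atTop)
      (f := fun (X : ℝ) (F : 𝓕) => (Set.ncard (AS F.1 (X / dsc F.1 ^ 2)) : ℝ) / X)
      (g := cF) hsum' (fun F => hcF F) (by
        filter_upwards [eventually_gt_atTop (0 : ℝ)] with X hX F
        rw [Real.norm_of_nonneg (by positivity), div_le_iff₀ hX]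
        have := hbd F X hX
        linarith)
    have hlo := tendsto_tsum_of_dominated_convergence (𝓕 := atTop)
      (f := fun (X : ℝ) (F : 𝓕) => ((Set.ncard (AS F.1 (X / dsc F.1 ^ 2)) : ℝ) -
        Set.ncard (BS F.1 (X / dsc F.1 ^ 2))) / X)
      (g := cF) hsum' (fun F => by
        have h := (hcF F).sub (hbF F)
        rw [sub_zero] at h
        refine h.congr (fun X => ?_)
        rw [sub_div]) (by
        filter_upwards [eventually_gt_atTop (0 : ℝ)] with X hX F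
        have h1 : (Set.ncard (BS F.1 (X / dsc F.1 ^ 2)) : ℝ) ≤
            Set.ncard (AS F.1 (X / dsc F.1 ^ 2)) := by exact_mod_cast hBA F X hX
        have h0 : (0 : ℝ) ≤ Set.ncard (BS F.1 (X / dsc F.1 ^ 2)) := Nat.cast_nonneg _
        rw [Real.norm_of_nonneg (div_nonneg (by linarith) hX.le), div_le_iff₀ hX]
        have := hbd F X hX
        linarith)
    refine tendsto_of_tendsto_of_tendsto_of_le_of_le' hlo hup ?_ ?_
    · filter_upwards [eventually_gt_atTop (0 : ℝ)] with X hX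
      rw [tsum_div_const]
      exact div_le_div_of_nonneg_right (key X hX).2.2 hX.le
    · filter_upwards [eventually_gt_atTop (0 : ℝ)] with X hX
      rw [tsum_div_const]
      exact div_le_div_of_nonneg_right (key X hX).2.1 hX.le

theorem step (hl : QuadLim) (hp : QuadPos) (hu : QuadUnif2) (hb : BadSmall2)
    (𝓕 : Set (IntermediateField K Ω)) (m : ℕ) (hm : 0 < m)
    (hF : ∀ F ∈ 𝓕, Module.finrank K F = m) (hne : 𝓕.Nonempty)
    (hsum : Summable (fun F : 𝓕 => (dsc F.1) ^ (-(5 / 4) : ℝ))) :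
    (∀ X : ℝ, 0 < X → (UX 𝓕 X).Finite) ∧ ∃ c : ℝ, 0 < c ∧
      Tendsto (fun X : ℝ => (Set.ncard (UX 𝓕 X) : ℝ) / X) atTop (𝓝 c) :=
  step_gen hl hp hb 𝓕 m hm hF hne _ (bound_AS (K := K) (Ω := Ω) hu m hm) hsum

end

end Pool.Agent.Q258.LQ
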