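import Pool.Agent.Q258.LQ.Stm

/-!
# Towers of Galois extensions of prime degree : statements

Second part of project LQ (helper258): for a number field `K` and every even `n` the number of the
extensions `L` of `K` of degree `n` which are obtained from `K` (or from a cubic extension of `K`)
by successive Galois extensions of prime degree, with `|d_L| ≤ X`, is `~ c X`.
-/

set_option autoImplicit false

open NumberField Filter Topology

namespace Pool.Agent.Q258.LQ

open Pool.Agent.TH444.ML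

open Classical in
/-- the exponent of the prime `P` in the ideal `I` -/
noncomputable def vP {M : Type} [Field M] [NumberField M] (P I : Ideal (𝓞 M)) : ℕ :=
  (UniqueFactorizationMonoid.normalizedFactors I).count P

/-- the prime `p` of `F` is totally ramified in the extension `L` of degree `ℓ` -/
def TotRam (F L : Type) [Field F] [Field L] [Algebra F L] (ℓ : ℕ) (p : Ideal (𝓞 F)) : Prop :=
  p.IsPrime ∧ p ≠ ⊥ ∧ ∃ Q : Ideal (𝓞 L), Q.IsPrime ∧ Q ≠ ⊥ ∧ Q.under (𝓞 F) = p ∧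
    Ideal.map (algebraMap (𝓞 F) (𝓞 L)) p ≤ Q ^ ℓ

/-- Quadratic extensions: uniform upper bound with the exponent `1/2 + ε`: proof as for `QuadUnif2`. -/
def QuadUnif3 : Prop :=
  ∀ (D : ℕ) (ε : ℝ), 0 < ε → ∃ C : ℝ, 0 < C ∧ ∀ (M E : Type) [Field M] [NumberField M] [Field E]
    [Algebra M E] [IsAlgClosed E], Module.finrank ℚ M = D → ∀ Y : ℝ, 0 ≤ Y →
      (QS M E Y).Finite ∧
      (Set.ncard (QS M E Y) : ℝ) ≤ C * ((|discr M| : ℤ) : ℝ) ^ (1 / 2 + ε) * Y

/-- The class number. Proof: every class contains an ideal of norm at most a constant (depending on `D`)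
times `√d` (Mathlib: `NumberField.exists_ideal_in_class_of_norm_le`), and `IdealUnif2` counts these
(see the proof of `quadUnif` in `Pool.Agent.TH293.J3093`, where this is done). -/
def ClassNum : Prop :=
  ∀ (D : ℕ) (ε : ℝ), 0 < ε → ∃ C : ℝ, 0 < C ∧ ∀ (M : Type) [Field M] [NumberField M],
    Module.finrank ℚ M = D →
      (Nat.card (ClassGroup (𝓞 M)) : ℝ) ≤ C * ((|discr M| : ℤ) : ℝ) ^ (1 / 2 + ε)

/-- Sum of `k ^ #S` over the finite sets `S` of primes with `∏ N(p) ≤ Z`, uniformly in the field.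
Proof: let `T` be the union of the `S` in `𝒮`. As `1 ≤ Z ^ (1+ε) ∏_{p ∈ S} N(p) ^ (-(1+ε))`, the sum is
at most `Z ^ (1+ε) ∑_{S ⊆ T} ∏_{p ∈ S} k N(p) ^ (-(1+ε)) = Z ^ (1+ε) ∏_{p ∈ T} (1 + k N(p) ^ (-(1+ε)))`
(`Finset.prod_one_add`), and this is `≤ Z ^ (1+ε) exp (k ∑_{p ∈ T} N(p) ^ (-(1+ε)))`, with
`IdealSum` for the last sum. -/
def OmegaSum : Prop :=
  ∀ (D k : ℕ) (ε : ℝ), 0 < ε → ∃ C : ℝ, 0 < C ∧ ∀ (M : Type) [Field M] [NumberField M],
    Module.finrank ℚ M = D → ∀ Z : ℝ, 1 ≤ Z → ∀ 𝒮 : Finset (Finset (Ideal (𝓞 M))),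
      (∀ S ∈ 𝒮, (∀ p ∈ S, p.IsPrime ∧ p ≠ ⊥) ∧ ∏ p ∈ S, (Ideal.absNorm p : ℝ) ≤ Z) →
      ∑ S ∈ 𝒮, (k : ℝ) ^ S.card ≤ C * Z ^ (1 + ε)

/-- Selmer group bound: elements which are inequivalent modulo `ℓ`-th powers and have the same
exponents modulo `ℓ`.
Proof: fix `a₀ ∈ A`. For `a ∈ A` the fractional ideal `(a) / (a₀)` is the `ℓ`-th power of a
fractional ideal `𝔟_a` (all exponents of `(a)(a₀)⁻¹` are divisible by `ℓ`; or: there are nonzero ideals
with `(a) 𝔠 ^ ℓ = (a₀) 𝔠' ^ ℓ`). If `𝔟_a` and `𝔟_{a'}` are in the same class then `a = a' x ^ ℓ u` with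
a unit `u`, `x ≠ 0`; so for `a` in a fixed class, `a ↦ u` modulo `ℓ`-th powers is injective (fix one
`a'` for each class), and the group of units modulo `ℓ`-th powers has at most `ℓ ^ (D + 1)` elements
(the torsion of the units is cyclic, the rank is at most `D - 1`; see how it is done for `ℓ = 2` in
`Pool.Agent.TH293.J3093`). -/
def SelFib : Prop :=
  ∀ (ℓ : ℕ), ℓ.Prime → ∀ (M : Type) [Field M] [NumberField M] (A : Finset (𝓞 M)),
    (∀ a ∈ A, a ≠ 0) →
    (∀ a ∈ A, ∀ b ∈ A, ∀ P : Ideal (𝓞 M), P.IsPrime → P ≠ ⊥ →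
      vP P (Ideal.span {a}) ≡ vP P (Ideal.span {b}) [MOD ℓ]) →
    (∀ a ∈ A, ∀ b ∈ A, a ≠ b → ¬ ∃ x : M, x ≠ 0 ∧ (a : M) = (b : M) * x ^ ℓ) →
    A.card ≤ Nat.card (ClassGroup (𝓞 M)) * ℓ ^ (Module.finrank ℚ M + 1)

/-- The discriminant of `F(ζ)`.
Proof: `|d_{F'}| = |d_F| ^ [F' : F] N(different of F' / F)` (Mathlib:
`NumberField.natAbs_discr_eq_absNorm_differentIdeal_mul_natAbs_discr_pow`), `[F' : F] ≤ ℓ - 1`, and the
different contains `g'(ζ)`, `g` the minimal polynomial of `ζ` over `F` (or over `𝓞 F`), which divides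
`Φ_ℓ'(ζ)`, a divisor of `ℓ` times a unit: `Φ_ℓ'(ζ) (ζ - 1) = ℓ ζ ^ (ℓ - 1)`. So the norm of the different
is at most `ℓ ^ [F' : ℚ] ≤ ℓ ^ (D (ℓ - 1))`. (For `[F' : F] < ℓ - 1` use `1 ≤ |d_F|`.) -/
def DiscZeta : Prop :=
  ∀ (ℓ D : ℕ), ℓ.Prime → ∃ C : ℝ, 0 < C ∧ ∀ (F E : Type) [Field F] [NumberField F] [Field E]
    [Algebra F E] [IsAlgClosed E], Module.finrank ℚ F = D → ∀ ζ : E, IsPrimitiveRoot ζ ℓ →
    Module.finrank F (IntermediateField.adjoin F {ζ}) ≤ ℓ - 1 ∧
    ∀ h : NumberField (IntermediateField.adjoin F {ζ}),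
      ((|@discr (IntermediateField.adjoin F {ζ}) _ h| : ℤ) : ℝ) ≤
        C * ((|discr F| : ℤ) : ℝ) ^ ((ℓ : ℝ) - 1)

/-- Ramification in Kummer extensions, in the diagram `F ⊆ L ⊆ L'`, `F ⊆ F' ⊆ L'`, `L' ∋ β`,
`β ^ ℓ = α ∈ F'`. Proof: take a prime `Q'` of `L'` above `P` and let `Q` be the prime of `L` below and
`p = P.under (𝓞 F)`. `ℓ v_{Q'}(β) = e(Q' | P) v_P(α)` (`v` of the integral element `β`), so `ℓ` divides
`e(Q' | P)`, which divides `e(Q' | p) = e(Q' | Q) e(Q | p)`; `0 < e(Q' | Q) ≤ [L' : L] < ℓ`, so `ℓ`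
divides `e(Q | p)`, hence `p 𝓞 L ≤ Q ^ ℓ`. -/
def RamKum : Prop :=
  ∀ (ℓ : ℕ), ℓ.Prime → ∀ (F F' L L' : Type) [Field F] [NumberField F] [Field F'] [NumberField F']
    [Field L] [NumberField L] [Field L'] [NumberField L'] [Algebra F F'] [Algebra F L]
    [Algebra F L'] [Algebra F' L'] [Algebra L L'] [IsScalarTower F F' L'] [IsScalarTower F L L'],
    Module.finrank L L' < ℓ → ∀ (α : 𝓞 F') (β : L'), α ≠ 0 →
    β ^ ℓ = algebraMap F' L' (α : F') →
    ∀ P : Ideal (𝓞 F'), P.IsPrime → P ≠ ⊥ → ¬ ℓ ∣ vP P (Ideal.span {α}) →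
      TotRam F L ℓ (P.under (𝓞 F))

/-- Kummer theory for a Galois extension `L / F` of prime degree `ℓ`. Proof: `F' = F(ζ)`, of degree
`≤ ℓ - 1` (so `[F' : F]` is prime to `ℓ`) and `L' = L F'`, which is Galois over `F'` of degree `ℓ`
(`L ∩ F' = F` as `ℓ` is prime to `[F' : F]`), cyclic; Mathlib's Kummer theory
(`exists_root_adjoin_eq_top_of_isCyclic`) gives `β` with `β ^ ℓ ∈ F'` and `L' = F'(β)`; multiply `β` by an
integer to have `β ^ ℓ` integral. The ramification: `RamKum` for `F, F', L, L'`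
(`[L' : L] ≤ ℓ - 1 < ℓ`). -/
def Kum : Prop :=
  ∀ (ℓ : ℕ), ℓ.Prime → ∀ (F E : Type) [Field F] [NumberField F] [Field E] [Algebra F E]
    [IsAlgClosed E] (ζ : E), IsPrimitiveRoot ζ ℓ → ∀ L : IntermediateField F E,
    Module.finrank F L = ℓ → IsGalois F L →
    ∀ h : NumberField (IntermediateField.adjoin F {ζ}),
    ∃ (α : 𝓞 (IntermediateField.adjoin F {ζ})) (β : E), α ≠ 0 ∧
      β ^ ℓ = ((α : IntermediateField.adjoin F {ζ}) : E) ∧
      L ≤ IntermediateField.adjoin F {ζ, β} ∧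
      Module.finrank F (IntermediateField.adjoin F {ζ, β}) =
        ℓ * Module.finrank F (IntermediateField.adjoin F {ζ}) ∧
      ∀ P : Ideal (𝓞 (IntermediateField.adjoin F {ζ})), P.IsPrime → P ≠ ⊥ →
        ¬ ℓ ∣ vP P (Ideal.span {α}) → TotRam F L ℓ (P.under (𝓞 F))

/-- Two Galois extensions of degree `ℓ` inside an extension of degree `ℓ e`, `e < ℓ`, are equal.
Proof: otherwise `L₁ ⊔ L₂` has degree `ℓ ^ 2` over `F` (`L₁ ∩ L₂ = F` as `ℓ` is prime) and this
divides `ℓ e`. -/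
def TwoSub : Prop :=
  ∀ (ℓ e : ℕ), ℓ.Prime → 0 < e → e < ℓ → ∀ (F E : Type) [Field F] [Field E] [Algebra F E]
    (N L₁ L₂ : IntermediateField F E), Module.finrank F N = ℓ * e → L₁ ≤ N → L₂ ≤ N →
    Module.finrank F L₁ = ℓ → Module.finrank F L₂ = ℓ → IsGalois F L₁ → IsGalois F L₂ → L₁ = L₂

/-- The discriminant and the totally ramified primes. Proof:
`|d_L| = |d_F| ^ ℓ N(different of L / F)` (Mathlib:
`NumberField.natAbs_discr_eq_absNorm_differentIdeal_mul_natAbs_discr_pow`), and for `p ∈ S` with `Q` as in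
`TotRam`, `Q ^ (ℓ - 1)` divides the different (`pow_sub_one_dvd_differentIdeal`); `N(Q) ≥ N(p)`, and the
`Q` for different `p` are different, so coprime. -/
def DiscRam : Prop :=
  ∀ (ℓ : ℕ), 0 < ℓ → ∀ (F L : Type) [Field F] [NumberField F] [Field L] [NumberField L]
    [Algebra F L], Module.finrank F L = ℓ → ∀ S : Finset (Ideal (𝓞 F)),
    (∀ p ∈ S, TotRam F L ℓ p) →
    (discr F).natAbs ^ ℓ * ∏ p ∈ S, (Ideal.absNorm p) ^ (ℓ - 1) ≤ (discr L).natAbs

/-- the Galois extensions of `M` of degree `ℓ` of bounded discriminant -/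
def CS (ℓ : ℕ) (M E : Type) [Field M] [NumberField M] [Field E] [Algebra M E] (Y : ℝ) :
    Set (IntermediateField M E) :=
  {L | Module.finrank M L = ℓ ∧ IsGalois M L ∧ ∃ h : NumberField L,
    ((|@discr L _ h| : ℤ) : ℝ) ≤ Y * ((|discr M| : ℤ) : ℝ) ^ ℓ}

/-- Galois extensions of odd prime degree: uniform upper bound.
Proof. Let `F = M`, `ζ` a primitive `ℓ`-th root of unity in `E`, `F' = F(ζ)`. For `L` in the set take
`α_L`, `β_L` from `Kum` and let `S_L` be the set of the `p` with `TotRam F L ℓ p`. `DiscRam` gives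
`(∏_{p ∈ S} N(p)) ^ (ℓ - 1) ≤ Y` for all finite `S ⊆ S_L`, so `S_L` is finite and
`∏_{p ∈ S_L} N(p) ≤ Z := Y ^ (1 / (ℓ - 1)) ≤ Y ^ (1/2)`. For a given `S` the exponents modulo `ℓ` of `α_L`,
`S_L = S`, vanish outside of the primes of `F'` above the elements of `S`, at most `(ℓ - 1) #S`, so
there are at most `(ℓ ^ (ℓ - 1)) ^ #S` possibilities for the exponents modulo `ℓ` of `α_L`. For two
different `L`, `L₁` the elements `α_L`, `α_{L₁}` are not equivalent modulo `ℓ`-th powers: otherwise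
`F(ζ, β_L) = F(ζ, β_{L₁})` and `L = L₁` by `TwoSub`. So by `SelFib` the number of the `L` is at most
`∑_S (ℓ ^ (ℓ - 1)) ^ #S * h(F') ℓ ^ ([F' : ℚ] + 1)`. Use `OmegaSum` with `ε = 1/2`, so the sum is
`≤ C Z ^ (3/2) ≤ C Y ^ (3/4)`, and `ClassNum`, `DiscZeta`:
`h(F') ≤ C |d_F'| ^ (1/2 + ε) ≤ C' |d_F| ^ ((ℓ - 1) (1/2 + ε)) ≤ C' |d_F| ^ (ℓ / 2)` for small `ε`. -/
def CycUnif : Prop :=
  ∀ (ℓ D : ℕ), ℓ.Prime → 3 ≤ ℓ → ∃ C : ℝ, 0 < C ∧ ∀ (M E : Type) [Field M] [NumberField M]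
    [Field E] [Algebra M E] [IsAlgClosed E], Module.finrank ℚ M = D → ∀ Y : ℝ, 1 ≤ Y →
      (CS ℓ M E Y).Finite ∧
      (Set.ncard (CS ℓ M E Y) : ℝ) ≤ C * ((|discr M| : ℤ) : ℝ) ^ ((ℓ : ℝ) / 2) * Y ^ (3 / 4 : ℝ)

/-- Existence of Galois extensions of prime degree. Proof: for infinitely many primes `q ≡ 1` modulo `ℓ`
(`Nat.exists_prime_gt_modEq_one`) take the subfield `E_q` of degree `ℓ` over `ℚ` of `ℚ(ζ_q) ⊆ E`; the
`E_q` are different for different `q` (`ℚ(ζ_q) ∩ ℚ(ζ_q') = ℚ`, or ramification), and `F` has finitely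
many subfields, so some `E_q` is not inside (the image of) `F`, and `F E_q` is Galois over `F` with
group a nontrivial subgroup of a group of order `ℓ`. -/
def ExCyc : Prop :=
  ∀ (ℓ : ℕ), ℓ.Prime → ∀ (F E : Type) [Field F] [NumberField F] [Field E] [Algebra F E]
    [IsAlgClosed E], ∃ L : IntermediateField F E, Module.finrank F L = ℓ ∧ IsGalois F L

/-- Many lattice points in a cube (averaging). Proof: let `Λ` be the image of `𝓞 M` in the mixed space,
`P` its fundamental domain (`ZSpan.fundamentalDomain (mixedEmbedding.latticeBasis M)`, of volume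
`2 ^ (-r₂) √d`: `volume_fundamentalDomain_latticeBasis`) and `B` the set of the points with all
`normAtPlace w z < R`. `IsAddFundamentalDomain.measure_eq_tsum` gives
`vol B = ∑ over g in Λ of vol ((g + B) ∩ P) = ∫ over P of #{g ∈ Λ : z ∈ g + B} dz`, so some `z` has
`#{g ∈ Λ : z ∈ g + B} ≥ vol B / vol P`; the differences with a fixed one of these `g` are in the cube with
`2 R`. (`vol B` is `2 ^ r₁ π ^ r₂ R ^ D`: `convexBodyLT_volume`.) -/
def ManyPts : Prop :=
  ∀ D : ℕ, ∃ c : ℝ, 0 < c ∧ ∀ (M : Type) [Field M] [NumberField M],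
    Module.finrank ℚ M = D → ∀ R : ℝ, 0 < R → ∃ T : Finset (𝓞 M),
      (∀ x ∈ T, ∀ w : InfinitePlace M, w (x : M) ≤ 2 * R) ∧
      c * R ^ D ≤ T.card * Real.sqrt ((|discr M| : ℤ) : ℝ)

/-- A short element of trace zero in a cubic extension `L / K`, `k = [K : ℚ]`.
Proof: take `T` from `ManyPts` for `L` (`D = 3 k`) and `R = C' |d_L| ^ (1 / (4 k))`. The traces of the
elements of `T` are elements `t` of `𝓞 K` with `v t ≤ 6 R` for all infinite places `v` of `K`, and there are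
at most `C'' R ^ k` of these (for `R ≥ 1`; count with an integral basis, or as in `LatCount`,
`Embeddings.finite_of_norm_le` being only finiteness; the constants may depend on `K`). As
`c R ^ (3 k) / √|d_L| > C'' R ^ k` for `C'` large, two elements of `T` have the same trace; take the
difference. -/
def ShortTrace : Prop :=
  ∀ (K : Type) [Field K] [NumberField K], ∃ C : ℝ, 0 < C ∧ ∀ (L : Type) [Field L] [NumberField L]
    [Algebra K L], Module.finrank K L = 3 → ∃ x : 𝓞 L, x ≠ 0 ∧ Algebra.trace K L (x : L) = 0 ∧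
      ∀ w : InfinitePlace L, w (x : L) ≤
        C * ((|discr L| : ℤ) : ℝ) ^ ((1 : ℝ) / (4 * (Module.finrank ℚ K : ℝ)))

/-- Schmidt's bound for cubic extensions of `K`.
Proof, from `ShortTrace`. For a cubic `L` with `|d_L| ≤ X` take `x` from `ShortTrace`. As `tr x = 0`,
`x ≠ 0`, `x` is not in `K`, and so `L = K(x)`. The minimal polynomial of `x` over `K` is
`T ^ 3 + a T + b` with `a, b ∈ 𝓞 K`, `v a ≤ C X ^ (2 / (4 k))`, `v b ≤ C X ^ (3 / (4 k))` at all infinite
places `v` of `K` (its roots in `ℂ` under an embedding of `K` are values of embeddings of `L` at `x`),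
so there are at most `C X ^ (1/2)` possible `a` and `C X ^ (3/4)` possible `b` (there are at most
`C B ^ k` elements of `𝓞 K` of size `≤ B` at all places, `B ≥ 1`: integral basis), and each
polynomial has at most three roots in `Ω`, each giving one field. -/
def SchmidtCubic : Prop :=
  ∀ (K Ω : Type) [Field K] [NumberField K] [Field Ω] [Algebra K Ω] [IsAlgClosure K Ω],
    ∃ C : ℝ, 0 < C ∧ ∀ X : ℝ, 1 ≤ X →
      {L : IntermediateField K Ω | Module.finrank K L = 3 ∧ dsc L ≤ X}.Finite ∧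
      (Set.ncard {L : IntermediateField K Ω | Module.finrank K L = 3 ∧ dsc L ≤ X} : ℝ) ≤
        C * X ^ (5 / 4 : ℝ)

/-- `L` is obtained from a member of `𝓕` by successive Galois extensions of prime degree -/
inductive PTow {K Ω : Type} [Field K] [Field Ω] [Algebra K Ω]
    (𝓕 : Set (IntermediateField K Ω)) : IntermediateField K Ω → Prop
  | base {F : IntermediateField K Ω} (hF : F ∈ 𝓕) : PTow 𝓕 F
  | step {F L : IntermediateField K Ω} (hF : PTow 𝓕 F) (h : F ≤ L)
      (hg : IsGalois F (IntermediateField.extendScalars h))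
      (hp : (Module.finrank F (IntermediateField.extendScalars h)).Prime) : PTow 𝓕 L

/-- Solvable Galois steps are composed of Galois steps of prime degree.
Proof: induction on the degree of `L / F`: a nontrivial finite solvable group has a normal subgroup of
prime index (a maximal normal subgroup), whose fixed field is Galois of prime degree over `F`, and `L` is
Galois with solvable group over it. -/
def SolvTow : Prop :=
  ∀ (K Ω : Type) [Field K] [Field Ω] [Algebra K Ω] (𝓕 : Set (IntermediateField K Ω))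
    (F L : IntermediateField K Ω) (h : F ≤ L), PTow 𝓕 F →
    FiniteDimensional F (IntermediateField.extendScalars h) →
    IsGalois F (IntermediateField.extendScalars h) →
    Group.IsSolvable ((IntermediateField.extendScalars h) ≃ₐ[F] (IntermediateField.extendScalars h)) →
    PTow 𝓕 L

/-- From a bound for the counting function to the convergence of the sum, general exponents.
Proof as for `SumOfCount`. -/
def SumOfCount2 : Prop :=
  ∀ (K Ω : Type) [Field K] [Field Ω] [Algebra K Ω] (𝓖 : Set (IntermediateField K Ω)) (C θ s : ℝ),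
    0 < θ → θ < s →
    (∀ X : ℝ, 1 ≤ X → {L : IntermediateField K Ω | L ∈ 𝓖 ∧ dsc L ≤ X}.Finite ∧
      (Set.ncard {L : IntermediateField K Ω | L ∈ 𝓖 ∧ dsc L ≤ X} : ℝ) ≤ C * X ^ θ) →
    Summable (fun L : 𝓖 => (dsc L.1) ^ (-s))

end Pool.Agent.Q258.LQ
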