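import Pool.Agent.Q258.LQ.Iter1
import Pool.Agent.Q258.LQ.Stm2

/-!
# Towers of Galois extensions of prime degree : assembly
-/

set_option autoImplicit false
set_option linter.unusedSectionVars false

open NumberField Filter Topology

namespace Pool.Agent.Q258.LQ

open Pool.Agent.TH444.ML

section

variable {K Ω : Type} [Field K] [NumberField K] [Field Ω] [Algebra K Ω] [IsAlgClosure K Ω]

theorem bound_AS3 (hu : QuadUnif3) (s : ℝ) (hs : s < 3 / 2) (m : ℕ) (hm : 0 < m) :
    ∃ C : ℝ, 0 ≤ C ∧ ∀ F : IntermediateField K Ω, Module.finrank K F = m → ∀ X : ℝ, 0 < X →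
      (AS F (X / dsc F ^ 2)).Finite ∧
      (Set.ncard (AS F (X / dsc F ^ 2)) : ℝ) ≤ C * X * (dsc F) ^ (-s) := by
  have hac : IsAlgClosed Ω := IsAlgClosure.isAlgClosed K
  obtain ⟨C, hC0, hC⟩ := hu (Module.finrank ℚ K * m) (3 / 2 - s) (by linarith)
  refine ⟨C, hC0.le, ?_⟩
  intro F hF X hX
  have hfd : FiniteDimensional K F := fd_of_finrank hm hF
  have hnf : NumberField F := nf_of_fd F
  have hdeg : Module.finrank ℚ F = Module.finrank ℚ K * m := by
    rw [← hF, Module.finrank_mul_finrank ℚ K F]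
  set d : ℝ := dsc F with hd
  have hd1 : 1 ≤ d := one_le_dsc F
  have hd0 : 0 < d := by linarith
  have hY : 0 ≤ X / d ^ 2 := by positivity
  obtain ⟨h1, h2⟩ := hC F Ω hdeg (X / d ^ 2) hY
  refine ⟨finite_AS F _ h1, ?_⟩
  rw [ncard_AS]
  rw [← dsc_eq F, ← hd] at h2
  refine h2.trans (le_of_eq ?_)
  have h4 : d ^ (1 / 2 + (3 / 2 - s) : ℝ) * (d ^ 2)⁻¹ = d ^ (-s) := by
    rw [← Real.rpow_natCast, ← Real.rpow_neg hd0.le, ← Real.rpow_add hd0]
    congr 1
    push_cast
    ring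
  rw [← h4]
  ring

/-- the Galois extensions of degree `ℓ` of `M`, as extensions of `K` -/
def GS (ℓ : ℕ) (M : IntermediateField K Ω) (Z : ℝ) : Set (IntermediateField K Ω) :=
  {L | ∃ h : M ≤ L, IsGalois M (IntermediateField.extendScalars h) ∧
    Module.finrank M (IntermediateField.extendScalars h) = ℓ ∧ dsc L ≤ Z}

theorem GS_image (ℓ : ℕ) (hℓ : 0 < ℓ) (M : IntermediateField K Ω) [FiniteDimensional K M]
    [NumberField M] (Y Z : ℝ) (hZ : Z = Y * dsc M ^ ℓ) :
    (fun L' : IntermediateField M Ω => IntermediateField.restrictScalars K L') '' (CS ℓ M Ω Y) =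
      GS ℓ M Z := by
  have hpos : 0 < Module.finrank K M := Module.finrank_pos
  ext L
  constructor
  · rintro ⟨L', ⟨h1, h2, hnf, h3⟩, rfl⟩
    have hle : M ≤ IntermediateField.restrictScalars K L' := by
      intro x hx
      exact L'.algebraMap_mem ⟨x, hx⟩
    have hL : IntermediateField.extendScalars hle = L' := by
      apply IntermediateField.restrictScalars_injective K
      rfl
    refine ⟨hle, ?_, ?_, ?_⟩
    · rw [hL]; exact h2
    · rw [hL]; exact h1
    · have hnf' : NumberField (IntermediateField.restrictScalars K L' : IntermediateField K Ω) :=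
        hnf
      rw [dsc_eq (IntermediateField.restrictScalars K L'), hZ, dsc_eq M]
      exact h3
  · rintro ⟨hle, h1, h2, h3⟩
    have hfd : FiniteDimensional M (IntermediateField.extendScalars hle) :=
      FiniteDimensional.of_finrank_pos (by omega)
    have hfdK : FiniteDimensional K (IntermediateField.extendScalars hle) :=
      FiniteDimensional.trans K M _
    have hfdL : FiniteDimensional K L := hfdK
    have hnf : NumberField L := nf_of_fd L
    refine ⟨IntermediateField.extendScalars hle, ⟨h2, h1, hnf, ?_⟩, rfl⟩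
    rw [dsc_eq L, hZ, dsc_eq M] at h3
    exact h3

theorem GS_lower (hd : DiscRam) (ℓ : ℕ) (hℓ : 0 < ℓ) (M : IntermediateField K Ω)
    [FiniteDimensional K M] [NumberField M] (Z : ℝ) (L : IntermediateField K Ω)
    (hL : L ∈ GS ℓ M Z) : dsc M ^ ℓ ≤ Z := by
  obtain ⟨hle, h1, h2, h3⟩ := hL
  have hfd : FiniteDimensional M (IntermediateField.extendScalars hle) :=
    FiniteDimensional.of_finrank_pos (by omega)
  have hfdK : FiniteDimensional K (IntermediateField.extendScalars hle) :=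
    FiniteDimensional.trans K M _
  have hfdL : FiniteDimensional K L := hfdK
  have hnf : NumberField L := nf_of_fd L
  have hnf' : NumberField (IntermediateField.extendScalars hle) := hnf
  have h := hd ℓ hℓ M (IntermediateField.extendScalars hle) h2 ∅ (by simp)
  rw [Finset.prod_empty, mul_one] at h
  refine le_trans ?_ h3
  rw [dsc_eq L, dsc_eq M]
  have e : discr L = discr (IntermediateField.extendScalars hle) := rfl
  rw [e]
  have h4 : ((discr M).natAbs : ℤ) ^ ℓ ≤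
      ((discr (IntermediateField.extendScalars hle)).natAbs : ℤ) := by exact_mod_cast h
  rw [Int.natCast_natAbs, Int.natCast_natAbs] at h4
  exact_mod_cast h4

theorem bound_GS (hc : CycUnif) (hd : DiscRam) (s : ℝ) (hs1 : 3 / 4 < s) (ℓ : ℕ) (hℓ : ℓ.Prime)
    (h3 : 3 ≤ ℓ) (m : ℕ) (hm : 0 < m) :
    ∃ C : ℝ, 0 ≤ C ∧ ∀ F : IntermediateField K Ω, Module.finrank K F = m → ∀ X : ℝ, 1 ≤ X →
      (GS ℓ F X).Finite ∧
      (Set.ncard (GS ℓ F X) : ℝ) ≤ C * X ^ (1 / 2 + s / 3 : ℝ) * (dsc F) ^ (-s) := by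
  have hac : IsAlgClosed Ω := IsAlgClosure.isAlgClosed K
  obtain ⟨C, hC0, hC⟩ := hc ℓ (Module.finrank ℚ K * m) hℓ h3
  refine ⟨C, hC0.le, ?_⟩
  intro F hF X hX
  have hfd : FiniteDimensional K F := fd_of_finrank hm hF
  have hnf : NumberField F := nf_of_fd F
  have hdeg : Module.finrank ℚ F = Module.finrank ℚ K * m := by
    rw [← hF, Module.finrank_mul_finrank ℚ K F]
  have hX0 : 0 < X := by linarith
  set d : ℝ := dsc F with hdd
  have hd1 : 1 ≤ d := one_le_dsc F
  have hd0 : 0 < d := by linarith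
  have hrhs : 0 ≤ C * X ^ (1 / 2 + s / 3 : ℝ) * d ^ (-s) := by positivity
  by_cases hcase : d ^ ℓ ≤ X
  · have hY : 1 ≤ X / d ^ ℓ := by
      rw [le_div_iff₀ (by positivity)]; linarith
    obtain ⟨h1, h2⟩ := hC F Ω hdeg (X / d ^ ℓ) hY
    have him := GS_image ℓ (by omega) F (X / d ^ ℓ) X (by rw [← hdd]; field_simp)
    have hfin : (GS ℓ F X).Finite := by
      rw [← him]; exact h1.image _
    refine ⟨hfin, ?_⟩
    have hcard : Set.ncard (GS ℓ F X) = Set.ncard (CS ℓ F Ω (X / d ^ ℓ)) := by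
      rw [← him]
      exact Set.ncard_image_of_injective _ (IntermediateField.restrictScalars_injective K)
    rw [hcard]
    rw [← dsc_eq F, ← hdd] at h2
    refine h2.trans ?_
    have hd3 : d ^ (3 : ℝ) ≤ X := by
      have : d ^ 3 ≤ d ^ ℓ := pow_le_pow_right₀ hd1 h3
      calc d ^ (3 : ℝ) = d ^ 3 := by exact_mod_cast Real.rpow_natCast d 3
        _ ≤ X := this.trans hcase
    have hd58 : d ^ (s - 3 / 4 : ℝ) ≤ X ^ ((s - 3 / 4) / 3 : ℝ) := by
      have := Real.rpow_le_rpow (by positivity) hd3 (by linarith : (0 : ℝ) ≤ (s - 3 / 4) / 3)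
      rw [← Real.rpow_mul hd0.le] at this
      have e : (3 : ℝ) * ((s - 3 / 4) / 3) = s - 3 / 4 := by ring
      rw [e] at this
      exact this
    have e1 : (X / d ^ ℓ) ^ (3 / 4 : ℝ) = X ^ (3 / 4 : ℝ) * d ^ (-((ℓ : ℝ) * (3 / 4))) := by
      rw [Real.div_rpow hX0.le (by positivity), ← Real.rpow_natCast, ← Real.rpow_mul hd0.le,
        Real.rpow_neg hd0.le]
      rfl
    have e2 : d ^ ((ℓ : ℝ) / 2) * d ^ (-((ℓ : ℝ) * (3 / 4))) ≤
        d ^ (s - 3 / 4 : ℝ) * d ^ (-s) := by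
      rw [← Real.rpow_add hd0, ← Real.rpow_add hd0]
      apply Real.rpow_le_rpow_of_exponent_le hd1
      have : (3 : ℝ) ≤ ℓ := by exact_mod_cast h3
      linarith
    have e3 : X ^ ((s - 3 / 4) / 3 : ℝ) * X ^ (3 / 4 : ℝ) = X ^ (1 / 2 + s / 3 : ℝ) := by
      rw [← Real.rpow_add hX0]
      congr 1
      ring
    calc C * d ^ ((ℓ : ℝ) / 2) * (X / d ^ ℓ) ^ (3 / 4 : ℝ)
        = C * X ^ (3 / 4 : ℝ) * (d ^ ((ℓ : ℝ) / 2) * d ^ (-((ℓ : ℝ) * (3 / 4)))) := by
          rw [e1]; ring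
      _ ≤ C * X ^ (3 / 4 : ℝ) * (d ^ (s - 3 / 4 : ℝ) * d ^ (-s)) :=
          mul_le_mul_of_nonneg_left e2 (by positivity)
      _ ≤ C * X ^ (3 / 4 : ℝ) * (X ^ ((s - 3 / 4) / 3 : ℝ) * d ^ (-s)) := by
          refine mul_le_mul_of_nonneg_left ?_ (by positivity)
          exact mul_le_mul_of_nonneg_right hd58 (by positivity)
      _ = C * X ^ (1 / 2 + s / 3 : ℝ) * d ^ (-s) := by
          rw [← e3]; ring
  · have hemp : GS ℓ F X = ∅ := by
      rw [Set.eq_empty_iff_forall_notMem]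
      intro L hL
      exact hcase (GS_lower hd ℓ (by omega) F X L hL)
    rw [hemp]
    refine ⟨Set.finite_empty, ?_⟩
    rw [Set.ncard_empty]
    simpa using hrhs

/-- countable unions -/
theorem union_bound {ι : Type} (A : ι → Set (IntermediateField K Ω)) (g : ι → ℝ)
    (hg : Summable g) (B : ℝ) (hfin : ∀ i, (A i).Finite)
    (hA : ∀ i, (Set.ncard (A i) : ℝ) ≤ B * g i) :
    (⋃ i, A i).Finite ∧ (Set.ncard (⋃ i, A i) : ℝ) ≤ B * ∑' i, g i := by
  classical
  have hs1 : Summable (fun i => (Set.ncard (A i) : ℝ)) :=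
    Summable.of_nonneg_of_le (fun i => by positivity) hA (hg.mul_left B)
  have hfs : {i | (A i).Nonempty}.Finite := by
    have h := hs1.tendsto_cofinite_zero.eventually (gt_mem_nhds (zero_lt_one (α := ℝ)))
    rw [Filter.eventually_cofinite] at h
    refine h.subset ?_
    intro i hi
    simp only [Set.mem_ofPred_eq, not_lt]
    have : 0 < Set.ncard (A i) := (Set.ncard_pos (hfin i)).2 hi
    exact_mod_cast this
  have hzero : ∀ i, i ∉ hfs.toFinset → Set.ncard (A i) = 0 := by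
    intro i hi
    have : ¬ (A i).Nonempty := by
      intro h; exact hi (by simpa using h)
    rw [Set.not_nonempty_iff_eq_empty] at this
    rw [this]; simp
  have hT : (⋃ i, A i) = ⋃ i ∈ hfs.toFinset, A i := by
    ext L
    simp only [Set.mem_iUnion, Set.Finite.mem_toFinset, Set.mem_ofPred_eq, exists_prop]
    constructor
    · rintro ⟨i, hi⟩
      exact ⟨i, ⟨L, hi⟩, hi⟩
    · rintro ⟨i, -, hi⟩
      exact ⟨i, hi⟩
  have hTf : (⋃ i, A i).Finite := by
    rw [hT]
    exact Set.Finite.biUnion hfs.toFinset.finite_toSet (fun i _ => hfin i)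
  refine ⟨hTf, ?_⟩
  have hTb : hTf.toFinset = hfs.toFinset.biUnion (fun i => (hfin i).toFinset) := by
    ext L
    rw [Set.Finite.mem_toFinset, hT]
    simp only [Set.mem_iUnion, Finset.mem_biUnion, Set.Finite.mem_toFinset, exists_prop]
  have hcard : (⋃ i, A i).ncard ≤ ∑ i ∈ hfs.toFinset, (A i).ncard := by
    rw [Set.ncard_eq_toFinset_card _ hTf, hTb]
    refine Finset.card_biUnion_le.trans (le_of_eq ?_)
    refine Finset.sum_congr rfl fun i _ => ?_
    exact (Set.ncard_eq_toFinset_card _ (hfin i)).symm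
  calc ((⋃ i, A i).ncard : ℝ) ≤ ((∑ i ∈ hfs.toFinset, (A i).ncard : ℕ) : ℝ) := by
        exact_mod_cast hcard
    _ = ∑ i ∈ hfs.toFinset, ((A i).ncard : ℝ) := by push_cast; rfl
    _ = ∑' i, ((A i).ncard : ℝ) :=
        (tsum_eq_sum (s := hfs.toFinset) (fun i hi => by rw [hzero i hi]; simp)).symm
    _ ≤ ∑' i, B * g i := hs1.tsum_le_tsum hA (hg.mul_left B)
    _ = B * ∑' i, g i := tsum_mul_left

/-- the Galois extensions of degree `ℓ` of the members of `𝓕` -/
def GU (ℓ : ℕ) (𝓕 : Set (IntermediateField K Ω)) (X : ℝ) : Set (IntermediateField K Ω) :=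
  ⋃ F : 𝓕, GS ℓ F.1 X

theorem odd_step (hc : CycUnif) (hd : DiscRam) (s : ℝ) (hs1 : 3 / 4 < s) (ℓ : ℕ) (hℓ : ℓ.Prime) (h3 : 3 ≤ ℓ)
    (𝓕 : Set (IntermediateField K Ω)) (m : ℕ) (hm : 0 < m)
    (hF : ∀ F ∈ 𝓕, Module.finrank K F = m)
    (hsum : Summable (fun F : 𝓕 => (dsc F.1) ^ (-s))) :
    ∃ C : ℝ, 0 ≤ C ∧ ∀ X : ℝ, 1 ≤ X → (GU ℓ 𝓕 X).Finite ∧
      (Set.ncard (GU ℓ 𝓕 X) : ℝ) ≤ C * X ^ (1 / 2 + s / 3 : ℝ) := by
  obtain ⟨C, hC0, hC⟩ := bound_GS (K := K) (Ω := Ω) hc hd s hs1 ℓ hℓ h3 m hm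
  have hS : 0 ≤ ∑' F : 𝓕, (dsc F.1) ^ (-s) := by
    refine tsum_nonneg fun F => ?_
    have : 1 ≤ dsc F.1 := one_le_dsc F.1
    positivity
  refine ⟨C * ∑' F : 𝓕, (dsc F.1) ^ (-s), by positivity, ?_⟩
  intro X hX
  obtain ⟨h1, h2⟩ := union_bound (K := K) (Ω := Ω) (fun F : 𝓕 => GS ℓ F.1 X)
    (fun F : 𝓕 => (dsc F.1) ^ (-s)) hsum (C * X ^ (1 / 2 + s / 3 : ℝ))
    (fun F => (hC F.1 (hF F.1 F.2) X hX).1) (fun F => (hC F.1 (hF F.1 F.2) X hX).2)
  refine ⟨h1, h2.trans (le_of_eq ?_)⟩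
  ring

/-- the members of degree `n` of the class generated by `𝓑` -/
def PT (𝓑 : Set (IntermediateField K Ω)) (n : ℕ) : Set (IntermediateField K Ω) :=
  {L | PTow 𝓑 L ∧ Module.finrank K L = n}

theorem PT_cases (𝓑 : Set (IntermediateField K Ω)) {n : ℕ} (hn : 0 < n)
    {L : IntermediateField K Ω} (hL : L ∈ PT 𝓑 n) :
    (L ∈ 𝓑 ∧ Module.finrank K L = n) ∨ ∃ ℓ ∈ n.primeFactors, ∃ F ∈ PT 𝓑 (n / ℓ), ∃ h : F ≤ L,
      IsGalois F (IntermediateField.extendScalars h) ∧
      Module.finrank F (IntermediateField.extendScalars h) = ℓ := by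
  obtain ⟨h1, h2⟩ := hL
  cases h1 with
  | base hF => exact Or.inl ⟨hF, h2⟩
  | @step F _ hF h hg hp =>
    right
    have hmul : Module.finrank K F * Module.finrank F (IntermediateField.extendScalars h) = n := by
      rw [← h2]
      exact Module.finrank_mul_finrank K F (IntermediateField.extendScalars h)
    refine ⟨Module.finrank F (IntermediateField.extendScalars h), ?_, F, ⟨hF, ?_⟩, h, hg, rfl⟩
    · rw [Nat.mem_primeFactors]
      exact ⟨hp, ⟨_, by rw [← hmul]; ring⟩, by omega⟩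
    · rw [← hmul]
      exact (Nat.mul_div_cancel _ hp.pos).symm

theorem sub_union (f : IntermediateField K Ω → ℝ) (hf : ∀ L, 0 ≤ f L)
    (S : Set (IntermediateField K Ω)) {ι : Type} (s : Finset ι)
    (T : ι → Set (IntermediateField K Ω)) (hST : S ⊆ ⋃ i ∈ s, T i)
    (h : ∀ i ∈ s, Summable (fun L : T i => f L.1)) : Summable (fun L : S => f L.1) := by
  have e1 : ∀ i ∈ s, Summable ((T i).indicator f) := by
    intro i hi
    exact summable_subtype_iff_indicator.1 (h i hi)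
  have e2 : Summable (fun L => ∑ i ∈ s, (T i).indicator f L) := summable_sum e1
  refine summable_subtype_iff_indicator.2 ?_
  refine Summable.of_nonneg_of_le (fun L => Set.indicator_nonneg (fun L _ => hf L) L) ?_ e2
  intro L
  by_cases hL : L ∈ S
  · have := hST hL
    simp only [Set.mem_iUnion, exists_prop] at this
    obtain ⟨i, hi, hiL⟩ := this
    rw [Set.indicator_of_mem hL]
    calc f L = (T i).indicator f L := (Set.indicator_of_mem hiL f).symm
      _ ≤ ∑ i ∈ s, (T i).indicator f L :=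
        Finset.single_le_sum (f := fun i => (T i).indicator f L)
          (fun j _ => Set.indicator_nonneg (fun L _ => hf L) L) hi
  · rw [Set.indicator_of_notMem hL]
    exact Finset.sum_nonneg fun j _ => Set.indicator_nonneg (fun L _ => hf L) L

end

end Pool.Agent.Q258.LQ
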