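import Pool.Agent.Q258.LQ.Asm2

/-!
# Towers of Galois extensions of prime degree : the main induction
-/

set_option autoImplicit false
set_option linter.unusedSectionVars false

open NumberField Filter Topology

namespace Pool.Agent.Q258.LQ

open Pool.Agent.TH444.ML

/-- the inputs -/
structure Inp : Prop where
  ql : QuadLim
  qp : QuadPos
  qu : QuadUnif3
  bs : BadSmall2
  sc : SumOfCount2
  cu : CycUnif
  dr : DiscRam

section

variable {K Ω : Type} [Field K] [NumberField K] [Field Ω] [Algebra K Ω] [IsAlgClosure K Ω]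

theorem quad_step (I : Inp) (s : ℝ) (hs2 : s < 3 / 2) (𝓕 : Set (IntermediateField K Ω)) (m : ℕ) (hm : 0 < m)
    (hF : ∀ F ∈ 𝓕, Module.finrank K F = m) (hne : 𝓕.Nonempty)
    (hsum : Summable (fun F : 𝓕 => (dsc F.1) ^ (-s))) :
    (∀ X : ℝ, 0 < X → (UX 𝓕 X).Finite) ∧ ∃ c : ℝ, 0 < c ∧
      Tendsto (fun X : ℝ => (Set.ncard (UX 𝓕 X) : ℝ) / X) atTop (𝓝 c) :=
  step_gen I.ql I.qp I.bs 𝓕 m hm hF hne _ (bound_AS3 (K := K) (Ω := Ω) I.qu s hs2 m hm) hsum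

theorem quad_linear (I : Inp) (s : ℝ) (hs2 : s < 3 / 2) (𝓕 : Set (IntermediateField K Ω)) (m : ℕ) (hm : 0 < m)
    (hF : ∀ F ∈ 𝓕, Module.finrank K F = m)
    (hsum : Summable (fun F : 𝓕 => (dsc F.1) ^ (-s))) :
    ∃ C : ℝ, 0 ≤ C ∧ ∀ X : ℝ, 1 ≤ X → (UX 𝓕 X).Finite ∧
      (Set.ncard (UX 𝓕 X) : ℝ) ≤ C * X ^ (1 : ℝ) := by
  rcases 𝓕.eq_empty_or_nonempty with h | h
  · refine ⟨0, le_rfl, ?_⟩
    intro X hX
    have : UX 𝓕 X = ∅ := by
      rw [Set.eq_empty_iff_forall_notMem]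
      rintro L ⟨⟨F, hF', -⟩, -⟩
      rw [h] at hF'
      exact hF'
    rw [this]
    simp
  · obtain ⟨hfin, c, hc, hlim⟩ := quad_step I s hs2 𝓕 m hm hF h hsum
    obtain ⟨C, hC0, hC⟩ := linear_of_tendsto (UX 𝓕) (fun X Y h => UX_mono 𝓕 h) hfin c hlim
    refine ⟨C, hC0.le, ?_⟩
    intro X hX
    rw [Real.rpow_one]
    exact ⟨hfin X (by linarith), hC X hX⟩

/-- the Galois extensions of degree `ℓ` of the members of `𝓕`, without bound -/
def GG (ℓ : ℕ) (𝓕 : Set (IntermediateField K Ω)) : Set (IntermediateField K Ω) :=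
  {L | ∃ F ∈ 𝓕, ∃ h : F ≤ L, IsGalois F (IntermediateField.extendScalars h) ∧
    Module.finrank F (IntermediateField.extendScalars h) = ℓ}

theorem GG_GU (ℓ : ℕ) (𝓕 : Set (IntermediateField K Ω)) (X : ℝ) :
    {L | L ∈ GG ℓ 𝓕 ∧ dsc L ≤ X} = GU ℓ 𝓕 X := by
  ext L
  simp only [GU, Set.mem_iUnion]
  constructor
  · rintro ⟨⟨F, hF, h, h1, h2⟩, h3⟩
    exact ⟨⟨F, hF⟩, h, h1, h2, h3⟩
  · rintro ⟨F, h, h1, h2, h3⟩
    exact ⟨⟨F.1, F.2, h, h1, h2⟩, h3⟩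

theorem GG_up (𝓕 : Set (IntermediateField K Ω)) : GG 2 𝓕 ⊆ Up 𝓕 := by
  rintro L ⟨F, hF, h, -, h2⟩
  refine ⟨F, hF, h, ?_⟩
  have := Module.finrank_mul_finrank K F (IntermediateField.extendScalars h)
  rw [h2] at this
  have e : Module.finrank K (IntermediateField.extendScalars h) = Module.finrank K L := rfl
  rw [← e, ← this]
  ring

theorem sum_GG (I : Inp) (s : ℝ) (hs1 : 1 < s) (hs2 : s < 3 / 2) (ℓ : ℕ) (hℓ : ℓ.Prime) (𝓕 : Set (IntermediateField K Ω)) (m : ℕ)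
    (hm : 0 < m) (hF : ∀ F ∈ 𝓕, Module.finrank K F = m)
    (hsum : Summable (fun F : 𝓕 => (dsc F.1) ^ (-s))) :
    Summable (fun F : GG ℓ 𝓕 => (dsc F.1) ^ (-s)) := by
  rcases hℓ.eq_two_or_odd' with h | h
  · subst h
    obtain ⟨C, hC0, hC⟩ := quad_linear I s hs2 𝓕 m hm hF hsum
    refine I.sc K Ω (GG 2 𝓕) C 1 s (by norm_num) hs1 ?_
    intro X hX
    have hsub : {L | L ∈ GG 2 𝓕 ∧ dsc L ≤ X} ⊆ UX 𝓕 X := fun L hL => ⟨GG_up 𝓕 hL.1, hL.2⟩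
    refine ⟨(hC X hX).1.subset hsub, le_trans ?_ (hC X hX).2⟩
    exact_mod_cast Set.ncard_le_ncard hsub (hC X hX).1
  · have h3 : 3 ≤ ℓ := by
      have := hℓ.two_le
      rcases h with ⟨k, hk⟩
      omega
    obtain ⟨C, hC0, hC⟩ := odd_step I.cu I.dr s (by linarith) ℓ hℓ h3 𝓕 m hm hF hsum
    refine I.sc K Ω (GG ℓ 𝓕) C (1 / 2 + s / 3) s (by linarith) (by linarith) ?_
    intro X hX
    rw [GG_GU]
    exact hC X hX

theorem sum_main (I : Inp) (s : ℝ) (hs1 : 1 < s) (hs2 : s < 3 / 2)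
    (𝓑 : Set (IntermediateField K Ω)) (N : ℕ)
    (hB : ∀ m : ℕ, 0 < m → m ≤ N → Summable (fun F : {F : IntermediateField K Ω | F ∈ 𝓑 ∧
      Module.finrank K F = m} => (dsc F.1) ^ (-s))) (n : ℕ) (hn : 0 < n) (hN : n ≤ N) :
    Summable (fun F : PT 𝓑 n => (dsc F.1) ^ (-s)) := by
  induction n using Nat.strong_induction_on with
  | _ n ih =>
    let T : ℕ → Set (IntermediateField K Ω) := fun ℓ =>
      if ℓ = 0 then {F : IntermediateField K Ω | F ∈ 𝓑 ∧ Module.finrank K F = n}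
      else GG ℓ (PT 𝓑 (n / ℓ))
    refine sub_union (fun L => (dsc L) ^ (-s)) (fun L => ?_) (PT 𝓑 n)
      (insert 0 n.primeFactors) T ?_ ?_
    · have : 1 ≤ dsc L := one_le_dsc L
      positivity
    · intro L hL
      rcases PT_cases 𝓑 hn hL with h | ⟨ℓ, hℓ, F, hF, h, h1, h2⟩
      · simp only [Set.mem_iUnion, exists_prop]
        exact ⟨0, by simp, by simpa [T] using h⟩
      · simp only [Set.mem_iUnion, exists_prop]
        have hl : ℓ ≠ 0 := (Nat.mem_primeFactors.1 hℓ).1.ne_zero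
        refine ⟨ℓ, Finset.mem_insert_of_mem hℓ, ?_⟩
        simp only [T, if_neg hl]
        exact ⟨F, hF, h, h1, h2⟩
    · intro ℓ hℓ
      rw [Finset.mem_insert] at hℓ
      rcases hℓ with h | h
      · subst h
        simpa [T] using hB n hn hN
      · have hp := Nat.mem_primeFactors.1 h
        have hl : ℓ ≠ 0 := hp.1.ne_zero
        have hT : T ℓ = GG ℓ (PT 𝓑 (n / ℓ)) := if_neg hl
        rw [hT]
        have hpos : 0 < n / ℓ := Nat.div_pos (Nat.le_of_dvd hn hp.2.1) hp.1.pos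
        have hlt : n / ℓ < n := Nat.div_lt_self hn hp.1.one_lt
        exact sum_GG I s hs1 hs2 ℓ hp.1 (PT 𝓑 (n / ℓ)) (n / ℓ) hpos (fun F hF => hF.2)
          (ih _ hlt hpos (by omega))

theorem finrank_extend {F L : IntermediateField K Ω} (h : F ≤ L) :
    Module.finrank K F * Module.finrank F (IntermediateField.extendScalars h) =
      Module.finrank K L :=
  Module.finrank_mul_finrank K F (IntermediateField.extendScalars h)

/-- the proper part: `L` is Galois of prime degree over some member of the class -/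
def PP (𝓑 : Set (IntermediateField K Ω)) (n : ℕ) : Set (IntermediateField K Ω) :=
  {L | Module.finrank K L = n ∧ ∃ F : IntermediateField K Ω, PTow 𝓑 F ∧ ∃ h : F ≤ L,
    IsGalois F (IntermediateField.extendScalars h) ∧
    (Module.finrank F (IntermediateField.extendScalars h)).Prime}

theorem PP_cases (𝓑 : Set (IntermediateField K Ω)) {n : ℕ} (hn : 0 < n)
    {L : IntermediateField K Ω} (hL : L ∈ PP 𝓑 n) :
    ∃ ℓ ∈ n.primeFactors, L ∈ GG ℓ (PT 𝓑 (n / ℓ)) := by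
  obtain ⟨h2, F, hF, h, hg, hp⟩ := hL
  have hmul := finrank_extend h
  rw [h2] at hmul
  refine ⟨Module.finrank F (IntermediateField.extendScalars h), ?_, F, ⟨hF, ?_⟩, h, hg, rfl⟩
  · rw [Nat.mem_primeFactors]
    exact ⟨hp, ⟨_, by rw [← hmul]; ring⟩, by omega⟩
  · rw [← hmul]
    exact (Nat.mul_div_cancel _ hp.pos).symm

theorem up_PP (𝓑 : Set (IntermediateField K Ω)) (k : ℕ) (hk : 0 < k) :
    Up (PT 𝓑 k) ⊆ PP 𝓑 (2 * k) := by
  rintro L ⟨F, hF, h, h2⟩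
  have hdeg := hF.2
  have h3 : Module.finrank F (IntermediateField.extendScalars h) = 2 := by
    have h4 := finrank_extend h
    rw [h2, hdeg] at h4
    exact Nat.eq_of_mul_eq_mul_left hk (by rw [h4]; ring)
  have hq : Algebra.IsQuadraticExtension F (IntermediateField.extendScalars h) := ⟨h3⟩
  have hchar : CharZero F := by
    exact algebraRat.charZero F
  have hnormal : Normal F (IntermediateField.extendScalars h) := inferInstance
  have hgal : IsGalois F (IntermediateField.extendScalars h) := by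
    refine ⟨⟩
  refine ⟨by rw [h2, hdeg], F, hF.1, h, hgal, ?_⟩
  rw [h3]
  exact Nat.prime_two

/-- finite unions -/
theorem odd_union (I : Inp) (s : ℝ) (hs1 : 1 < s) (hs2 : s < 3 / 2)
    (𝓑 : Set (IntermediateField K Ω)) (n : ℕ) (hn : 0 < n)
    (hB : ∀ m : ℕ, 0 < m → m ≤ n → Summable (fun F : {F : IntermediateField K Ω | F ∈ 𝓑 ∧
      Module.finrank K F = m} => (dsc F.1) ^ (-s))) :
    ∃ C : ℝ, ∀ X : ℝ, 1 ≤ X →
      (⋃ ℓ ∈ n.primeFactors.erase 2, GU (K := K) (Ω := Ω) ℓ (PT 𝓑 (n / ℓ)) X).Finite ∧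
      (Set.ncard (⋃ ℓ ∈ n.primeFactors.erase 2, GU (K := K) (Ω := Ω) ℓ (PT 𝓑 (n / ℓ)) X) : ℝ) ≤
        C * X ^ (1 / 2 + s / 3 : ℝ) := by
  classical
  set P : Finset ℕ := n.primeFactors.erase 2 with hP
  have hs1 : ∀ ℓ ∈ P, ∃ C : ℝ, 0 ≤ C ∧ ∀ X : ℝ, 1 ≤ X →
      (GU (K := K) (Ω := Ω) ℓ (PT 𝓑 (n / ℓ)) X).Finite ∧
      (Set.ncard (GU (K := K) (Ω := Ω) ℓ (PT 𝓑 (n / ℓ)) X) : ℝ) ≤
        C * X ^ (1 / 2 + s / 3 : ℝ) := by
    intro ℓ hℓ
    rw [hP, Finset.mem_erase] at hℓ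
    have hp := Nat.mem_primeFactors.1 hℓ.2
    have h3 : 3 ≤ ℓ := by
      have := hp.1.two_le
      omega
    have hpos : 0 < n / ℓ := Nat.div_pos (Nat.le_of_dvd (by omega) hp.2.1) hp.1.pos
    exact odd_step I.cu I.dr s (by linarith) ℓ hp.1 h3 (PT 𝓑 (n / ℓ)) _ hpos (fun F hF => hF.2)
      (sum_main I s hs1 hs2 𝓑 n hB _ hpos (Nat.div_le_self n ℓ))
  choose! C hC0 hC using hs1
  refine ⟨∑ ℓ ∈ P, C ℓ, ?_⟩
  intro X hX
  refine ⟨Set.Finite.biUnion P.finite_toSet fun ℓ hℓ => (hC ℓ hℓ X hX).1, ?_⟩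
  have hU : ∀ t : Finset ℕ, t ⊆ P →
      (Set.ncard (⋃ ℓ ∈ t, GU (K := K) (Ω := Ω) ℓ (PT 𝓑 (n / ℓ)) X) : ℝ) ≤
      (∑ ℓ ∈ t, C ℓ) * X ^ (1 / 2 + s / 3 : ℝ) := by
    intro t
    induction t using Finset.induction_on with
    | empty => intro _; simp
    | insert a t ha ih =>
      intro hts
      rw [Finset.set_biUnion_insert, Finset.sum_insert ha, add_mul]
      have h1 := (hC a (hts (Finset.mem_insert_self a t)) X hX).2
      have h2 := ih ((Finset.subset_insert a t).trans hts)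
      have h3 := Set.ncard_union_le (GU (K := K) (Ω := Ω) a (PT 𝓑 (n / a)) X)
        (⋃ ℓ ∈ t, GU (K := K) (Ω := Ω) ℓ (PT 𝓑 (n / ℓ)) X)
      have h4 : ((GU (K := K) (Ω := Ω) a (PT 𝓑 (n / a)) X ∪
        ⋃ ℓ ∈ t, GU (K := K) (Ω := Ω) ℓ (PT 𝓑 (n / ℓ)) X).ncard : ℝ) ≤
        ((GU (K := K) (Ω := Ω) a (PT 𝓑 (n / a)) X).ncard : ℝ) +
        ((⋃ ℓ ∈ t, GU (K := K) (Ω := Ω) ℓ (PT 𝓑 (n / ℓ)) X).ncard : ℝ) := by
        exact_mod_cast h3
      linarith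
  exact hU P subset_rfl

/-- **Main theorem**, even degree. -/
theorem main_even (I : Inp) (s : ℝ) (hs1 : 1 < s) (hs2 : s < 3 / 2)
    (𝓑 : Set (IntermediateField K Ω)) (k : ℕ) (hk : 0 < k)
    (hB : ∀ m : ℕ, 0 < m → m ≤ 2 * k → Summable (fun F : {F : IntermediateField K Ω | F ∈ 𝓑 ∧
      Module.finrank K F = m} => (dsc F.1) ^ (-s)))
    (hne : (PT 𝓑 k).Nonempty) :
    ∃ c : ℝ, 0 < c ∧ Tendsto (fun X : ℝ =>
      (Set.ncard {L : IntermediateField K Ω | L ∈ PP 𝓑 (2 * k) ∧ dsc L ≤ X} : ℝ) / X)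
        atTop (𝓝 c) := by
  classical
  obtain ⟨hfin, c, hc, hlim⟩ := quad_step I s hs2 (PT 𝓑 k) k hk (fun F hF => hF.2) hne
    (sum_main I s hs1 hs2 𝓑 (2 * k) hB k hk (by omega))
  refine ⟨c, hc, ?_⟩
  obtain ⟨Ct, hR⟩ := odd_union I s hs1 hs2 𝓑 (2 * k) (by omega) hB
  set P : Finset ℕ := (2 * k).primeFactors.erase 2 with hP
  have hlow : ∀ X : ℝ, UX (PT 𝓑 k) X ⊆
      {L : IntermediateField K Ω | L ∈ PP 𝓑 (2 * k) ∧ dsc L ≤ X} :=
    fun X L hL => ⟨up_PP 𝓑 k hk hL.1, hL.2⟩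
  have hupp : ∀ X : ℝ, {L : IntermediateField K Ω | L ∈ PP 𝓑 (2 * k) ∧ dsc L ≤ X} ⊆
      UX (PT 𝓑 k) X ∪ ⋃ ℓ ∈ P, GU (K := K) (Ω := Ω) ℓ (PT 𝓑 (2 * k / ℓ)) X := by
    rintro X L ⟨hL, hX⟩
    obtain ⟨ℓ, hℓ, hG⟩ := PP_cases 𝓑 (by omega) hL
    by_cases h2' : ℓ = 2
    · left
      subst h2'
      rw [Nat.mul_div_cancel_left k (by norm_num)] at hG
      exact ⟨GG_up (PT 𝓑 k) hG, hX⟩
    · right
      simp only [Set.mem_iUnion, exists_prop]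
      refine ⟨ℓ, by rw [hP]; exact Finset.mem_erase.2 ⟨h2', hℓ⟩, ?_⟩
      rw [← GG_GU]
      exact ⟨hG, hX⟩
  have hlim2 : Tendsto (fun X : ℝ => (Set.ncard (UX (PT 𝓑 k) X) : ℝ) / X +
      Ct * X ^ (-(1 / 2 - s / 3) : ℝ)) atTop (𝓝 c) := by
    have h1 : Tendsto (fun X : ℝ => Ct * X ^ (-(1 / 2 - s / 3) : ℝ)) atTop (𝓝 0) := by
      have := (tendsto_rpow_neg_atTop (by linarith : (0 : ℝ) < 1 / 2 - s / 3)).const_mul Ct
      rwa [mul_zero] at this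
    simpa using hlim.add h1
  refine tendsto_of_tendsto_of_tendsto_of_le_of_le' hlim hlim2 ?_ ?_
  · filter_upwards [eventually_ge_atTop (1 : ℝ)] with X hX
    have hX0 : 0 < X := by linarith
    have hf : {L : IntermediateField K Ω | L ∈ PP 𝓑 (2 * k) ∧ dsc L ≤ X}.Finite :=
      ((hfin X hX0).union (hR X hX).1).subset (hupp X)
    refine div_le_div_of_nonneg_right ?_ hX0.le
    exact_mod_cast Set.ncard_le_ncard (hlow X) hf
  · filter_upwards [eventually_ge_atTop (1 : ℝ)] with X hX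
    have hX0 : 0 < X := by linarith
    have h1 : Set.ncard {L : IntermediateField K Ω | L ∈ PP 𝓑 (2 * k) ∧ dsc L ≤ X} ≤
        Set.ncard (UX (PT 𝓑 k) X) +
        Set.ncard (⋃ ℓ ∈ P, GU (K := K) (Ω := Ω) ℓ (PT 𝓑 (2 * k / ℓ)) X) :=
      (Set.ncard_le_ncard (hupp X) ((hfin X hX0).union (hR X hX).1)).trans
        (Set.ncard_union_le _ _)
    have h2 : (Set.ncard {L : IntermediateField K Ω | L ∈ PP 𝓑 (2 * k) ∧ dsc L ≤ X} : ℝ) ≤
        Set.ncard (UX (PT 𝓑 k) X) +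
        Set.ncard (⋃ ℓ ∈ P, GU (K := K) (Ω := Ω) ℓ (PT 𝓑 (2 * k / ℓ)) X) := by
      exact_mod_cast h1
    have h3 := (hR X hX).2
    have e : X ^ (1 / 2 + s / 3 : ℝ) / X = X ^ (-(1 / 2 - s / 3) : ℝ) := by
      rw [div_eq_mul_inv, ← Real.rpow_neg_one, ← Real.rpow_add hX0]
      congr 1
      ring
    calc (Set.ncard {L : IntermediateField K Ω | L ∈ PP 𝓑 (2 * k) ∧ dsc L ≤ X} : ℝ) / X
        ≤ (Set.ncard (UX (PT 𝓑 k) X) + Ct * X ^ (1 / 2 + s / 3 : ℝ)) / X := by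
          refine div_le_div_of_nonneg_right (by linarith) hX0.le
      _ = (Set.ncard (UX (PT 𝓑 k) X) : ℝ) / X + Ct * X ^ (-(1 / 2 - s / 3) : ℝ) := by
          rw [add_div, mul_div_assoc, e]

/-- **Main theorem**, odd degree: power saving. -/
theorem main_odd (I : Inp) (s : ℝ) (hs1 : 1 < s) (hs2 : s < 3 / 2)
    (𝓑 : Set (IntermediateField K Ω)) (n : ℕ) (hn : Odd n)
    (hB : ∀ m : ℕ, 0 < m → m ≤ n → Summable (fun F : {F : IntermediateField K Ω | F ∈ 𝓑 ∧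
      Module.finrank K F = m} => (dsc F.1) ^ (-s))) :
    ∃ C : ℝ, ∀ X : ℝ, 1 ≤ X →
      (Set.ncard {L : IntermediateField K Ω | L ∈ PP 𝓑 n ∧ dsc L ≤ X} : ℝ) ≤
        C * X ^ (1 / 2 + s / 3 : ℝ) := by
  have hpos : 0 < n := hn.pos
  obtain ⟨C, hC⟩ := odd_union I s hs1 hs2 𝓑 n hpos hB
  refine ⟨C, ?_⟩
  intro X hX
  refine le_trans ?_ (hC X hX).2
  have hsub : {L : IntermediateField K Ω | L ∈ PP 𝓑 n ∧ dsc L ≤ X} ⊆
      ⋃ ℓ ∈ n.primeFactors.erase 2, GU (K := K) (Ω := Ω) ℓ (PT 𝓑 (n / ℓ)) X := by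
    rintro L ⟨hL, hX⟩
    obtain ⟨ℓ, hℓ, hG⟩ := PP_cases 𝓑 hpos hL
    simp only [Set.mem_iUnion, exists_prop]
    refine ⟨ℓ, Finset.mem_erase.2 ⟨?_, hℓ⟩, ?_⟩
    · intro h2
      rw [h2] at hℓ
      have := (Nat.mem_primeFactors.1 hℓ).2.1
      rcases hn with ⟨j, hj⟩
      omega
    · rw [← GG_GU]
      exact ⟨hG, hX⟩
  exact_mod_cast Set.ncard_le_ncard hsub (hC X hX).1

end

end Pool.Agent.Q258.LQ
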