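import Pool.Agent.Q258.LQ.Stm2

/-!
# Schmidt's bound, uniformly : statements

Third part of project LQ (helper258): for every number field `K` and every `n`, the number of the
extensions `L` of `K` of degree `n` with `|d_L| ≤ X` which have a nontrivial automorphism over `K` is
`O(X ^ (max(1, 1/2 + n/16) + ε))` (Schmidt's bound for all `L` is `X ^ (1/2 + n/4)`).
-/

set_option autoImplicit false

open NumberField Filter Topology

namespace Pool.Agent.Q258.LQ

open Pool.Agent.TH444.ML

/-- Integers of bounded size, uniformly in the field. Proof: two different elements `y`, `y'` of `𝓞 M`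
satisfy `w (y - y') ≥ 1` for some infinite place `w` (the norm of `y - y'` is at least one). Divide the
set of the points of the mixed space with `|z_w| ≤ B` into cells in which all `|z_w - z'_w| < 1`
(real places: intervals of length `1/2`; complex places: squares of side `1/2` for real and imaginary
part): at most `(8 B) ^ D`-ish cells, each containing at most one point. (In Lean: the map
`y ↦` floors of `2 σ(y)`, or of `2 re`, `2 im` for all complex embeddings `σ`, is injective, with values in
a box of integers; e.g. the map `(M →+* ℂ) → ℤ × ℤ` given by the floors of `2 re (σ y)`, `2 im (σ y)`, has at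
most `(6 B) ^ (2 D)`-ish values, which is not good enough: use one real coordinate for a real place and
two for each complex place, so `D` coordinates in total; compare the lemma `Sch.box` of `Sch.lean` and the
proof of `Pool.Agent.Q258.LQ.LatC` for volumes: another proof is by packing disjoint translates of the
cube of side `1/2` in the cube `2 B + 1`.) -/
def BoxU : Prop :=
  ∀ D : ℕ, ∃ C : ℝ, 0 < C ∧ ∀ (M : Type) [Field M] [NumberField M], Module.finrank ℚ M = D →
    ∀ B : ℝ, 1 ≤ B → {y : 𝓞 M | ∀ w : InfinitePlace M, w (y : M) ≤ B}.Finite ∧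
      (Set.ncard {y : 𝓞 M | ∀ w : InfinitePlace M, w (y : M) ≤ B} : ℝ) ≤ C * B ^ D

/-- A short element of trace zero in `L / F`, uniformly, `D = [F : ℚ]`, `m = [L : F]`.
Proof as in `Pool.Agent.Q258.LQ.STr` (`shortTrace`), with `BoxU` for the field `F`: take `T` from `ManyPts`
for `L` (degree `D m`) and `R = C' |d_L| ^ (1 / (2 D (m - 1)))`. The traces of the elements of `T` are
elements `t` of `𝓞 F` with `v t ≤ 2 m R`, at most `C'' R ^ D`. As
`c R ^ (D m) / √|d_L| > C'' R ^ D` for `C'` large, two elements of `T` have the same trace. -/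
def ShortU : Prop :=
  ∀ D m : ℕ, 0 < D → 2 ≤ m → ∃ C : ℝ, 0 < C ∧ ∀ (F L : Type) [Field F] [NumberField F] [Field L]
    [NumberField L] [Algebra F L], Module.finrank ℚ F = D → Module.finrank F L = m →
    ∃ x : 𝓞 L, x ≠ 0 ∧ Algebra.trace F L (x : L) = 0 ∧
      ∀ w : InfinitePlace L, w (x : L) ≤
        C * ((|discr L| : ℤ) : ℝ) ^ ((1 : ℝ) / (2 * (D : ℝ) * ((m : ℝ) - 1)))

/-- Schmidt's bound for the extensions `L / F` of degree `m` without intermediate fields, uniformly in
the field `F` of degree `D`. Proof as in `Pool.Agent.Q258.LQ.Sch`: take `x` from `ShortU`. It is not in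
`F`, so `L = F(x)`. The minimal polynomial of `x` over `F` is `T ^ m + a_2 T ^ (m - 2) + ... + a_m`, `a_i ∈ 𝓞 F`,
`v a_i ≤ C X ^ (i / (2 D (m - 1)))` for all infinite places `v` of `F`, so by `BoxU` there are at most
`C X ^ ((2 + 3 + ... + m) / (2 (m - 1))) = C X ^ ((m + 2) / 4)` such polynomials, each with at most `m` roots
in `E`. (Bounds for the coefficients: Mathlib's `Polynomial.coeff_le_of_roots_le` or
`NumberField.Embeddings.coeff_bdd_of_norm_le`; the constant may be anything depending on `m`, `D`.) -/
def PrimUnif : Prop :=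
  ∀ D m : ℕ, 0 < D → 2 ≤ m → ∃ C : ℝ, 0 < C ∧ ∀ (F E : Type) [Field F] [NumberField F] [Field E]
    [Algebra F E] [IsAlgClosed E], Module.finrank ℚ F = D → ∀ X : ℝ, 1 ≤ X →
      {L : IntermediateField F E | Module.finrank F L = m ∧
        (∀ M : IntermediateField F E, M ≤ L → M = ⊥ ∨ M = L) ∧
        ∃ h : NumberField L, ((|@discr L _ h| : ℤ) : ℝ) ≤ X}.Finite ∧
      (Set.ncard {L : IntermediateField F E | Module.finrank F L = m ∧
        (∀ M : IntermediateField F E, M ≤ L → M = ⊥ ∨ M = L) ∧
        ∃ h : NumberField L, ((|@discr L _ h| : ℤ) : ℝ) ≤ X} : ℝ) ≤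
        C * X ^ (((m : ℝ) + 2) / 4)

/-- Schmidt's theorem for all extensions of degree `n` of `K`.
Proof: strong induction on `n`. `n = 1`: only `⊥`. `n ≥ 2`: choose a maximal proper subfield `F ≥ ⊥` of `L`
(over `K`), of degree `k`, `m = n / k ≥ 2`; there are no fields between `F` and `L`, and `|d_F| ^ m ≤ |d_L|`
(`DiscRam` with `S = ∅`). For `k = 1` (`F = ⊥`) use `PrimUnif` for `⊥` (or any field isomorphic to `K`). For
`k ≥ 2` there are at most `C X ^ ((k + 2) / (4 m))` fields `F` (induction, `|d_F| ≤ X ^ (1 / m)`), and for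
each at most `C X ^ ((m + 2) / 4)` fields `L` (`PrimUnif` for `F`, uniform), and
`(k + 2) / (4 m) + (m + 2) / 4 ≤ (k m + 2) / 4` as `k + 2 ≤ m ^ 2 (k - 1)`. (For the passage between
subfields of `Ω` over `K` and over `F` see `Pool/Agent/TH444/ML/Tr.lean`, `extend_mem`, `ncard_AS`, and
`GS_image`, `GS_lower` in `Pool/Agent/Q258/LQ/Asm2.lean`, which can be copied with changes.) -/
def SchmidtAll : Prop :=
  ∀ (K Ω : Type) [Field K] [NumberField K] [Field Ω] [Algebra K Ω] [IsAlgClosure K Ω] (n : ℕ),
    0 < n → ∃ C : ℝ, 0 < C ∧ ∀ X : ℝ, 1 ≤ X →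
      {L : IntermediateField K Ω | Module.finrank K L = n ∧ dsc L ≤ X}.Finite ∧
      (Set.ncard {L : IntermediateField K Ω | Module.finrank K L = n ∧ dsc L ≤ X} : ℝ) ≤
        C * X ^ (((n : ℝ) + 2) / 4)

/-- A nontrivial automorphism gives a subfield `F` such that `L / F` is Galois of prime degree.
Proof: `Aut(L / K)` is a finite nontrivial group, so it has an element of prime order `ℓ`; `F` is the fixed
field of the subgroup generated by it (Artin). (As subfields of `Ω`: `IntermediateField.lift` of the fixed
field; compare `Pool/Agent/Q258/LQ/SolvT.lean`.) -/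
def AutPrime : Prop :=
  ∀ (K Ω : Type) [Field K] [Field Ω] [Algebra K Ω] (L : IntermediateField K Ω),
    FiniteDimensional K L → (∃ σ : L ≃ₐ[K] L, σ ≠ 1) →
    ∃ F : IntermediateField K Ω, ∃ h : F ≤ L, IsGalois F (IntermediateField.extendScalars h) ∧
      (Module.finrank F (IntermediateField.extendScalars h)).Prime

/-- Conversely. -/
def PrimeAut : Prop :=
  ∀ (K Ω : Type) [Field K] [Field Ω] [Algebra K Ω] (F L : IntermediateField K Ω) (h : F ≤ L),
    IsGalois F (IntermediateField.extendScalars h) →
    (Module.finrank F (IntermediateField.extendScalars h)).Prime → ∃ σ : L ≃ₐ[K] L, σ ≠ 1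

end Pool.Agent.Q258.LQ
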