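import Pool.Agent.Q258.LQ.Fin
import Pool.Agent.Q258.LQ.Stm3

/-!
# Fields with a nontrivial automorphism : assembly
-/

set_option autoImplicit false
set_option linter.unusedSectionVars false

open NumberField Filter Topology

namespace Pool.Agent.Q258.LQ

open Pool.Agent.TH444.ML

section

variable {K Ω : Type} [Field K] [NumberField K] [Field Ω] [Algebra K Ω] [IsAlgClosure K Ω]

/-- auxiliary inequality between powers -/
theorem pow_aux (X d s e a ℓ : ℝ) (hX : 1 ≤ X) (hd : 1 ≤ d) (hℓ : 0 < ℓ) (hdX : d ^ ℓ ≤ X)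
    (b : ℝ) (h1 : b ≤ e) (h2 : b + (s - a) / ℓ ≤ e) :
    X ^ b * d ^ (-a) ≤ X ^ e * d ^ (-s) := by
  have hX0 : 0 < X := by linarith
  have hd0 : 0 < d := by linarith
  rcases le_total s a with h | h
  · exact mul_le_mul (Real.rpow_le_rpow_of_exponent_le hX h1)
      (Real.rpow_le_rpow_of_exponent_le hd (by linarith)) (by positivity) (by positivity)
  · have h3 : d ^ (s - a) ≤ X ^ ((s - a) / ℓ) := by
      have := Real.rpow_le_rpow (by positivity) hdX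
        (div_nonneg (by linarith) hℓ.le : (0 : ℝ) ≤ (s - a) / ℓ)
      rw [← Real.rpow_mul hd0.le] at this
      have e : ℓ * ((s - a) / ℓ) = s - a := by field_simp
      rwa [e] at this
    calc X ^ b * d ^ (-a) = X ^ b * (d ^ (s - a) * d ^ (-s)) := by
          rw [← Real.rpow_add hd0]
          congr 2
          ring
      _ ≤ X ^ b * (X ^ ((s - a) / ℓ) * d ^ (-s)) := by
          refine mul_le_mul_of_nonneg_left ?_ (by positivity)
          exact mul_le_mul_of_nonneg_right h3 (by positivity)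
      _ = X ^ (b + (s - a) / ℓ) * d ^ (-s) := by
          rw [Real.rpow_add hX0]; ring
      _ ≤ X ^ e * d ^ (-s) :=
          mul_le_mul_of_nonneg_right (Real.rpow_le_rpow_of_exponent_le hX h2) (by positivity)

theorem bound_GS_gen (hc : CycUnif) (hd : DiscRam) (s e : ℝ) (ℓ : ℕ) (hℓ : ℓ.Prime)
    (h3 : 3 ≤ ℓ) (m : ℕ) (hm : 0 < m) (he1 : 3 / 4 ≤ e) (he2 : 1 / 2 + s / ℓ ≤ e) :
    ∃ C : ℝ, 0 ≤ C ∧ ∀ F : IntermediateField K Ω, Module.finrank K F = m → ∀ X : ℝ, 1 ≤ X →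
      (GS ℓ F X).Finite ∧
      (Set.ncard (GS ℓ F X) : ℝ) ≤ C * X ^ e * (dsc F) ^ (-s) := by
  have hac : IsAlgClosed Ω := IsAlgClosure.isAlgClosed K
  obtain ⟨C, hC0, hC⟩ := hc ℓ (Module.finrank ℚ K * m) hℓ h3
  refine ⟨C, hC0.le, ?_⟩
  intro F hF X hX
  have hfd : FiniteDimensional K F := fd_of_finrank hm hF
  have hnf : NumberField F := nf_of_fd F
  have hdeg : Module.finrank ℚ F = Module.finrank ℚ K * m := by
    rw [← hF, Module.finrank_mul_finrank ℚ K F]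
  have hX0 : 0 < X := by linarith
  set d : ℝ := dsc F with hdd
  have hd1 : 1 ≤ d := one_le_dsc F
  have hd0 : 0 < d := by linarith
  have hrhs : 0 ≤ C * X ^ e * d ^ (-s) := by positivity
  have hℓ0 : (0 : ℝ) < ℓ := by exact_mod_cast hℓ.pos
  by_cases hcase : d ^ ℓ ≤ X
  · have hY : 1 ≤ X / d ^ ℓ := by
      rw [le_div_iff₀ (by positivity)]; linarith
    obtain ⟨h1, h2⟩ := hC F Ω hdeg (X / d ^ ℓ) hY
    have him := GS_image ℓ (by omega) F (X / d ^ ℓ) X (by rw [← hdd]; field_simp)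
    have hfin : (GS ℓ F X).Finite := by
      rw [← him]; exact h1.image _
    refine ⟨hfin, ?_⟩
    have hcard : Set.ncard (GS ℓ F X) = Set.ncard (CS ℓ F Ω (X / d ^ ℓ)) := by
      rw [← him]
      exact Set.ncard_image_of_injective _ (IntermediateField.restrictScalars_injective K)
    rw [hcard]
    rw [← dsc_eq F, ← hdd] at h2
    refine h2.trans ?_
    have e1 : (X / d ^ ℓ) ^ (3 / 4 : ℝ) = X ^ (3 / 4 : ℝ) * d ^ (-((ℓ : ℝ) * (3 / 4))) := by
      rw [Real.div_rpow hX0.le (by positivity), ← Real.rpow_natCast, ← Real.rpow_mul hd0.le,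
        Real.rpow_neg hd0.le]
      rfl
    have hdX : d ^ (ℓ : ℝ) ≤ X := by rw [Real.rpow_natCast]; exact hcase
    have e2 : X ^ (3 / 4 : ℝ) * d ^ (-((ℓ : ℝ) / 4)) ≤ X ^ e * d ^ (-s) := by
      refine pow_aux X d s e ((ℓ : ℝ) / 4) ℓ hX hd1 hℓ0 hdX (3 / 4) he1 ?_
      have : (s - (ℓ : ℝ) / 4) / ℓ = s / ℓ - 1 / 4 := by field_simp
      rw [this]; linarith
    calc C * d ^ ((ℓ : ℝ) / 2) * (X / d ^ ℓ) ^ (3 / 4 : ℝ)
        = C * (X ^ (3 / 4 : ℝ) * (d ^ ((ℓ : ℝ) / 2) * d ^ (-((ℓ : ℝ) * (3 / 4))))) := by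
          rw [e1]; ring
      _ = C * (X ^ (3 / 4 : ℝ) * d ^ (-((ℓ : ℝ) / 4))) := by
          rw [← Real.rpow_add hd0]
          congr 3
          ring
      _ ≤ C * (X ^ e * d ^ (-s)) := mul_le_mul_of_nonneg_left e2 hC0.le
      _ = C * X ^ e * d ^ (-s) := by ring
  · have hemp : GS ℓ F X = ∅ := by
      rw [Set.eq_empty_iff_forall_notMem]
      intro L hL
      exact hcase (GS_lower hd ℓ (by omega) F X L hL)
    rw [hemp]
    refine ⟨Set.finite_empty, ?_⟩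
    rw [Set.ncard_empty]
    simpa using hrhs

theorem AS_GS (F : IntermediateField K Ω) [FiniteDimensional K F] (X : ℝ) :
    AS F (X / dsc F ^ 2) = GS 2 F X := by
  have e : X / dsc F ^ 2 * dsc F ^ 2 = X := by
    have : 1 ≤ dsc F := one_le_dsc F
    have : dsc F ≠ 0 := by linarith
    field_simp
  have hpos : 0 < Module.finrank K F := Module.finrank_pos
  ext L
  constructor
  · rintro ⟨h, h2, h3⟩
    rw [e] at h3
    have h4 : Module.finrank F (IntermediateField.extendScalars h) = 2 := by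
      have h5 := finrank_extend h
      rw [h2] at h5
      exact Nat.eq_of_mul_eq_mul_left hpos (by rw [h5]; ring)
    have hq : Algebra.IsQuadraticExtension F (IntermediateField.extendScalars h) := ⟨h4⟩
    have hchar : CharZero F := algebraRat.charZero F
    have hnormal : Normal F (IntermediateField.extendScalars h) := inferInstance
    have hgal : IsGalois F (IntermediateField.extendScalars h) := ⟨⟩
    exact ⟨h, hgal, h4, h3⟩
  · rintro ⟨h, -, h2, h3⟩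
    refine ⟨h, ?_, by rw [e]; exact h3⟩
    have h5 := finrank_extend h
    rw [← h5, h2]
    ring

theorem bound_AS_gen (hu : QuadUnif3) (hd : DiscRam) (s e δ : ℝ) (hδ : 0 < δ)
    (m : ℕ) (hm : 0 < m) (he1 : 1 ≤ e) (he2 : 1 / 4 + s / 2 + δ / 2 ≤ e) :
    ∃ C : ℝ, 0 ≤ C ∧ ∀ F : IntermediateField K Ω, Module.finrank K F = m → ∀ X : ℝ, 1 ≤ X →
      (GS 2 F X).Finite ∧
      (Set.ncard (GS 2 F X) : ℝ) ≤ C * X ^ e * (dsc F) ^ (-s) := by
  obtain ⟨C, hC0, hC⟩ := bound_AS3 (K := K) (Ω := Ω) hu (3 / 2 - δ) (by linarith) m hm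
  refine ⟨C, hC0, ?_⟩
  intro F hF X hX
  have hfd : FiniteDimensional K F := fd_of_finrank hm hF
  have hnf : NumberField F := nf_of_fd F
  have hX0 : 0 < X := by linarith
  obtain ⟨h1, h2⟩ := hC F hF X hX0
  rw [AS_GS F X] at h1 h2
  set d : ℝ := dsc F with hdd
  have hd1 : 1 ≤ d := one_le_dsc F
  have hd0 : 0 < d := by linarith
  have hrhs : 0 ≤ C * X ^ e * d ^ (-s) := by positivity
  by_cases hcase : d ^ 2 ≤ X
  · refine ⟨h1, h2.trans ?_⟩
    have hdX : d ^ (2 : ℝ) ≤ X := by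
      calc d ^ (2 : ℝ) = d ^ 2 := by exact_mod_cast Real.rpow_natCast d 2
        _ ≤ X := hcase
    have e2 : X ^ (1 : ℝ) * d ^ (-(3 / 2 - δ)) ≤ X ^ e * d ^ (-s) := by
      refine pow_aux X d s e (3 / 2 - δ) 2 hX hd1 (by norm_num) hdX 1 he1 ?_
      linarith
    rw [Real.rpow_one] at e2
    calc C * X * d ^ (-(3 / 2 - δ)) = C * (X * d ^ (-(3 / 2 - δ))) := by ring
      _ ≤ C * (X ^ e * d ^ (-s)) := mul_le_mul_of_nonneg_left e2 hC0
      _ = C * X ^ e * d ^ (-s) := by ring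
  · have hemp : GS 2 F X = ∅ := by
      rw [Set.eq_empty_iff_forall_notMem]
      intro L hL
      exact hcase (GS_lower hd 2 (by norm_num) F X L hL)
    rw [hemp]
    refine ⟨Set.finite_empty, ?_⟩
    rw [Set.ncard_empty]
    simpa using hrhs

/-- all extensions of degree `k` -/
def All (K Ω : Type) [Field K] [Field Ω] [Algebra K Ω] (k : ℕ) : Set (IntermediateField K Ω) :=
  {F | Module.finrank K F = k}

/-- the bound for one prime `ℓ` -/
theorem GU_bound (I : Inp) (hS : SchmidtAll) (ℓ : ℕ) (hℓ : ℓ.Prime) (k : ℕ) (hk : 0 < k) (e δ : ℝ)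
    (hδ : 0 < δ) (he1 : if ℓ = 2 then 1 ≤ e else 3 / 4 ≤ e)
    (he2 : if ℓ = 2 then 1 / 2 + (k : ℝ) / 8 + δ ≤ e
      else 1 / 2 + (((k : ℝ) + 2) / 4 + δ) / ℓ ≤ e) :
    ∃ C : ℝ, 0 ≤ C ∧ ∀ X : ℝ, 1 ≤ X → (GU ℓ (All K Ω k) X).Finite ∧
      (Set.ncard (GU ℓ (All K Ω k) X) : ℝ) ≤ C * X ^ e := by
  set s : ℝ := ((k : ℝ) + 2) / 4 + δ with hs
  have hk0 : (0 : ℝ) < k := by exact_mod_cast hk
  obtain ⟨C1, hC10, hC1⟩ := hS K Ω k hk
  have hsum : Summable (fun F : All K Ω k => (dsc F.1) ^ (-s)) := by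
    refine I.sc K Ω (All K Ω k) C1 (((k : ℝ) + 2) / 4) s (by positivity) (by linarith) ?_
    intro X hX
    exact hC1 X hX
  have hb : ∃ C : ℝ, 0 ≤ C ∧ ∀ F : IntermediateField K Ω, Module.finrank K F = k →
      ∀ X : ℝ, 1 ≤ X → (GS ℓ F X).Finite ∧
      (Set.ncard (GS ℓ F X) : ℝ) ≤ C * X ^ e * (dsc F) ^ (-s) := by
    by_cases h2 : ℓ = 2
    · subst h2
      simp only [if_true] at he1 he2
      refine bound_AS_gen I.qu I.dr s e δ hδ k hk he1 ?_
      rw [hs]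
      linarith
    · rw [if_neg h2] at he1 he2
      have h3 : 3 ≤ ℓ := by
        have := hℓ.two_le
        omega
      exact bound_GS_gen I.cu I.dr s e ℓ hℓ h3 k hk he1 he2
  obtain ⟨C, hC0, hC⟩ := hb
  have hS0 : 0 ≤ ∑' F : All K Ω k, (dsc F.1) ^ (-s) := by
    refine tsum_nonneg fun F => ?_
    have : 1 ≤ dsc F.1 := one_le_dsc F.1
    positivity
  refine ⟨C * ∑' F : All K Ω k, (dsc F.1) ^ (-s), by positivity, ?_⟩
  intro X hX
  obtain ⟨h1, h2⟩ := union_bound (K := K) (Ω := Ω) (fun F : All K Ω k => GS ℓ F.1 X)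
    (fun F : All K Ω k => (dsc F.1) ^ (-s)) hsum (C * X ^ e)
    (fun F => (hC F.1 F.2 X hX).1) (fun F => (hC F.1 F.2 X hX).2)
  refine ⟨h1, h2.trans (le_of_eq ?_)⟩
  ring

/-- the extensions of degree `n` with a nontrivial automorphism -/
def Aut1 (K Ω : Type) [Field K] [Field Ω] [Algebra K Ω] (n : ℕ) : Set (IntermediateField K Ω) :=
  {L | Module.finrank K L = n ∧ ∃ σ : L ≃ₐ[K] L, σ ≠ 1}

theorem aut1_cases (hA : AutPrime) (n : ℕ) (hn : 0 < n) {L : IntermediateField K Ω}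
    (hL : L ∈ Aut1 K Ω n) : ∃ ℓ ∈ n.primeFactors, L ∈ GG ℓ (All K Ω (n / ℓ)) := by
  obtain ⟨h2, hσ⟩ := hL
  have hfd : FiniteDimensional K L := FiniteDimensional.of_finrank_pos (by omega)
  obtain ⟨F, h, hg, hp⟩ := hA K Ω L hfd hσ
  have hmul := finrank_extend h
  rw [h2] at hmul
  refine ⟨Module.finrank F (IntermediateField.extendScalars h), ?_, F, ?_, h, hg, rfl⟩
  · rw [Nat.mem_primeFactors]
    exact ⟨hp, ⟨_, by rw [← hmul]; ring⟩, by omega⟩
  · change Module.finrank K F = _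
    rw [← hmul]
    exact (Nat.mul_div_cancel _ hp.pos).symm

/-- finite unions of sets with bounded counting functions -/
theorem finite_union_bound (P : Finset ℕ) (S : ℕ → ℝ → Set (IntermediateField K Ω)) (e : ℝ)
    (h : ∀ ℓ ∈ P, ∃ C : ℝ, 0 ≤ C ∧ ∀ X : ℝ, 1 ≤ X → (S ℓ X).Finite ∧
      (Set.ncard (S ℓ X) : ℝ) ≤ C * X ^ e) :
    ∃ C : ℝ, ∀ X : ℝ, 1 ≤ X → (⋃ ℓ ∈ P, S ℓ X).Finite ∧
      (Set.ncard (⋃ ℓ ∈ P, S ℓ X) : ℝ) ≤ C * X ^ e := by
  classical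
  choose! C hC0 hC using h
  refine ⟨∑ ℓ ∈ P, C ℓ, ?_⟩
  intro X hX
  refine ⟨Set.Finite.biUnion P.finite_toSet fun ℓ hℓ => (hC ℓ hℓ X hX).1, ?_⟩
  have hU : ∀ t : Finset ℕ, t ⊆ P →
      (Set.ncard (⋃ ℓ ∈ t, S ℓ X) : ℝ) ≤ (∑ ℓ ∈ t, C ℓ) * X ^ e := by
    intro t
    induction t using Finset.induction_on with
    | empty => intro _; simp
    | insert a t ha ih =>
      intro hts
      rw [Finset.set_biUnion_insert, Finset.sum_insert ha, add_mul]
      have h1 := (hC a (hts (Finset.mem_insert_self a t)) X hX).2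
      have h2 := ih ((Finset.subset_insert a t).trans hts)
      have h3 := Set.ncard_union_le (S a X) (⋃ ℓ ∈ t, S ℓ X)
      have h4 : ((S a X ∪ ⋃ ℓ ∈ t, S ℓ X).ncard : ℝ) ≤
        ((S a X).ncard : ℝ) + ((⋃ ℓ ∈ t, S ℓ X).ncard : ℝ) := by
        exact_mod_cast h3
      linarith
  exact hU P subset_rfl

theorem aut_bound_gen (I : Inp) (hS : SchmidtAll) (hA : AutPrime) (n : ℕ) (hn : 0 < n) (e δ : ℝ)
    (hδ : 0 < δ) (he : ∀ ℓ ∈ n.primeFactors, (if ℓ = 2 then 1 ≤ e else 3 / 4 ≤ e) ∧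
      (if ℓ = 2 then 1 / 2 + ((n / ℓ : ℕ) : ℝ) / 8 + δ ≤ e
      else 1 / 2 + ((((n / ℓ : ℕ) : ℝ) + 2) / 4 + δ) / ℓ ≤ e)) :
    ∃ C : ℝ, ∀ X : ℝ, 1 ≤ X →
      (Set.ncard {L : IntermediateField K Ω | L ∈ Aut1 K Ω n ∧ dsc L ≤ X} : ℝ) ≤ C * X ^ e := by
  obtain ⟨C, hC⟩ := finite_union_bound (K := K) (Ω := Ω) n.primeFactors
    (fun ℓ X => GU ℓ (All K Ω (n / ℓ)) X) e (by
      intro ℓ hℓ
      have hp := Nat.mem_primeFactors.1 hℓ
      have hpos : 0 < n / ℓ := Nat.div_pos (Nat.le_of_dvd hn hp.2.1) hp.1.pos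
      exact GU_bound I hS ℓ hp.1 (n / ℓ) hpos e δ hδ (he ℓ hℓ).1 (he ℓ hℓ).2)
  refine ⟨C, ?_⟩
  intro X hX
  refine le_trans ?_ (hC X hX).2
  have hsub : {L : IntermediateField K Ω | L ∈ Aut1 K Ω n ∧ dsc L ≤ X} ⊆
      ⋃ ℓ ∈ n.primeFactors, GU (K := K) (Ω := Ω) ℓ (All K Ω (n / ℓ)) X := by
    rintro L ⟨hL, hX⟩
    obtain ⟨ℓ, hℓ, hG⟩ := aut1_cases hA n hn hL
    simp only [Set.mem_iUnion, exists_prop]
    refine ⟨ℓ, hℓ, ?_⟩
    rw [← GG_GU]
    exact ⟨hG, hX⟩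
  exact_mod_cast Set.ncard_le_ncard hsub (hC X hX).1

/-- **All degrees.** -/
theorem aut_bound (I : Inp) (hS : SchmidtAll) (hA : AutPrime) (n : ℕ) (hn : 0 < n) (ε : ℝ)
    (hε : 0 < ε) : ∃ C : ℝ, ∀ X : ℝ, 1 ≤ X →
      (Set.ncard {L : IntermediateField K Ω | L ∈ Aut1 K Ω n ∧ dsc L ≤ X} : ℝ) ≤
        C * X ^ (max 1 (1 / 2 + (n : ℝ) / 16) + ε) := by
  refine aut_bound_gen I hS hA n hn _ ε hε ?_
  intro ℓ hℓ
  have hp := Nat.mem_primeFactors.1 hℓ
  have hdiv : (n / ℓ) * ℓ = n := Nat.div_mul_cancel hp.2.1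
  have hk1 : 1 ≤ n / ℓ := Nat.div_pos (Nat.le_of_dvd hn hp.2.1) hp.1.pos
  set k : ℕ := n / ℓ with hk
  have hn' : (n : ℝ) = k * ℓ := by rw [← hdiv]; push_cast; ring
  have hm1 : (1 : ℝ) ≤ max 1 (1 / 2 + (n : ℝ) / 16) := le_max_left _ _
  have hm2 : 1 / 2 + (n : ℝ) / 16 ≤ max 1 (1 / 2 + (n : ℝ) / 16) := le_max_right _ _
  by_cases h2 : ℓ = 2
  · rw [if_pos h2, if_pos h2]
    refine ⟨by linarith, ?_⟩
    rw [h2] at hn'
    push_cast at hn'
    linarith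
  · rw [if_neg h2, if_neg h2]
    refine ⟨by linarith, ?_⟩
    have h3 : (3 : ℝ) ≤ ℓ := by
      have := hp.1.two_le
      exact_mod_cast (by omega : 3 ≤ ℓ)
    have hk1' : (1 : ℝ) ≤ k := by exact_mod_cast hk1
    have hb : (((k : ℝ) + 2) / 4 + ε) / ℓ ≤ ((k : ℝ) + 2) / 12 + ε := by
      rw [div_le_iff₀ (by linarith)]
      nlinarith
    have hc : ((k : ℝ) + 2) / 12 + 1 / 2 ≤ max 1 (1 / 2 + (n : ℝ) / 16) := by
      rcases le_total (k : ℝ) 4 with h | h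
      · linarith
      · refine le_trans ?_ hm2
        rw [hn']
        nlinarith
    linarith

/-- **Odd degrees.** -/
theorem aut_bound_odd (I : Inp) (hS : SchmidtAll) (hA : AutPrime) (n : ℕ) (hn : Odd n) (ε : ℝ)
    (hε : 0 < ε) : ∃ C : ℝ, ∀ X : ℝ, 1 ≤ X →
      (Set.ncard {L : IntermediateField K Ω | L ∈ Aut1 K Ω n ∧ dsc L ≤ X} : ℝ) ≤
        C * X ^ (max (3 / 4) (2 / 3 + (n : ℝ) / 36) + ε) := by
  refine aut_bound_gen I hS hA n hn.pos _ ε hε ?_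
  intro ℓ hℓ
  have hp := Nat.mem_primeFactors.1 hℓ
  have hdiv : (n / ℓ) * ℓ = n := Nat.div_mul_cancel hp.2.1
  have hk1 : 1 ≤ n / ℓ := Nat.div_pos (Nat.le_of_dvd hn.pos hp.2.1) hp.1.pos
  set k : ℕ := n / ℓ with hk
  have hn' : (n : ℝ) = k * ℓ := by rw [← hdiv]; push_cast; ring
  have hm1 : (3 / 4 : ℝ) ≤ max (3 / 4) (2 / 3 + (n : ℝ) / 36) := le_max_left _ _
  have hm2 : 2 / 3 + (n : ℝ) / 36 ≤ max (3 / 4) (2 / 3 + (n : ℝ) / 36) := le_max_right _ _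
  have h2 : ℓ ≠ 2 := by
    intro h2
    have := hp.2.1
    rw [h2] at this
    rcases hn with ⟨j, hj⟩
    omega
  rw [if_neg h2, if_neg h2]
  refine ⟨by linarith, ?_⟩
  have h3 : (3 : ℝ) ≤ ℓ := by
    have := hp.1.two_le
    exact_mod_cast (by omega : 3 ≤ ℓ)
  have hk1' : (1 : ℝ) ≤ k := by exact_mod_cast hk1
  have hb : (((k : ℝ) + 2) / 4 + ε) / ℓ ≤ ((k : ℝ) + 2) / 12 + ε := by
    rw [div_le_iff₀ (by linarith)]
    nlinarith
  have hc : ((k : ℝ) + 2) / 12 + 1 / 2 ≤ 2 / 3 + (n : ℝ) / 36 := by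
    rw [hn']
    nlinarith
  linarith

/-- **Degrees two, four, six.** -/
theorem aut_asymp (hS : SchmidtAll) (hA : AutPrime) (hB : PrimeAut) (n : ℕ)
    (hn : n = 2 ∨ n = 4 ∨ n = 6) :
    ∃ c : ℝ, 0 < c ∧ Tendsto (fun X : ℝ =>
      (Set.ncard {L : IntermediateField K Ω | L ∈ Aut1 K Ω n ∧ dsc L ≤ X} : ℝ) / X)
        atTop (𝓝 c) := by
  set 𝓑 : Set (IntermediateField K Ω) :=
    {F | 1 ≤ Module.finrank K F ∧ Module.finrank K F ≤ 3} with h𝓑
  have hbase : ∀ m : ℕ, 0 < m → ∃ θ : ℝ, θ < 3 / 2 ∧ ∃ C : ℝ, ∀ X : ℝ, 1 ≤ X →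
      (Set.ncard {L : IntermediateField K Ω | L ∈ 𝓑 ∧ Module.finrank K L = m ∧ dsc L ≤ X} : ℝ) ≤
        C * X ^ θ := by
    intro m hm
    by_cases h3 : m ≤ 3
    · obtain ⟨C, hC0, hC⟩ := hS K Ω m hm
      have h3' : (m : ℝ) ≤ 3 := by exact_mod_cast h3
      refine ⟨((m : ℝ) + 2) / 4, by linarith, C, ?_⟩
      intro X hX
      refine le_trans ?_ (hC X hX).2
      have hsub : {L : IntermediateField K Ω | L ∈ 𝓑 ∧ Module.finrank K L = m ∧ dsc L ≤ X} ⊆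
          {L : IntermediateField K Ω | Module.finrank K L = m ∧ dsc L ≤ X} :=
        fun L hL => ⟨hL.2.1, hL.2.2⟩
      exact_mod_cast Set.ncard_le_ncard hsub (hC X hX).1
    · refine ⟨0, by norm_num, 0, ?_⟩
      intro X hX
      have : {L : IntermediateField K Ω | L ∈ 𝓑 ∧ Module.finrank K L = m ∧ dsc L ≤ X} = ∅ := by
        rw [Set.eq_empty_iff_forall_notMem]
        rintro L ⟨h1, h2, -⟩
        have := h1.2
        omega
      rw [this]
      simp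
  obtain ⟨s, hs1, hs2, hs⟩ := choose_s 𝓑 n hbase
  obtain ⟨k, hk0, hk⟩ : ∃ k, 0 < k ∧ n = 2 * k := by
    rcases hn with rfl | rfl | rfl
    · exact ⟨1, by norm_num, rfl⟩
    · exact ⟨2, by norm_num, rfl⟩
    · exact ⟨3, by norm_num, rfl⟩
  have hne : (PT 𝓑 k).Nonempty := by
    refine exists_PT 𝓑 ?_ k hk0
    constructor
    · rw [IntermediateField.finrank_bot]
    · rw [IntermediateField.finrank_bot]; norm_num
  have h := main_even inp s hs1 hs2 𝓑 k hk0 (by rw [← hk]; exact hs) hne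
  have hset : ∀ X : ℝ, {L : IntermediateField K Ω | L ∈ Aut1 K Ω n ∧ dsc L ≤ X} =
      {L : IntermediateField K Ω | L ∈ PP 𝓑 (2 * k) ∧ dsc L ≤ X} := by
    intro X
    ext L
    constructor
    · rintro ⟨hL, hX⟩
      refine ⟨?_, hX⟩
      have hfd : FiniteDimensional K L := by
        refine FiniteDimensional.of_finrank_pos ?_
        rw [hL.1]; omega
      obtain ⟨F, h, hg, hp⟩ := hA K Ω L hfd hL.2
      refine ⟨by rw [hL.1, hk], F, PTow.base ?_, h, hg, hp⟩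
      have hmul := finrank_extend h
      rw [hL.1] at hmul
      have h2 := hp.two_le
      have hFpos : 0 < Module.finrank K F := by
        rcases Nat.eq_zero_or_pos (Module.finrank K F) with h0 | h0
        · rw [h0] at hmul; omega
        · exact h0
      refine ⟨hFpos, ?_⟩
      by_contra h3
      have h3' : 4 ≤ Module.finrank K F := by omega
      have : 4 * 2 ≤ Module.finrank K F *
          Module.finrank F (IntermediateField.extendScalars h) := Nat.mul_le_mul h3' h2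
      omega
    · rintro ⟨⟨h1, F, -, h, hg, hp⟩, hX⟩
      exact ⟨⟨by rw [h1, hk], hB K Ω F L h hg hp⟩, hX⟩
  simp only [hset]
  exact h

end

end Pool.Agent.Q258.LQ
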