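import Pool.Agent.Q258.LQ.Asm4

/-!
# Towers above arbitrary fields : upper bounds
-/

set_option autoImplicit false
set_option linter.unusedSectionVars false

open NumberField Filter Topology

namespace Pool.Agent.Q258.LQ

open Pool.Agent.TH444.ML

section

variable {K Ω : Type} [Field K] [NumberField K] [Field Ω] [Algebra K Ω] [IsAlgClosure K Ω]

/-- `𝓖` has `O(X ^ θ)` members of discriminant at most `X` -/
def HasBound (𝓖 : Set (IntermediateField K Ω)) (θ : ℝ) : Prop :=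
  ∃ C : ℝ, 0 ≤ C ∧ ∀ X : ℝ, 1 ≤ X → {L : IntermediateField K Ω | L ∈ 𝓖 ∧ dsc L ≤ X}.Finite ∧
    (Set.ncard {L : IntermediateField K Ω | L ∈ 𝓖 ∧ dsc L ≤ X} : ℝ) ≤ C * X ^ θ

theorem HasBound.mono {𝓖 𝓗 : Set (IntermediateField K Ω)} {θ η : ℝ} (h : HasBound 𝓗 θ)
    (hs : 𝓖 ⊆ 𝓗) (hθ : θ ≤ η) : HasBound 𝓖 η := by
  obtain ⟨C, hC0, hC⟩ := h
  refine ⟨C, hC0, ?_⟩
  intro X hX
  have hsub : {L : IntermediateField K Ω | L ∈ 𝓖 ∧ dsc L ≤ X} ⊆
      {L : IntermediateField K Ω | L ∈ 𝓗 ∧ dsc L ≤ X} := fun L hL => ⟨hs hL.1, hL.2⟩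
  refine ⟨(hC X hX).1.subset hsub, ?_⟩
  calc (Set.ncard {L : IntermediateField K Ω | L ∈ 𝓖 ∧ dsc L ≤ X} : ℝ)
      ≤ Set.ncard {L : IntermediateField K Ω | L ∈ 𝓗 ∧ dsc L ≤ X} := by
        exact_mod_cast Set.ncard_le_ncard hsub (hC X hX).1
    _ ≤ C * X ^ θ := (hC X hX).2
    _ ≤ C * X ^ η :=
        mul_le_mul_of_nonneg_left (Real.rpow_le_rpow_of_exponent_le hX hθ) hC0

/-- finite unions -/
theorem HasBound.union (P : Finset ℕ) (S : ℕ → Set (IntermediateField K Ω)) (e : ℝ)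
    (h : ∀ ℓ ∈ P, HasBound (S ℓ) e) : HasBound (⋃ ℓ ∈ P, S ℓ) e := by
  obtain ⟨C, hC⟩ := finite_union_bound (K := K) (Ω := Ω) P
    (fun ℓ X => {L : IntermediateField K Ω | L ∈ S ℓ ∧ dsc L ≤ X}) e h
  have hset : ∀ X : ℝ, {L : IntermediateField K Ω | L ∈ (⋃ ℓ ∈ P, S ℓ) ∧ dsc L ≤ X} =
      ⋃ ℓ ∈ P, {L : IntermediateField K Ω | L ∈ S ℓ ∧ dsc L ≤ X} := by
    intro X
    ext L
    simp only [Set.mem_iUnion, exists_prop, Set.mem_ofPred_eq]
    constructor
    · rintro ⟨⟨ℓ, h1, h2⟩, h3⟩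
      exact ⟨ℓ, h1, h2, h3⟩
    · rintro ⟨ℓ, h1, h2, h3⟩
      exact ⟨⟨ℓ, h1, h2⟩, h3⟩
  refine ⟨|C|, abs_nonneg _, ?_⟩
  intro X hX
  rw [hset]
  refine ⟨(hC X hX).1, (hC X hX).2.trans ?_⟩
  exact mul_le_mul_of_nonneg_right (le_abs_self C) (by positivity)

/-- **One step of prime degree.** -/
theorem HasBound.step (I : Inp) {𝓕 : Set (IntermediateField K Ω)} {k : ℕ} (hk : 0 < k)
    (hF : ∀ F ∈ 𝓕, Module.finrank K F = k) {θ : ℝ} (hθ : 0 < θ) (h : HasBound 𝓕 θ)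
    {ℓ : ℕ} (hℓ : ℓ.Prime) {e : ℝ} (he1 : if ℓ = 2 then 1 ≤ e else 3 / 4 ≤ e)
    (he2 : if ℓ = 2 then 1 / 4 + θ / 2 < e else 1 / 2 + θ / ℓ < e) :
    HasBound (GG ℓ 𝓕) e := by
  obtain ⟨C1, hC10, hC1⟩ := h
  obtain ⟨δ, hδ, hδ2⟩ : ∃ δ : ℝ, 0 < δ ∧ (if ℓ = 2 then 1 / 4 + (θ + δ) / 2 + δ / 2 ≤ e
      else 1 / 2 + (θ + δ) / ℓ ≤ e) := by
    by_cases h2 : ℓ = 2
    · simp only [if_pos h2] at he2 ⊢
      exact ⟨e - (1 / 4 + θ / 2), by linarith, by linarith⟩
    · simp only [if_neg h2] at he2 ⊢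
      have hl : (0 : ℝ) < ℓ := by exact_mod_cast hℓ.pos
      refine ⟨(e - (1 / 2 + θ / ℓ)) * ℓ, mul_pos (by linarith) hl, ?_⟩
      rw [add_div, mul_div_assoc, div_self hl.ne', mul_one]
      linarith
  set s : ℝ := θ + δ with hs
  have hsum : Summable (fun F : 𝓕 => (dsc F.1) ^ (-s)) :=
    I.sc K Ω 𝓕 C1 θ s hθ (by linarith) hC1
  have hb : ∃ C : ℝ, 0 ≤ C ∧ ∀ F : IntermediateField K Ω, Module.finrank K F = k →
      ∀ X : ℝ, 1 ≤ X → (GS ℓ F X).Finite ∧
      (Set.ncard (GS ℓ F X) : ℝ) ≤ C * X ^ e * (dsc F) ^ (-s) := by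
    by_cases h2 : ℓ = 2
    · subst h2
      simp only [if_true] at he1 hδ2
      exact bound_AS_gen I.qu I.dr s e δ hδ k hk he1 hδ2
    · rw [if_neg h2] at he1 hδ2
      have h3 : 3 ≤ ℓ := by
        have := hℓ.two_le
        omega
      exact bound_GS_gen I.cu I.dr s e ℓ hℓ h3 k hk he1 hδ2
  obtain ⟨C, hC0, hC⟩ := hb
  have hS0 : 0 ≤ ∑' F : 𝓕, (dsc F.1) ^ (-s) := by
    refine tsum_nonneg fun F => ?_
    have : 1 ≤ dsc F.1 := one_le_dsc F.1
    positivity
  refine ⟨C * ∑' F : 𝓕, (dsc F.1) ^ (-s), by positivity, ?_⟩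
  intro X hX
  rw [GG_GU]
  obtain ⟨h1, h2⟩ := union_bound (K := K) (Ω := Ω) (fun F : 𝓕 => GS ℓ F.1 X)
    (fun F : 𝓕 => (dsc F.1) ^ (-s)) hsum (C * X ^ e)
    (fun F => (hC F.1 (hF F.1 F.2) X hX).1) (fun F => (hC F.1 (hF F.1 F.2) X hX).2)
  refine ⟨h1, h2.trans (le_of_eq ?_)⟩
  ring

/-- the fields of degree `n` which are towers of degree `a` above some field -/
def TA (K Ω : Type) [Field K] [Field Ω] [Algebra K Ω] (n a : ℕ) :
    Set (IntermediateField K Ω) :=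
  {L | Module.finrank K L = n ∧ ∃ F : IntermediateField K Ω, PTow {F} L ∧
    Module.finrank K F * a = n}

theorem PTow_le {F L : IntermediateField K Ω} (h : PTow {F} L) :
    Module.finrank K F ∣ Module.finrank K L := by
  induction h with
  | base hM => rw [Set.mem_singleton_iff.1 hM]
  | step _ h hg hp ih =>
    refine ih.trans ?_
    rw [← finrank_extend h]
    exact dvd_mul_right _ _

theorem TA_cases {n a : ℕ} (hn : 0 < n) {L : IntermediateField K Ω} (hL : L ∈ TA K Ω n a) :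
    a = 1 ∨ ∃ ℓ ∈ a.primeFactors, L ∈ GG ℓ (TA K Ω (n / ℓ) (a / ℓ)) := by
  obtain ⟨h1, F, hF, h2⟩ := hL
  have hF0 : 0 < Module.finrank K F := by
    rcases Nat.eq_zero_or_pos (Module.finrank K F) with h | h
    · rw [h, zero_mul] at h2; omega
    · exact h
  have ha0 : 0 < a := by
    rcases Nat.eq_zero_or_pos a with h | h
    · rw [h, mul_zero] at h2; omega
    · exact h
  cases hF with
  | base hM =>
    left
    rw [Set.mem_singleton_iff.1 hM] at h1
    rw [h1] at h2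
    exact Nat.eq_of_mul_eq_mul_left hn (by rw [h2, mul_one])
  | @step M _ hM h hg hp =>
    right
    have hmul := finrank_extend h
    rw [h1] at hmul
    obtain ⟨b, hb⟩ := PTow_le hM
    set ℓ : ℕ := Module.finrank M (IntermediateField.extendScalars h) with hℓ
    have hab : a = b * ℓ := by
      apply Nat.eq_of_mul_eq_mul_left hF0
      rw [h2, ← hmul, hb, mul_assoc]
    have hb0 : b ≠ 0 := by
      rintro rfl
      rw [zero_mul] at hab
      omega
    refine ⟨ℓ, ?_, M, ⟨?_, F, hM, ?_⟩, h, hg, hℓ.symm⟩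
    · rw [Nat.mem_primeFactors]
      exact ⟨hp, ⟨b, by rw [hab]; ring⟩, by omega⟩
    · rw [← hmul]
      exact (Nat.mul_div_cancel _ hp.pos).symm
    · rw [hab, Nat.mul_div_cancel _ hp.pos, ← hb, ← hmul, Nat.mul_div_cancel _ hp.pos]

theorem all_bound (hS : SchmidtAll) (n : ℕ) (hn : 0 < n) :
    HasBound (All K Ω n) (((n : ℝ) + 2) / 4) := by
  obtain ⟨C, hC0, hC⟩ := hS K Ω n hn
  exact ⟨C, hC0.le, hC⟩

/-- **Towers of degree `a` above arbitrary fields.** -/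
theorem TA_bound (I : Inp) (hS : SchmidtAll) (a : ℕ) : ∀ n : ℕ, 0 < n → a ∣ n → ∀ ε : ℝ, 0 < ε →
    HasBound (TA K Ω n a) (max 1 (3 / 4 + (n : ℝ) / (4 * (a : ℝ) ^ 2)) + ε) := by
  induction a using Nat.strong_induction_on with
  | _ a ih =>
    intro n hn hdvd ε hε
    have ha0 : 0 < a := Nat.pos_of_dvd_of_pos hdvd hn
    by_cases ha1 : a = 1
    · subst ha1
      refine (all_bound (K := K) (Ω := Ω) hS n hn).mono (fun L hL => hL.1) ?_
      have h1 : 3 / 4 + (n : ℝ) / (4 * ((1 : ℕ) : ℝ) ^ 2) ≤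
        max 1 (3 / 4 + (n : ℝ) / (4 * ((1 : ℕ) : ℝ) ^ 2)) := le_max_right _ _
      push_cast at h1 ⊢
      linarith
    · have hsub : TA K Ω n a ⊆ ⋃ ℓ ∈ a.primeFactors, GG ℓ (TA K Ω (n / ℓ) (a / ℓ)) := by
        intro L hL
        rcases TA_cases hn hL with h | ⟨ℓ, hℓ, h⟩
        · exact absurd h ha1
        · simp only [Set.mem_iUnion, exists_prop]
          exact ⟨ℓ, hℓ, h⟩
      refine HasBound.mono (HasBound.union a.primeFactors _ _ ?_) hsub le_rfl
      intro ℓ hℓ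
      have hp := Nat.mem_primeFactors.1 hℓ
      have hℓn : ℓ ∣ n := hp.2.1.trans hdvd
      have hn2 : 0 < n / ℓ := Nat.div_pos (Nat.le_of_dvd hn hℓn) hp.1.pos
      have ha2 : a / ℓ < a := Nat.div_lt_self ha0 hp.1.one_lt
      have hdvd2 : a / ℓ ∣ n / ℓ := Nat.div_dvd_div hp.2.1 hdvd
      have h := ih (a / ℓ) ha2 (n / ℓ) hn2 hdvd2 ε hε
      have hℓ0 : (0 : ℝ) < ℓ := by exact_mod_cast hp.1.pos
      have ha0' : (0 : ℝ) < a := by exact_mod_cast ha0
      have hn0' : (0 : ℝ) < n := by exact_mod_cast hn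
      have e1 : ((n / ℓ : ℕ) : ℝ) / (4 * ((a / ℓ : ℕ) : ℝ) ^ 2) =
          ℓ * ((n : ℝ) / (4 * (a : ℝ) ^ 2)) := by
        rw [Nat.cast_div hℓn hℓ0.ne', Nat.cast_div hp.2.1 hℓ0.ne']
        field_simp
      rw [e1] at h
      set t : ℝ := (n : ℝ) / (4 * (a : ℝ) ^ 2) with ht
      have ht0 : 0 < t := by positivity
      set θ : ℝ := max 1 (3 / 4 + ℓ * t) + ε with hθ
      have hθ0 : 0 < θ := by
        have : (1 : ℝ) ≤ max 1 (3 / 4 + ℓ * t) := le_max_left _ _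
        linarith
      have hm1 : (1 : ℝ) ≤ max 1 (3 / 4 + t) := le_max_left _ _
      have hm2 : 3 / 4 + t ≤ max 1 (3 / 4 + t) := le_max_right _ _
      refine HasBound.step I hn2 (fun F hF => hF.1) hθ0 h hp.1 ?_ ?_
      · split_ifs <;> linarith
      · by_cases h2 : ℓ = 2
        · rw [if_pos h2]
          have hl2 : (ℓ : ℝ) = 2 := by exact_mod_cast h2
          rw [hl2] at hθ
          rcases le_total (3 / 4 + 2 * t) 1 with h3 | h3
          · rw [max_eq_left h3] at hθ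
            linarith
          · rw [max_eq_right h3] at hθ
            linarith
        · rw [if_neg h2]
          have h3' : (3 : ℝ) ≤ ℓ := by
            have := hp.1.two_le
            exact_mod_cast (by omega : 3 ≤ ℓ)
          have hdiv : ε / ℓ ≤ ε / 3 := by
            apply div_le_div_of_nonneg_left hε.le (by norm_num) h3'
          rcases le_total (3 / 4 + ℓ * t) 1 with h3 | h3
          · rw [max_eq_left h3] at hθ
            have : θ / ℓ ≤ 1 / 3 + ε / 3 := by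
              rw [hθ, add_div]
              have : (1 : ℝ) / ℓ ≤ 1 / 3 := by
                apply div_le_div_of_nonneg_left (by norm_num) (by norm_num) h3'
              linarith
            linarith
          · rw [max_eq_right h3] at hθ
            have : θ / ℓ ≤ 1 / 4 + t + ε / 3 := by
              have e : θ / ℓ = 3 / 4 / ℓ + t + ε / ℓ := by
                rw [hθ]; field_simp
              rw [e]
              have : (3 / 4 : ℝ) / ℓ ≤ 3 / 4 / 3 := by
                apply div_le_div_of_nonneg_left (by norm_num) (by norm_num) h3'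
              linarith
            linarith

/-- **Towers of quadratic extensions above arbitrary fields.** -/
theorem TA_bound_two (I : Inp) (hS : SchmidtAll) (j : ℕ) : ∀ n : ℕ, 0 < n → 2 ^ j ∣ n →
    ∀ ε : ℝ, 0 < ε →
    HasBound (TA K Ω n (2 ^ j)) (max 1 (1 / 2 + (n : ℝ) / 4 ^ (j + 1)) + ε) := by
  induction j with
  | zero =>
    intro n hn hdvd ε hε
    refine (all_bound (K := K) (Ω := Ω) hS n hn).mono (fun L hL => hL.1) ?_
    have h1 : 1 / 2 + (n : ℝ) / 4 ^ (0 + 1) ≤ max 1 (1 / 2 + (n : ℝ) / 4 ^ (0 + 1)) :=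
      le_max_right _ _
    rw [zero_add, pow_one] at h1 ⊢
    linarith
  | succ j ih =>
    intro n hn hdvd ε hε
    have hsub : TA K Ω n (2 ^ (j + 1)) ⊆ GG 2 (TA K Ω (n / 2) (2 ^ j)) := by
      intro L hL
      rcases TA_cases hn hL with h | ⟨ℓ, hℓ, h⟩
      · exact absurd h (by
          have : 1 < 2 ^ (j + 1) := Nat.one_lt_two_pow (by omega)
          omega)
      · have hℓ2 : ℓ = 2 := by
          have hp := Nat.mem_primeFactors.1 hℓ
          exact (Nat.prime_dvd_prime_iff_eq hp.1 Nat.prime_two).1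
            (hp.1.dvd_of_dvd_pow hp.2.1)
        subst hℓ2
        have e : 2 ^ (j + 1) / 2 = 2 ^ j := by
          rw [pow_succ, Nat.mul_div_cancel _ (by norm_num)]
        rw [e] at h
        exact h
    have h2n : 2 ∣ n := (dvd_pow_self 2 (by omega)).trans hdvd
    obtain ⟨k, hk⟩ := h2n
    have hk0 : 0 < k := by omega
    have hn2 : n / 2 = k := by omega
    rw [hn2] at hsub
    have hdvd2 : 2 ^ j ∣ k := by
      rw [hk, pow_succ, mul_comm] at hdvd
      exact Nat.dvd_of_mul_dvd_mul_left (by norm_num) hdvd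
    have h := ih k hk0 hdvd2 ε hε
    have hnk : (n : ℝ) = 2 * k := by rw [hk]; push_cast; ring
    set t : ℝ := (k : ℝ) / 4 ^ (j + 1) with ht
    have e1 : (n : ℝ) / 4 ^ (j + 1 + 1) = t / 2 := by
      rw [hnk, ht, pow_succ]
      field_simp
      norm_num
    rw [e1]
    have hθ0 : 0 < max 1 (1 / 2 + t) + ε := by
      have : (1 : ℝ) ≤ max 1 (1 / 2 + t) := le_max_left _ _
      linarith
    have hm1 : (1 : ℝ) ≤ max 1 (1 / 2 + t / 2) := le_max_left _ _
    have hm2 : 1 / 2 + t / 2 ≤ max 1 (1 / 2 + t / 2) := le_max_right _ _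
    refine HasBound.mono (HasBound.step I hk0 (fun F hF => hF.1) hθ0 h Nat.prime_two ?_ ?_)
      hsub le_rfl
    · rw [if_pos rfl]; linarith
    · rw [if_pos rfl]
      rcases le_total (1 / 2 + t) 1 with h3 | h3
      · rw [max_eq_left h3]; linarith
      · rw [max_eq_right h3]; linarith

end

end Pool.Agent.Q258.LQ
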