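import Pool.Agent.Q258.LQ.Asm5

/-!
# Towers above arbitrary fields : asymptotics
-/

set_option autoImplicit false
set_option linter.unusedSectionVars false

open NumberField Filter Topology

namespace Pool.Agent.Q258.LQ

open Pool.Agent.TH444.ML

section

variable {K Ω : Type} [Field K] [NumberField K] [Field Ω] [Algebra K Ω] [IsAlgClosure K Ω]

theorem up_GG (𝓕 : Set (IntermediateField K Ω)) (k : ℕ) (hk : 0 < k)
    (hF : ∀ F ∈ 𝓕, Module.finrank K F = k) : Up 𝓕 ⊆ GG 2 𝓕 := by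
  rintro L ⟨F, hF', h, h2⟩
  have hdeg := hF F hF'
  have h3 : Module.finrank F (IntermediateField.extendScalars h) = 2 := by
    have h4 := finrank_extend h
    rw [h2, hdeg] at h4
    exact Nat.eq_of_mul_eq_mul_left hk (by rw [h4]; ring)
  have hq : Algebra.IsQuadraticExtension F (IntermediateField.extendScalars h) := ⟨h3⟩
  have hchar : CharZero F := algebraRat.charZero F
  have hnormal : Normal F (IntermediateField.extendScalars h) := inferInstance
  have hgal : IsGalois F (IntermediateField.extendScalars h) := ⟨⟩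
  exact ⟨F, hF', h, hgal, h3⟩

theorem GG_TA (n a ℓ : ℕ) (hℓ : ℓ.Prime) : GG ℓ (TA K Ω n a) ⊆ TA K Ω (ℓ * n) (ℓ * a) := by
  rintro L ⟨M, ⟨h1, F, hF, h2⟩, h, hg, h3⟩
  have hmul := finrank_extend h
  rw [h1, h3] at hmul
  refine ⟨by rw [← hmul]; ring, F, PTow.step hF h hg (by rw [h3]; exact hℓ), ?_⟩
  rw [← h2]
  ring

/-- **Asymptotics for the towers**, from bounds for the lower levels. -/
theorem TA_asymp (I : Inp) (k c : ℕ) (hk : 0 < k) (hc : 0 < c) (θ : ℝ) (hθ : θ < 3 / 2)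
    (hb : HasBound (TA K Ω k c) θ) (e : ℝ) (he : e < 1)
    (hodd : ∀ ℓ ∈ (2 * c).primeFactors, ℓ ≠ 2 →
      HasBound (GG ℓ (TA K Ω (2 * k / ℓ) (2 * c / ℓ))) e)
    (hne : (TA K Ω k c).Nonempty) :
    ∃ c0 : ℝ, 0 < c0 ∧ Tendsto (fun X : ℝ =>
      (Set.ncard {L : IntermediateField K Ω | L ∈ TA K Ω (2 * k) (2 * c) ∧ dsc L ≤ X} : ℝ) / X)
        atTop (𝓝 c0) := by
  classical
  obtain ⟨s, hs1, hs2, hs3⟩ : ∃ s : ℝ, max θ 1 < s ∧ s < 3 / 2 ∧ 1 < s := by
    refine ⟨(max θ 1 + 3 / 2) / 2, ?_, ?_, ?_⟩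
    · have : max θ 1 < 3 / 2 := max_lt hθ (by norm_num)
      linarith
    · have : max θ 1 < 3 / 2 := max_lt hθ (by norm_num)
      linarith
    · have : 1 ≤ max θ 1 := le_max_right _ _
      linarith
  have hsum : Summable (fun F : TA K Ω k c => (dsc F.1) ^ (-s)) := by
    obtain ⟨C, hC0, hC⟩ := hb.mono subset_rfl (le_max_left θ 1)
    refine I.sc K Ω (TA K Ω k c) C (max θ 1) s ?_ hs1 hC
    have : 1 ≤ max θ 1 := le_max_right _ _
    linarith
  obtain ⟨hfin, c0, hc0, hlim⟩ := quad_step I s hs2 (TA K Ω k c) k hk (fun F hF => hF.1) hne hsum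
  refine ⟨c0, hc0, ?_⟩
  set P : Finset ℕ := (2 * c).primeFactors.erase 2 with hP
  have hRb : HasBound (⋃ ℓ ∈ P, GG ℓ (TA K Ω (2 * k / ℓ) (2 * c / ℓ))) e := by
    refine HasBound.union P _ e ?_
    intro ℓ hℓ
    rw [hP, Finset.mem_erase] at hℓ
    exact hodd ℓ hℓ.2 hℓ.1
  set R : ℝ → Set (IntermediateField K Ω) := fun X =>
    {L | L ∈ (⋃ ℓ ∈ P, GG ℓ (TA K Ω (2 * k / ℓ) (2 * c / ℓ))) ∧ dsc L ≤ X} with hRdef
  obtain ⟨Ct, hCt0, hR⟩ := hRb
  have hlow : ∀ X : ℝ, UX (TA K Ω k c) X ⊆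
      {L : IntermediateField K Ω | L ∈ TA K Ω (2 * k) (2 * c) ∧ dsc L ≤ X} :=
    fun X L hL => ⟨GG_TA k c 2 Nat.prime_two
      (up_GG (TA K Ω k c) k hk (fun F hF => hF.1) hL.1), hL.2⟩
  have hupp : ∀ X : ℝ, {L : IntermediateField K Ω | L ∈ TA K Ω (2 * k) (2 * c) ∧ dsc L ≤ X} ⊆
      UX (TA K Ω k c) X ∪ R X := by
    rintro X L ⟨hL, hX⟩
    rcases TA_cases (by omega) hL with h | ⟨ℓ, hℓ, hG⟩
    · omega
    · by_cases h2' : ℓ = 2
      · left
        subst h2'
        rw [Nat.mul_div_cancel_left k (by norm_num), Nat.mul_div_cancel_left c (by norm_num)] at hG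
        exact ⟨GG_up (TA K Ω k c) hG, hX⟩
      · right
        refine ⟨?_, hX⟩
        simp only [Set.mem_iUnion, exists_prop]
        exact ⟨ℓ, by rw [hP]; exact Finset.mem_erase.2 ⟨h2', hℓ⟩, hG⟩
  have hlim2 : Tendsto (fun X : ℝ => (Set.ncard (UX (TA K Ω k c) X) : ℝ) / X +
      Ct * X ^ (-(1 - e) : ℝ)) atTop (𝓝 c0) := by
    have h1 : Tendsto (fun X : ℝ => Ct * X ^ (-(1 - e) : ℝ)) atTop (𝓝 0) := by
      have := (tendsto_rpow_neg_atTop (by linarith : (0 : ℝ) < 1 - e)).const_mul Ct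
      rwa [mul_zero] at this
    simpa using hlim.add h1
  refine tendsto_of_tendsto_of_tendsto_of_le_of_le' hlim hlim2 ?_ ?_
  · filter_upwards [eventually_ge_atTop (1 : ℝ)] with X hX
    have hX0 : 0 < X := by linarith
    have hf : {L : IntermediateField K Ω | L ∈ TA K Ω (2 * k) (2 * c) ∧ dsc L ≤ X}.Finite :=
      ((hfin X hX0).union (hR X hX).1).subset (hupp X)
    refine div_le_div_of_nonneg_right ?_ hX0.le
    exact_mod_cast Set.ncard_le_ncard (hlow X) hf
  · filter_upwards [eventually_ge_atTop (1 : ℝ)] with X hX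
    have hX0 : 0 < X := by linarith
    have h1 : Set.ncard {L : IntermediateField K Ω | L ∈ TA K Ω (2 * k) (2 * c) ∧ dsc L ≤ X} ≤
        Set.ncard (UX (TA K Ω k c) X) + Set.ncard (R X) :=
      (Set.ncard_le_ncard (hupp X) ((hfin X hX0).union (hR X hX).1)).trans
        (Set.ncard_union_le _ _)
    have h2 : (Set.ncard {L : IntermediateField K Ω | L ∈ TA K Ω (2 * k) (2 * c) ∧ dsc L ≤ X} :
        ℝ) ≤ Set.ncard (UX (TA K Ω k c) X) + Set.ncard (R X) := by
      exact_mod_cast h1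
    have h3 := (hR X hX).2
    have e' : X ^ e / X = X ^ (-(1 - e) : ℝ) := by
      rw [div_eq_mul_inv, ← Real.rpow_neg_one, ← Real.rpow_add hX0]
      congr 1
      ring
    calc (Set.ncard {L : IntermediateField K Ω | L ∈ TA K Ω (2 * k) (2 * c) ∧ dsc L ≤ X} : ℝ) / X
        ≤ (Set.ncard (UX (TA K Ω k c) X) + Ct * X ^ e) / X := by
          refine div_le_div_of_nonneg_right ?_ hX0.le
          linarith
      _ = (Set.ncard (UX (TA K Ω k c) X) : ℝ) / X + Ct * X ^ (-(1 - e) : ℝ) := by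
          rw [add_div, mul_div_assoc, e']

/-- existence of towers above a given field -/
theorem exists_above (F : IntermediateField K Ω) (hF : 0 < Module.finrank K F) (c : ℕ)
    (hc : 0 < c) : ∃ L : IntermediateField K Ω, PTow {F} L ∧
      Module.finrank K L = Module.finrank K F * c := by
  have hac : IsAlgClosed Ω := IsAlgClosure.isAlgClosed K
  induction c using Nat.strong_induction_on with
  | _ c ih =>
    by_cases h1 : c = 1
    · subst h1
      exact ⟨F, PTow.base rfl, by ring⟩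
    · have hp : (c.minFac).Prime := Nat.minFac_prime h1
      have hpos : 0 < c / c.minFac := Nat.div_pos (Nat.minFac_le hc) hp.pos
      obtain ⟨M, hM, hdeg⟩ := ih (c / c.minFac) (Nat.div_lt_self hc hp.one_lt) hpos
      have hMpos : 0 < Module.finrank K M := by rw [hdeg]; positivity
      have hfd : FiniteDimensional K M := FiniteDimensional.of_finrank_pos hMpos
      have hnf : NumberField M := nf_of_fd M
      obtain ⟨L', h2, h3⟩ := exCyc c.minFac hp M Ω
      have hle : M ≤ IntermediateField.restrictScalars K L' := by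
        intro x hx
        exact L'.algebraMap_mem ⟨x, hx⟩
      have hL : IntermediateField.extendScalars hle = L' := by
        apply IntermediateField.restrictScalars_injective K
        rfl
      refine ⟨IntermediateField.restrictScalars K L', PTow.step hM hle ?_ ?_, ?_⟩
      · rw [hL]; exact h3
      · rw [hL, h2]; exact hp
      · have h4 := finrank_extend hle
        rw [hL, h2, hdeg] at h4
        rw [← h4, mul_assoc, Nat.div_mul_cancel (Nat.minFac_dvd c)]

theorem TA_nonempty (r c : ℕ) (hr : 0 < r) (hc : 0 < c) : (TA K Ω (r * c) c).Nonempty := by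
  obtain ⟨F, hF⟩ := exists_PT ({⊥} : Set (IntermediateField K Ω)) rfl r hr
  obtain ⟨L, h1, h2⟩ := exists_above F (by rw [hF.2]; exact hr) c hc
  exact ⟨L, by rw [h2, hF.2], F, h1, by rw [hF.2]⟩

/-- **(A)** solvable towers of even degree `b` above arbitrary fields of degree `r < b` -/
theorem arb_even (I : Inp) (hS : SchmidtAll) (r b : ℕ) (hr : 0 < r) (hb : Even b) (hrb : r < b) :
    ∃ c0 : ℝ, 0 < c0 ∧ Tendsto (fun X : ℝ =>
      (Set.ncard {L : IntermediateField K Ω | L ∈ TA K Ω (r * b) b ∧ dsc L ≤ X} : ℝ) / X)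
        atTop (𝓝 c0) := by
  obtain ⟨c, hc⟩ := hb
  have hc0 : 0 < c := by omega
  have hb2 : b = 2 * c := by omega
  subst hb2
  have hn : r * (2 * c) = 2 * (r * c) := by ring
  rw [hn]
  have hr' : (0 : ℝ) < r := by exact_mod_cast hr
  have hc' : (0 : ℝ) < c := by exact_mod_cast hc0
  have hrc : (r : ℝ) < 2 * c := by exact_mod_cast hrb
  have hfrac : (r : ℝ) / (4 * c) < 1 / 2 := by
    rw [div_lt_iff₀ (by positivity)]; linarith
  have hfrac2 : (r : ℝ) / (8 * c) < 1 / 4 := by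
    rw [div_lt_iff₀ (by positivity)]; linarith
  -- the level below
  have h1 := TA_bound (K := K) (Ω := Ω) I hS c (r * c) (by positivity) (dvd_mul_left c r) (1 / 8)
    (by norm_num)
  have e1 : ((r * c : ℕ) : ℝ) / (4 * (c : ℝ) ^ 2) = (r : ℝ) / (4 * c) := by
    push_cast
    field_simp
  rw [e1] at h1
  refine TA_asymp I (r * c) c (by positivity) hc0 _ ?_ h1
    ((1 + max (5 / 6) (3 / 4 + (r : ℝ) / (8 * c))) / 2) ?_ ?_ (TA_nonempty r c hr hc0)
  · have : max 1 (3 / 4 + (r : ℝ) / (4 * c)) < 5 / 4 := max_lt (by norm_num) (by linarith)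
    linarith
  · have : max (5 / 6) (3 / 4 + (r : ℝ) / (8 * c)) < 1 := max_lt (by norm_num) (by linarith)
    linarith
  · intro ℓ hℓ hℓ2
    have hp := Nat.mem_primeFactors.1 hℓ
    have hm1 : (5 / 6 : ℝ) ≤ max (5 / 6) (3 / 4 + (r : ℝ) / (8 * c)) := le_max_left _ _
    have hm2 : 3 / 4 + (r : ℝ) / (8 * c) ≤ max (5 / 6) (3 / 4 + (r : ℝ) / (8 * c)) :=
      le_max_right _ _
    have hm3 : max (5 / 6) (3 / 4 + (r : ℝ) / (8 * c)) < 1 := max_lt (by norm_num) (by linarith)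
    set m0 : ℝ := max (5 / 6) (3 / 4 + (r : ℝ) / (8 * c)) with hm0
    have hℓn : ℓ ∣ 2 * (r * c) := by
      have : 2 * (r * c) = r * (2 * c) := by ring
      rw [this]
      exact hp.2.1.mul_left r
    have hn2 : 0 < 2 * (r * c) / ℓ :=
      Nat.div_pos (Nat.le_of_dvd (by positivity) hℓn) hp.1.pos
    have hdvd2 : 2 * c / ℓ ∣ 2 * (r * c) / ℓ := by
      refine Nat.div_dvd_div hp.2.1 ?_
      exact ⟨r, by ring⟩
    have h := TA_bound (K := K) (Ω := Ω) I hS (2 * c / ℓ) (2 * (r * c) / ℓ) hn2 hdvd2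
      ((1 - m0) / 2) (by linarith)
    have hℓ0 : (0 : ℝ) < ℓ := by exact_mod_cast hp.1.pos
    have h3' : (3 : ℝ) ≤ ℓ := by
      have := hp.1.two_le
      exact_mod_cast (by omega : 3 ≤ ℓ)
    have e2 : ((2 * (r * c) / ℓ : ℕ) : ℝ) / (4 * ((2 * c / ℓ : ℕ) : ℝ) ^ 2) =
        ℓ * ((r : ℝ) / (8 * c)) := by
      rw [Nat.cast_div hℓn hℓ0.ne', Nat.cast_div hp.2.1 hℓ0.ne']
      push_cast
      field_simp
      ring
    rw [e2] at h
    set t : ℝ := (r : ℝ) / (8 * c) with ht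
    have ht0 : 0 < t := by positivity
    set θ : ℝ := max 1 (3 / 4 + ℓ * t) + (1 - m0) / 2 with hθ
    have hθ0 : 0 < θ := by
      have : (1 : ℝ) ≤ max 1 (3 / 4 + ℓ * t) := le_max_left _ _
      linarith
    refine HasBound.step I hn2 (fun F hF => hF.1) hθ0 h hp.1 ?_ ?_
    · rw [if_neg hℓ2]; linarith
    · rw [if_neg hℓ2]
      have hε : 0 < (1 - m0) / 2 := by linarith
      have hdiv : (1 - m0) / 2 / ℓ ≤ (1 - m0) / 2 / 3 :=
        div_le_div_of_nonneg_left hε.le (by norm_num) h3'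
      rcases le_total (3 / 4 + ℓ * t) 1 with h3 | h3
      · rw [max_eq_left h3] at hθ
        have : θ / ℓ ≤ 1 / 3 + (1 - m0) / 2 / 3 := by
          rw [hθ, add_div]
          have : (1 : ℝ) / ℓ ≤ 1 / 3 :=
            div_le_div_of_nonneg_left (by norm_num) (by norm_num) h3'
          linarith
        linarith
      · rw [max_eq_right h3] at hθ
        have : θ / ℓ ≤ 1 / 4 + t + (1 - m0) / 2 / 3 := by
          have e : θ / ℓ = 3 / 4 / ℓ + t + (1 - m0) / 2 / ℓ := by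
            rw [hθ]; field_simp
          rw [e]
          have : (3 / 4 : ℝ) / ℓ ≤ 3 / 4 / 3 :=
            div_le_div_of_nonneg_left (by norm_num) (by norm_num) h3'
          linarith
        linarith

/-- **(B)** towers of `i` quadratic extensions above arbitrary fields of degree `r < 2 ^ (i + 1)` -/
theorem arb_two (I : Inp) (hS : SchmidtAll) (r i : ℕ) (hr : 0 < r) (hi : 1 ≤ i)
    (hri : r < 2 ^ (i + 1)) :
    ∃ c0 : ℝ, 0 < c0 ∧ Tendsto (fun X : ℝ =>
      (Set.ncard {L : IntermediateField K Ω | L ∈ TA K Ω (r * 2 ^ i) (2 ^ i) ∧ dsc L ≤ X} : ℝ) / X)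
        atTop (𝓝 c0) := by
  obtain ⟨j, rfl⟩ : ∃ j, i = j + 1 := ⟨i - 1, by omega⟩
  have hn : r * 2 ^ (j + 1) = 2 * (r * 2 ^ j) := by rw [pow_succ]; ring
  have hb : 2 ^ (j + 1) = 2 * 2 ^ j := by rw [pow_succ]; ring
  rw [hn, hb]
  have hr' : (0 : ℝ) < r := by exact_mod_cast hr
  have h2 : (r : ℝ) < 2 ^ (j + 1 + 1) := by exact_mod_cast hri
  set η : ℝ := 1 / 2 + (r : ℝ) / 2 ^ (j + 1 + 1) with hη
  have hη1 : η < 3 / 2 := by
    have : (r : ℝ) / 2 ^ (j + 1 + 1) < 1 := by rw [div_lt_one (by positivity)]; exact h2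
    linarith
  have hmax : max 1 η < 3 / 2 := max_lt (by norm_num) hη1
  have h1 := TA_bound_two (K := K) (Ω := Ω) I hS j (r * 2 ^ j) (by positivity)
    (dvd_mul_left _ r) ((3 / 2 - max 1 η) / 2) (by linarith)
  have e1 : 1 / 2 + ((r * 2 ^ j : ℕ) : ℝ) / 4 ^ (j + 1) = η := by
    rw [hη]
    push_cast
    have : (4 : ℝ) ^ (j + 1) = 2 ^ j * 2 ^ (j + 1 + 1) := by
      have : (4 : ℝ) = 2 ^ 2 := by norm_num
      rw [this, ← pow_mul, ← pow_add]
      congr 1
      ring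
    rw [this]
    field_simp
  rw [e1] at h1
  refine TA_asymp I (r * 2 ^ j) (2 ^ j) (by positivity) (by positivity) _ ?_ h1 0 (by norm_num)
    ?_ (TA_nonempty r (2 ^ j) hr (by positivity))
  · linarith
  · intro ℓ hℓ hℓ2
    exfalso
    have hp := Nat.mem_primeFactors.1 hℓ
    rw [← hb] at hp
    exact hℓ2 ((Nat.prime_dvd_prime_iff_eq hp.1 Nat.prime_two).1
      (hp.1.dvd_of_dvd_pow hp.2.1))

end

end Pool.Agent.Q258.LQ
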