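import Pool.Agent.Q258.LQ.Stm3

/-!
# Project LQ: AutP (a nontrivial automorphism gives a Galois step of prime degree)
-/

set_option autoImplicit false

open NumberField Filter Topology

namespace Pool.Agent.Q258.LQ

open Pool.Agent.TH444.ML

namespace AutP

variable {K Ω : Type} [Field K] [Field Ω] [Algebra K Ω]

theorem le1 {L : IntermediateField K Ω} (M : IntermediateField K L) :
    IntermediateField.lift M ≤ L :=
  IntermediateField.lift_le M

/-- the ring isomorphism of the lower fields -/
noncomputable def ff {L : IntermediateField K Ω} (M : IntermediateField K L) :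
    M ≃+* (IntermediateField.lift M : IntermediateField K Ω) :=
  (IntermediateField.liftAlgEquiv M).toRingEquiv

/-- the ring isomorphism of the upper fields -/
noncomputable def gg {L : IntermediateField K Ω} (M : IntermediateField K L) :
    L ≃+* (IntermediateField.extendScalars (le1 M)) where
  toFun x := ⟨(x : Ω), x.2⟩
  invFun x := ⟨(x : Ω), x.2⟩
  left_inv _ := rfl
  right_inv _ := rfl
  map_mul' _ _ := rfl
  map_add' _ _ := rfl

theorem comp1 {L : IntermediateField K Ω} (M : IntermediateField K L) :
    (algebraMap (IntermediateField.lift M : IntermediateField K Ω)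
      (IntermediateField.extendScalars (le1 M))).comp (ff M : M →+* _) =
    (gg M : _ →+* _).comp (algebraMap M L) :=
  RingHom.ext fun _ => Subtype.ext rfl

theorem main (L : IntermediateField K Ω) (hfd : FiniteDimensional K L)
    (hσ : ∃ σ : L ≃ₐ[K] L, σ ≠ 1) :
    ∃ M : IntermediateField K L, IsGalois M L ∧ (Module.finrank M L).Prime := by
  obtain ⟨σ, hσ⟩ := hσ
  have hne : Nat.card (L ≃ₐ[K] L) ≠ 1 := by
    intro h
    have h1 := (Nat.card_eq_one_iff_unique.1 h).1
    exact hσ (Subsingleton.elim _ _)
  obtain ⟨p, hp, hd⟩ := Nat.exists_prime_and_dvd hne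
  have : Fact p.Prime := ⟨hp⟩
  obtain ⟨τ, hτ⟩ := exists_prime_orderOf_dvd_card' p hd
  have hM : Module.finrank (IntermediateField.fixedField (Subgroup.zpowers τ)) L = p := by
    rw [IntermediateField.finrank_fixedField_eq_card, Nat.card_zpowers, hτ]
  refine ⟨IntermediateField.fixedField (Subgroup.zpowers τ), ?_, ?_⟩
  · apply IsGalois.of_card_aut_eq_finrank
    rw [IntermediateField.finrank_fixedField_eq_card]
    exact (Nat.card_congr (IntermediateField.subgroupEquivAlgEquiv (Subgroup.zpowers τ)).toEquiv).symm
  · rw [hM]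
    exact hp

end AutP

theorem autPrime : AutPrime := by
  intro K Ω _ _ _ L hfd hσ
  obtain ⟨M, hgal, hp⟩ := AutP.main L hfd hσ
  refine ⟨IntermediateField.lift M, AutP.le1 M, ?_, ?_⟩
  · exact IsGalois.of_equiv_equiv (f := AutP.ff M) (g := AutP.gg M) (AutP.comp1 M)
  · rw [← Algebra.finrank_eq_of_equiv_equiv (AutP.ff M) (AutP.gg M) (AutP.comp1 M)]
    exact hp

end Pool.Agent.Q258.LQ
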