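import Pool.Agent.Q258.LQ.Stm
import Pool.Agent.TH521.J3102
import Pool.Agent.TH263.J3086
import Pool.Agent.TH914.J3087

/-!
Job LQ-BadS of project LQ (helper258): the quadratic extensions with a second subfield of index two
are few. Adapted from `Pool.Agent.TH521.J3102`.
-/

set_option autoImplicit false

open NumberField Filter Topology Pool.Agent.TH444.ML

namespace Pool.Agent.Q258.LQ.BadS

section transport

variable {K M N : Type} [Field K] [NumberField K] [Field M] [NumberField M] [Field N]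
  [NumberField N] [Algebra K M] [Algebra K N]

omit [NumberField K] [NumberField M] [NumberField N] [Field K] [Algebra K M] [Algebra K N] in
lemma map_symm_map (E : 𝓞 M ≃+* 𝓞 N) (I : Ideal (𝓞 M)) :
    (I.map (E : 𝓞 M →+* 𝓞 N)).map (E.symm : 𝓞 N →+* 𝓞 M) = I :=
  Ideal.map_of_equiv E

lemma sqf_map (E : 𝓞 M ≃+* 𝓞 N) (𝔡 : Ideal (𝓞 M)) (h : Squarefree 𝔡) :
    Squarefree (𝔡.map (E : 𝓞 M →+* 𝓞 N)) := by
  intro x hx
  have h1 : x.map (E.symm : 𝓞 N →+* 𝓞 M) * x.map (E.symm : 𝓞 N →+* 𝓞 M) ∣ 𝔡 := by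
    rw [← Ideal.map_mul]
    have h2 := Ideal.map_mono (f := (E.symm : 𝓞 N →+* 𝓞 M)) (Ideal.dvd_iff_le.1 hx)
    rw [map_symm_map] at h2
    exact Ideal.dvd_iff_le.2 h2
  have h2 := Ideal.isUnit_iff.1 (h _ h1)
  rw [Ideal.isUnit_iff]
  have h3 := map_symm_map E.symm x
  rw [h2, Ideal.map_top] at h3
  exact h3.symm

lemma comap_primesOver (E : 𝓞 M ≃ₐ[𝓞 K] 𝓞 N) (p : Ideal (𝓞 K)) (Q : Ideal (𝓞 N))
    (hQ : Q ∈ p.primesOver (𝓞 N)) : Q.comap (E : 𝓞 M →+* 𝓞 N) ∈ p.primesOver (𝓞 M) := by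
  obtain ⟨h1, h2⟩ := hQ
  refine ⟨Ideal.comap_isPrime _ _, ⟨?_⟩⟩
  rw [h2.over, Ideal.under, Ideal.under, Ideal.comap_comap]
  congr 1
  ext x
  simp

lemma comap_comap_symm (E : 𝓞 M ≃ₐ[𝓞 K] 𝓞 N) (P : Ideal (𝓞 M)) :
    (P.comap (E.symm : 𝓞 N →+* 𝓞 M)).comap (E : 𝓞 M →+* 𝓞 N) = P := by
  ext x
  simp [Ideal.mem_comap]

lemma ncard_primesOver (E : 𝓞 M ≃ₐ[𝓞 K] 𝓞 N) (p : Ideal (𝓞 K)) :
    Set.ncard (p.primesOver (𝓞 N)) = Set.ncard (p.primesOver (𝓞 M)) := by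
  refine Set.ncard_congr (fun Q _ => Q.comap (E : 𝓞 M →+* 𝓞 N)) ?_ ?_ ?_
  · intro Q hQ
    exact comap_primesOver E p Q hQ
  · intro Q Q' _ _ h
    have h1 := congrArg (fun I => Ideal.comap (E.symm : 𝓞 N →+* 𝓞 M) I) h
    change Ideal.comap (E.symm : 𝓞 N →+* 𝓞 M) (Q.comap (E : 𝓞 M →+* 𝓞 N)) =
      Ideal.comap (E.symm : 𝓞 N →+* 𝓞 M) (Q'.comap (E : 𝓞 M →+* 𝓞 N)) at h1
    have h2 := comap_comap_symm E.symm Q
    have h3 := comap_comap_symm E.symm Q'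
    rw [AlgEquiv.symm_symm] at h2 h3
    rw [h2, h3] at h1
    exact h1
  · intro P hP
    exact ⟨P.comap (E.symm : 𝓞 N →+* 𝓞 M), comap_primesOver E.symm p P hP, comap_comap_symm E P⟩

lemma bad2_of (e : M ≃ₐ[K] N) (E : 𝓞 M ≃ₐ[𝓞 K] 𝓞 N) (𝔡 : Ideal (𝓞 M))
    (h : 𝔡.map (E : 𝓞 M →+* 𝓞 N) ∈ bad2 K N) : 𝔡 ∈ bad2 K M := by
  obtain ⟨h1, h2⟩ := h
  refine ⟨?_, ?_⟩
  · have h3 := sqf_map (E.symm : 𝓞 N ≃+* 𝓞 M) _ h1
    have h4 := map_symm_map (E : 𝓞 M ≃+* 𝓞 N) 𝔡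
    exact h4 ▸ h3
  · intro p hp hp0 hp2 hc hex
    refine h2 p hp hp0 hp2 ?_ ?_
    · rw [ncard_primesOver E p, hc]
      exact e.toLinearEquiv.finrank_eq
    · obtain ⟨P, ⟨hP, hPd⟩, hu⟩ := hex
      have hiff : ∀ Q : Ideal (𝓞 N), Q ∣ 𝔡.map (E : 𝓞 M →+* 𝓞 N) ↔
          Q.comap (E : 𝓞 M →+* 𝓞 N) ∣ 𝔡 := by
        intro Q
        rw [Ideal.dvd_iff_le, Ideal.dvd_iff_le, Ideal.map_le_iff_le_comap]
      refine ⟨P.comap (E.symm : 𝓞 N →+* 𝓞 M), ⟨comap_primesOver E.symm p P hP, ?_⟩, ?_⟩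
      · rw [hiff, comap_comap_symm]
        exact hPd
      · intro Q hQ
        have h5 := hu _ ⟨comap_primesOver E p Q hQ.1, (hiff Q).1 hQ.2⟩
        rw [← h5]
        have h6 := comap_comap_symm E.symm Q
        rw [AlgEquiv.symm_symm] at h6
        exact h6.symm

end transport


section

variable (K Ω : Type) [Field K] [NumberField K] [Field Ω] [Algebra K Ω] [IsAlgClosure K Ω]
  (M : IntermediateField K Ω) [FiniteDimensional K M]

/-- the set to be counted -/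
def SY (Y : ℝ) : Set (IntermediateField K Ω) :=
  {L : IntermediateField K Ω | M ≤ L ∧
      Module.finrank K L = 2 * Module.finrank K M ∧
      (∃ F' : IntermediateField K Ω, F' ≤ L ∧ F' ≠ M ∧
        Module.finrank K F' = Module.finrank K M) ∧ dsc L ≤ Y * dsc M ^ 2}

/-- the squarefree part of a generator is bad -/
lemma bad_of (h1 : UniqBad) [NumberField M] (L : IntermediateField K Ω) [NumberField L]
    (hML : M ≤ L) (hfin : Module.finrank K L = 2 * Module.finrank K M)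
    (F' : IntermediateField K Ω) (hF'L : F' ≤ L) (hF'M : F' ≠ M)
    (hF' : Module.finrank K F' = Module.finrank K M)
    (α : 𝓞 M) (s : Ω) (𝔡 𝔠 : Ideal (𝓞 M)) (hs : s ^ 2 = algebraMap M Ω (α : M)) (hsM : s ∉ M)
    (hsL : s ∈ L) (hα : α ≠ 0) (hsq : Squarefree 𝔡) (hspan : Ideal.span {α} = 𝔡 * 𝔠 ^ 2) :
    𝔡 ∈ bad2 K M := by
  let e : M ≃ₐ[K] IntermediateField.restrict hML := IntermediateField.restrictAlgEquiv hML
  let e' : F' ≃ₐ[K] IntermediateField.restrict hF'L := IntermediateField.restrictAlgEquiv hF'L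
  let E : 𝓞 M ≃ₐ[𝓞 K] 𝓞 (IntermediateField.restrict hML) := RingOfIntegers.mapAlgEquiv e
  have he : ∀ x : M, (((e x : IntermediateField.restrict hML) : L) : Ω) = x := fun x => rfl
  have hE : ∀ x : 𝓞 M, ((E x : 𝓞 (IntermediateField.restrict hML)) :
      IntermediateField.restrict hML) = e (x : M) := fun x => rfl
  refine bad2_of e E 𝔡 (h1 K L (IntermediateField.restrict hML) (IntermediateField.restrict hF'L)
    ?_ ?_ ?_ (E α) ⟨s, hsL⟩ (𝔡.map (E : 𝓞 M →+* 𝓞 (IntermediateField.restrict hML)))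
    (𝔠.map (E : 𝓞 M →+* 𝓞 (IntermediateField.restrict hML))) ?_ ?_ ?_ ?_ ?_)
  · rw [hfin, e.toLinearEquiv.finrank_eq]
  · rw [← e.toLinearEquiv.finrank_eq, ← e'.toLinearEquiv.finrank_eq, hF']
  · intro h
    apply hF'M
    rw [← IntermediateField.lift_restrict hF'L, h, IntermediateField.lift_restrict hML]
  · apply Subtype.ext
    rw [hE, he]
    exact hs
  · rw [IntermediateField.mem_restrict]
    exact hsM
  · intro h
    exact hα ((map_eq_zero_iff E E.injective).1 h)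
  · exact sqf_map (E : 𝓞 M ≃+* 𝓞 (IntermediateField.restrict hML)) 𝔡 hsq
  · have h2 := congrArg (Ideal.map (E : 𝓞 M →+* 𝓞 (IntermediateField.restrict hML))) hspan
    rw [Ideal.map_span, Set.image_singleton, Ideal.map_mul, Ideal.map_pow] at h2
    exact h2

lemma data (h2 : KumP) (h1 : UniqBad) [NumberField M]
    (k : Ideal (𝓞 M) → 𝓞 M → ℕ) (hk : IsK M k) (rep : ClassGroup (𝓞 M) → Ideal (𝓞 M))
    (hrep : Rep M rep) (Y : ℝ) (L : IntermediateField K Ω) (hL : L ∈ SY K Ω M Y) :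
    ∃ (C : ClassGroup (𝓞 M)) (α : 𝓞 M) (s : Ω) (𝔡 : Ideal (𝓞 M)), α ≠ 0 ∧
      Ideal.span {α} = 𝔡 * rep C ^ 2 ∧ s ^ 2 = algebraMap M Ω (α : M) ∧
      L = (IntermediateField.adjoin M {s}).restrictScalars K ∧ 𝔡 ∈ bad2 K M ∧
      (Ideal.absNorm 𝔡 : ℝ) ≤ 4 ^ (Module.finrank ℚ M) * Y := by
  obtain ⟨hML, hfin, ⟨F', hF'L, hF'M, hF'⟩, hdsc⟩ := hL
  have : IsAlgClosed Ω := IsAlgClosure.isAlgClosed K
  have hL' := Pool.Agent.TH521.J3102.finrank_ext K Ω M L hML hfin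
  obtain ⟨C, α, s, ⟨hα0, 𝔡, hsq, hspan⟩, hs, hsM, hadj⟩ := (h2 M Ω rep hrep).1 _ hL'
  have hLeq : L = (IntermediateField.adjoin M {s}).restrictScalars K := by
    rw [← hadj, IntermediateField.extendScalars_restrictScalars]
  have hsup : L = M ⊔ IntermediateField.adjoin K {s} := by
    rw [hLeq, IntermediateField.restrictScalars_adjoin, IntermediateField.adjoin_union,
      IntermediateField.adjoin_self]
  have hsM' : s ∉ M := fun h => hsM ⟨s, h⟩ rfl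
  have hα0' : (α : M) ≠ 0 := fun h => hα0 (RingOfIntegers.coe_eq_zero_iff.mp h)
  have hMpos : 0 < Module.finrank K M := Module.finrank_pos
  have hKL : FiniteDimensional K L := Module.finite_of_finrank_pos (by rw [hfin]; omega)
  have hNL : NumberField L := NumberField.of_module_finite K L
  let _ : Algebra M L := (IntermediateField.inclusion hML).toAlgebra
  have htower : IsScalarTower K M L := IsScalarTower.of_algebraMap_eq fun x => rfl
  have hf2 : Module.finrank M L = 2 := by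
    have h5 := Module.finrank_mul_finrank K M L
    rw [hfin] at h5
    exact Nat.eq_of_mul_eq_mul_left hMpos (by rw [h5]; ring)
  have hsL : s ∈ L := by
    rw [hsup]
    exact (le_sup_right : IntermediateField.adjoin K {s} ≤ _)
      (IntermediateField.mem_adjoin_simple_self K s)
  have hbad := bad_of K Ω M h1 L hML hfin F' hF'L hF'M hF' α s 𝔡 (rep C) hs hsM' hsL hα0 hsq hspan
  have hd := hk.disc L (⟨s, hsL⟩ : L) α 𝔡 (rep C) hf2 (by
      apply Subtype.ext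
      exact hs) (by
      intro x hx
      exact hsM x (congrArg Subtype.val hx)) hα0 hsq hspan
  have hrc : rep C ≠ ⊥ := by
    obtain ⟨h, _⟩ := hrep C
    exact nonZeroDivisors.ne_zero h
  have hkle := hk.le (rep C) α hrc
  have e1 : dsc L = ((discr L).natAbs : ℝ) := by
    unfold dsc
    rw [dif_pos hNL, Nat.cast_natAbs]
  have e2 : dsc M = ((discr M).natAbs : ℝ) := by
    unfold dsc
    rw [dif_pos ‹NumberField M›, Nat.cast_natAbs]
  rw [e1, e2] at hdsc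
  have hdM : (0 : ℝ) < ((discr M).natAbs : ℝ) := by
    have : 0 < (discr M).natAbs := Int.natAbs_pos.mpr (discr_ne_zero M)
    exact_mod_cast this
  have hd' : ((discr L).natAbs : ℝ) * (k (rep C) α : ℝ) ^ 2 =
      4 ^ Module.finrank ℚ M * ((discr M).natAbs : ℝ) ^ 2 * (Ideal.absNorm 𝔡 : ℝ) := by
    exact_mod_cast hd
  have hk' : (k (rep C) α : ℝ) ^ 2 ≤ (4 ^ Module.finrank ℚ M : ℝ) ^ 2 := by
    have : (k (rep C) α : ℝ) ≤ (4 ^ Module.finrank ℚ M : ℝ) := by exact_mod_cast hkle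
    exact pow_le_pow_left₀ (Nat.cast_nonneg _) this 2
  have h4D : (0 : ℝ) < 4 ^ Module.finrank ℚ M := by positivity
  refine ⟨C, α, s, 𝔡, hα0, hspan, hs, hLeq, hbad, ?_⟩
  have h6 : 4 ^ Module.finrank ℚ M * ((discr M).natAbs : ℝ) ^ 2 * (Ideal.absNorm 𝔡 : ℝ) ≤
      (Y * ((discr M).natAbs : ℝ) ^ 2) * (4 ^ Module.finrank ℚ M : ℝ) ^ 2 := by
    rw [← hd']
    exact mul_le_mul hdsc hk' (by positivity) ((Nat.cast_nonneg _).trans hdsc)
  have h7 : 0 < (4 : ℝ) ^ Module.finrank ℚ M * ((discr M).natAbs : ℝ) ^ 2 := by positivity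
  have h8 : 4 ^ Module.finrank ℚ M * ((discr M).natAbs : ℝ) ^ 2 * (Ideal.absNorm 𝔡 : ℝ) ≤
      4 ^ Module.finrank ℚ M * ((discr M).natAbs : ℝ) ^ 2 * (4 ^ Module.finrank ℚ M * Y) := by
    calc _ ≤ _ := h6
      _ = _ := by ring
  exact le_of_mul_le_mul_left h8 h7

/-- bad ideals of bounded norm -/
def TZ [NumberField M] (Z : ℝ) : Set (Ideal (𝓞 M)) :=
  {𝔡 : Ideal (𝓞 M) | 𝔡 ∈ bad2 K M ∧ (Ideal.absNorm 𝔡 : ℝ) ≤ Z}

omit [IsAlgClosure K Ω] [FiniteDimensional K M] in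
lemma TZ_fin [NumberField M] (Z : ℝ) : (TZ K Ω M Z).Finite := by
  refine (Ideal.finite_setOfPred_absNorm_le (S := 𝓞 M) ⌊Z⌋₊).subset ?_
  intro 𝔡 h
  exact Nat.le_floor h.2

lemma count (h2 : KumP) (h1 : UniqBad) [NumberField M]
    (k : Ideal (𝓞 M) → 𝓞 M → ℕ) (hk : IsK M k) (rep : ClassGroup (𝓞 M) → Ideal (𝓞 M))
    (hrep : Rep M rep) (Y : ℝ) :
    (SY K Ω M Y).ncard ≤ (TZ K Ω M (4 ^ (Module.finrank ℚ M) * Y)).ncard *
      (Set.univ : Set (ClassGroup (𝓞 M) × Pool.Agent.TH521.J3102.USq M)).ncard := by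
  classical
  have hdat := data K Ω M h2 h1 k hk rep hrep Y
  choose! C α s 𝔡 h5 h6 h7 h8 h9 h10 using hdat
  obtain ⟨ρ, hρ⟩ : ∃ ρ : Ideal (𝓞 M) → ClassGroup (𝓞 M) → IntermediateField K Ω,
      ∀ L ∈ SY K Ω M Y, ρ (𝔡 L) (C L) ∈ SY K Ω M Y ∧ 𝔡 (ρ (𝔡 L) (C L)) = 𝔡 L ∧
        C (ρ (𝔡 L) (C L)) = C L := by
    refine ⟨fun d c => if h : ∃ L, L ∈ SY K Ω M Y ∧ 𝔡 L = d ∧ C L = c then h.choose else ⊥,
      fun L hL => ?_⟩
    have h : ∃ L', L' ∈ SY K Ω M Y ∧ 𝔡 L' = 𝔡 L ∧ C L' = C L := ⟨L, hL, rfl, rfl⟩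
    simp only [dif_pos h]
    exact h.choose_spec
  have hu : ∀ L ∈ SY K Ω M Y, ∃ u : (𝓞 M)ˣ, α L = α (ρ (𝔡 L) (C L)) * u := by
    intro L hL
    obtain ⟨h11, h12, h13⟩ := hρ L hL
    have h14 := h6 _ h11
    rw [h12, h13, ← h6 L hL, Ideal.span_singleton_eq_span_singleton] at h14
    obtain ⟨u, hu⟩ := h14
    exact ⟨u, hu.symm⟩
  choose! u hu using hu
  have hfin : (TZ K Ω M (4 ^ (Module.finrank ℚ M) * Y)).Finite := TZ_fin K Ω M _
  have hfU : Finite (Pool.Agent.TH521.J3102.USq M) := Pool.Agent.TH521.J3102.finite_USq M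
  rw [← Set.ncard_prod]
  refine Set.ncard_le_ncard_of_injOn (fun L => (𝔡 L, (C L, (QuotientGroup.mk (u L) : Pool.Agent.TH521.J3102.USq M))))
    ?_ ?_ (hfin.prod Set.finite_univ)
  · intro L hL
    exact ⟨⟨h9 L hL, h10 L hL⟩, Set.mem_univ _⟩
  · intro L hL L' hL' he
    simp only [Prod.mk.injEq] at he
    obtain ⟨e1, e2, e3⟩ := he
    obtain ⟨w, hw⟩ := Pool.Agent.TH521.J3102.USq_eq M _ _ e3
    have h11 := hu L hL
    have h12 := hu L' hL'
    rw [← e1, ← e2, hw] at h12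
    have h13 : α L' = (w : 𝓞 M) ^ 2 * α L := by
      rw [h12, h11]
      push_cast
      ring
    rw [h8 L hL, h8 L' hL', Pool.Agent.TH521.J3102.same K Ω M (α L) (α L') (s L) (s L') (h7 L hL) (h7 L' hL') w h13]

end

end Pool.Agent.Q258.LQ.BadS

namespace Pool.Agent.Q258.LQ

open Pool.Agent.Q258.LQ.BadS

/-- the quadratic extensions with a second subfield of index two are few -/
theorem badSmall2 (h1 : UniqBad) (h2 : Sieve2) : BadSmall2 := by
  intro K Ω _ _ _ _ _ M _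
  have hNM : NumberField M := NumberField.of_module_finite K M
  obtain ⟨k, hk⟩ := Pool.Agent.TH263.J3086.discQuad M
  obtain ⟨rep, hrep⟩ := Pool.Agent.TH521.J3102.exists_rep M
  have hc := count K Ω M Pool.Agent.TH914.J3087.kumP h1 k hk rep hrep
  obtain ⟨D, hD⟩ : ∃ D : ℝ, D = 4 ^ (Module.finrank ℚ M) := ⟨_, rfl⟩
  obtain ⟨c, hc0⟩ : ∃ c : ℕ, c =
      (Set.univ : Set (ClassGroup (𝓞 M) × Pool.Agent.TH521.J3102.USq M)).ncard := ⟨_, rfl⟩
  have hDpos : 0 < D := by rw [hD]; positivity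
  have h6 := h2 K M
  have h7 : Tendsto (fun Y : ℝ => D * Y) atTop atTop := tendsto_id.const_mul_atTop hDpos
  have h8 := (h6.comp h7).mul_const (D * c)
  rw [zero_mul] at h8
  refine squeeze_zero' ?_ ?_ h8
  · filter_upwards [eventually_gt_atTop 0] with Y hY
    positivity
  · filter_upwards [eventually_gt_atTop 0] with Y hY
    have h9 := hc Y
    rw [← hD, ← hc0] at h9
    have h10 : ((SY K Ω M Y).ncard : ℝ) ≤ ((TZ K Ω M (D * Y)).ncard : ℝ) * c := by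
      exact_mod_cast h9
    have h11 : ((SY K Ω M Y).ncard : ℝ) / Y ≤ ((TZ K Ω M (D * Y)).ncard : ℝ) / (D * Y) * (D * c) := by
      rw [div_mul_eq_mul_div, div_le_div_iff₀ hY (by positivity)]
      calc ((SY K Ω M Y).ncard : ℝ) * (D * Y) ≤
          (((TZ K Ω M (D * Y)).ncard : ℝ) * c) * (D * Y) :=
            mul_le_mul_of_nonneg_right h10 (by positivity)
        _ = _ := by ring
    exact h11

end Pool.Agent.Q258.LQ
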