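import Pool.Agent.Q258.LQ.Stm3

/-!
# Integers of bounded size, uniformly in the field
-/

set_option autoImplicit false

open NumberField Filter Topology Pool.Agent.TH444.ML

namespace Pool.Agent.Q258.LQ.BoxU

open Module NumberField.InfinitePlace

lemma floor_bd {t B : ℝ} (hB : 1 ≤ B) (ht : |t| ≤ B) : ⌊2 * t⌋ ∈ Finset.Icc (-⌊3 * B⌋) ⌊3 * B⌋ := by
  rw [abs_le] at ht
  rw [Finset.mem_Icc]
  constructor
  · rw [neg_le, Int.le_floor]
    push_cast
    have := Int.lt_floor_add_one (2 * t)
    linarith [ht.1]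
  · exact Int.floor_le_floor (by linarith [ht.2])

lemma floor_eq {s t : ℝ} (h : ⌊2 * s⌋ = ⌊2 * t⌋) : |s - t| < 1 / 2 := by
  have := Int.abs_sub_lt_one_of_floor_eq_floor h
  rw [← mul_sub, abs_mul, abs_of_pos (by norm_num : (0 : ℝ) < 2)] at this
  linarith

variable (M : Type) [Field M] [NumberField M]

open scoped Classical in
/-- the floors of the coordinates -/
noncomputable def g (y : 𝓞 M) :
    ({w : InfinitePlace M // IsReal w} → ℤ) × ({w : InfinitePlace M // IsComplex w} → ℤ × ℤ) :=
  (fun w => ⌊2 * (w.1.embedding (y : M)).re⌋,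
    fun w => (⌊2 * (w.1.embedding (y : M)).re⌋, ⌊2 * (w.1.embedding (y : M)).im⌋))

lemma g_inj : Function.Injective (g M) := by
  intro a b hab
  by_contra hne
  have hsub : a - b ≠ 0 := sub_ne_zero.2 hne
  have hlt : ∀ w : InfinitePlace M, w ((a - b : 𝓞 M) : M) < 1 := by
    intro w
    rw [← norm_embedding_eq]
    have e : w.embedding ((a - b : 𝓞 M) : M) = w.embedding (a : M) - w.embedding (b : M) := by
      rw [← map_sub]
      rfl
    rw [e]
    rcases w.isReal_or_isComplex with hw | hw
    · have h1 : ⌊2 * (w.embedding (a : M)).re⌋ = ⌊2 * (w.embedding (b : M)).re⌋ :=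
        congrFun (congrArg Prod.fst hab) ⟨w, hw⟩
      have h2 := floor_eq h1
      have h3 : ∀ x : M, (w.embedding x).im = 0 := by
        intro x
        have h4 := isReal_iff.1 hw
        have h5 := ComplexEmbedding.isReal_iff.1 h4
        have h6 : (starRingEnd ℂ) (w.embedding x) = w.embedding x := RingHom.congr_fun h5 x
        exact Complex.conj_eq_iff_im.1 h6
      calc ‖w.embedding (a : M) - w.embedding (b : M)‖
          ≤ |(w.embedding (a : M) - w.embedding (b : M)).re| +
            |(w.embedding (a : M) - w.embedding (b : M)).im| := Complex.norm_le_abs_re_add_abs_im _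
        _ < 1 := by
            rw [Complex.sub_re, Complex.sub_im, h3, h3]
            simp only [sub_zero, abs_zero, add_zero]
            linarith
    · have h1 : ((⌊2 * (w.embedding (a : M)).re⌋, ⌊2 * (w.embedding (a : M)).im⌋) : ℤ × ℤ) =
          (⌊2 * (w.embedding (b : M)).re⌋, ⌊2 * (w.embedding (b : M)).im⌋) :=
        congrFun (congrArg Prod.snd hab) ⟨w, hw⟩
      have h2 := floor_eq (congrArg Prod.fst h1)
      have h3 := floor_eq (congrArg Prod.snd h1)
      calc ‖w.embedding (a : M) - w.embedding (b : M)‖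
          ≤ |(w.embedding (a : M) - w.embedding (b : M)).re| +
            |(w.embedding (a : M) - w.embedding (b : M)).im| := Complex.norm_le_abs_re_add_abs_im _
        _ < 1 := by
            rw [Complex.sub_re, Complex.sub_im]
            linarith
  obtain ⟨w0⟩ : Nonempty (InfinitePlace M) := inferInstance
  have h1 : 1 ≤ w0 ((a - b : 𝓞 M) : M) := one_le_of_lt_one hsub fun z _ => hlt z
  exact absurd h1 (not_le.2 (hlt w0))

end Pool.Agent.Q258.LQ.BoxU

namespace Pool.Agent.Q258.LQ

open Module NumberField.InfinitePlace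

theorem boxU : BoxU := by
  classical
  intro D
  refine ⟨7 ^ D, by positivity, ?_⟩
  intro M _ _ hD B hB
  set S : Set (𝓞 M) := {y : 𝓞 M | ∀ w : InfinitePlace M, w (y : M) ≤ B} with hS
  set N : ℤ := ⌊3 * B⌋ with hN
  set T : Finset (({w : InfinitePlace M // IsReal w} → ℤ) ×
      ({w : InfinitePlace M // IsComplex w} → ℤ × ℤ)) :=
    (Fintype.piFinset fun _ => Finset.Icc (-N) N) ×ˢ
      (Fintype.piFinset fun _ => Finset.Icc (-N) N ×ˢ Finset.Icc (-N) N) with hT
  have hmaps : ∀ a ∈ S, BoxU.g M a ∈ T := by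
    intro a ha
    have hre : ∀ w : InfinitePlace M, |(w.embedding (a : M)).re| ≤ B := fun w =>
      (Complex.abs_re_le_norm _).trans ((norm_embedding_eq w _).le.trans (ha w))
    have him : ∀ w : InfinitePlace M, |(w.embedding (a : M)).im| ≤ B := fun w =>
      (Complex.abs_im_le_norm _).trans ((norm_embedding_eq w _).le.trans (ha w))
    rw [hT, Finset.mem_product]
    refine ⟨?_, ?_⟩
    · rw [Fintype.mem_piFinset]
      intro w
      exact BoxU.floor_bd hB (hre w.1)
    · rw [Fintype.mem_piFinset]
      intro w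
      rw [Finset.mem_product]
      exact ⟨BoxU.floor_bd hB (hre w.1), BoxU.floor_bd hB (him w.1)⟩
  have hN1 : 1 ≤ N := by rw [hN, Int.le_floor]; push_cast; linarith
  have hcard : (T.card : ℝ) ≤ 7 ^ D * B ^ D := by
    rw [hT, Finset.card_product, Fintype.card_piFinset, Fintype.card_piFinset, Finset.prod_const,
      Finset.prod_const, Finset.card_univ, Finset.card_univ, Finset.card_product, Int.card_Icc]
    have h1 := card_add_two_mul_card_eq_rank M
    rw [hD] at h1
    unfold nrRealPlaces nrComplexPlaces at h1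
    rw [← h1, ← mul_pow, pow_add, pow_mul]
    push_cast
    have e : (((N + 1 - -N).toNat : ℕ) : ℝ) = 2 * N + 1 := by
      have h5 : (((N + 1 - -N).toNat : ℕ) : ℤ) = 2 * N + 1 := by
        rw [Int.toNat_of_nonneg (by omega)]; ring
      exact_mod_cast h5
    have h6 : (N : ℝ) ≤ 3 * B := Int.floor_le _
    have h7 : (((N + 1 - -N).toNat : ℕ) : ℝ) ≤ 7 * B := by
      rw [e]
      linarith
    refine mul_le_mul (pow_le_pow_left₀ (by positivity) h7 _)
      (pow_le_pow_left₀ (by positivity) ?_ _) (by positivity) (by positivity)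
    rw [← pow_two]
    exact pow_le_pow_left₀ (by positivity) h7 _
  have hfin : S.Finite :=
    Set.Finite.of_injOn (f := BoxU.g M) (t := (T : Set _)) (fun a ha => hmaps a ha)
      (BoxU.g_inj M).injOn T.finite_toSet
  refine ⟨hfin, le_trans ?_ hcard⟩
  have h2 : S.ncard ≤ (T : Set _).ncard :=
    Set.ncard_le_ncard_of_injOn (BoxU.g M) (fun a ha => hmaps a ha) (BoxU.g_inj M).injOn
      T.finite_toSet
  rw [Set.ncard_coe_finset] at h2
  exact_mod_cast h2

end Pool.Agent.Q258.LQ
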