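import Pool.Agent.Q258.LQ.Stm2
import Pool.Agent.TH293.J3093

/-!
# The class number (helper299)
-/

set_option autoImplicit false

open NumberField Filter Topology

namespace Pool.Agent.Q258.LQ

open Pool.Agent.TH444.ML

open Pool.Agent.TH293.J3093 (exists_rep disc_pos)

theorem classNum (h : IdealUnif2) : ClassNum := by
  classical
  intro D ε hε
  obtain ⟨CI, hCI0, hCI⟩ := h D (2 * ε) (by positivity)
  refine ⟨CI * (2 ^ D) ^ (1 + 2 * ε : ℝ), by positivity, ?_⟩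
  intro M _ _ hD
  set d : ℝ := ((|discr M| : ℤ) : ℝ) with hd
  have hd1 : 1 ≤ d := disc_pos M
  have hd0 : 0 ≤ d := by linarith
  set δ : ℝ := d ^ (1 / 2 : ℝ) with hδ
  have hδ1 : 1 ≤ δ := Real.one_le_rpow hd1 (by norm_num)
  have hδ0 : 0 ≤ δ := by linarith
  obtain ⟨rep, hrep, hrep0, hinj, hrepN⟩ := exists_rep M
  rw [hD] at hrepN
  have hZ : (1 : ℝ) ≤ 2 ^ D * δ := by
    have : (1 : ℝ) ≤ 2 ^ D := one_le_pow₀ (by norm_num)
    nlinarith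
  obtain ⟨hfin, hcard⟩ := hCI M hD (2 ^ D * δ) hZ
  have h5 : (Set.univ : Set (ClassGroup (𝓞 M))).ncard ≤
      {I : Ideal (𝓞 M) | I ≠ ⊥ ∧ (Ideal.absNorm I : ℝ) ≤ 2 ^ D * δ}.ncard :=
    Set.ncard_le_ncard_of_injOn rep (fun C _ => ⟨hrep0 C, hrepN C⟩)
      (fun C _ C' _ h => hinj h) hfin
  have h6 : (Nat.card (ClassGroup (𝓞 M)) : ℝ) ≤ CI * (2 ^ D * δ) ^ (1 + 2 * ε : ℝ) := by
    refine le_trans ?_ hcard
    rw [← Set.ncard_univ]
    exact_mod_cast h5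
  refine h6.trans (le_of_eq ?_)
  rw [Real.mul_rpow (by positivity) hδ0]
  have e6 : d ^ (1 / 2 + ε : ℝ) = δ ^ (1 + 2 * ε : ℝ) := by
    rw [hδ, ← Real.rpow_mul hd0]
    congr 1
    ring
  rw [e6]
  ring

end Pool.Agent.Q258.LQ
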