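import Pool.Agent.Q258.LQ.Stm

/-!
# LQ-Cover: the covering radius of the lattice of an ideal (job 33339 for helper258)
-/

set_option autoImplicit false

open NumberField Filter Topology Pool.Agent.TH444.ML

namespace Pool.Agent.Q258.LQ.Cover

open scoped NNReal ENNReal nonZeroDivisors

/-- the Minkowski bound of an ideal -/
theorem mb_le (M : Type) [Field M] [NumberField M] (I : (FractionalIdeal (𝓞 M)⁰ M)ˣ) (N : ℝ)
    (hN : (FractionalIdeal.absNorm I.1 : ℝ) = N) :
    mixedEmbedding.minkowskiBound M I ≤ ENNReal.ofReal (2 ^ (Module.finrank ℚ M) * Real.sqrt ((|discr M| : ℤ) : ℝ) * N) := by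
  classical
  have hd : (2 : ℝ≥0∞)⁻¹ ^ InfinitePlace.nrComplexPlaces M * (NNReal.sqrt ‖discr M‖₊ : ℝ≥0∞)
        ≤ (NNReal.sqrt ‖discr M‖₊ : ℝ≥0∞) := by
    calc (2 : ℝ≥0∞)⁻¹ ^ InfinitePlace.nrComplexPlaces M * (NNReal.sqrt ‖discr M‖₊ : ℝ≥0∞)
        ≤ 1 * (NNReal.sqrt ‖discr M‖₊ : ℝ≥0∞) := by
          gcongr
          apply pow_le_one₀ (by positivity)
          exact ENNReal.inv_le_one.mpr (by norm_num)
      _ = _ := one_mul _
  have hN0 : 0 ≤ N := by
    rw [← hN]
    exact_mod_cast FractionalIdeal.absNorm_nonneg _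
  have hs : (NNReal.sqrt ‖discr M‖₊ : ℝ≥0∞) = ENNReal.ofReal (Real.sqrt ((|discr M| : ℤ) : ℝ)) := by
    rw [ENNReal.ofReal, ENNReal.coe_inj]
    apply NNReal.coe_injective
    rw [Real.coe_toNNReal _ (Real.sqrt_nonneg _), Real.coe_sqrt]
    congr 1
    rw [coe_nnnorm, Int.norm_eq_abs]
    push_cast
    rfl
  rw [mixedEmbedding.minkowskiBound, mixedEmbedding.volume_fundamentalDomain_fractionalIdealLatticeBasis,
    mixedEmbedding.volume_fundamentalDomain_latticeBasis, mixedEmbedding.finrank]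
  have h2 : (2 : ℝ≥0∞) ^ (Module.finrank ℚ M) = ENNReal.ofReal (2 ^ (Module.finrank ℚ M)) := by
    rw [ENNReal.ofReal_pow (by norm_num)]
    congr 1
    simp
  rw [hN, h2]
  have h3 : ENNReal.ofReal (2 ^ (Module.finrank ℚ M) * Real.sqrt ((|discr M| : ℤ) : ℝ) * N) =
      ENNReal.ofReal N * ENNReal.ofReal (Real.sqrt ((|discr M| : ℤ) : ℝ)) * ENNReal.ofReal (2 ^ (Module.finrank ℚ M)) := by
    rw [← ENNReal.ofReal_mul hN0, ← ENNReal.ofReal_mul (by positivity)]
    congr 1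
    ring
  rw [h3]
  gcongr
  rw [← hs]
  exact hd

/-- Minkowski for an ideal -/
theorem small_elt (M : Type) [Field M] [NumberField M] (𝔟 : Ideal (𝓞 M)) (h𝔟 : 𝔟 ≠ ⊥) (R : ℝ) (hR : 0 < R)
    (h : 2 ^ (Module.finrank ℚ M) * Real.sqrt ((|discr M| : ℤ) : ℝ) * (Ideal.absNorm 𝔟 : ℝ) < R ^ (Module.finrank ℚ M)) :
    ∃ a ∈ 𝔟, a ≠ 0 ∧ ∀ w : InfinitePlace M, w (a : M) < R := by
  classical
  have hne : (𝔟 : FractionalIdeal (𝓞 M)⁰ M) ≠ 0 := by
    rwa [Ne, FractionalIdeal.coeIdeal_eq_zero]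
  let I : (FractionalIdeal (𝓞 M)⁰ M)ˣ := Units.mk0 _ hne
  let f : InfinitePlace M → ℝ≥0 := fun _ => R.toNNReal
  have h1 : mixedEmbedding.minkowskiBound M I < MeasureTheory.volume (mixedEmbedding.convexBodyLT M f) := by
    refine lt_of_le_of_lt (mb_le M I (Ideal.absNorm 𝔟 : ℝ) ?_) ?_
    · have : FractionalIdeal.absNorm I.1 = (Ideal.absNorm 𝔟 : ℚ) := by
        show FractionalIdeal.absNorm (𝔟 : FractionalIdeal (𝓞 M)⁰ M) = _
        rw [FractionalIdeal.coeIdeal_absNorm]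
      rw [this]
      push_cast
      rfl
    · rw [mixedEmbedding.convexBodyLT_volume]
      have h2 : (1 : ℝ≥0∞) ≤ (mixedEmbedding.convexBodyLTFactor M : ℝ≥0∞) := by
        exact_mod_cast mixedEmbedding.one_le_convexBodyLTFactor M
      have h3 : ((∏ w : InfinitePlace M, (f w) ^ (InfinitePlace.mult w) : ℝ≥0) : ℝ≥0∞) = ENNReal.ofReal (R ^ (Module.finrank ℚ M)) := by
        rw [Finset.prod_pow_eq_pow_sum, InfinitePlace.sum_mult_eq, ENNReal.ofReal, ENNReal.coe_inj, Real.toNNReal_pow hR.le]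
      calc ENNReal.ofReal (2 ^ (Module.finrank ℚ M) * Real.sqrt ((|discr M| : ℤ) : ℝ) * (Ideal.absNorm 𝔟 : ℝ))
          < ENNReal.ofReal (R ^ (Module.finrank ℚ M)) := by
            rw [ENNReal.ofReal_lt_ofReal_iff (by positivity)]
            exact h
        _ = 1 * ((∏ w : InfinitePlace M, (f w) ^ (InfinitePlace.mult w) : ℝ≥0) : ℝ≥0∞) := by rw [one_mul, h3]
        _ ≤ _ := by gcongr
  obtain ⟨a, ha, ha0, hw⟩ := mixedEmbedding.exists_ne_zero_mem_ideal_lt M I h1
  have ha' : a ∈ (𝔟 : FractionalIdeal (𝓞 M)⁰ M) := ha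
  rw [FractionalIdeal.mem_coeIdeal] at ha'
  obtain ⟨b, hb, hba⟩ := ha'
  refine ⟨b, hb, ?_, ?_⟩
  · rintro rfl
    apply ha0
    rw [← hba, map_zero]
  · intro w
    have h2 := hw w
    have h3 : ((f w : ℝ≥0) : ℝ) = R := Real.coe_toNNReal _ hR.le
    rw [h3, ← hba] at h2
    exact h2

/-- a small primitive element -/
theorem prim (M : Type) [Field M] [NumberField M] :
    ∃ t : 𝓞 M, IntermediateField.adjoin ℚ {(t : M)} = ⊤ ∧
      ∀ w : InfinitePlace M, w (t : M) < 2 ^ (Module.finrank ℚ M) * Real.sqrt ((|discr M| : ℤ) : ℝ) + 2 := by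
  classical
  set B : ℝ := 2 ^ (Module.finrank ℚ M) * Real.sqrt ((|discr M| : ℤ) : ℝ) + 1 with hB
  have hB0 : 0 ≤ B := by positivity
  have hmb : mixedEmbedding.minkowskiBound M ↑1 < ENNReal.ofReal B := by
    refine lt_of_le_of_lt (mb_le M 1 1 ?_) ?_
    · rw [Units.val_one, FractionalIdeal.absNorm_one]
      norm_num
    · rw [ENNReal.ofReal_lt_ofReal_iff (by positivity)]
      rw [hB, mul_one]
      linarith
  obtain ⟨w₀⟩ : Nonempty (InfinitePlace M) := inferInstance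
  have hBc : ((B.toNNReal : ℝ≥0) : ℝ) = B := Real.coe_toNNReal _ hB0
  rcases InfinitePlace.isReal_or_isComplex w₀ with hw | hw
  · have h2 : (1 : ℝ≥0∞) ≤ (mixedEmbedding.convexBodyLTFactor M : ℝ≥0∞) := by
      exact_mod_cast mixedEmbedding.one_le_convexBodyLTFactor M
    have h1 : mixedEmbedding.minkowskiBound M ↑1 < (mixedEmbedding.convexBodyLTFactor M : ℝ≥0∞) * (B.toNNReal : ℝ≥0∞) := by
      refine lt_of_lt_of_le hmb ?_
      calc ENNReal.ofReal B = 1 * (B.toNNReal : ℝ≥0∞) := by rw [one_mul]; rfl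
        _ ≤ _ := by gcongr
    obtain ⟨t, ht, htw⟩ := mixedEmbedding.exists_primitive_element_lt_of_isReal M hw h1
    refine ⟨t, ht, fun w => ?_⟩
    have h3 := htw w
    have h4 : ((max B.toNNReal 1 : ℝ≥0) : ℝ) ≤ B + 1 := by
      rw [NNReal.coe_max, hBc]
      apply max_le
      · linarith
      · rw [NNReal.coe_one]; linarith
    have h5 : B + 1 = 2 ^ (Module.finrank ℚ M) * Real.sqrt ((|discr M| : ℤ) : ℝ) + 2 := by rw [hB]; ring
    have h6 : w (t : M) < ((max B.toNNReal 1 : ℝ≥0) : ℝ) := by exact_mod_cast h3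
    linarith
  · have h2 : (1 : ℝ≥0∞) ≤ (mixedEmbedding.convexBodyLT'Factor M : ℝ≥0∞) := by
      exact_mod_cast mixedEmbedding.one_le_convexBodyLT'Factor M
    have h1 : mixedEmbedding.minkowskiBound M ↑1 < (mixedEmbedding.convexBodyLT'Factor M : ℝ≥0∞) * (B.toNNReal : ℝ≥0∞) := by
      refine lt_of_lt_of_le hmb ?_
      calc ENNReal.ofReal B = 1 * (B.toNNReal : ℝ≥0∞) := by rw [one_mul]; rfl
        _ ≤ _ := by gcongr
    obtain ⟨t, ht, htw⟩ := mixedEmbedding.exists_primitive_element_lt_of_isComplex M hw h1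
    refine ⟨t, ht, fun w => ?_⟩
    have h3 := htw w
    rw [hBc] at h3
    have h4 : Real.sqrt (1 + B ^ 2) ≤ B + 1 := by
      apply Real.sqrt_le_iff.2
      constructor
      · linarith
      · nlinarith
    have h5 : B + 1 = 2 ^ (Module.finrank ℚ M) * Real.sqrt ((|discr M| : ℤ) : ℝ) + 2 := by rw [hB]; ring
    linarith

/-- multiples of the powers of a primitive element span the mixed space -/
theorem spans (M : Type) [Field M] [NumberField M] (t a : M) (ht : IntermediateField.adjoin ℚ {t} = ⊤) (ha : a ≠ 0)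
    (z : mixedEmbedding.mixedSpace M) : ∃ r : Fin (Module.finrank ℚ M) → ℝ,
      z = ∑ i, r i • mixedEmbedding M (a * t ^ (i : ℕ)) := by
  classical
  have hdeg : (minpoly ℚ t).natDegree = Module.finrank ℚ M :=
    (Field.primitive_element_iff_minpoly_natDegree_eq ℚ t).1 ht
  have hli : LinearIndependent ℚ (fun i : Fin (Module.finrank ℚ M) => a * t ^ (i : ℕ)) := by
    have h1 : LinearIndependent ℚ (fun i : Fin (Module.finrank ℚ M) => t ^ (i : ℕ)) := by
      rw [← hdeg]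
      exact linearIndependent_pow t
    have h2 : LinearMap.ker (LinearMap.mulLeft ℚ a) = ⊥ := by
      rw [LinearMap.ker_eq_bot]
      intro x y hxy
      exact mul_left_cancel₀ ha hxy
    exact h1.map' (LinearMap.mulLeft ℚ a) h2
  have hsp : Submodule.span ℚ (Set.range (fun i : Fin (Module.finrank ℚ M) => a * t ^ (i : ℕ))) = ⊤ := by
    apply hli.span_eq_top_of_card_eq_finrank'
    simp
  have hmem : ∀ x : M, mixedEmbedding M x ∈ Submodule.span ℝ (Set.range (fun i : Fin (Module.finrank ℚ M) => mixedEmbedding M (a * t ^ (i : ℕ)))) := by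
    intro x
    have hx : x ∈ Submodule.span ℚ (Set.range (fun i : Fin (Module.finrank ℚ M) => a * t ^ (i : ℕ))) := by
      rw [hsp]; trivial
    rw [Submodule.mem_span_range_iff_exists_fun] at hx
    obtain ⟨c, hc⟩ := hx
    rw [← hc, map_sum]
    apply Submodule.sum_mem
    intro i _
    have : mixedEmbedding M (c i • (a * t ^ (i : ℕ))) = ((c i : ℚ) : ℝ) • mixedEmbedding M (a * t ^ (i : ℕ)) := by
      rw [map_rat_smul (mixedEmbedding M) (c i), ← Rat.cast_smul_eq_qsmul ℝ]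
    rw [this]
    exact Submodule.smul_mem _ _ (Submodule.subset_span ⟨i, rfl⟩)
  have htop : z ∈ Submodule.span ℝ (Set.range (fun i : Fin (Module.finrank ℚ M) => mixedEmbedding M (a * t ^ (i : ℕ)))) := by
    have h1 : z ∈ Submodule.span ℝ (Set.range (mixedEmbedding.latticeBasis M)) := by
      rw [(mixedEmbedding.latticeBasis M).span_eq]; trivial
    refine (Submodule.span_le.2 ?_) h1
    rintro _ ⟨j, rfl⟩
    rw [mixedEmbedding.latticeBasis_apply]
    exact hmem _
  rw [Submodule.mem_span_range_iff_exists_fun] at htop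
  obtain ⟨r, hr⟩ := htop
  exact ⟨r, hr.symm⟩

theorem nap_sum (M : Type) [Field M] {ι : Type} (s : Finset ι) (w : InfinitePlace M) (x : ι → mixedEmbedding.mixedSpace M) :
    mixedEmbedding.normAtPlace w (∑ i ∈ s, x i) ≤ ∑ i ∈ s, mixedEmbedding.normAtPlace w (x i) := by
  classical
  induction s using Finset.induction_on with
  | empty => simp
  | insert a s ha ih =>
    rw [Finset.sum_insert ha, Finset.sum_insert ha]
    exact (mixedEmbedding.normAtPlace_add_le w _ _).trans (by linarith)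

end Pool.Agent.Q258.LQ.Cover

namespace Pool.Agent.Q258.LQ

open Pool.Agent.Q258.LQ.Cover

theorem cover : Cover := by
  classical
  intro D
  refine ⟨(D : ℝ) ^ D * 2 ^ (D + 1) * (2 ^ (D + 2)) ^ (D * D), D * D + 1, ?_, ?_⟩
  · have h1 : (1 : ℝ) ≤ (D : ℝ) ^ D := by
      rcases Nat.eq_zero_or_pos D with h | h
      · subst h; simp
      · exact one_le_pow₀ (by exact_mod_cast h)
    have h2 : (1 : ℝ) ≤ 2 ^ (D + 1) := one_le_pow₀ (by norm_num)
    have h3 : (1 : ℝ) ≤ (2 ^ (D + 2)) ^ (D * D) := one_le_pow₀ (one_le_pow₀ (by norm_num))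
    calc (1 : ℝ) = 1 * 1 * 1 := by norm_num
      _ ≤ _ := by gcongr
  · intro M _ _ hD 𝔟 h𝔟 z
    have hDpos : 0 < D := by rw [← hD]; exact Module.finrank_pos
    set d : ℝ := ((|discr M| : ℤ) : ℝ) with hd
    have hd1 : 1 ≤ d := by
      rw [hd]
      have : (1 : ℤ) ≤ |discr M| := Int.one_le_abs (discr_ne_zero M)
      exact_mod_cast this
    set N : ℝ := (Ideal.absNorm 𝔟 : ℝ) with hN
    have hN1 : 1 ≤ N := by
      have h1 : Ideal.absNorm 𝔟 ≠ 0 := by
        rw [Ne, Ideal.absNorm_eq_zero_iff]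
        exact h𝔟
      have : 1 ≤ Ideal.absNorm 𝔟 := Nat.one_le_iff_ne_zero.2 h1
      rw [hN]
      exact_mod_cast this
    have hsd : 1 ≤ Real.sqrt d := Real.one_le_sqrt.2 hd1
    have hsdd : Real.sqrt d ≤ d := by
      have h1 := Real.sq_sqrt (show (0 : ℝ) ≤ d by linarith)
      nlinarith
    set R : ℝ := (2 ^ (D + 1) * Real.sqrt d * N) ^ ((1 : ℝ) / D) with hRdef
    have hR0 : 0 < R := by
      apply Real.rpow_pos_of_pos
      positivity
    have hRD : R ^ D = 2 ^ (D + 1) * Real.sqrt d * N := by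
      rw [hRdef, one_div]
      exact Real.rpow_inv_natCast_pow (by positivity) hDpos.ne'
    obtain ⟨a, hab, ha0, haw⟩ := small_elt M 𝔟 h𝔟 R hR0 (by
      rw [hD, hRD, pow_succ]
      have : 0 < 2 ^ D * Real.sqrt d * N := by positivity
      rw [← hd, ← hN]
      linarith)
    obtain ⟨t, ht, htw⟩ := prim M
    rw [hD, ← hd] at htw
    set T : ℝ := 2 ^ D * Real.sqrt d + 2 with hT
    have hT1 : 1 ≤ T := by
      have : 0 ≤ 2 ^ D * Real.sqrt d := by positivity
      rw [hT]; linarith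
    have ha0' : (a : M) ≠ 0 := by
      intro h
      exact ha0 (by exact_mod_cast h)
    obtain ⟨r, hr⟩ := spans M (t : M) (a : M) ht ha0' z
    let y : 𝓞 M := ∑ i : Fin (Module.finrank ℚ M), (⌊r i⌋ : 𝓞 M) * (a * t ^ (i : ℕ))
    have hy : y ∈ 𝔟 := by
      apply Ideal.sum_mem
      intro i _
      apply Ideal.mul_mem_left
      apply Ideal.mul_mem_right _ _ hab
    refine ⟨y, hy, fun w => ?_⟩
    have hyM : mixedEmbedding M ((y : 𝓞 M) : M) = ∑ i : Fin (Module.finrank ℚ M), (⌊r i⌋ : ℝ) • mixedEmbedding M ((a : M) * (t : M) ^ (i : ℕ)) := by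
      have h1 : ((y : 𝓞 M) : M) = ∑ i : Fin (Module.finrank ℚ M), ⌊r i⌋ • ((a : M) * (t : M) ^ (i : ℕ)) := by
        show algebraMap (𝓞 M) M y = _
        rw [map_sum]
        apply Finset.sum_congr rfl
        intro i _
        rw [map_mul, map_intCast, map_mul, map_pow, zsmul_eq_mul]
      rw [h1, map_sum]
      apply Finset.sum_congr rfl
      intro i _
      rw [map_zsmul, ← Int.cast_smul_eq_zsmul ℝ]
    have hz : z - mixedEmbedding M ((y : 𝓞 M) : M) = ∑ i : Fin (Module.finrank ℚ M), (Int.fract (r i)) • mixedEmbedding M ((a : M) * (t : M) ^ (i : ℕ)) := by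
      rw [hyM]
      nth_rewrite 1 [hr]
      rw [← Finset.sum_sub_distrib]
      apply Finset.sum_congr rfl
      intro i _
      rw [← sub_smul]
      rfl
    rw [hz]
    have hterm : ∀ i : Fin (Module.finrank ℚ M), mixedEmbedding.normAtPlace w ((Int.fract (r i)) • mixedEmbedding M ((a : M) * (t : M) ^ (i : ℕ))) ≤ R * T ^ D := by
      intro i
      rw [mixedEmbedding.normAtPlace_smul, mixedEmbedding.normAtPlace_apply, map_mul, map_pow,
        abs_of_nonneg (Int.fract_nonneg _)]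
      have h1 : w (t : M) ^ (i : ℕ) ≤ T ^ D := by
        calc w (t : M) ^ (i : ℕ) ≤ T ^ (i : ℕ) := pow_le_pow_left₀ (apply_nonneg _ _) (htw w).le _
          _ ≤ T ^ D := pow_le_pow_right₀ hT1 (by have := i.2; omega)
      have h2 : w (a : M) * w (t : M) ^ (i : ℕ) ≤ R * T ^ D :=
        mul_le_mul (haw w).le h1 (pow_nonneg (apply_nonneg _ _) _) hR0.le
      have h3 : 0 ≤ w (a : M) * w (t : M) ^ (i : ℕ) := mul_nonneg (apply_nonneg _ _) (pow_nonneg (apply_nonneg _ _) _)
      calc Int.fract (r i) * (w (a : M) * w (t : M) ^ (i : ℕ)) ≤ 1 * (w (a : M) * w (t : M) ^ (i : ℕ)) :=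
            mul_le_mul_of_nonneg_right (Int.fract_lt_one _).le h3
        _ ≤ R * T ^ D := by rw [one_mul]; exact h2
    have hsum : mixedEmbedding.normAtPlace w (∑ i : Fin (Module.finrank ℚ M), (Int.fract (r i)) • mixedEmbedding M ((a : M) * (t : M) ^ (i : ℕ))) ≤ D * (R * T ^ D) := by
      refine (nap_sum M _ w _).trans ?_
      refine (Finset.sum_le_card_nsmul _ _ _ (fun i _ => hterm i)).trans ?_
      rw [Finset.card_univ, Fintype.card_fin, nsmul_eq_mul, hD]
    refine hsum.trans ?_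
    have hnn : 0 ≤ (D : ℝ) * (R * T ^ D) := by positivity
    have hpow : ((D : ℝ) * (R * T ^ D)) ^ D ≤ (D : ℝ) ^ D * 2 ^ (D + 1) * (2 ^ (D + 2)) ^ (D * D) * d ^ (D * D + 1) * N := by
      have hTle : T ≤ 2 ^ (D + 2) * d := by
        rw [hT]
        have h1 : (2 : ℝ) ^ D * Real.sqrt d ≤ 2 ^ D * d := by gcongr
        have h2 : (1 : ℝ) ≤ 2 ^ D := one_le_pow₀ (by norm_num)
        have h3 : (2 : ℝ) ^ (D + 2) = 4 * 2 ^ D := by rw [pow_add]; ring
        rw [h3]
        nlinarith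
      calc ((D : ℝ) * (R * T ^ D)) ^ D = (D : ℝ) ^ D * (R ^ D * T ^ (D * D)) := by
            rw [mul_pow, mul_pow, ← pow_mul]
        _ = (D : ℝ) ^ D * ((2 ^ (D + 1) * Real.sqrt d * N) * T ^ (D * D)) := by rw [hRD]
        _ ≤ (D : ℝ) ^ D * ((2 ^ (D + 1) * d * N) * (2 ^ (D + 2) * d) ^ (D * D)) := by
            gcongr
        _ = _ := by
            rw [mul_pow, pow_succ d]
            ring
    calc (D : ℝ) * (R * T ^ D) = (((D : ℝ) * (R * T ^ D)) ^ D) ^ ((1 : ℝ) / D) := by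
          rw [one_div]
          exact (Real.pow_rpow_inv_natCast hnn hDpos.ne').symm
      _ ≤ _ := by
          apply Real.rpow_le_rpow (by positivity) hpow (by positivity)

end Pool.Agent.Q258.LQ
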