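import Pool.Agent.Q258.LQ.Stm2

/-!
# Project LQ, part 2: Galois extensions of odd prime degree, uniform upper bound
-/

set_option autoImplicit false
set_option linter.style.haveILetI false
set_option linter.unusedSectionVars false
set_option linter.unusedVariables false

open NumberField

namespace Pool.Agent.Q258.LQ

namespace CycU

/-- a set all of whose finite subsets are small is finite -/
theorem finite_of_bound {X : Type} (S : Set X) (B : ℝ)
    (h : ∀ T : Finset X, (∀ x ∈ T, x ∈ S) → (T.card : ℝ) ≤ B) :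
    S.Finite ∧ (S.ncard : ℝ) ≤ B := by
  have hfin : S.Finite := by
    by_contra hinf
    have hinf' : S.Infinite := hinf
    obtain ⟨T, hT, hc⟩ := hinf'.exists_subset_card_eq (⌈B⌉₊ + 1)
    have h1 := h T (fun x hx => hT hx)
    rw [hc] at h1
    have h2 := Nat.le_ceil B
    push_cast at h1
    linarith
  refine ⟨hfin, ?_⟩
  have h1 := h hfin.toFinset (fun x hx => (Set.Finite.mem_toFinset hfin).1 hx)
  rwa [← Set.ncard_eq_toFinset_card S hfin] at h1

/-- counting with labels -/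
theorem card_label {ι X V : Type} [DecidableEq ι] [DecidableEq X] [DecidableEq V] (𝓛 : Finset ι)
    (s : ι → Finset X) (v : ι → V → ℕ) (U : Finset X → Finset V) (ℓ e H : ℕ) (hℓ : 0 < ℓ)
    (hU : ∀ S ∈ 𝓛.image s, (U S).card ≤ S.card * e)
    (hH : ∀ S ∈ 𝓛.image s, ∀ T : Finset ι, T ⊆ 𝓛 → (∀ L ∈ T, s L = S) →
      (∀ L ∈ T, ∀ L' ∈ T, ∀ P ∈ U S, v L P ≡ v L' P [MOD ℓ]) → T.card ≤ H) :
    𝓛.card ≤ ∑ S ∈ 𝓛.image s, (ℓ ^ e) ^ S.card * H := by
  rw [Finset.card_eq_sum_card_image s 𝓛]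
  refine Finset.sum_le_sum fun S hS => ?_
  set T := 𝓛.filter (fun L => s L = S) with hT
  let g : ι → (U S → Fin ℓ) := fun L P => ⟨v L P.1 % ℓ, Nat.mod_lt _ hℓ⟩
  have h1 := Finset.card_le_mul_card_image (f := g) T H (fun f _ => by
    apply hH S hS
    · intro L hL
      exact (Finset.mem_filter.1 (Finset.mem_filter.1 hL).1).1
    · intro L hL
      exact (Finset.mem_filter.1 (Finset.mem_filter.1 hL).1).2
    · intro L hL L' hL' P hP
      have h2 := (Finset.mem_filter.1 hL).2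
      have h3 := (Finset.mem_filter.1 hL').2
      have h4 := congrFun (h2.trans h3.symm) ⟨P, hP⟩
      exact congrArg Fin.val h4)
  refine h1.trans ?_
  rw [mul_comm]
  apply Nat.mul_le_mul_right
  calc (T.image g).card ≤ Fintype.card (U S → Fin ℓ) := Finset.card_le_univ _
    _ = ℓ ^ (U S).card := by simp
    _ ≤ ℓ ^ (S.card * e) := Nat.pow_le_pow_right hℓ (hU S hS)
    _ = (ℓ ^ e) ^ S.card := by rw [mul_comm, pow_mul]

theorem exists_zeta (E : Type) [Field E] [CharZero E] [IsAlgClosed E] (ℓ : ℕ) (hℓ : ℓ.Prime) :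
    ∃ ζ : E, IsPrimitiveRoot ζ ℓ := by
  haveI : NeZero (ℓ : E) := ⟨by exact_mod_cast hℓ.ne_zero⟩
  have hdeg : (Polynomial.cyclotomic ℓ E).degree ≠ 0 := by
    rw [Polynomial.degree_cyclotomic]
    have := Nat.totient_pos.2 hℓ.pos
    intro h
    have h1 : ℓ.totient = 0 := by exact_mod_cast h
    omega
  obtain ⟨ζ, hζ⟩ := IsAlgClosed.exists_root _ hdeg
  exact ⟨ζ, Polynomial.isRoot_cyclotomic_iff.1 hζ⟩

section
variable {M E : Type} [Field M] [NumberField M] [Field E] [Algebra M E] [IsAlgClosed E]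

/-- totally ramified primes have bounded norm product -/
theorem prod_le (h7 : DiscRam) {ℓ : ℕ} (h3 : 3 ≤ ℓ) {Y : ℝ} (hY : 1 ≤ Y)
    {L : IntermediateField M E} (hL : L ∈ CS ℓ M E Y) (S : Finset (Ideal (𝓞 M)))
    (hS : ∀ p ∈ S, TotRam M L ℓ p) : ∏ p ∈ S, (Ideal.absNorm p : ℝ) ≤ Real.sqrt Y := by
  obtain ⟨hdeg, hgal, hnf, hdisc⟩ := hL
  have h1 := h7 ℓ (by omega) M L hdeg S hS
  have hd : (0 : ℝ) < ((|discr M| : ℤ) : ℝ) := by
    exact_mod_cast abs_pos.2 (NumberField.discr_ne_zero M)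
  have h2 : (((|discr M| : ℤ) : ℝ)) ^ ℓ * (∏ p ∈ S, (Ideal.absNorm p : ℝ)) ^ (ℓ - 1) ≤
      ((|discr L| : ℤ) : ℝ) := by
    have h3 : ((((discr M).natAbs ^ ℓ * ∏ p ∈ S, (Ideal.absNorm p) ^ (ℓ - 1) : ℕ)) : ℝ) ≤
        (((discr L).natAbs : ℕ) : ℝ) := by exact_mod_cast h1
    rw [Finset.prod_pow] at h3
    push_cast at h3
    rw [Nat.cast_natAbs, Nat.cast_natAbs] at h3
    exact_mod_cast h3
  have h4 : (∏ p ∈ S, (Ideal.absNorm p : ℝ)) ^ (ℓ - 1) ≤ Y := by
    have h5 : (((|discr M| : ℤ) : ℝ)) ^ ℓ * (∏ p ∈ S, (Ideal.absNorm p : ℝ)) ^ (ℓ - 1) ≤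
        (((|discr M| : ℤ) : ℝ)) ^ ℓ * Y := by
      rw [mul_comm _ Y]
      exact h2.trans hdisc
    exact le_of_mul_le_mul_left h5 (by positivity)
  have h6 : (1 : ℝ) ≤ ∏ p ∈ S, (Ideal.absNorm p : ℝ) := by
    rw [← Nat.cast_prod]
    have : 0 < ∏ p ∈ S, Ideal.absNorm p := by
      apply Finset.prod_pos
      intro p hp
      apply Nat.pos_of_ne_zero
      intro h
      exact (hS p hp).2.1 (Ideal.absNorm_eq_zero_iff.1 h)
    exact_mod_cast this
  apply Real.le_sqrt_of_sq_le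
  calc (∏ p ∈ S, (Ideal.absNorm p : ℝ)) ^ 2 ≤ (∏ p ∈ S, (Ideal.absNorm p : ℝ)) ^ (ℓ - 1) :=
        pow_le_pow_right₀ h6 (by omega)
    _ ≤ Y := h4

theorem totRam_finite (h7 : DiscRam) {ℓ : ℕ} (h3 : 3 ≤ ℓ) {Y : ℝ} (hY : 1 ≤ Y)
    {L : IntermediateField M E} (hL : L ∈ CS ℓ M E Y) :
    {p : Ideal (𝓞 M) | TotRam M L ℓ p}.Finite := by
  refine (Ideal.finite_setOfPred_absNorm_le (S := 𝓞 M) ⌊Real.sqrt Y⌋₊).subset ?_
  intro p hp
  have h1 := prod_le h7 h3 hY hL {p} (fun q hq => by rw [Finset.mem_singleton.1 hq]; exact hp)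
  rw [Finset.prod_singleton] at h1
  exact Nat.le_floor h1

/-- equivalent Kummer generators give the same field -/
theorem eq_of_equiv (h6 : TwoSub) {ℓ : ℕ} (hℓ : ℓ.Prime) {ζ : E} (hζ : IsPrimitiveRoot ζ ℓ)
    (he0 : 0 < Module.finrank M (IntermediateField.adjoin M {ζ}))
    (he : Module.finrank M (IntermediateField.adjoin M {ζ}) < ℓ)
    {L L' : IntermediateField M E} {a a' : IntermediateField.adjoin M {ζ}} {β β' : E}
    (hdL : Module.finrank M L = ℓ) (hgL : IsGalois M L)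
    (hdL' : Module.finrank M L' = ℓ) (hgL' : IsGalois M L')
    (ha' : a' ≠ 0) (hβ : β ^ ℓ = (a : E)) (hβ' : β' ^ ℓ = (a' : E))
    (hL : L ≤ IntermediateField.adjoin M {ζ, β}) (hL' : L' ≤ IntermediateField.adjoin M {ζ, β'})
    (hN : Module.finrank M (IntermediateField.adjoin M {ζ, β'}) =
      ℓ * Module.finrank M (IntermediateField.adjoin M {ζ}))
    {x : IntermediateField.adjoin M {ζ}} (hx : x ≠ 0) (hax : a = a' * x ^ ℓ) : L = L' := by
  have hβ'0 : β' ≠ 0 := by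
    rintro rfl
    rw [zero_pow hℓ.ne_zero] at hβ'
    apply ha'
    exact Subtype.ext hβ'.symm
  have hxE : (x : E) ≠ 0 := fun h => hx (Subtype.ext h)
  have h1 : (β / (β' * x)) ^ ℓ = 1 := by
    rw [div_pow, mul_pow, hβ, hβ', hax]
    push_cast
    apply div_self
    apply mul_ne_zero
    · rw [← hβ']; exact pow_ne_zero _ hβ'0
    · exact pow_ne_zero _ hxE
  haveI : NeZero ℓ := ⟨hℓ.ne_zero⟩
  obtain ⟨i, -, hi⟩ := hζ.eq_pow_of_pow_eq_one h1
  have h2 : β = ζ ^ i * (β' * x) := by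
    rw [hi, div_mul_cancel₀ _ (mul_ne_zero hβ'0 hxE)]
  have hζN : ζ ∈ IntermediateField.adjoin M {ζ, β'} :=
    IntermediateField.subset_adjoin _ _ (by simp)
  have hβN : β' ∈ IntermediateField.adjoin M {ζ, β'} :=
    IntermediateField.subset_adjoin _ _ (by simp)
  have hsub : IntermediateField.adjoin M {ζ} ≤ IntermediateField.adjoin M {ζ, β'} :=
    IntermediateField.adjoin.mono _ _ _ (by simp)
  have hβ2 : β ∈ IntermediateField.adjoin M {ζ, β'} := by
    rw [h2]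
    exact mul_mem (pow_mem hζN _) (mul_mem hβN (hsub x.2))
  have hle : IntermediateField.adjoin M {ζ, β} ≤ IntermediateField.adjoin M {ζ, β'} := by
    apply IntermediateField.adjoin_le_iff.2
    intro y hy
    rcases hy with rfl | hy
    · exact hζN
    · rw [Set.mem_singleton_iff.1 hy]
      exact hβ2
  exact h6 ℓ _ hℓ he0 he M E _ L L' hN (hL.trans hle) hL' hdL hdL' hgL hgL'

/-- primes above a nonzero prime: at most the degree -/
theorem card_above (F' : Type) [Field F'] [NumberField F'] [Algebra M F'] {e : ℕ}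
    (he : Module.finrank M F' ≤ e) (p : Ideal (𝓞 M)) (hp : p.IsPrime) (hp0 : p ≠ ⊥) :
    (IsDedekindDomain.primesOverFinset p (𝓞 F')).card ≤ e := by
  haveI : p.IsMaximal := hp.isMaximal hp0
  haveI : NoZeroSMulDivisors (𝓞 M) (𝓞 F') := ⟨fun {c x} h => by
    rw [Algebra.smul_def, mul_eq_zero] at h
    exact h.imp_left fun h => (map_eq_zero_iff _
      (FaithfulSMul.algebraMap_injective (𝓞 M) (𝓞 F'))).1 h⟩
  exact (Ideal.card_primesOverFinset_le_finrank (𝓞 F') M F' hp0).trans he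

/-- the count for one field -/
theorem fieldPart (h3 : SelFib) (h5 : Kum) (h6 : TwoSub) (h7 : DiscRam) {ℓ : ℕ} (hℓ : ℓ.Prime)
    (hℓ3 : 3 ≤ ℓ) {Y : ℝ} (hY : 1 ≤ Y) {ζ : E} (hζ : IsPrimitiveRoot ζ ℓ)
    [NumberField (IntermediateField.adjoin M {ζ})]
    (he0 : 0 < Module.finrank M (IntermediateField.adjoin M {ζ}))
    (he : Module.finrank M (IntermediateField.adjoin M {ζ}) ≤ ℓ - 1)
    (𝓛 : Finset (IntermediateField M E)) (h𝓛 : ∀ L ∈ 𝓛, L ∈ CS ℓ M E Y) :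
    ∃ 𝒮 : Finset (Finset (Ideal (𝓞 M))),
      (∀ S ∈ 𝒮, (∀ p ∈ S, p.IsPrime ∧ p ≠ ⊥) ∧
        ∏ p ∈ S, (Ideal.absNorm p : ℝ) ≤ Real.sqrt Y) ∧
      𝓛.card ≤ ∑ S ∈ 𝒮, (ℓ ^ (ℓ - 1)) ^ S.card *
        (Nat.card (ClassGroup (𝓞 (IntermediateField.adjoin M {ζ}))) *
          ℓ ^ (Module.finrank ℚ (IntermediateField.adjoin M {ζ}) + 1)) := by
  classical
  have hK : ∀ L ∈ 𝓛, ∃ (α : 𝓞 (IntermediateField.adjoin M {ζ})) (β : E), α ≠ 0 ∧
      β ^ ℓ = ((α : IntermediateField.adjoin M {ζ}) : E) ∧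
      L ≤ IntermediateField.adjoin M {ζ, β} ∧
      Module.finrank M (IntermediateField.adjoin M {ζ, β}) =
        ℓ * Module.finrank M (IntermediateField.adjoin M {ζ}) ∧
      ∀ P : Ideal (𝓞 (IntermediateField.adjoin M {ζ})), P.IsPrime → P ≠ ⊥ →
        ¬ ℓ ∣ vP P (Ideal.span {α}) → TotRam M L ℓ (P.under (𝓞 M)) := by
    intro L hL
    obtain ⟨hdeg, hgal, -⟩ := h𝓛 L hL
    exact h5 ℓ hℓ M E ζ hζ L hdeg hgal inferInstance
  choose! α β hα0 hαβ hLβ hfr hram using hK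
  -- the totally ramified primes
  let s : IntermediateField M E → Finset (Ideal (𝓞 M)) := fun L =>
    if h : {p : Ideal (𝓞 M) | TotRam M L ℓ p}.Finite then h.toFinset else ∅
  have hs : ∀ L ∈ 𝓛, ∀ p, p ∈ s L ↔ TotRam M L ℓ p := by
    intro L hL p
    have hfin := totRam_finite h7 hℓ3 hY (h𝓛 L hL)
    have h1 : s L = hfin.toFinset := dif_pos hfin
    rw [h1, Set.Finite.mem_toFinset]
    rfl
  have hprime : ∀ S ∈ 𝓛.image s, ∀ p ∈ S, p.IsPrime ∧ p ≠ ⊥ := by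
    intro S hS p hp
    obtain ⟨L, hL, rfl⟩ := Finset.mem_image.1 hS
    have h1 := (hs L hL p).1 hp
    exact ⟨h1.1, h1.2.1⟩
  refine ⟨𝓛.image s, ?_, ?_⟩
  · intro S hS
    refine ⟨hprime S hS, ?_⟩
    obtain ⟨L, hL, rfl⟩ := Finset.mem_image.1 hS
    exact prod_le h7 hℓ3 hY (h𝓛 L hL) (s L) (fun p hp => (hs L hL p).1 hp)
  · refine card_label 𝓛 s
      (fun L (P : Ideal (𝓞 (IntermediateField.adjoin M {ζ}))) => vP P (Ideal.span {α L}))
      (fun S => S.biUnion fun p =>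
        IsDedekindDomain.primesOverFinset p (𝓞 (IntermediateField.adjoin M {ζ})))
      ℓ (ℓ - 1) _ hℓ.pos ?_ ?_
    · intro S hS
      exact Finset.card_biUnion_le_card_mul _ _ _ fun p hp =>
        card_above (IntermediateField.adjoin M {ζ}) he p (hprime S hS p hp).1 (hprime S hS p hp).2
    · intro S hS T hT hTS hTP
      -- equivalence
      have heq : ∀ L ∈ T, ∀ L' ∈ T, ∀ x : IntermediateField.adjoin M {ζ}, x ≠ 0 →
          ((α L : 𝓞 (IntermediateField.adjoin M {ζ})) : IntermediateField.adjoin M {ζ}) =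
          (α L' : IntermediateField.adjoin M {ζ}) * x ^ ℓ → L = L' := by
        intro L hL L' hL' x hx hax
        have hLm := hT hL
        have hLm' := hT hL'
        obtain ⟨hdL, hgL, -⟩ := h𝓛 L hLm
        obtain ⟨hdL', hgL', -⟩ := h𝓛 L' hLm'
        refine eq_of_equiv h6 hℓ hζ he0 (by have := hℓ.pos; omega) hdL hgL hdL' hgL'
          (a := (α L : IntermediateField.adjoin M {ζ}))
          (a' := (α L' : IntermediateField.adjoin M {ζ})) ?_ (hαβ L hLm) (hαβ L' hLm')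
          (hLβ L hLm) (hLβ L' hLm') (hfr L' hLm') hx hax
        intro h
        apply hα0 L' hLm'
        exact RingOfIntegers.ext h
      have hinj : Set.InjOn α (T : Set (IntermediateField M E)) := by
        intro L hL L' hL' h
        refine heq L hL L' hL' 1 one_ne_zero ?_
        rw [h, one_pow, mul_one]
      rw [← Finset.card_image_of_injOn hinj]
      refine h3 ℓ hℓ (IntermediateField.adjoin M {ζ}) (T.image α) ?_ ?_ ?_
      · intro a ha
        obtain ⟨L, hL, rfl⟩ := Finset.mem_image.1 ha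
        exact hα0 L (hT hL)
      · intro a ha b hb P hP hP0
        obtain ⟨L, hL, rfl⟩ := Finset.mem_image.1 ha
        obtain ⟨L', hL', rfl⟩ := Finset.mem_image.1 hb
        by_cases hPU : P ∈ S.biUnion fun p =>
            IsDedekindDomain.primesOverFinset p (𝓞 (IntermediateField.adjoin M {ζ}))
        · exact hTP L hL L' hL' P hPU
        · have hdvd : ∀ L ∈ T, ℓ ∣ vP P (Ideal.span {α L}) := by
            intro L hL
            by_contra hnd
            apply hPU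
            have h1 := hram L (hT hL) P hP hP0 hnd
            have h2 : P.under (𝓞 M) ∈ S := by
              rw [← hTS L hL]
              exact (hs L (hT hL) _).2 h1
            refine Finset.mem_biUnion.2 ⟨P.under (𝓞 M), h2, ?_⟩
            haveI : (P.under (𝓞 M)).IsMaximal := h1.1.isMaximal h1.2.1
            rw [IsDedekindDomain.mem_primesOverFinset_iff h1.2.1]
            exact ⟨hP, ⟨rfl⟩⟩
          exact ((Nat.modEq_zero_iff_dvd.2 (hdvd L hL))).trans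
            (Nat.modEq_zero_iff_dvd.2 (hdvd L' hL')).symm
      · intro a ha b hb hab
        rintro ⟨x, hx, hax⟩
        obtain ⟨L, hL, rfl⟩ := Finset.mem_image.1 ha
        obtain ⟨L', hL', rfl⟩ := Finset.mem_image.1 hb
        exact hab (congrArg α (heq L hL L' hL' x hx hax))

end

end CycU

/-- CycUnif -/
theorem cycUnif (h1 : ClassNum) (h2 : OmegaSum) (h3 : SelFib) (h4 : DiscZeta) (h5 : Kum)
    (h6 : TwoSub) (h7 : DiscRam) : CycUnif := by
  intro ℓ D hℓ hℓ3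
  have hℓ1 : (0 : ℝ) < (ℓ : ℝ) - 1 := by
    have : (3 : ℝ) ≤ ℓ := by exact_mod_cast hℓ3
    linarith
  set ε : ℝ := 1 / (2 * ((ℓ : ℝ) - 1)) with hε
  have hε0 : 0 < ε := by positivity
  have hεℓ : ((ℓ : ℝ) - 1) * (1 / 2 + ε) = (ℓ : ℝ) / 2 := by
    rw [hε]
    field_simp
    ring
  obtain ⟨CZ, hCZ, hZ⟩ := h4 ℓ D hℓ
  obtain ⟨CO, hCO, hO⟩ := h2 D (ℓ ^ (ℓ - 1)) (1 / 2) (by norm_num)
  choose CN hCN hN using fun D' : ℕ => h1 D' ε hε0
  set C1 : ℝ := ∑ D' ∈ Finset.range (D * (ℓ - 1) + 1), CN D' with hC1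
  have hC1pos : 0 < C1 := Finset.sum_pos (fun D' _ => hCN D') ⟨0, by simp⟩
  refine ⟨CO * (C1 * CZ ^ (1 / 2 + ε) * (ℓ : ℝ) ^ (D * (ℓ - 1) + 1)), by
    have : (0 : ℝ) < ℓ := by exact_mod_cast hℓ.pos
    positivity, ?_⟩
  intro M E _ _ _ _ _ hD Y hY
  haveI : CharZero E := charZero_of_injective_algebraMap (algebraMap M E).injective
  obtain ⟨ζ, hζ⟩ := CycU.exists_zeta E ℓ hℓ
  have hint : IsIntegral M ζ := by
    have := hζ.isIntegral hℓ.pos
    exact this.tower_top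
  haveI : FiniteDimensional M (IntermediateField.adjoin M {ζ}) :=
    IntermediateField.adjoin.finiteDimensional hint
  haveI hnf : NumberField (IntermediateField.adjoin M {ζ}) :=
    NumberField.of_module_finite M _
  obtain ⟨he, hdZ⟩ := hZ M E hD ζ hζ
  have hdZ' := hdZ hnf
  have he0 : 0 < Module.finrank M (IntermediateField.adjoin M {ζ}) := Module.finrank_pos
  have hD' : Module.finrank ℚ (IntermediateField.adjoin M {ζ}) ≤ D * (ℓ - 1) := by
    rw [← Module.finrank_mul_finrank ℚ M (IntermediateField.adjoin M {ζ}), hD]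
    exact Nat.mul_le_mul_left _ he
  have hd1 : (1 : ℝ) ≤ ((|discr M| : ℤ) : ℝ) := by
    exact_mod_cast Int.one_le_abs (NumberField.discr_ne_zero M)
  have hd0 : (0 : ℝ) < ((|discr M| : ℤ) : ℝ) := by linarith
  -- the class number
  have hcl : (Nat.card (ClassGroup (𝓞 (IntermediateField.adjoin M {ζ}))) : ℝ) ≤
      C1 * (CZ ^ (1 / 2 + ε) * ((|discr M| : ℤ) : ℝ) ^ ((ℓ : ℝ) / 2)) := by
    have h8 := hN (Module.finrank ℚ (IntermediateField.adjoin M {ζ}))
      (IntermediateField.adjoin M {ζ}) rfl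
    refine h8.trans ?_
    have h9 : CN (Module.finrank ℚ (IntermediateField.adjoin M {ζ})) ≤ C1 :=
      Finset.single_le_sum (f := CN) (fun D' _ => (hCN D').le)
        (Finset.mem_range.2 (Nat.lt_succ_of_le hD'))
    have h10 : ((|discr (IntermediateField.adjoin M {ζ})| : ℤ) : ℝ) ^ (1 / 2 + ε) ≤
        CZ ^ (1 / 2 + ε) * ((|discr M| : ℤ) : ℝ) ^ ((ℓ : ℝ) / 2) := by
      have h11 : (CZ * ((|discr M| : ℤ) : ℝ) ^ ((ℓ : ℝ) - 1)) ^ (1 / 2 + ε) =
          CZ ^ (1 / 2 + ε) * ((|discr M| : ℤ) : ℝ) ^ ((ℓ : ℝ) / 2) := by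
        rw [Real.mul_rpow hCZ.le (Real.rpow_nonneg hd0.le _), ← Real.rpow_mul hd0.le, hεℓ]
      rw [← h11]
      exact Real.rpow_le_rpow (by positivity) hdZ' (by positivity)
    exact mul_le_mul h9 h10 (by positivity) hC1pos.le
  apply CycU.finite_of_bound
  intro 𝓛 h𝓛
  obtain ⟨𝒮, h𝒮, hcard⟩ := CycU.fieldPart h3 h5 h6 h7 hℓ hℓ3 hY hζ he0 he 𝓛 h𝓛
  have hsq : 1 ≤ Real.sqrt Y := by
    rw [Real.one_le_sqrt]
    exact hY
  have hOm := hO M hD (Real.sqrt Y) hsq 𝒮 h𝒮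
  have hcard' : (𝓛.card : ℝ) ≤ (∑ S ∈ 𝒮, (((ℓ ^ (ℓ - 1) : ℕ)) : ℝ) ^ S.card) *
      ((Nat.card (ClassGroup (𝓞 (IntermediateField.adjoin M {ζ}))) : ℝ) *
        (ℓ : ℝ) ^ (Module.finrank ℚ (IntermediateField.adjoin M {ζ}) + 1)) := by
    rw [Finset.sum_mul]
    exact_mod_cast hcard
  have hsY : Real.sqrt Y ^ (1 + 1 / 2 : ℝ) = Y ^ (3 / 4 : ℝ) := by
    rw [Real.sqrt_eq_rpow, ← Real.rpow_mul (by linarith)]
    norm_num
  rw [hsY] at hOm
  have hℓR : (1 : ℝ) ≤ (ℓ : ℝ) := by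
    have : (3 : ℝ) ≤ ℓ := by exact_mod_cast hℓ3
    linarith
  calc (𝓛.card : ℝ) ≤ _ := hcard'
    _ ≤ (CO * Y ^ (3 / 4 : ℝ)) *
        ((C1 * (CZ ^ (1 / 2 + ε) * ((|discr M| : ℤ) : ℝ) ^ ((ℓ : ℝ) / 2))) *
          (ℓ : ℝ) ^ (D * (ℓ - 1) + 1)) := by
        refine mul_le_mul hOm ?_ (by positivity) (by positivity)
        exact mul_le_mul hcl (pow_le_pow_right₀ hℓR (by omega)) (by positivity) (by positivity)
    _ = CO * (C1 * CZ ^ (1 / 2 + ε) * (ℓ : ℝ) ^ (D * (ℓ - 1) + 1)) *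
        ((|discr M| : ℤ) : ℝ) ^ ((ℓ : ℝ) / 2) * Y ^ (3 / 4 : ℝ) := by ring

end Pool.Agent.Q258.LQ
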