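import Pool.Agent.Q258.LQ.Stm2

/-!
# The discriminant and the totally ramified primes (job LQ-DscR, helper90)
-/

set_option autoImplicit false

open NumberField Filter Topology Pool.Agent.TH444.ML

namespace Pool.Agent.Q258.LQ.DscR

theorem absNorm_under_le {F L : Type} [Field F] [NumberField F] [Field L] [NumberField L]
    [Algebra F L] (Q : Ideal (𝓞 L)) (hQ : Q ≠ ⊥) :
    Ideal.absNorm (Q.under (𝓞 F)) ≤ Ideal.absNorm Q := by
  have hfin : Finite (𝓞 L ⧸ Q) := Ideal.finiteQuotientOfFreeOfNeBot Q hQ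
  rw [Ideal.absNorm_apply, Ideal.absNorm_apply, Submodule.cardQuot_apply, Submodule.cardQuot_apply]
  refine Nat.card_le_card_of_injective
    (Ideal.quotientMap Q (algebraMap (𝓞 F) (𝓞 L)) (le_refl (Q.under (𝓞 F)))) ?_
  exact Ideal.quotientMap_injective' (le_refl (Q.under (𝓞 F)))

end Pool.Agent.Q258.LQ.DscR

namespace Pool.Agent.Q258.LQ

/-- The discriminant and the totally ramified primes. -/
theorem discRam : DiscRam := by
  classical
  intro ℓ hℓ F L _ _ _ _ _ hfr S hS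
  have hform := natAbs_discr_eq_absNorm_differentIdeal_mul_natAbs_discr_pow F (𝓞 F) L (𝓞 L)
  rw [hfr] at hform
  have hpos : 0 < (discr L).natAbs := Int.natAbs_pos.2 (discr_ne_zero L)
  set 𝔇 : Ideal (𝓞 L) := differentIdeal (𝓞 F) (𝓞 L) with h𝔇
  have hDpos : 0 < Ideal.absNorm 𝔇 := by
    rcases Nat.eq_zero_or_pos (Ideal.absNorm 𝔇) with h | h
    · rw [h, zero_mul] at hform
      omega
    · exact h
  choose! Q hQ using fun p hp => (hS p hp).2.2
  have hdvd : ∏ p ∈ S, Q p ^ (ℓ - 1) ∣ 𝔇 := by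
    refine Finset.prod_dvd_of_coprime ?_ ?_
    · intro p hp q hq hpq
      have h1 := hQ p hp
      have h2 := hQ q hq
      have m1 : (Q p).IsMaximal := h1.1.isMaximal h1.2.1
      have m2 : (Q q).IsMaximal := h2.1.isMaximal h2.2.1
      refine IsCoprime.pow ?_
      refine Ideal.isCoprime_iff_sup_eq.2 ?_
      refine Ideal.IsMaximal.coprime_of_ne m1 m2 ?_
      intro h
      apply hpq
      rw [← h1.2.2.1, ← h2.2.2.1, h]
    · intro p hp
      have h1 := hQ p hp
      have hpp := (hS p hp).1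
      have hp0 := (hS p hp).2.1
      have m1 : p.IsMaximal := hpp.isMaximal hp0
      exact pow_sub_one_dvd_differentIdeal_aux (𝓞 F) F L (Q p) hℓ.ne' hp0
        (Ideal.dvd_iff_le.2 h1.2.2.2)
  have hle : Ideal.absNorm (∏ p ∈ S, Q p ^ (ℓ - 1)) ≤ Ideal.absNorm 𝔇 :=
    Nat.le_of_dvd hDpos (Ideal.absNorm_dvd_absNorm_of_le (Ideal.le_of_dvd hdvd))
  rw [map_prod] at hle
  have h3 : ∏ p ∈ S, (Ideal.absNorm p) ^ (ℓ - 1) ≤ ∏ p ∈ S, Ideal.absNorm (Q p ^ (ℓ - 1)) := by
    refine Finset.prod_le_prod' fun p hp => ?_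
    rw [map_pow]
    have h1 := hQ p hp
    refine Nat.pow_le_pow_left ?_ _
    have h4 := DscR.absNorm_under_le (F := F) (Q p) h1.2.1
    rw [h1.2.2.1] at h4
    exact h4
  rw [hform, mul_comm]
  exact Nat.mul_le_mul_right _ (h3.trans hle)

end Pool.Agent.Q258.LQ
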