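import Pool.Agent.Q258.LQ.Stm2

/-!
# The discriminant of `F(ζ)` (helper299)
-/

set_option autoImplicit false

open NumberField Filter Topology Polynomial

namespace Pool.Agent.Q258.LQ

theorem diff_bound (F L : Type) [Field F] [NumberField F] [Field L] [NumberField L] [Algebra F L]
    (ℓ : ℕ) (hℓ : 0 < ℓ) (ζ : 𝓞 L) (hζ : ζ ^ ℓ = 1) (hadj : Algebra.adjoin F {(ζ : L)} = ⊤) :
    Ideal.absNorm (differentIdeal (𝓞 F) (𝓞 L)) ≤ ℓ ^ Module.finrank ℚ L := by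
  have hint : IsIntegral (𝓞 F) ζ := Algebra.IsIntegral.isIntegral ζ
  obtain ⟨q, hq⟩ : minpoly (𝓞 F) ζ ∣ (X ^ ℓ - 1 : (𝓞 F)[X]) := by
    refine minpoly.isIntegrallyClosed_dvd hint ?_
    simp [hζ]
  have h1 : aeval ζ (derivative (minpoly (𝓞 F) ζ)) ∈ differentIdeal (𝓞 F) (𝓞 L) :=
    aeval_derivative_mem_differentIdeal (𝓞 F) F L ζ hadj
  have h2 : (ℓ : 𝓞 L) * ζ ^ (ℓ - 1) =
      aeval ζ (derivative (minpoly (𝓞 F) ζ)) * aeval ζ q := by
    have h3 := congrArg (fun p => aeval ζ (derivative p)) hq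
    simp only [derivative_sub, derivative_X_pow, derivative_one, sub_zero, derivative_mul, map_add,
      map_mul, minpoly.aeval, zero_mul, add_zero, map_pow, aeval_X] at h3
    rw [← h3]
    simp
  have h4 : (ℓ : 𝓞 L) ∈ differentIdeal (𝓞 F) (𝓞 L) := by
    have h5 : (ℓ : 𝓞 L) = aeval ζ (derivative (minpoly (𝓞 F) ζ)) * (aeval ζ q * ζ) := by
      rw [← mul_assoc, ← h2, mul_assoc, ← pow_succ, Nat.sub_add_cancel hℓ, hζ, mul_one]
    rw [h5]
    exact Ideal.mul_mem_right _ _ h1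
  have h6 : Ideal.absNorm (differentIdeal (𝓞 F) (𝓞 L)) ∣ Ideal.absNorm (Ideal.span {(ℓ : 𝓞 L)}) :=
    Ideal.absNorm_dvd_absNorm_of_le ((Ideal.span_singleton_le_iff_mem _).2 h4)
  have h7 : Ideal.absNorm (Ideal.span {(ℓ : 𝓞 L)}) = ℓ ^ Module.finrank ℚ L := by
    rw [Ideal.absNorm_span_singleton]
    have : (ℓ : 𝓞 L) = algebraMap ℤ (𝓞 L) ℓ := by simp
    rw [this, Algebra.norm_algebraMap, RingOfIntegers.rank, Int.natAbs_pow, Int.natAbs_natCast]
  rw [h7] at h6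
  exact Nat.le_of_dvd (by positivity) h6

theorem discZeta : DiscZeta := by
  intro ℓ D hℓ
  have hℓ0 : 0 < ℓ := hℓ.pos
  have hℓ1 : 1 ≤ ℓ := hℓ0
  refine ⟨(ℓ : ℝ) ^ ((ℓ - 1) * D), by positivity, ?_⟩
  intro F E _ _ _ _ _ hD ζ hζ
  have hint : IsIntegral F ζ := by
    refine ⟨X ^ ℓ - 1, monic_X_pow_sub_C (1 : F) hℓ0.ne', ?_⟩
    simp [hζ.pow_eq_one]
  have hn : Module.finrank F (IntermediateField.adjoin F {ζ}) ≤ ℓ - 1 := by
    rw [IntermediateField.adjoin.finrank hint]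
    have h1 : minpoly F ζ ∣ cyclotomic ℓ F := by
      refine minpoly.dvd F ζ ?_
      rw [← eval_map_algebraMap, map_cyclotomic]
      exact hζ.isRoot_cyclotomic hℓ0
    have h2 := natDegree_le_of_dvd h1 (cyclotomic_ne_zero ℓ F)
    rwa [natDegree_cyclotomic, Nat.totient_prime hℓ] at h2
  refine ⟨hn, fun h => ?_⟩
  set L := IntermediateField.adjoin F {ζ} with hL
  have hζL : ζ ∈ L := IntermediateField.mem_adjoin_simple_self F ζ
  have hζi : IsIntegral ℤ (⟨ζ, hζL⟩ : L) := by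
    refine ⟨X ^ ℓ - 1, monic_X_pow_sub_C (1 : ℤ) hℓ0.ne', ?_⟩
    simp only [eval₂_sub, eval₂_pow, eval₂_X, eval₂_one]
    rw [sub_eq_zero]
    apply Subtype.ext
    simpa using hζ.pow_eq_one
  let z : 𝓞 L := ⟨⟨ζ, hζL⟩, hζi⟩
  have hz : z ^ ℓ = 1 := by
    have h0 : (⟨ζ, hζL⟩ : L) ^ ℓ = 1 := by
      apply Subtype.ext
      rw [IntermediateField.coe_pow, IntermediateField.coe_one]
      exact hζ.pow_eq_one
    apply RingOfIntegers.ext
    exact (map_pow (algebraMap (𝓞 L) L) z ℓ).trans (h0.trans (map_one (algebraMap (𝓞 L) L)).symm)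
  have hadj : Algebra.adjoin F {(z : L)} = ⊤ := by
    have h1 : (IntermediateField.AdjoinSimple.gen F ζ : L) = (z : L) := rfl
    rw [← h1]
    have h2 := (IntermediateField.adjoin.powerBasis hint).adjoin_gen_eq_top
    rwa [IntermediateField.adjoin.powerBasis_gen] at h2
  have h1 := diff_bound F L ℓ hℓ0 z hz hadj
  have h2 := natAbs_discr_eq_absNorm_differentIdeal_mul_natAbs_discr_pow F (𝓞 F) L (𝓞 L)
  have hdF : 1 ≤ (discr F).natAbs := Nat.one_le_iff_ne_zero.2 (Int.natAbs_ne_zero.2 (discr_ne_zero F))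
  have hrk : Module.finrank ℚ L ≤ (ℓ - 1) * D := by
    rw [← Module.finrank_mul_finrank ℚ F L, hD, mul_comm]
    exact Nat.mul_le_mul_right D hn
  have h3 : (discr L).natAbs ≤ ℓ ^ ((ℓ - 1) * D) * (discr F).natAbs ^ (ℓ - 1) := by
    rw [h2]
    refine Nat.mul_le_mul (h1.trans (Nat.pow_le_pow_right hℓ0 hrk)) ?_
    exact Nat.pow_le_pow_right hdF hn
  have e1 : ((|discr L| : ℤ) : ℝ) = ((discr L).natAbs : ℝ) := by
    rw [Int.abs_eq_natAbs]
    exact Int.cast_natCast _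
  have e2 : ((|discr F| : ℤ) : ℝ) = ((discr F).natAbs : ℝ) := by
    rw [Int.abs_eq_natAbs]
    exact Int.cast_natCast _
  rw [e1, e2]
  have e3 : ((discr F).natAbs : ℝ) ^ ((ℓ : ℝ) - 1) = ((discr F).natAbs : ℝ) ^ (ℓ - 1) := by
    rw [← Real.rpow_natCast]
    congr 1
    push_cast [Nat.cast_sub hℓ1]
    rfl
  rw [e3]
  exact_mod_cast h3

end Pool.Agent.Q258.LQ
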