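import Pool.Agent.Q258.LQ.Stm2

/-!
# Existence of Galois extensions of prime degree
-/

set_option autoImplicit false

open NumberField Filter Topology

namespace Pool.Agent.Q258.LQ.ExC

/-- A finite commutative group whose order is divisible by the prime `ℓ` has a subgroup of
index `ℓ`. -/
lemma exists_index {G : Type} [Group G] [Finite G] (hc : ∀ a b : G, a * b = b * a) (ℓ : ℕ)
    (hℓ : ℓ.Prime) (hd : ℓ ∣ Nat.card G) : ∃ H : Subgroup G, H.index = ℓ := by
  classical
  let : CommGroup G := { (inferInstance : Group G) with mul_comm := hc }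
  have : Fact ℓ.Prime := ⟨hℓ⟩
  obtain ⟨x, hx⟩ := exists_prime_orderOf_dvd_card' (G := G) ℓ hd
  set P : Subgroup G := (powMonoidHom ℓ : G →* G).range with hP
  have hPt : P ≠ ⊤ := by
    intro h
    have hs : Function.Surjective (powMonoidHom ℓ : G →* G) := MonoidHom.range_eq_top.1 h
    have hi : Function.Injective (powMonoidHom ℓ : G →* G) := Finite.injective_iff_surjective.2 hs
    have h1 : x = 1 := by
      apply hi
      simp only [powMonoidHom_apply, one_pow]
      rw [← hx]
      exact pow_orderOf_eq_one x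
    rw [h1, orderOf_one] at hx
    exact hℓ.one_lt.ne hx
  obtain ⟨H, hH, hle⟩ := (eq_top_or_exists_le_coatom P).resolve_left hPt
  refine ⟨H, ?_⟩
  have : H.Normal := inferInstance
  have hpow : ∀ q : G ⧸ H, q ^ ℓ = 1 := by
    intro q
    induction q using QuotientGroup.induction_on with
    | H g =>
      rw [← QuotientGroup.mk_pow, QuotientGroup.eq_one_iff]
      exact hle ⟨g, rfl⟩
  -- `H` is maximal: every element outside of `H` generates the quotient
  obtain ⟨g, hg⟩ : ∃ g, g ∉ H := by
    by_contra hcon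
    push Not at hcon
    exact hH.1 (eq_top_iff.2 fun g _ => hcon g)
  have hq1 : (g : G ⧸ H) ≠ 1 := fun h => hg ((QuotientGroup.eq_one_iff g).1 h)
  have hord : orderOf (g : G ⧸ H) = ℓ := orderOf_eq_prime (hpow _) hq1
  have hz : Subgroup.zpowers (g : G ⧸ H) = ⊤ := by
    have h1 : H < (Subgroup.zpowers (g : G ⧸ H)).comap (QuotientGroup.mk' H) := by
      refine lt_of_le_of_ne ?_ ?_
      · intro y hy
        rw [Subgroup.mem_comap, QuotientGroup.mk'_apply, (QuotientGroup.eq_one_iff y).2 hy]
        exact one_mem _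
      · intro h
        apply hg
        rw [h, Subgroup.mem_comap]
        exact Subgroup.mem_zpowers _
    have h2 := hH.2 _ h1
    rw [eq_top_iff]
    intro y _
    induction y using QuotientGroup.induction_on with
    | H y =>
      have h3 : y ∈ (Subgroup.zpowers (g : G ⧸ H)).comap (QuotientGroup.mk' H) := by
        rw [h2]; trivial
      exact h3
  rw [Subgroup.index_eq_card, ← hord]
  exact (orderOf_eq_card_of_zpowers_eq_top hz).symm

end Pool.Agent.Q258.LQ.ExC

namespace Pool.Agent.Q258.LQ

open Pool.Agent.TH444.ML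

theorem exCyc : ExCyc := by
  classical
  intro ℓ hℓ F E _ _ _ _ _
  set d : ℕ := Module.finrank ℚ F with hd
  have hd0 : 0 < d := Module.finrank_pos
  have hm0 : ℓ ^ (d + 1) ≠ 0 := pow_ne_zero _ hℓ.ne_zero
  have hmz : NeZero (ℓ ^ (d + 1)) := ⟨hm0⟩
  let C := CyclotomicField (ℓ ^ (d + 1)) F
  have hfd : FiniteDimensional F C := IsCyclotomicExtension.finiteDimensional {ℓ ^ (d + 1)} F C
  have hch : CharZero C := charZero_of_injective_algebraMap (algebraMap F C).injective
  have hab : IsAbelianGalois F C := IsCyclotomicExtension.isAbelianGalois {ℓ ^ (d + 1)} F C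
  have hζ := IsCyclotomicExtension.zeta_spec (ℓ ^ (d + 1)) F C
  have hfq : FiniteDimensional ℚ C := FiniteDimensional.trans ℚ F C
  have hdeg : (minpoly ℚ (IsCyclotomicExtension.zeta (ℓ ^ (d + 1)) F C)).natDegree =
      Nat.totient (ℓ ^ (d + 1)) := by
    rw [← Polynomial.cyclotomic_eq_minpoly_rat hζ (NeZero.pos _), Polynomial.natDegree_cyclotomic]
  have hdvd : ℓ ^ d ∣ d * Module.finrank F C := by
    have h0 : d * Module.finrank F C = Module.finrank ℚ C := Module.finrank_mul_finrank ℚ F C
    have h1 := minpoly.degree_dvd (K := ℚ)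
      (x := IsCyclotomicExtension.zeta (ℓ ^ (d + 1)) F C) (Algebra.IsIntegral.isIntegral _)
    rw [hdeg, Nat.totient_prime_pow_succ hℓ, ← h0] at h1
    exact (Dvd.intro _ rfl).trans h1
  have hdvd2 : ℓ ∣ Module.finrank F C := by
    by_contra hn
    have h1 : Nat.Coprime (ℓ ^ d) (Module.finrank F C) :=
      Nat.Coprime.pow_left _ ((Nat.Prime.coprime_iff_not_dvd hℓ).2 hn)
    have h2 := Nat.le_of_dvd hd0 (h1.dvd_of_dvd_mul_right hdvd)
    exact absurd (Nat.lt_pow_self hℓ.one_lt) (not_lt.2 h2)
  have hcard : Nat.card (C ≃ₐ[F] C) = Module.finrank F C := IsGalois.card_aut_eq_finrank F C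
  obtain ⟨H, hH⟩ := ExC.exists_index (G := C ≃ₐ[F] C)
    (fun a b => (hab.toIsMulCommutative.is_comm.comm a b)) ℓ hℓ (hcard ▸ hdvd2)
  let L₀ : IntermediateField F C := IntermediateField.fixedField H
  have hL₀ : Module.finrank F L₀ = ℓ := by
    rw [IntermediateField.finrank_eq_fixingSubgroup_index,
      IntermediateField.fixingSubgroup_fixedField, hH]
  have hab0 : IsAbelianGalois F L₀ := inferInstance
  let f : C →ₐ[F] E := IsAlgClosed.lift
  let e : L₀ ≃ₐ[F] L₀.map f := L₀.equivMap f
  refine ⟨L₀.map f, ?_, ?_⟩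
  · exact e.toLinearEquiv.finrank_eq.symm.trans hL₀
  · exact IsGalois.of_algEquiv e

end Pool.Agent.Q258.LQ
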