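import Pool.Agent.Q258.LQ.Inp

/-!
# Final form
-/

set_option autoImplicit false
set_option linter.unusedSectionVars false

open NumberField Filter Topology

namespace Pool.Agent.Q258.LQ

open Pool.Agent.TH444.ML

/-- `L / F` is a finite Galois extension with solvable group -/
def SolvGal {K Ω : Type} [Field K] [Field Ω] [Algebra K Ω] (F L : IntermediateField K Ω) : Prop :=
  ∃ h : F ≤ L, FiniteDimensional F (IntermediateField.extendScalars h) ∧
    IsGalois F (IntermediateField.extendScalars h) ∧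
    Group.IsSolvable
      ((IntermediateField.extendScalars h) ≃ₐ[F] (IntermediateField.extendScalars h))

/-- `L` is obtained from a member of `𝓑` by successive solvable Galois extensions -/
inductive STow {K Ω : Type} [Field K] [Field Ω] [Algebra K Ω]
    (𝓑 : Set (IntermediateField K Ω)) : IntermediateField K Ω → Prop
  | base (F : IntermediateField K Ω) : F ∈ 𝓑 → STow 𝓑 F
  | step (F L : IntermediateField K Ω) : STow 𝓑 F → SolvGal F L → STow 𝓑 L

section

variable {K Ω : Type} [Field K] [Field Ω] [Algebra K Ω]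

theorem PTow_trans {𝓑 : Set (IntermediateField K Ω)} {F L : IntermediateField K Ω}
    (h : PTow {F} L) (hF : PTow 𝓑 F) : PTow 𝓑 L := by
  induction h with
  | base hM => rw [Set.mem_singleton_iff.1 hM]; exact hF
  | step _ h hg hp ih => exact PTow.step ih h hg hp

theorem solvGal_of_prime {F L : IntermediateField K Ω} (h : F ≤ L)
    (hg : IsGalois F (IntermediateField.extendScalars h))
    (hp : (Module.finrank F (IntermediateField.extendScalars h)).Prime) : SolvGal F L := by
  have hfd : FiniteDimensional F (IntermediateField.extendScalars h) :=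
    FiniteDimensional.of_finrank_pos hp.pos
  refine ⟨h, hfd, hg, ?_⟩
  have hc : Nat.card ((IntermediateField.extendScalars h) ≃ₐ[F]
      (IntermediateField.extendScalars h)) =
      Module.finrank F (IntermediateField.extendScalars h) :=
    IsGalois.card_aut_eq_finrank F (IntermediateField.extendScalars h)
  have hfact : Fact (Module.finrank F (IntermediateField.extendScalars h)).Prime := ⟨hp⟩
  have hcyc : IsCyclic ((IntermediateField.extendScalars h) ≃ₐ[F]
      (IntermediateField.extendScalars h)) := isCyclic_of_prime_card hc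
  have : ∀ a b : ((IntermediateField.extendScalars h) ≃ₐ[F]
      (IntermediateField.extendScalars h)), a * b = b * a := by
    intro a b
    exact (IsCyclic.commGroup (α := ((IntermediateField.extendScalars h) ≃ₐ[F]
      (IntermediateField.extendScalars h)))).mul_comm a b
  exact Group.isSolvable_of_comm this

theorem sTow_iff (𝓑 : Set (IntermediateField K Ω)) (L : IntermediateField K Ω) :
    STow 𝓑 L ↔ PTow 𝓑 L := by
  constructor
  · intro h
    induction h with
    | base F hF => exact PTow.base hF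
    | step F L _ hs ih =>
      obtain ⟨h, h1, h2, h3⟩ := hs
      exact solvTow K Ω 𝓑 F L h ih h1 h2 h3
  · intro h
    induction h with
    | base hF => exact STow.base _ hF
    | step _ h hg hp ih => exact STow.step _ _ ih (solvGal_of_prime h hg hp)

/-- the proper part -/
def SAb (𝓑 : Set (IntermediateField K Ω)) : Set (IntermediateField K Ω) :=
  {L | ∃ F : IntermediateField K Ω, STow 𝓑 F ∧ F ≠ L ∧ SolvGal F L}

theorem sAb_iff (𝓑 : Set (IntermediateField K Ω)) (L : IntermediateField K Ω) :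
    L ∈ SAb 𝓑 ↔ ∃ F : IntermediateField K Ω, PTow 𝓑 F ∧ ∃ h : F ≤ L,
      IsGalois F (IntermediateField.extendScalars h) ∧
      (Module.finrank F (IntermediateField.extendScalars h)).Prime := by
  constructor
  · rintro ⟨F, hF, hne, h, h1, h2, h3⟩
    have h4 : PTow {F} L := solvTow K Ω {F} F L h (PTow.base rfl) h1 h2 h3
    cases h4 with
    | base hM => exact absurd (Set.mem_singleton_iff.1 hM).symm hne
    | @step M _ hM h hg hp =>
      exact ⟨M, PTow_trans hM ((sTow_iff 𝓑 F).1 hF), h, hg, hp⟩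
  · rintro ⟨F, hF, h, hg, hp⟩
    refine ⟨F, (sTow_iff 𝓑 F).2 hF, ?_, solvGal_of_prime h hg hp⟩
    rintro rfl
    have : Module.finrank F (IntermediateField.extendScalars h) = 1 := by
      have hbot : IntermediateField.extendScalars h = ⊥ := by
        rw [eq_bot_iff]
        intro x hx
        rw [IntermediateField.mem_bot]
        exact ⟨⟨x, hx⟩, rfl⟩
      rw [hbot]
      exact IntermediateField.finrank_bot
    rw [this] at hp
    exact Nat.not_prime_one hp

end

section

variable {K Ω : Type} [Field K] [NumberField K] [Field Ω] [Algebra K Ω] [IsAlgClosure K Ω]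

theorem finite_dsc (n : ℕ) (hn : 0 < n) (X : ℝ) :
    {L : IntermediateField K Ω | Module.finrank K L = n ∧ dsc L ≤ X}.Finite := by
  have hchar : CharZero Ω := charZero_of_injective_algebraMap (algebraMap K Ω).injective
  have hH := NumberField.finite_of_discr_bdd Ω ⌈|X|⌉₊
  have hst : IsScalarTower ℚ K Ω := inferInstance
  have hinj : Function.Injective
      (fun L : IntermediateField K Ω => IntermediateField.restrictScalars ℚ L) :=
    IntermediateField.restrictScalars_injective ℚ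
  have hfin : {F : IntermediateField ℚ Ω | ∃ h : FiniteDimensional ℚ F,
      haveI : NumberField F := @NumberField.mk _ _ inferInstance h
      |discr F| ≤ (⌈|X|⌉₊ : ℤ)}.Finite := by
    refine (hH.image (fun F => F.1)).subset ?_
    rintro F ⟨h, hF⟩
    exact ⟨⟨F, h⟩, hF, rfl⟩
  refine (hfin.preimage hinj.injOn).subset ?_
  rintro L ⟨h1, h2⟩
  have hfd : FiniteDimensional K L := FiniteDimensional.of_finrank_pos (by omega)
  have hnf : NumberField L := nf_of_fd L
  have hfq : FiniteDimensional ℚ L := hnf.to_finiteDimensional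
  refine ⟨hfq, ?_⟩
  rw [dsc_eq L] at h2
  have h3 : ((|discr L| : ℤ) : ℝ) ≤ ((⌈|X|⌉₊ : ℤ) : ℝ) := by
    refine h2.trans ((le_abs_self X).trans ?_)
    push_cast
    exact Nat.le_ceil _
  have h4 : |discr L| ≤ (⌈|X|⌉₊ : ℤ) := by exact_mod_cast h3
  exact h4

/-- the choice of the exponent -/
theorem choose_s (𝓑 : Set (IntermediateField K Ω)) (N : ℕ)
    (hB : ∀ m : ℕ, 0 < m → ∃ θ : ℝ, θ < 3 / 2 ∧ ∃ C : ℝ, ∀ X : ℝ, 1 ≤ X →
      (Set.ncard {L : IntermediateField K Ω | L ∈ 𝓑 ∧ Module.finrank K L = m ∧ dsc L ≤ X} : ℝ) ≤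
        C * X ^ θ) :
    ∃ s : ℝ, 1 < s ∧ s < 3 / 2 ∧ ∀ m : ℕ, 0 < m → m ≤ N →
      Summable (fun F : {F : IntermediateField K Ω | F ∈ 𝓑 ∧
        Module.finrank K F = m} => (dsc F.1) ^ (-s)) := by
  choose! θ hθ C hC using hB
  obtain ⟨t, ht1, ht2, ht3⟩ : ∃ t : ℝ, 1 ≤ t ∧ t < 3 / 2 ∧ ∀ m ∈ Finset.Icc 1 N, θ m ≤ t := by
    have : ∀ S : Finset ℕ, (∀ m ∈ S, 0 < m) →
        ∃ t : ℝ, 1 ≤ t ∧ t < 3 / 2 ∧ ∀ m ∈ S, θ m ≤ t := by
      intro S
      induction S using Finset.induction_on with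
      | empty => intro _; exact ⟨1, le_rfl, by norm_num, by simp⟩
      | insert a S ha ih =>
        intro hS
        obtain ⟨t, h1, h2, h3⟩ := ih fun m hm => hS m (Finset.mem_insert_of_mem hm)
        refine ⟨max t (θ a), le_max_of_le_left h1,
          max_lt h2 (hθ a (hS a (Finset.mem_insert_self a S))), ?_⟩
        intro m hm
        rw [Finset.mem_insert] at hm
        rcases hm with rfl | hm
        · exact le_max_right _ _
        · exact (h3 m hm).trans (le_max_left _ _)
    exact this _ fun m hm => by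
      rw [Finset.mem_Icc] at hm
      omega
  refine ⟨(t + 3 / 2) / 2, by linarith, by linarith, ?_⟩
  intro m hm hmN
  have hset : ∀ X : ℝ, {L : IntermediateField K Ω | L ∈ {F : IntermediateField K Ω | F ∈ 𝓑 ∧
      Module.finrank K F = m} ∧ dsc L ≤ X} =
      {L : IntermediateField K Ω | L ∈ 𝓑 ∧ Module.finrank K L = m ∧ dsc L ≤ X} := by
    intro X
    ext L
    simp only [Set.mem_ofPred_eq]
    tauto
  refine sumOfCount2 K Ω _ (|C m|) t ((t + 3 / 2) / 2) (by linarith) (by linarith) ?_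
  intro X hX
  rw [hset]
  refine ⟨(finite_dsc m hm X).subset fun L hL => hL.2, ?_⟩
  refine (hC m hm X hX).trans ?_
  have hX0 : 0 < X := by linarith
  have h1 : X ^ θ m ≤ X ^ t :=
    Real.rpow_le_rpow_of_exponent_le hX (ht3 m (Finset.mem_Icc.2 ⟨by omega, hmN⟩))
  calc C m * X ^ θ m ≤ |C m| * X ^ θ m :=
        mul_le_mul_of_nonneg_right (le_abs_self _) (by positivity)
    _ ≤ |C m| * X ^ t := mul_le_mul_of_nonneg_left h1 (abs_nonneg _)

theorem exists_PT (𝓑 : Set (IntermediateField K Ω)) (hb : ⊥ ∈ 𝓑) (n : ℕ) (hn : 0 < n) :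
    (PT 𝓑 n).Nonempty := by
  have hac : IsAlgClosed Ω := IsAlgClosure.isAlgClosed K
  induction n using Nat.strong_induction_on with
  | _ n ih =>
    by_cases h1 : n = 1
    · subst h1
      exact ⟨⊥, PTow.base hb, IntermediateField.finrank_bot⟩
    · have hp : (n.minFac).Prime := Nat.minFac_prime h1
      have hpos : 0 < n / n.minFac := Nat.div_pos (Nat.minFac_le hn) hp.pos
      obtain ⟨F, hF, hdeg⟩ := ih (n / n.minFac) (Nat.div_lt_self hn hp.one_lt) hpos
      have hfd : FiniteDimensional K F := FiniteDimensional.of_finrank_pos (by omega)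
      have hnf : NumberField F := nf_of_fd F
      obtain ⟨L', h2, h3⟩ := exCyc n.minFac hp F Ω
      have hle : F ≤ IntermediateField.restrictScalars K L' := by
        intro x hx
        exact L'.algebraMap_mem ⟨x, hx⟩
      have hL : IntermediateField.extendScalars hle = L' := by
        apply IntermediateField.restrictScalars_injective K
        rfl
      refine ⟨IntermediateField.restrictScalars K L', PTow.step hF hle ?_ ?_, ?_⟩
      · rw [hL]; exact h3
      · rw [hL, h2]; exact hp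
      · have h4 := finrank_extend hle
        rw [hL, h2, hdeg] at h4
        rw [← h4]
        exact Nat.div_mul_cancel (Nat.minFac_dvd n)

/-- general closure theorem -/
theorem fin_even (𝓑 : Set (IntermediateField K Ω))
    (hB : ∀ m : ℕ, 0 < m → ∃ θ : ℝ, θ < 3 / 2 ∧ ∃ C : ℝ, ∀ X : ℝ, 1 ≤ X →
      (Set.ncard {L : IntermediateField K Ω | L ∈ 𝓑 ∧ Module.finrank K L = m ∧ dsc L ≤ X} : ℝ) ≤
        C * X ^ θ) (k : ℕ) (hk : 0 < k)
    (hne : ∃ F, STow 𝓑 F ∧ Module.finrank K F = k) :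
    ∃ c : ℝ, 0 < c ∧ Tendsto (fun X : ℝ =>
      (Set.ncard {L : IntermediateField K Ω | L ∈ SAb 𝓑 ∧ Module.finrank K L = 2 * k ∧
        dsc L ≤ X} : ℝ) / X) atTop (𝓝 c) := by
  obtain ⟨s, hs1, hs2, hs⟩ := choose_s 𝓑 (2 * k) hB
  obtain ⟨F, hF, hdeg⟩ := hne
  have h := main_even inp s hs1 hs2 𝓑 k hk hs ⟨F, (sTow_iff 𝓑 F).1 hF, hdeg⟩
  have hset : ∀ X : ℝ, {L : IntermediateField K Ω | L ∈ SAb 𝓑 ∧ Module.finrank K L = 2 * k ∧
      dsc L ≤ X} = {L : IntermediateField K Ω | L ∈ PP 𝓑 (2 * k) ∧ dsc L ≤ X} := by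
    intro X
    ext L
    simp only [Set.mem_ofPred_eq, sAb_iff, PP]
    tauto
  simp only [hset]
  exact h

/-- odd degree -/
theorem fin_odd (𝓑 : Set (IntermediateField K Ω))
    (hB : ∀ m : ℕ, 0 < m → ∃ θ : ℝ, θ < 3 / 2 ∧ ∃ C : ℝ, ∀ X : ℝ, 1 ≤ X →
      (Set.ncard {L : IntermediateField K Ω | L ∈ 𝓑 ∧ Module.finrank K L = m ∧ dsc L ≤ X} : ℝ) ≤
        C * X ^ θ) (n : ℕ) (hn : Odd n) :
    ∃ η : ℝ, η < 1 ∧ ∃ C : ℝ, ∀ X : ℝ, 1 ≤ X →
      (Set.ncard {L : IntermediateField K Ω | L ∈ SAb 𝓑 ∧ Module.finrank K L = n ∧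
        dsc L ≤ X} : ℝ) ≤ C * X ^ η := by
  obtain ⟨s, hs1, hs2, hs⟩ := choose_s 𝓑 n hB
  obtain ⟨C, hC⟩ := main_odd inp s hs1 hs2 𝓑 n hn hs
  refine ⟨1 / 2 + s / 3, by linarith, C, ?_⟩
  intro X hX
  have hset : {L : IntermediateField K Ω | L ∈ SAb 𝓑 ∧ Module.finrank K L = n ∧
      dsc L ≤ X} = {L : IntermediateField K Ω | L ∈ PP 𝓑 n ∧ dsc L ≤ X} := by
    ext L
    simp only [Set.mem_ofPred_eq, sAb_iff, PP]
    tauto
  rw [hset]
  exact hC X hX

theorem base_bot (m : ℕ) (hm : 0 < m) : ∃ θ : ℝ, θ < 3 / 2 ∧ ∃ C : ℝ, ∀ X : ℝ, 1 ≤ X →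
      (Set.ncard {L : IntermediateField K Ω | L ∈ ({⊥} : Set (IntermediateField K Ω)) ∧
        Module.finrank K L = m ∧ dsc L ≤ X} : ℝ) ≤ C * X ^ θ := by
  refine ⟨0, by norm_num, 1, ?_⟩
  intro X hX
  rw [Real.rpow_zero, mul_one]
  have h : {L : IntermediateField K Ω | L ∈ ({⊥} : Set (IntermediateField K Ω)) ∧
        Module.finrank K L = m ∧ dsc L ≤ X} ⊆ {⊥} := fun L hL => hL.1
  have h2 := Set.ncard_le_ncard h (Set.finite_singleton _)
  rw [Set.ncard_singleton] at h2
  exact_mod_cast h2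

theorem base_cubic (m : ℕ) (hm : 0 < m) : ∃ θ : ℝ, θ < 3 / 2 ∧ ∃ C : ℝ, ∀ X : ℝ, 1 ≤ X →
      (Set.ncard {L : IntermediateField K Ω | L ∈ {F : IntermediateField K Ω | F = ⊥ ∨
        Module.finrank K F = 3} ∧ Module.finrank K L = m ∧ dsc L ≤ X} : ℝ) ≤
        C * X ^ θ := by
  obtain ⟨C, hC0, hC⟩ := cubicBound K Ω
  refine ⟨5 / 4, by norm_num, C + 1, ?_⟩
  intro X hX
  obtain ⟨h1, h2⟩ := hC X hX
  have hsub : {L : IntermediateField K Ω | L ∈ {F : IntermediateField K Ω | F = ⊥ ∨
        Module.finrank K F = 3} ∧ Module.finrank K L = m ∧ dsc L ≤ X} ⊆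
      {⊥} ∪ {L : IntermediateField K Ω | Module.finrank K L = 3 ∧ dsc L ≤ X} := by
    rintro L ⟨h3 | h3, h4, h5⟩
    · exact Or.inl h3
    · exact Or.inr ⟨h3, h5⟩
  have h3 := (Set.ncard_le_ncard hsub ((Set.finite_singleton _).union h1)).trans
    (Set.ncard_union_le _ _)
  rw [Set.ncard_singleton] at h3
  have h4 : (Set.ncard {L : IntermediateField K Ω | L ∈ {F : IntermediateField K Ω | F = ⊥ ∨
        Module.finrank K F = 3} ∧ Module.finrank K L = m ∧ dsc L ≤ X} : ℝ) ≤
      1 + Set.ncard {L : IntermediateField K Ω | Module.finrank K L = 3 ∧ dsc L ≤ X} := by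
    exact_mod_cast h3
  have h5 : (1 : ℝ) ≤ X ^ (5 / 4 : ℝ) := Real.one_le_rpow hX (by norm_num)
  nlinarith

theorem sAb_of_degree {𝓑 : Set (IntermediateField K Ω)} {L : IntermediateField K Ω}
    (hL : STow 𝓑 L) (h : L ∉ 𝓑) : L ∈ SAb 𝓑 := by
  rw [sAb_iff]
  have := (sTow_iff 𝓑 L).1 hL
  cases this with
  | base hM => exact absurd hM h
  | @step M _ hM h hg hp => exact ⟨M, hM, h, hg, hp⟩

theorem sTow_of_sAb {𝓑 : Set (IntermediateField K Ω)} {L : IntermediateField K Ω}
    (hL : L ∈ SAb 𝓑) : STow 𝓑 L := by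
  obtain ⟨F, hF, -, h⟩ := hL
  exact STow.step F L hF h

/-- the counting function of the frozen statement -/
theorem dsc_le_iff (n : ℕ) (hn : 0 < n) (L : IntermediateField K Ω)
    (hL : Module.finrank K L = n) (X : ℝ) :
    (∃ h : NumberField L, ((|@NumberField.discr L _ h| : ℤ) : ℝ) ≤ X) ↔ dsc L ≤ X := by
  have hfd : FiniteDimensional K L := FiniteDimensional.of_finrank_pos (by omega)
  have hnf : NumberField L := nf_of_fd L
  rw [dsc_eq L]
  constructor
  · rintro ⟨h, hh⟩; exact hh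
  · intro h; exact ⟨hnf, h⟩

end

end Pool.Agent.Q258.LQ
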