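import Pool.Agent.Q258.LQ.Stm3

/-! PrimeAut: an extension which is Galois of prime degree over a subfield has a nontrivial
automorphism (project LQ of helper258, by helper241). -/

set_option autoImplicit false

open NumberField Filter Topology

namespace Pool.Agent.Q258.LQ

open Pool.Agent.TH444.ML

namespace PrA

/-- the field `L` and the same field over `F` -/
def eqv {K Ω : Type} [Field K] [Field Ω] [Algebra K Ω] {F L : IntermediateField K Ω} (h : F ≤ L) :
    L ≃+* IntermediateField.extendScalars h where
  toFun x := ⟨x.1, (IntermediateField.mem_extendScalars h).2 x.2⟩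
  invFun x := ⟨x.1, (IntermediateField.mem_extendScalars h).1 x.2⟩
  left_inv _ := rfl
  right_inv _ := rfl
  map_mul' _ _ := rfl
  map_add' _ _ := rfl

lemma exists_ne_one {F E : Type} [Field F] [Field E] [Algebra F E] [IsGalois F E]
    (h : (Module.finrank F E).Prime) : ∃ τ : E ≃ₐ[F] E, τ ≠ 1 := by
  have hfd : FiniteDimensional F E := Module.finite_of_finrank_pos h.pos
  have hc := IsGalois.card_aut_eq_finrank F E
  by_contra hcon
  push Not at hcon
  have : Subsingleton (E ≃ₐ[F] E) := ⟨fun a b => by rw [hcon a, hcon b]⟩
  have h1 : Nat.card (E ≃ₐ[F] E) ≤ 1 := Finite.card_le_one_iff_subsingleton.2 this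
  have := h.two_le
  omega

end PrA

theorem primeAut : PrimeAut := by
  intro K Ω _ _ _ F L h hG hp
  obtain ⟨τ, hτ⟩ := PrA.exists_ne_one hp
  set e := PrA.eqv h with he
  refine ⟨AlgEquiv.ofRingEquiv (f := (e.trans τ.toRingEquiv).trans e.symm) ?_, ?_⟩
  · intro k
    have h1 : e (algebraMap K L k) = algebraMap F (IntermediateField.extendScalars h)
        (algebraMap K F k) := rfl
    change e.symm (τ (e (algebraMap K L k))) = algebraMap K L k
    rw [h1, τ.commutes, ← h1, RingEquiv.symm_apply_apply]
  · intro h1
    apply hτ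
    ext x
    have h2 := DFunLike.congr_fun h1 (e.symm x)
    change e.symm (τ (e (e.symm x))) = e.symm x at h2
    rw [RingEquiv.apply_symm_apply] at h2
    have h3 := e.symm.injective h2
    rw [h3]
    rfl

end Pool.Agent.Q258.LQ
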