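import Pool.Agent.Q258.LQ.Stm3

/-!
# Schmidt's bound for the extensions without intermediate fields, uniformly
-/

set_option autoImplicit false

open NumberField Filter Topology Pool.Agent.TH444.ML

namespace Pool.Agent.Q258.LQ.PrU

open Polynomial Module

/-- the minimal polynomial of an element of trace zero -/
lemma gen {F E : Type} [Field F] [NumberField F] [Field E] [Algebra F E] (k : ℕ) (hk : 1 ≤ k)
    (L : IntermediateField F E) (hL : Module.finrank F L = k + 1)
    (hmin : ∀ M : IntermediateField F E, M ≤ L → M = ⊥ ∨ M = L)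
    [NumberField L] (x : 𝓞 L) (hx : x ≠ 0)
    (ht : Algebra.trace F L (x : L) = 0) (R : ℝ) (hR : ∀ w : InfinitePlace L, w (x : L) ≤ R) :
    ∃ a : Fin k → 𝓞 F,
      (∀ i (φ : F →+* ℂ), ‖φ (a i)‖ ≤ R ^ ((i : ℕ) + 2) * ((k + 1).choose (k - 1 - (i : ℕ)) : ℕ)) ∧
      (((x : L) : E) ^ (k + 1) + ∑ i : Fin k, algebraMap F E (a i) *
        ((x : L) : E) ^ (k - 1 - (i : ℕ)) = 0) ∧
      L = IntermediateField.adjoin F {((x : L) : E)} := by
  have hfd : FiniteDimensional F L := FiniteDimensional.of_finrank_pos (by omega)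
  have hint : IsIntegral F (x : L) := .of_finite F _
  have hx0 : (x : L) ≠ 0 := by
    intro h0
    exact hx (RingOfIntegers.ext h0)
  have hle : IntermediateField.adjoin F {((x : L) : E)} ≤ L := by
    rw [IntermediateField.adjoin_le_iff]
    intro y hy
    rw [Set.mem_singleton_iff] at hy
    rw [hy]
    exact (x : L).2
  have hLx : IntermediateField.adjoin F {((x : L) : E)} = L := by
    rcases hmin _ hle with h1 | h1
    · exfalso
      have h2 : ((x : L) : E) ∈ (⊥ : IntermediateField F E) := by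
        rw [← h1]
        exact IntermediateField.mem_adjoin_simple_self F _
      obtain ⟨y, hy⟩ := IntermediateField.mem_bot.1 h2
      have hy' : algebraMap F L y = (x : L) := by
        apply Subtype.ext
        exact hy
      rw [← hy', Algebra.trace_algebraMap, hL] at ht
      have hy0 : y = 0 := by
        have h3 : ((k + 1 : ℕ) : F) ≠ 0 := by exact_mod_cast Nat.succ_ne_zero k
        rw [nsmul_eq_mul] at ht
        exact (mul_eq_zero.1 ht).resolve_left h3
      rw [hy0, map_zero] at hy'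
      exact hx0 hy'.symm
    · exact h1
  have hminp : minpoly F ((x : L) : E) = minpoly F (x : L) :=
    minpoly.algebraMap_eq (algebraMap L E).injective (x : L)
  have hintE : IsIntegral F ((x : L) : E) := hint.algebraMap
  have hdeg : (minpoly F (x : L)).natDegree = k + 1 := by
    rw [← hminp, ← IntermediateField.adjoin.finrank hintE, hLx, hL]
  have htop : IntermediateField.adjoin F {(x : L)} = ⊤ := by
    apply IntermediateField.eq_of_le_of_finrank_le le_top
    rw [IntermediateField.finrank_top', hL, IntermediateField.adjoin.finrank hint, hdeg]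
  have hnext : (minpoly F (x : L)).nextCoeff = 0 := by
    rw [trace_eq_finrank_mul_minpoly_nextCoeff, htop] at ht
    have h1 : Module.finrank (⊤ : IntermediateField F L) L = 1 :=
      IntermediateField.finrank_top
    rw [h1] at ht
    simpa using ht
  have hck : (minpoly F (x : L)).coeff k = 0 := by
    rw [Polynomial.nextCoeff_of_natDegree_pos (by omega), hdeg] at hnext
    exact hnext
  have hmon : (minpoly F (x : L)).Monic := minpoly.monic hint
  have hck1 : (minpoly F (x : L)).coeff (k + 1) = 1 := by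
    have := hmon.coeff_natDegree
    rwa [hdeg] at this
  -- integrality of the coefficients
  have hintO : IsIntegral (𝓞 F) (x : L) := by
    obtain ⟨p, hp, hpx⟩ : IsIntegral ℤ (x : L) := x.isIntegral_coe
    refine ⟨p.map (algebraMap ℤ (𝓞 F)), hp.map _, ?_⟩
    rw [Polynomial.eval₂_map]
    have e : ((algebraMap (𝓞 F) L).comp (algebraMap ℤ (𝓞 F))) = algebraMap ℤ L :=
      RingHom.ext_int _ _
    rw [e]
    exact hpx
  have hmap : minpoly F (x : L) = (minpoly (𝓞 F) (x : L)).map (algebraMap (𝓞 F) F) :=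
    minpoly.isIntegrallyClosed_eq_field_fractions F L hintO
  have hroots : ∀ φ : F →+* ℂ, ∀ z ∈ ((minpoly F (x : L)).map φ).roots, ‖z‖ ≤ R := by
    intro φ z hz
    let _ : Algebra F ℂ := φ.toAlgebra
    have hz' : z ∈ (minpoly F (x : L)).rootSet ℂ := by
      rw [Polynomial.rootSet, Finset.mem_coe, Multiset.mem_toFinset]
      exact hz
    rw [← Algebra.IsAlgebraic.range_eval_eq_rootSet_minpoly ℂ (x : L)] at hz'
    obtain ⟨ψ, rfl⟩ := hz'
    exact hR (InfinitePlace.mk ψ.toRingHom)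
  have hcoef : ∀ (φ : F →+* ℂ) (i : ℕ), ‖φ ((minpoly F (x : L)).coeff i)‖ ≤
      R ^ (k + 1 - i) * (Nat.choose (k + 1) i : ℕ) := by
    intro φ i
    have := Polynomial.coeff_le_of_roots_le (f := φ) i hmon (IsAlgClosed.splits _) (hroots φ)
    rw [hdeg, Polynomial.coeff_map] at this
    exact this
  refine ⟨fun i => (minpoly (𝓞 F) (x : L)).coeff (k - 1 - (i : ℕ)), ?_, ?_, hLx.symm⟩
  · intro i φ
    have h1 := hcoef φ (k - 1 - (i : ℕ))
    have h2 := i.2
    rw [hmap, Polynomial.coeff_map, show k + 1 - (k - 1 - (i : ℕ)) = (i : ℕ) + 2 by omega] at h1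
    exact h1
  · have h1 : Polynomial.aeval (x : L) (minpoly F (x : L)) = 0 := minpoly.aeval F _
    rw [Polynomial.aeval_eq_sum_range, hdeg, Finset.sum_range_succ, Finset.sum_range_succ, hck,
      hck1] at h1
    have h2 : (x : L) ^ (k + 1) + ∑ i ∈ Finset.range k,
        algebraMap F L ((minpoly F (x : L)).coeff (k - 1 - i)) * (x : L) ^ (k - 1 - i) = 0 := by
      rw [Finset.sum_range_reflect
        (fun j => algebraMap F L ((minpoly F (x : L)).coeff j) * (x : L) ^ j) k]
      simp only [Algebra.smul_def] at h1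
      rw [← h1]
      simp
      ring
    have h3 := congrArg (algebraMap L E) h2
    rw [map_add, map_pow, map_sum, map_zero] at h3
    rw [← h3]
    congr 1
    rw [Finset.sum_range]
    refine Finset.sum_congr rfl fun i _ => ?_
    rw [map_mul, map_pow, ← IsScalarTower.algebraMap_apply F L E, hmap, Polynomial.coeff_map]
    rfl

/-- the fields generated by the roots of `T ^ (k + 1) + a_0 T ^ (k - 1) + ...` -/
def Fd (F E : Type) [Field F] [NumberField F] [Field E] [Algebra F E] (k : ℕ) (a : Fin k → 𝓞 F) :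
    Set (IntermediateField F E) :=
  {L | ∃ z : E, z ^ (k + 1) + ∑ i : Fin k, algebraMap F E (a i) * z ^ (k - 1 - (i : ℕ)) = 0 ∧
    L = IntermediateField.adjoin F {z}}

lemma Fd_card (F E : Type) [Field F] [NumberField F] [Field E] [Algebra F E] (k : ℕ)
    (a : Fin k → 𝓞 F) : (Fd F E k a).Finite ∧ (Fd F E k a).ncard ≤ k + 1 := by
  classical
  set r : Polynomial E := ∑ i : Fin k, C (algebraMap F E (a i)) * X ^ (k - 1 - (i : ℕ)) with hr
  have hrd : r.natDegree ≤ k := by
    rw [hr]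
    refine Polynomial.natDegree_sum_le_of_forall_le _ _ fun i _ => ?_
    refine (Polynomial.natDegree_C_mul_X_pow_le _ _).trans (by omega)
  set p : Polynomial E := X ^ (k + 1) + r with hp
  have hdeg : p.natDegree = k + 1 := by
    rw [hp, Polynomial.natDegree_add_eq_left_of_natDegree_lt, Polynomial.natDegree_X_pow]
    rw [Polynomial.natDegree_X_pow]
    omega
  have hp0 : p ≠ 0 := by
    intro h0
    rw [h0] at hdeg
    simp at hdeg
  have hsub : Fd F E k a ⊆
      (fun z : E => IntermediateField.adjoin F {z}) '' (p.roots.toFinset : Set E) := by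
    rintro L ⟨z, hz, rfl⟩
    refine ⟨z, ?_, rfl⟩
    rw [Finset.mem_coe, Multiset.mem_toFinset, Polynomial.mem_roots hp0, Polynomial.IsRoot.def]
    rw [hp, hr, eval_add, eval_pow, eval_X, Polynomial.eval_finsetSum, ← hz]
    congr 1
    refine Finset.sum_congr rfl fun i _ => ?_
    rw [eval_mul, eval_C, eval_pow, eval_X]
  have hfin : ((fun z : E => IntermediateField.adjoin F {z}) '' (p.roots.toFinset : Set E)).Finite :=
    (Finset.finite_toSet _).image _
  refine ⟨hfin.subset hsub, ?_⟩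
  calc (Fd F E k a).ncard ≤ _ := Set.ncard_le_ncard hsub hfin
    _ ≤ (p.roots.toFinset : Set E).ncard := Set.ncard_image_le (Finset.finite_toSet _)
    _ = p.roots.toFinset.card := Set.ncard_coe_finset _
    _ ≤ p.roots.card := Multiset.toFinset_card_le _
    _ ≤ p.natDegree := Polynomial.card_roots' p
    _ = k + 1 := hdeg

lemma ncard_biUnion_le' {α β : Type*} (s : Finset α) (f : α → Set β) (n : ℕ)
    (hf : ∀ a ∈ s, (f a).Finite) (hn : ∀ a ∈ s, (f a).ncard ≤ n) :
    (⋃ a ∈ s, f a).Finite ∧ (⋃ a ∈ s, f a).ncard ≤ s.card * n := by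
  classical
  induction s using Finset.induction_on with
  | empty => simp
  | insert a s ha ih =>
    have h1 := ih (fun b hb => hf b (Finset.mem_insert_of_mem hb))
      (fun b hb => hn b (Finset.mem_insert_of_mem hb))
    rw [Finset.set_biUnion_insert]
    refine ⟨(hf a (Finset.mem_insert_self _ _)).union h1.1, ?_⟩
    calc (f a ∪ ⋃ x ∈ s, f x).ncard ≤ (f a).ncard + (⋃ x ∈ s, f x).ncard :=
          Set.ncard_union_le _ _
      _ ≤ n + s.card * n := Nat.add_le_add (hn a (Finset.mem_insert_self _ _)) h1.2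
      _ = (insert a s).card * n := by rw [Finset.card_insert_of_notMem ha]; ring

lemma sum_two (k : ℕ) : 2 * ∑ i : Fin k, ((i : ℕ) + 2) = k * (k + 3) := by
  rw [← Finset.sum_range (fun i => i + 2)]
  induction k with
  | zero => simp
  | succ k ih => rw [Finset.sum_range_succ, mul_add, ih]; ring

theorem main (h1 : ShortU) (h2 : BoxU) : PrimUnif := by
  classical
  intro D m hD hm
  obtain ⟨C, hC, hS⟩ := h1 D m hD hm
  obtain ⟨C1, hC1, hbox⟩ := h2 D
  obtain ⟨k, rfl⟩ : ∃ k, m = k + 1 := ⟨m - 1, by omega⟩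
  have hk : 1 ≤ k := by omega
  have hkR : (1 : ℝ) ≤ k := by exact_mod_cast hk
  have hDR : (1 : ℝ) ≤ D := by exact_mod_cast hD
  set C' : ℝ := max C 1 with hC'
  have hC'1 : 1 ≤ C' := le_max_right _ _
  have hCC : C ≤ C' := le_max_left _ _
  set M : ℝ := (2 * C') ^ (k + 1) with hM
  have hM1 : 1 ≤ M := one_le_pow₀ (by linarith)
  refine ⟨((k : ℝ) + 1) * (C1 * M ^ D) ^ k, by positivity, ?_⟩
  intro F E _ _ _ _ _ hF X hX
  set Y : ℝ := X ^ ((1 : ℝ) / (2 * (D : ℝ) * (k : ℝ))) with hY
  have hY1 : 1 ≤ Y := Real.one_le_rpow hX (by positivity)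
  set R : ℝ := C' * Y with hR
  have hR1 : 1 ≤ R := by rw [hR]; nlinarith
  have hBx : ∀ i : Fin k, 1 ≤ M * Y ^ ((i : ℕ) + 2) := fun i => by
    have := one_le_pow₀ hY1 (n := (i : ℕ) + 2)
    nlinarith
  set T : Finset (Fin k → 𝓞 F) :=
    Fintype.piFinset fun i => (hbox F hF (M * Y ^ ((i : ℕ) + 2)) (hBx i)).1.toFinset with hT
  set A : Set (IntermediateField F E) := {L : IntermediateField F E | Module.finrank F L = k + 1 ∧
        (∀ M : IntermediateField F E, M ≤ L → M = ⊥ ∨ M = L) ∧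
        ∃ h : NumberField L, ((|@discr L _ h| : ℤ) : ℝ) ≤ X} with hA
  have hsub : A ⊆ ⋃ q ∈ T, Fd F E k q := by
    rintro L ⟨hL, hmin, hnf, hdL⟩
    obtain ⟨x, hx0, hxt, hxw⟩ := hS F L hF hL
    have hw : ∀ w : InfinitePlace L, w (x : L) ≤ R := by
      intro w
      refine (hxw w).trans ?_
      have e0 : ((k + 1 : ℕ) : ℝ) - 1 = k := by push_cast; ring
      rw [e0]
      have h0 : (0 : ℝ) ≤ ((|discr L| : ℤ) : ℝ) := by positivity
      have h1 : ((|discr L| : ℤ) : ℝ) ^ ((1 : ℝ) / (2 * (D : ℝ) * (k : ℝ))) ≤ Y :=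
        Real.rpow_le_rpow h0 hdL (by positivity)
      have h2 : 0 ≤ ((|discr L| : ℤ) : ℝ) ^ ((1 : ℝ) / (2 * (D : ℝ) * (k : ℝ))) :=
        Real.rpow_nonneg h0 _
      exact mul_le_mul hCC h1 h2 (by linarith)
    obtain ⟨a, ha, hax, hLx⟩ := gen k hk L hL hmin x hx0 hxt R hw
    rw [Set.mem_iUnion₂]
    refine ⟨a, ?_, ⟨((x : L) : E), hax, hLx⟩⟩
    rw [hT, Fintype.mem_piFinset]
    intro i
    rw [Set.Finite.mem_toFinset]
    intro w
    have e1 := ha i w.embedding
    rw [InfinitePlace.norm_embedding_eq] at e1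
    refine e1.trans ?_
    have e2 : (((k + 1).choose (k - 1 - (i : ℕ)) : ℕ) : ℝ) ≤ 2 ^ (k + 1) := by
      exact_mod_cast Nat.choose_le_two_pow (k + 1) (k - 1 - (i : ℕ))
    have e3 : R ^ ((i : ℕ) + 2) ≤ C' ^ (k + 1) * Y ^ ((i : ℕ) + 2) := by
      rw [hR, mul_pow]
      refine mul_le_mul_of_nonneg_right ?_ (by positivity)
      exact pow_le_pow_right₀ hC'1 (by have := i.2; omega)
    calc R ^ ((i : ℕ) + 2) * (((k + 1).choose (k - 1 - (i : ℕ)) : ℕ) : ℝ)
        ≤ (C' ^ (k + 1) * Y ^ ((i : ℕ) + 2)) * 2 ^ (k + 1) :=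
          mul_le_mul e3 e2 (by positivity) (by positivity)
      _ = M * Y ^ ((i : ℕ) + 2) := by rw [hM, mul_pow]; ring
  have hU := ncard_biUnion_le' T (fun q => Fd F E k q) (k + 1)
    (fun q _ => (Fd_card F E k q).1) (fun q _ => (Fd_card F E k q).2)
  refine ⟨hU.1.subset hsub, ?_⟩
  have hTc : (T.card : ℝ) ≤ (C1 * M ^ D) ^ k * X ^ (((k : ℝ) + 3) / 4) := by
    rw [hT, Fintype.card_piFinset]
    push_cast
    have h3 : ∀ i ∈ (Finset.univ : Finset (Fin k)),
        (((hbox F hF (M * Y ^ ((i : ℕ) + 2)) (hBx i)).1.toFinset.card : ℕ) : ℝ) ≤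
          (C1 * M ^ D) * (Y ^ D) ^ ((i : ℕ) + 2) := by
      intro i _
      have := (hbox F hF (M * Y ^ ((i : ℕ) + 2)) (hBx i)).2
      rw [Set.ncard_eq_toFinset_card _ (hbox F hF (M * Y ^ ((i : ℕ) + 2)) (hBx i)).1] at this
      refine this.trans (le_of_eq ?_)
      rw [mul_pow, pow_right_comm Y, mul_assoc]
    refine (Finset.prod_le_prod (fun i _ => by positivity) h3).trans (le_of_eq ?_)
    rw [Finset.prod_mul_distrib, Finset.prod_const, Finset.card_univ, Fintype.card_fin,
      Finset.prod_pow_eq_pow_sum]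
    congr 1
    rw [← pow_mul, hY, ← Real.rpow_natCast, ← Real.rpow_mul (by linarith)]
    congr 1
    have h4 := sum_two k
    have h5 : (2 : ℝ) * ((∑ i : Fin k, ((i : ℕ) + 2) : ℕ) : ℝ) = k * (k + 3) := by exact_mod_cast h4
    rw [Nat.cast_mul]
    generalize ((∑ i : Fin k, ((i : ℕ) + 2) : ℕ) : ℝ) = s at h5
    have hD0 : (D : ℝ) ≠ 0 := by linarith
    have hk0 : (k : ℝ) ≠ 0 := by linarith
    field_simp
    linarith
  have h6 : ((A.ncard : ℕ) : ℝ) ≤ (T.card : ℝ) * ((k : ℝ) + 1) := by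
    have := (Set.ncard_le_ncard hsub hU.1).trans hU.2
    exact_mod_cast this
  have e5 : (((k + 1 : ℕ) : ℝ) + 2) / 4 = ((k : ℝ) + 3) / 4 := by push_cast; ring
  rw [e5]
  calc _ ≤ (T.card : ℝ) * ((k : ℝ) + 1) := h6
    _ ≤ ((C1 * M ^ D) ^ k * X ^ (((k : ℝ) + 3) / 4)) * ((k : ℝ) + 1) :=
        mul_le_mul_of_nonneg_right hTc (by positivity)
    _ = _ := by ring

end Pool.Agent.Q258.LQ.PrU

namespace Pool.Agent.Q258.LQ

theorem primUnif (h1 : ShortU) (h2 : BoxU) : PrimUnif := PrU.main h1 h2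

end Pool.Agent.Q258.LQ
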