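import Pool.Agent.Q258.LQ.Stm3

/-!
# Schmidt's bound for all extensions of degree `n` (helper176)
-/

set_option autoImplicit false
set_option linter.unusedSectionVars false

open NumberField Filter Topology

namespace Pool.Agent.Q258.LQ

open Pool.Agent.TH444.ML

namespace SchA

section

variable {K Ω : Type} [Field K] [NumberField K] [Field Ω] [Algebra K Ω]

/-- the extensions of degree `m` of `F` without intermediate fields, as extensions of `K` -/
def PS (m : ℕ) (F : IntermediateField K Ω) (X : ℝ) : Set (IntermediateField K Ω) :=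
  {L | ∃ h : F ≤ L, Module.finrank F (IntermediateField.extendScalars h) = m ∧
    (∀ M : IntermediateField F Ω, M ≤ IntermediateField.extendScalars h →
      M = ⊥ ∨ M = IntermediateField.extendScalars h) ∧ dsc L ≤ X}

/-- the same as extensions of `F` -/
def PF (m : ℕ) (F : Type) [Field F] (E : Type) [Field E] [Algebra F E] (X : ℝ) :
    Set (IntermediateField F E) :=
  {L : IntermediateField F E | Module.finrank F L = m ∧
        (∀ M : IntermediateField F E, M ≤ L → M = ⊥ ∨ M = L) ∧
        ∃ h : NumberField L, ((|@discr L _ h| : ℤ) : ℝ) ≤ X}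

theorem PS_image (m : ℕ) (hm : 0 < m) (F : IntermediateField K Ω) [FiniteDimensional K F]
    [NumberField F] (X : ℝ) :
    (fun L' : IntermediateField F Ω => IntermediateField.restrictScalars K L') '' (PF m F Ω X) =
      PS m F X := by
  have hpos : 0 < Module.finrank K F := Module.finrank_pos
  ext L
  constructor
  · rintro ⟨L', ⟨h1, h2, hnf, h3⟩, rfl⟩
    have hle : F ≤ IntermediateField.restrictScalars K L' := by
      intro x hx
      exact L'.algebraMap_mem ⟨x, hx⟩
    have hL : IntermediateField.extendScalars hle = L' := by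
      apply IntermediateField.restrictScalars_injective K
      rfl
    refine ⟨hle, ?_, ?_, ?_⟩
    · rw [hL]; exact h1
    · rw [hL]; exact h2
    · have hnf' : NumberField (IntermediateField.restrictScalars K L' : IntermediateField K Ω) :=
        hnf
      show dsc (IntermediateField.restrictScalars K L') ≤ X
      rw [dsc_eq (IntermediateField.restrictScalars K L')]
      exact h3
  · rintro ⟨hle, h1, h2, h3⟩
    have hfd : FiniteDimensional F (IntermediateField.extendScalars hle) :=
      FiniteDimensional.of_finrank_pos (by omega)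
    have hfdK : FiniteDimensional K (IntermediateField.extendScalars hle) :=
      FiniteDimensional.trans K F _
    have hfdL : FiniteDimensional K L := hfdK
    have hnf : NumberField L := nf_of_fd L
    refine ⟨IntermediateField.extendScalars hle, ⟨h1, h2, hnf, ?_⟩, rfl⟩
    rw [dsc_eq L] at h3
    exact h3

/-- a maximal proper subfield -/
theorem exists_max (L : IntermediateField K Ω) (n : ℕ) (hn : 2 ≤ n)
    (hL : Module.finrank K L = n) :
    ∃ F : IntermediateField K Ω, F < L ∧ ∀ M : IntermediateField K Ω, F ≤ M → M ≤ L →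
      M = F ∨ M = L := by
  have hfd : FiniteDimensional K L := fd_of_finrank (by omega) hL
  have hbot : (⊥ : IntermediateField K Ω) < L := by
    refine lt_of_le_of_ne bot_le ?_
    rintro rfl
    rw [IntermediateField.finrank_bot] at hL
    omega
  obtain ⟨F, hF, hmin⟩ := (measure fun F : IntermediateField K Ω =>
    n - Module.finrank K F).wf.has_min {F : IntermediateField K Ω | F < L} ⟨⊥, hbot⟩
  have hle : ∀ M : IntermediateField K Ω, M < L → Module.finrank K M ≤ n := by
    intro M hM
    rw [← hL]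
    exact Submodule.finrank_mono (s := M.toSubalgebra.toSubmodule) (t := L.toSubalgebra.toSubmodule)
      hM.le
  refine ⟨F, hF, fun M hFM hML => ?_⟩
  rcases eq_or_lt_of_le hML with h | h
  · exact Or.inr h
  · left
    have h1 := hmin M h
    have h2 := hle M h
    have h3 := hle F hF
    have h4 : ¬ (n - Module.finrank K M < n - Module.finrank K F) := h1
    have h5 : Module.finrank K M ≤ Module.finrank K F := by omega
    have hfdM : FiniteDimensional K M := by
      have : M ≤ L := h.le
      exact FiniteDimensional.of_injective (IntermediateField.inclusion this).toLinearMap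
        (IntermediateField.inclusion_injective this)
    exact (IntermediateField.eq_of_le_of_finrank_le hFM h5).symm

/-- the data of a field of degree `n` -/
theorem cover (h2 : DiscRam) (n : ℕ) (hn : 2 ≤ n) (X : ℝ) (L : IntermediateField K Ω)
    (hL : Module.finrank K L = n) (hX : dsc L ≤ X) :
    ∃ k ∈ n.properDivisors, ∃ F : IntermediateField K Ω, Module.finrank K F = k ∧
      dsc F ≤ X ^ ((1 : ℝ) / ((n / k : ℕ) : ℝ)) ∧ L ∈ PS (n / k) F X := by
  obtain ⟨F, hF, hmax⟩ := exists_max L n hn hL
  have hfd : FiniteDimensional K L := fd_of_finrank (by omega) hL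
  have hle : F ≤ L := hF.le
  have hfdF : FiniteDimensional K F :=
    FiniteDimensional.of_injective (IntermediateField.inclusion hle).toLinearMap
      (IntermediateField.inclusion_injective hle)
  have hnfF : NumberField F := nf_of_fd F
  have hnfL : NumberField L := nf_of_fd L
  have hmul : Module.finrank K F * Module.finrank F (IntermediateField.extendScalars hle) = n := by
    rw [← hL]
    exact Module.finrank_mul_finrank K F (IntermediateField.extendScalars hle)
  have hk0 : 0 < Module.finrank K F := Module.finrank_pos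
  have hkn : Module.finrank K F ≠ n := by
    intro h
    have h5 : Module.finrank K L ≤ Module.finrank K F := by omega
    exact hF.ne (IntermediateField.eq_of_le_of_finrank_le hle h5)
  have hdvd : Module.finrank K F ∣ n := ⟨_, hmul.symm⟩
  have hkle : Module.finrank K F ≤ n := Nat.le_of_dvd (by omega) hdvd
  have hm : n / Module.finrank K F = Module.finrank F (IntermediateField.extendScalars hle) := by
    rw [← hmul]
    exact Nat.mul_div_cancel_left _ hk0
  have hmpos : 0 < Module.finrank F (IntermediateField.extendScalars hle) := by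
    rcases Nat.eq_zero_or_pos (Module.finrank F (IntermediateField.extendScalars hle)) with h | h
    · rw [h] at hmul
      omega
    · exact h
  have hd1 : 1 ≤ dsc F := one_le_dsc F
  refine ⟨Module.finrank K F, Nat.mem_properDivisors.2 ⟨hdvd, by omega⟩, F, rfl, ?_, hle, hm.symm,
    ?_, hX⟩
  · rw [hm]
    have hnf' : NumberField (IntermediateField.extendScalars hle) := hnfL
    have h := h2 _ hmpos F (IntermediateField.extendScalars hle) rfl ∅ (by simp)
    rw [Finset.prod_empty, mul_one] at h
    have h4 : ((discr F).natAbs : ℤ) ^ Module.finrank F (IntermediateField.extendScalars hle) ≤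
        ((discr (IntermediateField.extendScalars hle)).natAbs : ℤ) := by exact_mod_cast h
    rw [Int.natCast_natAbs, Int.natCast_natAbs] at h4
    have h5 : dsc F ^ Module.finrank F (IntermediateField.extendScalars hle) ≤ X := by
      refine le_trans ?_ hX
      rw [dsc_eq L, dsc_eq F]
      have e : discr L = discr (IntermediateField.extendScalars hle) := rfl
      rw [e]
      exact_mod_cast h4
    have h6 : (dsc F ^ Module.finrank F (IntermediateField.extendScalars hle)) ^
        ((1 : ℝ) / (Module.finrank F (IntermediateField.extendScalars hle) : ℝ)) ≤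
        X ^ ((1 : ℝ) / (Module.finrank F (IntermediateField.extendScalars hle) : ℝ)) :=
      Real.rpow_le_rpow (by positivity) h5 (by positivity)
    refine le_trans (le_of_eq ?_) h6
    rw [← Real.rpow_natCast, ← Real.rpow_mul (by linarith)]
    have h7 : (Module.finrank F (IntermediateField.extendScalars hle) : ℝ) ≠ 0 := by
      exact_mod_cast hmpos.ne'
    rw [mul_one_div_cancel h7, Real.rpow_one]
  · intro M hM
    have h5 : F ≤ IntermediateField.restrictScalars K M := by
      intro x hx
      exact M.algebraMap_mem ⟨x, hx⟩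
    have h6 : IntermediateField.restrictScalars K M ≤ L := fun x hx => hM hx
    rcases hmax _ h5 h6 with h7 | h7
    · left
      rw [eq_bot_iff]
      intro x hx
      have h8 : x ∈ F := by
        rw [← h7]
        exact hx
      exact (⊥ : IntermediateField F Ω).algebraMap_mem ⟨x, h8⟩
    · right
      apply IntermediateField.restrictScalars_injective K
      rw [h7]
      rfl

theorem bU {ι α : Type} (s : Finset ι) (A : ι → Set α) (B : ℝ) (hfin : ∀ j ∈ s, (A j).Finite)
    (h : ∀ j ∈ s, ((A j).ncard : ℝ) ≤ B) :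
    (⋃ j ∈ s, A j).Finite ∧ ((⋃ j ∈ s, A j).ncard : ℝ) ≤ s.card * B := by
  classical
  induction s using Finset.induction_on with
  | empty => simp
  | insert a s ha ih =>
    obtain ⟨h1, h2⟩ := ih (fun j hj => hfin j (Finset.mem_insert_of_mem hj))
      (fun j hj => h j (Finset.mem_insert_of_mem hj))
    rw [Finset.set_biUnion_insert]
    refine ⟨(hfin a (Finset.mem_insert_self _ _)).union h1, ?_⟩
    have h3 : ((A a ∪ ⋃ j ∈ s, A j).ncard : ℝ) ≤ (A a).ncard + (⋃ j ∈ s, A j).ncard := by
      exact_mod_cast Set.ncard_union_le _ _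
    have h4 := h a (Finset.mem_insert_self _ _)
    rw [Finset.card_insert_of_notMem ha]
    push_cast
    linarith

theorem cU {ι α : Type} (s : Finset ι) (A : ι → ℝ → Set α) (g : ℝ → ℝ)
    (h : ∀ j ∈ s, ∃ C : ℝ, 0 ≤ C ∧ ∀ X : ℝ, 1 ≤ X → (A j X).Finite ∧
      ((A j X).ncard : ℝ) ≤ C * g X) :
    ∃ C : ℝ, 0 ≤ C ∧ ∀ X : ℝ, 1 ≤ X → (⋃ j ∈ s, A j X).Finite ∧
      ((⋃ j ∈ s, A j X).ncard : ℝ) ≤ C * g X := by
  classical
  induction s using Finset.induction_on with
  | empty => exact ⟨0, le_rfl, fun X _ => by simp⟩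
  | insert a s ha ih =>
    obtain ⟨C1, hC1, h1⟩ := ih fun j hj => h j (Finset.mem_insert_of_mem hj)
    obtain ⟨C2, hC2, h2⟩ := h a (Finset.mem_insert_self _ _)
    refine ⟨C2 + C1, by positivity, fun X hX => ?_⟩
    rw [Finset.set_biUnion_insert]
    refine ⟨(h2 X hX).1.union (h1 X hX).1, ?_⟩
    have h3 : ((A a X ∪ ⋃ j ∈ s, A j X).ncard : ℝ) ≤ (A a X).ncard + (⋃ j ∈ s, A j X).ncard := by
      exact_mod_cast Set.ncard_union_le _ _
    have h4 := (h2 X hX).2
    have h5 := (h1 X hX).2
    calc _ ≤ _ := h3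
      _ ≤ C2 * g X + C1 * g X := add_le_add h4 h5
      _ = (C2 + C1) * g X := by ring

/-- the extensions over the fields of degree `k` -/
theorem layer (h1 : PrimUnif) [IsAlgClosed Ω] (n k m : ℕ) (hk : 0 < k) (hm : 2 ≤ m)
    (hn : k * m = n)
    (ih : 2 ≤ k → ∃ C : ℝ, 0 < C ∧ ∀ X : ℝ, 1 ≤ X →
      {L : IntermediateField K Ω | Module.finrank K L = k ∧ dsc L ≤ X}.Finite ∧
      (Set.ncard {L : IntermediateField K Ω | Module.finrank K L = k ∧ dsc L ≤ X} : ℝ) ≤
        C * X ^ (((k : ℝ) + 2) / 4)) :
    ∃ C : ℝ, 0 ≤ C ∧ ∀ X : ℝ, 1 ≤ X →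
      {L : IntermediateField K Ω | ∃ F : IntermediateField K Ω, Module.finrank K F = k ∧
        dsc F ≤ X ^ ((1 : ℝ) / (m : ℝ)) ∧ L ∈ PS m F X}.Finite ∧
      (Set.ncard {L : IntermediateField K Ω | ∃ F : IntermediateField K Ω,
        Module.finrank K F = k ∧ dsc F ≤ X ^ ((1 : ℝ) / (m : ℝ)) ∧ L ∈ PS m F X} : ℝ) ≤
        C * X ^ (((n : ℝ) + 2) / 4) := by
  obtain ⟨C1, hC1, hP⟩ := h1 (Module.finrank ℚ K * k) m
    (Nat.mul_pos Module.finrank_pos hk) hm
  have hPS : ∀ F : IntermediateField K Ω, Module.finrank K F = k → ∀ X : ℝ, 1 ≤ X →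
      (PS m F X).Finite ∧ ((PS m F X).ncard : ℝ) ≤ C1 * X ^ (((m : ℝ) + 2) / 4) := by
    intro F hF X hX
    have hfd : FiniteDimensional K F := fd_of_finrank hk hF
    have hnf : NumberField F := nf_of_fd F
    have hdeg : Module.finrank ℚ F = Module.finrank ℚ K * k := by
      rw [← hF, Module.finrank_mul_finrank ℚ K F]
    obtain ⟨h3, h4⟩ := hP F Ω hdeg X hX
    have him := PS_image m (by omega) F X
    constructor
    · rw [← him]
      exact h3.image _
    · rw [← him, Set.ncard_image_of_injective _ (IntermediateField.restrictScalars_injective K)]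
      exact h4
  -- the number of the fields `F`
  have hcount : ∃ C : ℝ, 0 ≤ C ∧ ∀ X : ℝ, 1 ≤ X →
      {F : IntermediateField K Ω | Module.finrank K F = k ∧
        dsc F ≤ X ^ ((1 : ℝ) / (m : ℝ))}.Finite ∧
      (Set.ncard {F : IntermediateField K Ω | Module.finrank K F = k ∧
        dsc F ≤ X ^ ((1 : ℝ) / (m : ℝ))} : ℝ) * X ^ (((m : ℝ) + 2) / 4) ≤
        C * X ^ (((n : ℝ) + 2) / 4) := by
    have hm2 : (2 : ℝ) ≤ m := by exact_mod_cast hm
    have hnr : (k : ℝ) * m = n := by exact_mod_cast hn
    rcases Nat.lt_or_ge k 2 with h | h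
    · have hk1 : k = 1 := by omega
      refine ⟨1, zero_le_one, fun X hX => ?_⟩
      have hsub : {F : IntermediateField K Ω | Module.finrank K F = k ∧
        dsc F ≤ X ^ ((1 : ℝ) / (m : ℝ))} ⊆ {⊥} := by
        rintro F ⟨hF, -⟩
        rw [hk1] at hF
        exact IntermediateField.finrank_eq_one_iff.1 hF
      refine ⟨(Set.finite_singleton _).subset hsub, ?_⟩
      have h3 := Set.ncard_le_ncard hsub (Set.finite_singleton _)
      rw [Set.ncard_singleton] at h3
      have h4 : (Set.ncard {F : IntermediateField K Ω | Module.finrank K F = k ∧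
        dsc F ≤ X ^ ((1 : ℝ) / (m : ℝ))} : ℝ) ≤ 1 := by exact_mod_cast h3
      have h5 : (m : ℝ) = n := by
        rw [← hnr, hk1]
        simp
      rw [h5] at h4 ⊢
      have h6 : (0 : ℝ) ≤ X ^ (((n : ℝ) + 2) / 4) := Real.rpow_nonneg (by linarith) _
      exact mul_le_mul_of_nonneg_right h4 h6
    · obtain ⟨C, hC, hI⟩ := ih h
      refine ⟨C, hC.le, fun X hX => ?_⟩
      have hX0 : (0 : ℝ) < X := by linarith
      have hY : (1 : ℝ) ≤ X ^ ((1 : ℝ) / (m : ℝ)) := Real.one_le_rpow hX (by positivity)
      obtain ⟨h3, h4⟩ := hI _ hY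
      refine ⟨h3, ?_⟩
      have h6 : (0 : ℝ) ≤ X ^ (((m : ℝ) + 2) / 4) := Real.rpow_nonneg hX0.le _
      refine (mul_le_mul_of_nonneg_right h4 h6).trans ?_
      rw [← Real.rpow_mul hX0.le, mul_assoc, ← Real.rpow_add hX0]
      refine mul_le_mul_of_nonneg_left ?_ hC.le
      apply Real.rpow_le_rpow_of_exponent_le hX
      have hk2 : (2 : ℝ) ≤ k := by exact_mod_cast h
      have h7 : (1 : ℝ) / m * (((k : ℝ) + 2) / 4) ≤ (((k : ℝ) - 1) * m) / 4 := by
        rw [one_div, ← div_eq_inv_mul, div_le_iff₀ (by linarith)]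
        have h8 : (k : ℝ) + 2 ≤ m ^ 2 * (k - 1) := by nlinarith
        nlinarith
      have h9 : ((k : ℝ) - 1) * m = n - m := by
        rw [← hnr]
        ring
      rw [h9] at h7
      linarith
  obtain ⟨C, hC, hcount⟩ := hcount
  refine ⟨C * C1, by positivity, fun X hX => ?_⟩
  obtain ⟨h3, h4⟩ := hcount X hX
  have h5 := bU h3.toFinset (fun F => PS m F X) (C1 * X ^ (((m : ℝ) + 2) / 4))
    (fun F hF => (hPS F (h3.mem_toFinset.1 hF).1 X hX).1)
    (fun F hF => (hPS F (h3.mem_toFinset.1 hF).1 X hX).2)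
  have heq : {L : IntermediateField K Ω | ∃ F : IntermediateField K Ω, Module.finrank K F = k ∧
        dsc F ≤ X ^ ((1 : ℝ) / (m : ℝ)) ∧ L ∈ PS m F X} =
        ⋃ F ∈ h3.toFinset, PS m F X := by
    ext L
    simp only [Set.mem_iUnion, Set.Finite.mem_toFinset, exists_prop]
    constructor
    · rintro ⟨F, hF1, hF2, hF3⟩
      exact ⟨F, ⟨hF1, hF2⟩, hF3⟩
    · rintro ⟨F, ⟨hF1, hF2⟩, hF3⟩
      exact ⟨F, hF1, hF2, hF3⟩
  rw [heq]
  refine ⟨h5.1, h5.2.trans ?_⟩
  rw [← Set.ncard_eq_toFinset_card _ h3]
  calc (Set.ncard {F : IntermediateField K Ω | Module.finrank K F = k ∧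
        dsc F ≤ X ^ ((1 : ℝ) / (m : ℝ))} : ℝ) * (C1 * X ^ (((m : ℝ) + 2) / 4))
      = C1 * ((Set.ncard {F : IntermediateField K Ω | Module.finrank K F = k ∧
        dsc F ≤ X ^ ((1 : ℝ) / (m : ℝ))} : ℝ) * X ^ (((m : ℝ) + 2) / 4)) := by ring
    _ ≤ C1 * (C * X ^ (((n : ℝ) + 2) / 4)) := mul_le_mul_of_nonneg_left h4 hC1.le
    _ = C * C1 * X ^ (((n : ℝ) + 2) / 4) := by ring

end

end SchA

theorem schmidtAll (h1 : PrimUnif) (h2 : DiscRam) : SchmidtAll := by
  intro K Ω _ _ _ _ _ n
  have hac : IsAlgClosed Ω := IsAlgClosure.isAlgClosed K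
  induction n using Nat.strong_induction_on with
  | _ n ih =>
  intro hn
  rcases Nat.lt_or_ge n 2 with h | h
  · have hn1 : n = 1 := by omega
    refine ⟨1, zero_lt_one, fun X hX => ?_⟩
    have hsub : {L : IntermediateField K Ω | Module.finrank K L = n ∧ dsc L ≤ X} ⊆ {⊥} := by
      rintro F ⟨hF, -⟩
      rw [hn1] at hF
      exact IntermediateField.finrank_eq_one_iff.1 hF
    refine ⟨(Set.finite_singleton _).subset hsub, ?_⟩
    have h3 := Set.ncard_le_ncard hsub (Set.finite_singleton _)
    rw [Set.ncard_singleton] at h3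
    have h4 : (Set.ncard {L : IntermediateField K Ω | Module.finrank K L = n ∧ dsc L ≤ X} : ℝ) ≤
      1 := by exact_mod_cast h3
    have h5 : (1 : ℝ) ≤ X ^ (((n : ℝ) + 2) / 4) := Real.one_le_rpow hX (by positivity)
    linarith
  · obtain ⟨C, hC, hU⟩ := SchA.cU (α := IntermediateField K Ω) n.properDivisors
      (fun k X => {L : IntermediateField K Ω | ∃ F : IntermediateField K Ω,
        Module.finrank K F = k ∧
        dsc F ≤ X ^ ((1 : ℝ) / ((n / k : ℕ) : ℝ)) ∧ L ∈ SchA.PS (n / k) F X})
      (fun X => X ^ (((n : ℝ) + 2) / 4)) (fun k hk => by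
        rw [Nat.mem_properDivisors] at hk
        obtain ⟨⟨m, hm⟩, hlt⟩ := hk
        have hk0 : 0 < k := by
          rcases Nat.eq_zero_or_pos k with h0 | h0
          · rw [h0] at hm
            omega
          · exact h0
        have hm2 : 2 ≤ m := by
          by_contra hc
          have : m = 0 ∨ m = 1 := by omega
          rcases this with h0 | h0 <;> rw [h0] at hm <;> omega
        have e : n / k = m := by
          rw [hm]
          exact Nat.mul_div_cancel_left _ hk0
        simp only [e]
        exact SchA.layer h1 n k m hk0 hm2 hm.symm (fun _ => ih k hlt hk0))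
    refine ⟨C + 1, by linarith, fun X hX => ?_⟩
    obtain ⟨h3, h4⟩ := hU X hX
    have hsub : {L : IntermediateField K Ω | Module.finrank K L = n ∧ dsc L ≤ X} ⊆
        ⋃ k ∈ n.properDivisors, {L : IntermediateField K Ω | ∃ F : IntermediateField K Ω,
        Module.finrank K F = k ∧
        dsc F ≤ X ^ ((1 : ℝ) / ((n / k : ℕ) : ℝ)) ∧ L ∈ SchA.PS (n / k) F X} := by
      rintro L ⟨hL, hX⟩
      obtain ⟨k, hk, F, hF1, hF2, hF3⟩ := SchA.cover h2 n h X L hL hX
      exact Set.mem_biUnion hk ⟨F, hF1, hF2, hF3⟩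
    refine ⟨h3.subset hsub, ?_⟩
    have h5 := Set.ncard_le_ncard hsub h3
    have h6 : (Set.ncard {L : IntermediateField K Ω | Module.finrank K L = n ∧ dsc L ≤ X} : ℝ) ≤
      Set.ncard (⋃ k ∈ n.properDivisors, {L : IntermediateField K Ω |
        ∃ F : IntermediateField K Ω, Module.finrank K F = k ∧
        dsc F ≤ X ^ ((1 : ℝ) / ((n / k : ℕ) : ℝ)) ∧ L ∈ SchA.PS (n / k) F X}) := by
      exact_mod_cast h5
    have h7 : (0 : ℝ) ≤ X ^ (((n : ℝ) + 2) / 4) := Real.rpow_nonneg (by linarith) _
    have h8 := h6.trans h4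
    refine h8.trans ?_
    show C * X ^ (((n : ℝ) + 2) / 4) ≤ (C + 1) * X ^ (((n : ℝ) + 2) / 4)
    linarith

end Pool.Agent.Q258.LQ
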