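import Pool.Agent.Q258.LQ.Stm3

/-! # Project LQ part 3 (helper258), job ShU (helper18): a short element of trace zero, uniformly -/

set_option autoImplicit false

open NumberField Filter Topology

namespace Pool.Agent.Q258.LQ.ShU

open Pool.Agent.TH444.ML

/-- the size of the trace -/
theorem trace_le {K L : Type} [Field K] [NumberField K] [Field L] [NumberField L] [Algebra K L]
    {m : ℕ} (hm : 0 < m) (hKL : Module.finrank K L = m) (x : L) (R : ℝ)
    (hx : ∀ w : InfinitePlace L, w x ≤ R) (v : InfinitePlace K) :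
    v (Algebra.trace K L x) ≤ m * R := by
  classical
  have hfd : FiniteDimensional K L := Module.finite_of_finrank_pos (by omega)
  letI : Algebra K ℂ := v.embedding.toAlgebra
  have h1 : algebraMap K ℂ (Algebra.trace K L x) = ∑ σ : L →ₐ[K] ℂ, σ x := trace_eq_sum_embeddings ℂ
  have h2 : v (Algebra.trace K L x) = ‖algebraMap K ℂ (Algebra.trace K L x)‖ := by
    rw [← InfinitePlace.norm_embedding_eq v]
    rfl
  rw [h2, h1]
  refine (norm_sum_le _ _).trans ?_
  have h3 : ∀ σ ∈ (Finset.univ : Finset (L →ₐ[K] ℂ)), ‖σ x‖ ≤ R := by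
    intro σ _
    have := hx (InfinitePlace.mk (σ : L →+* ℂ))
    rwa [InfinitePlace.apply] at this
  refine (Finset.sum_le_card_nsmul _ _ _ h3).trans ?_
  rw [Finset.card_univ, AlgHom.card, hKL, nsmul_eq_mul]

end Pool.Agent.Q258.LQ.ShU

namespace Pool.Agent.Q258.LQ

open Pool.Agent.TH444.ML

theorem shortU (h1 : ManyPts) (h2 : BoxU) : ShortU := by
  classical
  intro D m hD hm
  obtain ⟨c, hc, hT⟩ := h1 (D * m)
  obtain ⟨CK, hCK, hcount⟩ := h2 D
  obtain ⟨n, hn⟩ : ∃ n, n = D * (m - 1) := ⟨_, rfl⟩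
  have hn0 : 0 < n := by rw [hn]; exact Nat.mul_pos hD (by omega)
  have hDm : D * m = D + n := by
    rw [hn]
    obtain ⟨q, rfl⟩ : ∃ q, m = q + 1 := ⟨m - 1, by omega⟩
    rw [Nat.add_sub_cancel]
    ring
  have hm0 : (0 : ℝ) < m := by exact_mod_cast (by omega : 0 < m)
  have hm1 : (1 : ℝ) ≤ m := by exact_mod_cast (by omega : 1 ≤ m)
  -- the constant
  obtain ⟨C', hC'1, hC'3⟩ : ∃ C' : ℝ, 1 ≤ C' ∧ CK * (2 * m) ^ D < c * C' := by
    refine ⟨max 1 ((CK * (2 * m) ^ D + 1) / c), le_max_left _ _, ?_⟩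
    have h1 : (CK * (2 * m) ^ D + 1) / c ≤ max 1 ((CK * (2 * m) ^ D + 1) / c) := le_max_right _ _
    rw [div_le_iff₀ hc] at h1
    linarith
  refine ⟨4 * C', by linarith, ?_⟩
  intro F L _ _ _ _ _ hF hFL
  have hfd : FiniteDimensional F L := Module.finite_of_finrank_pos (by omega)
  have hL : Module.finrank ℚ L = D * m := by
    rw [← hF, ← hFL]
    exact (Module.finrank_mul_finrank ℚ F L).symm
  obtain ⟨dL, hdL⟩ : ∃ dL : ℝ, dL = ((|discr L| : ℤ) : ℝ) := ⟨_, rfl⟩
  have hdL1 : 1 ≤ dL := by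
    rw [hdL]
    exact_mod_cast Int.one_le_abs (discr_ne_zero L)
  obtain ⟨e, he⟩ : ∃ e : ℝ, e = dL ^ ((1 : ℝ) / (2 * (D : ℝ) * ((m : ℝ) - 1))) := ⟨_, rfl⟩
  have hD0 : (0 : ℝ) < D := by exact_mod_cast hD
  have hm2 : (0 : ℝ) < (m : ℝ) - 1 := by
    have : (2 : ℝ) ≤ m := by exact_mod_cast hm
    linarith
  have he1 : 1 ≤ e := he ▸ Real.one_le_rpow hdL1 (by positivity)
  have he2 : e ^ n = Real.sqrt dL := by
    rw [he, ← Real.rpow_natCast, ← Real.rpow_mul (by linarith), Real.sqrt_eq_rpow]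
    congr 1
    have hnr : (n : ℝ) = D * ((m : ℝ) - 1) := by
      rw [hn]
      push_cast [Nat.cast_sub (by omega : 1 ≤ m)]
      ring
    rw [hnr]
    field_simp
  have hR : 0 < C' * e := by positivity
  have hR1 : 1 ≤ C' * e := by nlinarith
  obtain ⟨T, hT1, hT2⟩ := hT L hL (C' * e) hR
  rw [← hdL, ← he2, hDm] at hT2
  -- the possible traces
  have hB : 1 ≤ 2 * m * (C' * e) := by nlinarith
  obtain ⟨hfin, hcard⟩ := hcount F hF (2 * m * (C' * e)) hB
  obtain ⟨U, hU⟩ : ∃ U : Finset (𝓞 F), U = hfin.toFinset := ⟨_, rfl⟩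
  have hUcard : (U.card : ℝ) ≤ CK * (2 * m * (C' * e)) ^ D := by
    rw [hU, ← Set.ncard_eq_toFinset_card _ hfin]
    exact hcard
  let f : 𝓞 L → 𝓞 F := fun x => ⟨Algebra.trace F L (x : L), Algebra.isIntegral_trace x.isIntegral_coe⟩
  have hf : ∀ x ∈ T, f x ∈ U := by
    intro x hx
    rw [hU, Set.Finite.mem_toFinset]
    intro v
    have := ShU.trace_le (by omega) hFL (x : L) (2 * (C' * e)) (hT1 x hx) v
    calc v (f x : F) = v (Algebra.trace F L (x : L)) := rfl
      _ ≤ m * (2 * (C' * e)) := this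
      _ = 2 * m * (C' * e) := by ring
  have hlt : U.card < T.card := by
    have h1 : (U.card : ℝ) < T.card := by
      refine lt_of_mul_lt_mul_right (a := e ^ n) ?_ (by positivity)
      calc (U.card : ℝ) * e ^ n ≤ CK * (2 * m * (C' * e)) ^ D * e ^ n := by gcongr
        _ = (CK * (2 * m) ^ D) * (C' ^ D * e ^ (D + n)) := by rw [mul_pow, mul_pow, pow_add]; ring
        _ < (c * C') * (C' ^ D * e ^ (D + n)) := by gcongr
        _ ≤ (c * C' ^ n) * (C' ^ D * e ^ (D + n)) := by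
            gcongr
            exact le_self_pow₀ hC'1 (by omega)
        _ = c * (C' * e) ^ (D + n) := by rw [mul_pow, pow_add C' D n]; ring
        _ ≤ T.card * e ^ n := hT2
    exact_mod_cast h1
  obtain ⟨x, hx, y, hy, hxy, hfxy⟩ := Finset.exists_ne_map_eq_of_card_lt_of_maps_to hlt hf
  refine ⟨x - y, sub_ne_zero.2 hxy, ?_, fun w => ?_⟩
  · have h1 : Algebra.trace F L (x : L) = Algebra.trace F L (y : L) := congrArg (fun z : 𝓞 F => (z : F)) hfxy
    have h3 : ((x - y : 𝓞 L) : L) = (x : L) - (y : L) := rfl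
    rw [h3, map_sub, h1, sub_self]
  · have h3 : ((x - y : 𝓞 L) : L) = (x : L) - (y : L) := rfl
    rw [h3, ← hdL, ← he]
    have h4 : w ((x : L) - (y : L)) ≤ w (x : L) + w (y : L) := by
      rw [← InfinitePlace.norm_embedding_eq, ← InfinitePlace.norm_embedding_eq, ← InfinitePlace.norm_embedding_eq,
        map_sub]
      exact norm_sub_le _ _
    have h5 := hT1 x hx w
    have h6 := hT1 y hy w
    linarith

end Pool.Agent.Q258.LQ
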