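import Pool.Agent.Q258.LQ.Asm4
import Pool.Agent.Q258.LQ.BoxU
import Pool.Agent.Q258.LQ.ShU
import Pool.Agent.Q258.LQ.PrU
import Pool.Agent.Q258.LQ.SchA
import Pool.Agent.Q258.LQ.AutP
import Pool.Agent.Q258.LQ.PrA

/-!
# Fields with a nontrivial automorphism : final form
-/

set_option autoImplicit false

open NumberField Filter Topology

namespace Pool.Agent.Q258.LQ

open Pool.Agent.TH444.ML

theorem schmidt_all : SchmidtAll := schmidtAll (primUnif (shortU manyPts boxU) boxU) discRam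

variable {K Ω : Type} [Field K] [NumberField K] [Field Ω] [Algebra K Ω] [IsAlgClosure K Ω]

theorem fin_aut (n : ℕ) (hn : 0 < n) (ε : ℝ) (hε : 0 < ε) : ∃ C : ℝ, ∀ X : ℝ, 1 ≤ X →
      (Set.ncard {L : IntermediateField K Ω | L ∈ Aut1 K Ω n ∧ dsc L ≤ X} : ℝ) ≤
        C * X ^ (max 1 (1 / 2 + (n : ℝ) / 16) + ε) :=
  aut_bound inp schmidt_all autPrime n hn ε hε

theorem fin_aut_odd (n : ℕ) (hn : Odd n) (ε : ℝ) (hε : 0 < ε) : ∃ C : ℝ, ∀ X : ℝ, 1 ≤ X →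
      (Set.ncard {L : IntermediateField K Ω | L ∈ Aut1 K Ω n ∧ dsc L ≤ X} : ℝ) ≤
        C * X ^ (max (3 / 4) (2 / 3 + (n : ℝ) / 36) + ε) :=
  aut_bound_odd inp schmidt_all autPrime n hn ε hε

theorem fin_aut_asymp (n : ℕ) (hn : n = 2 ∨ n = 4 ∨ n = 6) :
    ∃ c : ℝ, 0 < c ∧ Tendsto (fun X : ℝ =>
      (Set.ncard {L : IntermediateField K Ω | L ∈ Aut1 K Ω n ∧ dsc L ≤ X} : ℝ) / X)
        atTop (𝓝 c) :=
  aut_asymp schmidt_all autPrime primeAut n hn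

end Pool.Agent.Q258.LQ
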