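import Pool.Agent.Q258.LQ.Asm6
import Pool.Agent.Q258.LQ.Fin4

/-!
# Towers above arbitrary fields : final form
-/

set_option autoImplicit false

open NumberField Filter Topology

namespace Pool.Agent.Q258.LQ

open Pool.Agent.TH444.ML

variable {K Ω : Type} [Field K] [NumberField K] [Field Ω] [Algebra K Ω] [IsAlgClosure K Ω]

theorem fin_arb_even (r b : ℕ) (hr : 0 < r) (hb : Even b) (hrb : r < b) :
    ∃ c0 : ℝ, 0 < c0 ∧ Tendsto (fun X : ℝ =>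
      (Set.ncard {L : IntermediateField K Ω | L ∈ TA K Ω (r * b) b ∧ dsc L ≤ X} : ℝ) / X)
        atTop (𝓝 c0) :=
  arb_even inp schmidt_all r b hr hb hrb

theorem fin_arb_two (r i : ℕ) (hr : 0 < r) (hi : 1 ≤ i) (hri : r < 2 ^ (i + 1)) :
    ∃ c0 : ℝ, 0 < c0 ∧ Tendsto (fun X : ℝ =>
      (Set.ncard {L : IntermediateField K Ω | L ∈ TA K Ω (r * 2 ^ i) (2 ^ i) ∧ dsc L ≤ X} : ℝ) / X)
        atTop (𝓝 c0) :=
  arb_two inp schmidt_all r i hr hi hri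

theorem fin_TA_bound (r b : ℕ) (hr : 0 < r) (hb : 0 < b) (ε : ℝ) (hε : 0 < ε) :
    ∃ C : ℝ, ∀ X : ℝ, 1 ≤ X →
      (Set.ncard {L : IntermediateField K Ω | L ∈ TA K Ω (r * b) b ∧ dsc L ≤ X} : ℝ) ≤
        C * X ^ (max 1 (3 / 4 + (r : ℝ) / (4 * b)) + ε) := by
  obtain ⟨C, -, hC⟩ := TA_bound (K := K) (Ω := Ω) inp schmidt_all b (r * b) (by positivity)
    (dvd_mul_left b r) ε hε
  have hb' : (0 : ℝ) < b := by exact_mod_cast hb
  have e1 : ((r * b : ℕ) : ℝ) / (4 * (b : ℝ) ^ 2) = (r : ℝ) / (4 * b) := by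
    push_cast
    field_simp
  rw [e1] at hC
  exact ⟨C, fun X hX => (hC X hX).2⟩

theorem fin_TA_two (r i : ℕ) (hr : 0 < r) (ε : ℝ) (hε : 0 < ε) :
    ∃ C : ℝ, ∀ X : ℝ, 1 ≤ X →
      (Set.ncard {L : IntermediateField K Ω | L ∈ TA K Ω (r * 2 ^ i) (2 ^ i) ∧ dsc L ≤ X} : ℝ) ≤
        C * X ^ (max 1 (1 / 2 + (r : ℝ) / (4 * 2 ^ i)) + ε) := by
  obtain ⟨C, -, hC⟩ := TA_bound_two (K := K) (Ω := Ω) inp schmidt_all i (r * 2 ^ i)
    (by positivity) (dvd_mul_left _ r) ε hε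
  have e1 : ((r * 2 ^ i : ℕ) : ℝ) / 4 ^ (i + 1) = (r : ℝ) / (4 * 2 ^ i) := by
    push_cast
    have : (4 : ℝ) ^ (i + 1) = 2 ^ i * (4 * 2 ^ i) := by
      have h : (4 : ℝ) ^ i = 2 ^ i * 2 ^ i := by
        rw [← mul_pow]; norm_num
      rw [pow_succ, h]; ring
    rw [this]
    field_simp
  rw [e1] at hC
  exact ⟨C, fun X hX => (hC X hX).2⟩

end Pool.Agent.Q258.LQ
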