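import Pool.Agent.Q258.LQ.Stm
import Pool.Agent.TH89.J3091

/-!
The sum of `N(I) ^ (-(1 + ε))` over ideals (adapted from `TH89.J3091`).
-/

set_option autoImplicit false

open NumberField Filter Topology

namespace Pool.Agent.Q258.LQ

open Pool.Agent.TH444.ML

open Ideal UniqueFactorizationMonoid Pool.Agent.TH89.J3091 in
theorem idealSum : IdealSum := by
  classical
  intro D ε hε
  set ζ : ℝ := ∑' n : ℕ, (1 : ℝ) / (n : ℝ) ^ (1 + ε) with hζ
  have hsum : Summable (fun n : ℕ => (1 : ℝ) / (n : ℝ) ^ (1 + ε)) :=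
    Real.summable_one_div_nat_rpow.2 (by linarith)
  have hζ1 : 1 ≤ ζ := by
    have h := hsum.le_tsum 1 (fun n _ => by positivity)
    rw [← hζ] at h
    simpa using h
  refine ⟨ζ ^ D, by positivity, ?_⟩
  intro M _ _ hD F hF0
  obtain ⟨j, hj, hinj⟩ := exists_index (M := M)
  -- the tuple
  set Φ : Ideal (𝓞 M) → (Fin D → ℕ) := fun I i => co j i I with hΦ
  have hprod : ∀ I ∈ F, ((∏ i, Φ I i : ℕ) : ℝ) ≤ (absNorm I : ℝ) := by
    intro I hI
    have h := prod_co_le j hj I (hF0 I hI)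
    rw [hD, Finset.prod_range] at h
    exact_mod_cast h
  have hΦinj : Set.InjOn Φ F := by
    intro I hI J hJ h
    rw [Finset.mem_coe] at hI hJ
    refine co_inj j hj hinj I J (hF0 I hI) (hF0 J hJ) ?_
    intro i hi
    rw [hD] at hi
    exact congrFun h ⟨i, hi⟩
  have hΦpos : ∀ I i, 1 ≤ Φ I i := fun I i => co_pos j i I
  set N : ℕ := ∑ I ∈ F, absNorm I with hN
  have hmem : ∀ I ∈ F, Φ I ∈ Fintype.piFinset (fun _ : Fin D => Finset.Icc 1 N) := by
    intro I hI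
    rw [Fintype.mem_piFinset]
    intro i
    rw [Finset.mem_Icc]
    refine ⟨hΦpos I i, ?_⟩
    have h1 : Φ I i ∣ ∏ i, Φ I i := Finset.dvd_prod_of_mem _ (Finset.mem_univ i)
    have h2 := Nat.le_of_dvd (Finset.prod_pos fun i _ => hΦpos I i) h1
    have h3 : ∏ i, Φ I i ≤ absNorm I := by exact_mod_cast hprod I hI
    have h4 : absNorm I ≤ N := Finset.single_le_sum (f := fun I => absNorm I)
      (fun _ _ => Nat.zero_le _) hI
    exact (h2.trans h3).trans h4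
  set w : (Fin D → ℕ) → ℝ := fun x => ∏ i, (1 : ℝ) / ((x i : ℕ) : ℝ) ^ (1 + ε) with hw
  have hw0 : ∀ x, 0 ≤ w x := fun x => Finset.prod_nonneg fun i _ => by positivity
  have h1 : ∀ I ∈ F, (absNorm I : ℝ) ^ (-(1 + ε)) ≤ w (Φ I) := by
    intro I hI
    have hp : (0 : ℝ) < ((∏ i, Φ I i : ℕ) : ℝ) := by
      exact_mod_cast Finset.prod_pos fun i _ => hΦpos I i
    have : w (Φ I) = ((∏ i, Φ I i : ℕ) : ℝ) ^ (-(1 + ε)) := by
      rw [hw]
      simp only
      rw [Finset.prod_div_distrib, Finset.prod_const_one, Nat.cast_prod,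
        Real.rpow_neg (Finset.prod_nonneg fun i _ => Nat.cast_nonneg _),
        ← Real.finsetProd_rpow _ _ (fun i _ => Nat.cast_nonneg _), one_div]
    rw [this]
    exact Real.rpow_le_rpow_of_nonpos hp (hprod I hI) (by linarith)
  calc ∑ I ∈ F, (absNorm I : ℝ) ^ (-(1 + ε)) ≤ ∑ I ∈ F, w (Φ I) := Finset.sum_le_sum h1
    _ = ∑ x ∈ F.image Φ, w x := by rw [Finset.sum_image hΦinj]
    _ ≤ ∑ x ∈ Fintype.piFinset (fun _ : Fin D => Finset.Icc 1 N), w x := by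
        refine Finset.sum_le_sum_of_subset_of_nonneg ?_ (fun x _ _ => hw0 x)
        intro x hx
        rw [Finset.mem_image] at hx
        obtain ⟨I, hI, rfl⟩ := hx
        exact hmem I hI
    _ = ∏ _i : Fin D, ∑ n ∈ Finset.Icc 1 N, (1 : ℝ) / (n : ℝ) ^ (1 + ε) := by
        rw [Finset.prod_univ_sum]
    _ ≤ ∏ _i : Fin D, ζ := by
        refine Finset.prod_le_prod (fun i _ => Finset.sum_nonneg fun n _ => by positivity) ?_
        intro i _
        exact hsum.sum_le_tsum _ (fun n _ => by positivity)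
    _ = ζ ^ D := by
        rw [Finset.prod_const, Finset.card_univ, Fintype.card_fin]

open Ideal in
theorem idealUnif2 : IdealUnif2 := by
  classical
  intro D ε hε
  obtain ⟨C, hC0, hC⟩ := idealSum D ε hε
  refine ⟨C, hC0, ?_⟩
  intro M _ _ hD Z hZ
  have hfin : {I : Ideal (𝓞 M) | I ≠ ⊥ ∧ (Ideal.absNorm I : ℝ) ≤ Z}.Finite := by
    refine (Ideal.finite_setOfPred_absNorm_le (S := 𝓞 M) ⌊Z⌋₊).subset ?_
    rintro I ⟨-, hI⟩
    exact Nat.le_floor hI
  refine ⟨hfin, ?_⟩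
  have hmemF : ∀ I, I ∈ hfin.toFinset ↔ I ≠ ⊥ ∧ (Ideal.absNorm I : ℝ) ≤ Z := by
    intro I; simp
  have hsum := hC M hD hfin.toFinset (fun I hI => ((hmemF I).1 hI).1)
  rw [Set.ncard_eq_toFinset_card _ hfin]
  have hZ0 : (0 : ℝ) < Z := by linarith
  have h1 : ∀ I ∈ hfin.toFinset, (1 : ℝ) ≤ Z ^ (1 + ε) * (absNorm I : ℝ) ^ (-(1 + ε)) := by
    intro I hI
    obtain ⟨hI0, hIZ⟩ := (hmemF I).1 hI
    have hp : (0 : ℝ) < (absNorm I : ℝ) := by
      have : absNorm I ≠ 0 := fun h => hI0 (Ideal.absNorm_eq_zero_iff.mp h)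
      exact_mod_cast Nat.pos_of_ne_zero this
    have h2 : Z ^ (-(1 + ε)) ≤ (absNorm I : ℝ) ^ (-(1 + ε)) :=
      Real.rpow_le_rpow_of_nonpos hp hIZ (by linarith)
    calc (1 : ℝ) = Z ^ (1 + ε) * Z ^ (-(1 + ε)) := by
          rw [← Real.rpow_add hZ0, add_neg_cancel, Real.rpow_zero]
      _ ≤ Z ^ (1 + ε) * (absNorm I : ℝ) ^ (-(1 + ε)) :=
          mul_le_mul_of_nonneg_left h2 (by positivity)
  calc ((hfin.toFinset).card : ℝ) = ∑ I ∈ hfin.toFinset, (1 : ℝ) := by simp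
    _ ≤ ∑ I ∈ hfin.toFinset, Z ^ (1 + ε) * (absNorm I : ℝ) ^ (-(1 + ε)) := Finset.sum_le_sum h1
    _ = Z ^ (1 + ε) * ∑ I ∈ hfin.toFinset, (absNorm I : ℝ) ^ (-(1 + ε)) := by rw [Finset.mul_sum]
    _ ≤ Z ^ (1 + ε) * C := mul_le_mul_of_nonneg_left hsum (by positivity)
    _ = C * Z ^ (1 + ε) := mul_comm _ _

end Pool.Agent.Q258.LQ
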