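import Pool.Agent.Q258.LQ.Stm

/-!
# Inertia groups of order at most two
-/

set_option autoImplicit false
set_option linter.deprecated false

open NumberField Filter Topology

namespace Pool.Agent.Q258.LQ

open Pool.Agent.TH444.ML

namespace Inert

open Ideal in
theorem card_le {E L : Type} [Field E] [NumberField E] [Field L] [NumberField L] [Algebra E L]
    [IsGalois E L] (P : Ideal (𝓞 L)) (hP : P.IsPrime) (hP0 : P ≠ ⊥)
    (h : ¬ (Ideal.map (algebraMap (𝓞 E) (𝓞 L)) (P.under (𝓞 E)) ≤ P ^ 3)) :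
    Nat.card (P.inertia Gal(L/E)) ≤ 2 := by
  have hp : (P.under (𝓞 E)).IsPrime := inferInstance
  have hPp : P.LiesOver (P.under (𝓞 E)) := inferInstance
  have hp0 : P.under (𝓞 E) ≠ ⊥ := under_ne_bot (𝓞 E) hP0
  have hm1 : (P.under (𝓞 E)).IsMaximal := hp.isMaximal hp0
  have : PerfectField (P.under (𝓞 E)).ResidueField := by
    have hf : Finite (𝓞 E ⧸ P.under (𝓞 E)) := finiteQuotientOfFreeOfNeBot _ hp0
    have hf2 : Finite (P.under (𝓞 E)).ResidueField :=
      Finite.of_surjective _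
        (bijective_algebraMap_quotient_residueField (P.under (𝓞 E))).2
    infer_instance
  have e1 : Nat.card (P.inertia Gal(L/E)) = P.ramificationIdx (𝓞 E) := by
    rw [card_inertia_eq_ramificationIdxIn (P.under (𝓞 E)) P,
      ramificationIdxIn_eq_ramificationIdx (P.under (𝓞 E)) P Gal(L/E)]
  have hmap : (P.under (𝓞 E)).map (algebraMap (𝓞 E) (𝓞 L)) ≠ ⊥ :=
    map_ne_bot_of_ne_bot hp0
  rw [e1, IsDedekindDomain.ramificationIdx_eq_multiplicity (P.under (𝓞 E)) P hmap]
  by_contra hcon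
  push Not at hcon
  apply h
  rw [← Ideal.dvd_iff_le]
  exact (pow_dvd_pow P hcon).trans (pow_multiplicity_dvd _ _)

end Inert

open Inert in
theorem inertiaTwo : InertiaTwo := by
  intro K L _ _ _ _ _ P hP hP0 h3 σ τ hσ hτ hσP hτP
  by_contra hne
  let E : IntermediateField K L := IntermediateField.fixedField (⊤ : Subgroup (L ≃ₐ[K] L))
  haveI : IsGalois E L := IsGalois.of_fixed_field L (⊤ : Subgroup (L ≃ₐ[K] L))
  have hfix : ∀ (ρ : L ≃ₐ[K] L) (x : E), ρ (algebraMap E L x) = algebraMap E L x := by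
    intro ρ x
    exact x.2 ⟨ρ, Subgroup.mem_top ρ⟩
  let up : (L ≃ₐ[K] L) → (L ≃ₐ[E] L) := fun ρ => { ρ with commutes' := fun x => hfix ρ x }
  have hup : ∀ (ρ : L ≃ₐ[K] L) (x : L), up ρ x = ρ x := fun ρ x => rfl
  have hcard := card_le (E := E) P hP hP0 (by
    intro hle
    apply h3
    have e1 : (P.under (𝓞 K)).map (algebraMap (𝓞 K) (𝓞 L)) =
        ((P.under (𝓞 K)).map (algebraMap (𝓞 K) (𝓞 E))).map (algebraMap (𝓞 E) (𝓞 L)) := by
      rw [Ideal.map_map, ← IsScalarTower.algebraMap_eq]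
    rw [e1]
    refine (Ideal.map_mono ?_).trans hle
    rw [Ideal.map_le_iff_le_comap]
    intro x hx
    show algebraMap (𝓞 E) (𝓞 L) (algebraMap (𝓞 K) (𝓞 E) x) ∈ P
    rw [← IsScalarTower.algebraMap_apply]
    exact hx)
  have hmem : ∀ ρ : L ≃ₐ[K] L, (∀ x y : 𝓞 L, (y : L) = ρ (x : L) → y - x ∈ P) →
      up ρ ∈ P.inertia Gal(L/E) := by
    intro ρ hρ x
    exact hρ x (up ρ • x) rfl
  let f : Fin 3 → P.inertia Gal(L/E) := ![1, ⟨up σ, hmem σ hσP⟩, ⟨up τ, hmem τ hτP⟩]
  have hinj : Function.Injective f := by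
    have hup_inj : ∀ ρ ρ' : L ≃ₐ[K] L, up ρ = up ρ' → ρ = ρ' := by
      intro ρ ρ' h
      ext x
      have := congrArg (fun g : L ≃ₐ[E] L => g x) h
      exact this
    have h1 : up 1 = 1 := by
      ext x
      rfl
    have a1 : (1 : P.inertia Gal(L/E)) ≠ ⟨up σ, hmem σ hσP⟩ := by
      intro h
      have h2 := congrArg Subtype.val h
      exact hσ (hup_inj _ _ (by rw [h1]; exact h2.symm))
    have a2 : (1 : P.inertia Gal(L/E)) ≠ ⟨up τ, hmem τ hτP⟩ := by
      intro h
      have h2 := congrArg Subtype.val h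
      exact hτ (hup_inj _ _ (by rw [h1]; exact h2.symm))
    have a3 : (⟨up σ, hmem σ hσP⟩ : P.inertia Gal(L/E)) ≠ ⟨up τ, hmem τ hτP⟩ := by
      intro h
      exact hne (hup_inj _ _ (congrArg Subtype.val h))
    intro i j hij
    fin_cases i <;> fin_cases j
    · rfl
    · exact absurd hij a1
    · exact absurd hij a2
    · exact absurd hij.symm a1
    · rfl
    · exact absurd hij a3
    · exact absurd hij.symm a2
    · exact absurd hij.symm a3
    · rfl
  have h4 := Nat.card_le_card_of_injective f hinj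
  rw [Nat.card_eq_fintype_card, Fintype.card_fin] at h4
  omega

end Pool.Agent.Q258.LQ
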