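import Pool.Agent.Q258.LQ.Stm2

/-! Job LQ-KumE: Kummer theory for a Galois extension of prime degree. -/

set_option autoImplicit false

open NumberField IntermediateField

namespace Pool.Agent.Q258.LQ

namespace KumE

/-- the degree of `F(ζ)` -/
theorem finrank_zeta (ℓ : ℕ) (hℓ : ℓ.Prime) (F E : Type) [Field F] [CharZero F] [Field E]
    [Algebra F E] (ζ : E) (hζ : IsPrimitiveRoot ζ ℓ) :
    IsIntegral F ζ ∧ 0 < Module.finrank F F⟮ζ⟯ ∧ Module.finrank F F⟮ζ⟯ < ℓ := by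
  have : CharZero E := charZero_of_injective_algebraMap (algebraMap F E).injective
  have h1 : Polynomial.aeval ζ (Polynomial.cyclotomic ℓ F) = 0 := by
    have h2 := hζ.isRoot_cyclotomic hℓ.pos
    rw [← Polynomial.map_cyclotomic ℓ (algebraMap F E), Polynomial.IsRoot.def,
      Polynomial.eval_map_algebraMap] at h2
    exact h2
  have hint : IsIntegral F ζ := ⟨_, Polynomial.cyclotomic.monic ℓ F, h1⟩
  refine ⟨hint, ?_, ?_⟩
  · rw [adjoin.finrank hint]
    exact minpoly.natDegree_pos hint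
  · rw [adjoin.finrank hint]
    have h3 := Polynomial.natDegree_le_of_dvd (minpoly.dvd F ζ h1) (Polynomial.cyclotomic_ne_zero ℓ F)
    rw [Polynomial.natDegree_cyclotomic, Nat.totient_prime hℓ] at h3
    have := hℓ.pos
    omega

/-- Kummer theory -/
theorem key (ℓ : ℕ) (hℓ : ℓ.Prime) (F E : Type) [Field F] [CharZero F] [Field E]
    [Algebra F E] (ζ : E) (hζ : IsPrimitiveRoot ζ ℓ) (L : IntermediateField F E)
    (hL : Module.finrank F L = ℓ) (hG : IsGalois F L) :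
    ∃ α₀ : E, α₀ ≠ 0 ∧ α₀ ^ ℓ ∈ F⟮ζ⟯ ∧ α₀ ∈ L ⊔ F⟮ζ⟯ ∧
      L ⊔ F⟮ζ⟯ ≤ IntermediateField.adjoin F ((F⟮ζ⟯ : Set E) ∪ {α₀}) ∧
      Module.finrank F ↥(L ⊔ F⟮ζ⟯) = ℓ * Module.finrank F F⟮ζ⟯ := by
  obtain ⟨hint, hpos, hlt⟩ := finrank_zeta ℓ hℓ F E ζ hζ
  have hfL : FiniteDimensional F L := Module.finite_of_finrank_pos (by rw [hL]; exact hℓ.pos)
  have hfZ : FiniteDimensional F F⟮ζ⟯ := adjoin.finiteDimensional hint
  have hcop : (Module.finrank F L).Coprime (Module.finrank F F⟮ζ⟯) := by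
    rw [hL, hℓ.coprime_iff_not_dvd]
    intro hd
    have := Nat.le_of_dvd hpos hd
    omega
  have hld : L.LinearDisjoint F⟮ζ⟯ := LinearDisjoint.of_finrank_coprime hcop
  have hfr : Module.finrank F ↥(L ⊔ F⟮ζ⟯) = ℓ * Module.finrank F F⟮ζ⟯ := by
    rw [hld.finrank_sup, hL]
  obtain ⟨C, hC⟩ : ∃ C : IntermediateField F E, C = L ⊔ F⟮ζ⟯ := ⟨_, rfl⟩
  have hLC : L ≤ C := by rw [hC]; exact le_sup_left
  have hZC : F⟮ζ⟯ ≤ C := by rw [hC]; exact le_sup_right
  rw [← hC] at hfr ⊢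
  let A' : IntermediateField F C := L.restrict hLC
  let B' : IntermediateField F C := F⟮ζ⟯.restrict hZC
  have h₁ : A' ⊔ B' = ⊤ := by
    rw [← lift_inj, lift_top, lift_sup, lift_restrict hLC, lift_restrict hZC, hC]
  have hA' : Module.finrank F A' = ℓ := by
    rw [← hL]
    exact (restrictAlgEquiv hLC).toLinearEquiv.finrank_eq.symm
  have hB' : Module.finrank F B' = Module.finrank F F⟮ζ⟯ :=
    (restrictAlgEquiv hZC).toLinearEquiv.finrank_eq.symm
  have hfA' : FiniteDimensional F A' := Module.finite_of_finrank_pos (by rw [hA']; exact hℓ.pos)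
  have hfB' : FiniteDimensional F B' := Module.finite_of_finrank_pos (by rw [hB']; exact hpos)
  have hfC : FiniteDimensional F C := Module.finite_of_finrank_pos (by
    rw [hfr]; exact Nat.mul_pos hℓ.pos hpos)
  have hGA' : IsGalois F A' := IsGalois.of_algEquiv (restrictAlgEquiv hLC)
  have hGB : IsGalois B' C := IsGalois.sup_right A' B' h₁
  have hld' : A'.LinearDisjoint B' := LinearDisjoint.of_finrank_coprime (by
    rw [hA', hB', ← hL]; exact hcop)
  have hfBC : Module.finrank B' C = ℓ := by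
    rw [hld'.finrank_right_eq_finrank h₁, hA']
  have hfdBC : FiniteDimensional B' C := Module.finite_of_finrank_pos (by
    rw [hfBC]; exact hℓ.pos)
  have hcyc : IsCyclic Gal(C/B') := by
    have : Fact ℓ.Prime := ⟨hℓ⟩
    apply isCyclic_of_prime_card (p := ℓ)
    rw [IsGalois.card_aut_eq_finrank, hfBC]
  have hprim : (primitiveRoots (Module.finrank B' C) B').Nonempty := by
    rw [hfBC]
    have hz : ζ ∈ F⟮ζ⟯ := mem_adjoin_simple_self F ζ
    have hz' : (⟨ζ, hZC hz⟩ : C) ∈ B' := (mem_restrict hZC _).2 hz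
    refine ⟨⟨⟨ζ, hZC hz⟩, hz'⟩, ?_⟩
    rw [mem_primitiveRoots hℓ.pos]
    have hinj : Function.Injective ((algebraMap C E).comp (algebraMap B' C)) :=
      (algebraMap C E).injective.comp (algebraMap B' C).injective
    exact IsPrimitiveRoot.of_map_of_injective (f := (algebraMap C E).comp (algebraMap B' C)) hζ hinj
  obtain ⟨α₀, ⟨b, hb⟩, hα⟩ := exists_root_adjoin_eq_top_of_isCyclic B' C hprim
  rw [hfBC] at hb
  refine ⟨(α₀ : E), ?_, ?_, α₀.2, ?_, hfr⟩
  · intro h0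
    have h0' : α₀ = 0 := Subtype.ext h0
    rw [h0', adjoin_zero] at hα
    have h3 : Module.finrank B' C = 1 := by
      rw [← finrank_top', ← hα]
      exact IntermediateField.finrank_bot
    rw [hfBC] at h3
    exact hℓ.one_lt.ne' h3
  · have h3 : ((b : C) : E) ∈ F⟮ζ⟯ := (mem_restrict hZC _).1 b.2
    have h4 : ((b : C) : E) = (α₀ : E) ^ ℓ := by
      have h5 : (b : C) = α₀ ^ ℓ := hb
      rw [h5]
      rfl
    rwa [← h4]
  · have h3 := restrictScalars_adjoin (F := F) B' {α₀}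
    rw [hα] at h3
    have h4 : (⊤ : IntermediateField F C) = IntermediateField.adjoin F ((B' : Set C) ∪ {α₀}) := by
      rw [← h3]
      ext z
      simp
    have h5 := congrArg lift h4
    rw [lift_top, lift_adjoin] at h5
    conv_lhs => rw [h5]
    apply adjoin.mono
    rintro _ ⟨z, hz, rfl⟩
    rcases hz with hz | hz
    · left
      exact (mem_restrict hZC _).1 hz
    · right
      rw [Set.mem_singleton_iff] at hz
      rw [hz]
      rfl

end KumE

theorem kum (h : RamKum) : Kum := by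
  intro ℓ hℓ F E _ _ _ _ _ ζ hζ L hL hG hNF
  obtain ⟨hint, hpos, hlt⟩ := KumE.finrank_zeta ℓ hℓ F E ζ hζ
  obtain ⟨α₀, hα0, hαm, hαC, hle, hfr⟩ := KumE.key ℓ hℓ F E ζ hζ L hL hG
  obtain ⟨x, y, hy, hxy⟩ := IsFractionRing.div_surjective (A := 𝓞 F⟮ζ⟯) (⟨α₀ ^ ℓ, hαm⟩ : F⟮ζ⟯)
  have hy0 : y ≠ 0 := nonZeroDivisors.ne_zero hy
  have hy0' : (y : F⟮ζ⟯) ≠ 0 := by
    intro h0
    exact hy0 (RingOfIntegers.coe_eq_zero_iff.1 h0)
  have hy0E : ((y : F⟮ζ⟯) : E) ≠ 0 := by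
    intro h0
    exact hy0' (Subtype.ext h0)
  have hxE : ((x : F⟮ζ⟯) : E) = α₀ ^ ℓ * ((y : F⟮ζ⟯) : E) := by
    have h1 : (x : F⟮ζ⟯) = (⟨α₀ ^ ℓ, hαm⟩ : F⟮ζ⟯) * (y : F⟮ζ⟯) := by
      rw [← hxy]
      exact (div_mul_cancel₀ _ hy0').symm
    have h2 := congrArg (fun z : F⟮ζ⟯ => (z : E)) h1
    exact h2
  have hx0 : x ≠ 0 := by
    rintro rfl
    have : ((((0 : 𝓞 F⟮ζ⟯) : F⟮ζ⟯)) : E) = 0 := by simp
    rw [this] at hxE
    exact mul_ne_zero (pow_ne_zero _ hα0) hy0E hxE.symm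
  obtain ⟨α, hαdef⟩ : ∃ α : 𝓞 F⟮ζ⟯, α = y ^ (ℓ - 1) * x := ⟨_, rfl⟩
  obtain ⟨β, hβdef⟩ : ∃ β : E, β = ((y : F⟮ζ⟯) : E) * α₀ := ⟨_, rfl⟩
  have hαne : α ≠ 0 := by rw [hαdef]; exact mul_ne_zero (pow_ne_zero _ hy0) hx0
  have hβpow : β ^ ℓ = ((α : F⟮ζ⟯) : E) := by
    have e1 : ((α : F⟮ζ⟯) : E) = ((y : F⟮ζ⟯) : E) ^ (ℓ - 1) * ((x : F⟮ζ⟯) : E) := by
      rw [hαdef]
      push_cast
      rfl
    rw [e1, hxE, hβdef, mul_pow]
    obtain ⟨n, rfl⟩ : ∃ n, ℓ = n + 1 := ⟨ℓ - 1, by have := hℓ.pos; omega⟩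
    rw [Nat.add_sub_cancel]
    ring
  -- the field `F(ζ, β)`
  obtain ⟨C, hC⟩ : ∃ C : IntermediateField F E, C = L ⊔ F⟮ζ⟯ := ⟨_, rfl⟩
  have hLC : L ≤ C := by rw [hC]; exact le_sup_left
  have hZC : F⟮ζ⟯ ≤ C := by rw [hC]; exact le_sup_right
  rw [← hC] at hαC hle hfr
  have hβC : β ∈ C := by
    rw [hβdef]
    exact mul_mem (hZC (y : F⟮ζ⟯).2) hαC
  have hZN : F⟮ζ⟯ ≤ IntermediateField.adjoin F {ζ, β} := by
    rw [adjoin_simple_le_iff]
    exact subset_adjoin F _ (by simp)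
  have hNC : IntermediateField.adjoin F {ζ, β} = C := by
    apply le_antisymm
    · rw [adjoin_le_iff]
      rintro z (hz | hz)
      · rw [hz]
        exact hZC (mem_adjoin_simple_self F ζ)
      · rw [Set.mem_singleton_iff] at hz
        rw [hz]
        exact hβC
    · refine hle.trans ?_
      rw [adjoin_le_iff]
      rintro z (hz | hz)
      · exact hZN hz
      · rw [Set.mem_singleton_iff] at hz
        rw [hz]
        have e1 : α₀ = β / ((y : F⟮ζ⟯) : E) := by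
          rw [hβdef]
          field_simp
        rw [e1]
        exact div_mem (subset_adjoin F _ (by simp)) (hZN (y : F⟮ζ⟯).2)
  refine ⟨α, β, hαne, hβpow, by rw [hNC]; exact hLC, by rw [hNC]; exact hfr, ?_⟩
  intro P hP hP0 hdvd
  have hfL : FiniteDimensional F L := Module.finite_of_finrank_pos (by rw [hL]; exact hℓ.pos)
  have hfC : FiniteDimensional F C := Module.finite_of_finrank_pos (by
    rw [hfr]; exact Nat.mul_pos hℓ.pos hpos)
  let : Algebra F⟮ζ⟯ C := (IntermediateField.inclusion hZC).toRingHom.toAlgebra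
  let : Algebra L C := (IntermediateField.inclusion hLC).toRingHom.toAlgebra
  have t1 : IsScalarTower F F⟮ζ⟯ C := IsScalarTower.of_algebraMap_eq fun _ => rfl
  have t2 : IsScalarTower F L C := IsScalarTower.of_algebraMap_eq fun _ => rfl
  have hNL : NumberField L := NumberField.of_module_finite F L
  have hNC' : NumberField C := NumberField.of_module_finite F C
  have hfLC : Module.finrank L C < ℓ := by
    have h3 := Module.finrank_mul_finrank F L C
    rw [hL, hfr] at h3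
    have h4 := Nat.eq_of_mul_eq_mul_left hℓ.pos h3
    rw [h4]
    exact hlt
  refine h ℓ hℓ F F⟮ζ⟯ L C hfLC α ⟨β, hβC⟩ hαne ?_ P hP hP0 hdvd
  apply Subtype.ext
  exact hβpow

end Pool.Agent.Q258.LQ
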