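import Pool.Agent.Q258.LQ.Stm

/-!
# Points of an ideal in a large cube
-/

set_option autoImplicit false

open NumberField Filter Topology

namespace Pool.Agent.Q258.LQ.LatC

open MeasureTheory Module Submodule ZSpan NumberField.mixedEmbedding NumberField.InfinitePlace
  ENNReal NNReal
open scoped Pointwise

/-- Counting lattice points by the volume. -/
lemma card_mul_le {E ι : Type} [NormedAddCommGroup E] [NormedSpace ℝ E] [FiniteDimensional ℝ E]
    [Finite ι] [MeasurableSpace E] [BorelSpace E] (μ : Measure E) [μ.IsAddHaarMeasure]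
    (b : Basis ι ℝ E) (R : Set E) (hR : MeasurableSet R) (F : Finset E)
    (hF : ∀ s ∈ F, s ∈ span ℤ (Set.range b))
    (h : ∀ z : E, ∃ y ∈ span ℤ (Set.range b), ∀ s ∈ F, z - (y - s) ∈ R) :
    (F.card : ℝ≥0∞) * μ (fundamentalDomain b) ≤ μ R := by
  classical
  have hfd := ZSpan.isAddFundamentalDomain' b μ
  have hc : Countable (span ℤ (Set.range b)).toAddSubgroup := by
    change Countable (span ℤ (Set.range b))
    infer_instance
  have hPm : MeasurableSet (fundamentalDomain b) := fundamentalDomain_measurableSet b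
  rw [hfd.measure_eq_tsum R]
  have e1 : ∀ g : (span ℤ (Set.range b)).toAddSubgroup,
      μ ((g +ᵥ R) ∩ fundamentalDomain b) =
        ∫⁻ z in fundamentalDomain b, (g +ᵥ R).indicator (fun _ => (1 : ℝ≥0∞)) z ∂μ := by
    intro g
    have hm : MeasurableSet (g +ᵥ R) := hR.const_vadd g
    rw [lintegral_indicator hm, setLIntegral_one, Measure.restrict_apply hm]
  simp_rw [e1]
  rw [← lintegral_tsum (fun g => (measurable_const.indicator (hR.const_vadd g)).aemeasurable)]
  rw [← setLIntegral_const]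
  refine lintegral_mono fun z => ?_
  obtain ⟨y, hy, hys⟩ := h z
  set f : F → (span ℤ (Set.range b)).toAddSubgroup := fun s => ⟨y - s.1, by
    change y - s.1 ∈ span ℤ (Set.range b)
    exact sub_mem hy (hF s.1 s.2)⟩ with hf
  have hinj : Function.Injective f := by
    intro s t hst
    have h1 : y - s.1 = y - t.1 := congrArg Subtype.val hst
    exact Subtype.ext (sub_right_injective h1)
  have h2 : ∑ g ∈ Finset.univ.image f, (g +ᵥ R).indicator (fun _ => (1 : ℝ≥0∞)) z =
      (F.card : ℝ≥0∞) := by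
    rw [Finset.sum_image (fun a _ c _ hac => hinj hac)]
    have h3 : ∀ s : F, (f s +ᵥ R).indicator (fun _ => (1 : ℝ≥0∞)) z = 1 := by
      intro s
      apply Set.indicator_of_mem
      refine ⟨z - (y - s.1), hys s.1 s.2, ?_⟩
      change (y - s.1) + (z - (y - s.1)) = z
      abel
    simp [h3]
  rw [← h2]
  exact ENNReal.sum_le_tsum _

variable {M : Type} [Field M] [NumberField M]

omit [NumberField M] in
open scoped Classical in
lemma mem_convexBodyLT (r : ℝ≥0) (x : mixedSpace M) (hx : ∀ w, normAtPlace w x < r) :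
    x ∈ convexBodyLT M (fun _ => r) := by
  refine Set.mem_prod.2 ⟨?_, ?_⟩
  · intro w _
    rw [mem_ball_zero_iff, ← normAtPlace_apply_of_isReal w.2 x]
    exact hx w.1
  · intro w _
    rw [mem_ball_zero_iff, ← normAtPlace_apply_of_isComplex w.2 x]
    exact hx w.1

variable (M) in
open scoped Classical in
/-- the volume of the fundamental domain of the lattice of an ideal -/
lemma vol_fd (𝔟 : Ideal (𝓞 M)) (hb : 𝔟 ≠ ⊥) (I : (FractionalIdeal (nonZeroDivisors (𝓞 M)) M)ˣ)
    (hI : I = FractionalIdeal.mk0 M ⟨𝔟, mem_nonZeroDivisors_of_ne_zero hb⟩) :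
    (volume (fundamentalDomain (fractionalIdealLatticeBasis M I))).toReal =
      (Ideal.absNorm 𝔟 : ℝ) * ((2 : ℝ)⁻¹ ^ nrComplexPlaces M *
        Real.sqrt ((|discr M| : ℤ) : ℝ)) := by
  rw [volume_fundamentalDomain_fractionalIdealLatticeBasis,
    NumberField.mixedEmbedding.volume_fundamentalDomain_latticeBasis, hI,
    FractionalIdeal.coe_mk0, FractionalIdeal.coeIdeal_absNorm]
  rw [ENNReal.toReal_mul, ENNReal.toReal_mul, ENNReal.toReal_pow, ENNReal.toReal_inv]
  simp only [Rat.cast_natCast, ENNReal.toReal_ofNat, ENNReal.coe_toReal]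
  rw [ENNReal.toReal_ofReal (Nat.cast_nonneg _)]
  congr 2
  rw [Real.coe_sqrt]
  congr 1
  rw [coe_nnnorm, Int.norm_eq_abs, Int.cast_abs]

variable (M) in
open scoped Classical in
/-- the volume of the cube -/
lemma vol_cube (r : ℝ≥0) :
    (volume (convexBodyLT M (fun _ => r))).toReal ≤
      4 ^ Module.finrank ℚ M * (r : ℝ) ^ Module.finrank ℚ M := by
  rw [convexBodyLT_volume]
  rw [Finset.prod_pow_eq_pow_sum, sum_mult_eq]
  rw [ENNReal.toReal_mul, ENNReal.coe_toReal, ENNReal.coe_toReal, NNReal.coe_pow]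
  refine mul_le_mul_of_nonneg_right ?_ (by positivity)
  have h1 : ((convexBodyLTFactor M : ℝ≥0) : ℝ) =
      2 ^ nrRealPlaces M * Real.pi ^ nrComplexPlaces M := by
    simp [convexBodyLTFactor]
  rw [h1, ← card_add_two_mul_card_eq_rank M]
  calc (2 : ℝ) ^ nrRealPlaces M * Real.pi ^ nrComplexPlaces M
      ≤ 4 ^ nrRealPlaces M * 4 ^ nrComplexPlaces M := by
        refine mul_le_mul (pow_le_pow_left₀ (by norm_num) (by norm_num) _)
          (pow_le_pow_left₀ Real.pi_pos.le Real.pi_le_four _) (by positivity) (by positivity)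
    _ = 4 ^ (nrRealPlaces M + nrComplexPlaces M) := (pow_add _ _ _).symm
    _ ≤ 4 ^ (nrRealPlaces M + 2 * nrComplexPlaces M) :=
        pow_le_pow_right₀ (by norm_num) (by omega)

open scoped Classical in
/-- the count for a finite set -/
lemma count {D : ℕ} (hD : Module.finrank ℚ M = D) (𝔟 : Ideal (𝓞 M)) (hb : 𝔟 ≠ ⊥) (B : ℝ)
    (hB : 0 < B) (F : Finset (𝓞 M)) (hF : ∀ y ∈ F, y ∈ 𝔟 ∧ ∀ w : InfinitePlace M, w (y : M) < B)
    (hcov : ∀ z : mixedSpace M, ∃ y ∈ 𝔟, ∀ w : InfinitePlace M,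
      normAtPlace w (z - mixedEmbedding M ((y : 𝓞 M) : M)) ≤ B) :
    (F.card : ℝ) * (Real.sqrt ((|discr M| : ℤ) : ℝ) * (Ideal.absNorm 𝔟 : ℝ)) ≤
      16 ^ D * B ^ D := by
  set I : (FractionalIdeal (nonZeroDivisors (𝓞 M)) M)ˣ :=
    FractionalIdeal.mk0 M ⟨𝔟, mem_nonZeroDivisors_of_ne_zero hb⟩ with hI
  have hmem : ∀ y : 𝓞 M, y ∈ 𝔟 → mixedEmbedding M (y : M) ∈
      span ℤ (Set.range (fractionalIdealLatticeBasis M I)) := by
    intro y hy
    rw [mem_span_fractionalIdealLatticeBasis]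
    refine ⟨(y : M), ?_, rfl⟩
    rw [hI, FractionalIdeal.coe_mk0]
    exact (FractionalIdeal.mem_coeIdeal _).2 ⟨y, hy, rfl⟩
  have hinj : Function.Injective (fun y : 𝓞 M => mixedEmbedding M (y : M)) := by
    intro a c hac
    exact RingOfIntegers.ext (mixedEmbedding_injective M hac)
  set r : ℝ≥0 := ⟨2 * B, by positivity⟩ with hr
  have hR : MeasurableSet (convexBodyLT M (fun _ => r)) :=
    (MeasurableSet.univ_pi fun _ => measurableSet_ball).prod
      (MeasurableSet.univ_pi fun _ => measurableSet_ball)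
  have key := card_mul_le (volume : Measure (mixedSpace M)) (fractionalIdealLatticeBasis M I)
    (convexBodyLT M (fun _ => r)) hR (F.image fun y : 𝓞 M => mixedEmbedding M (y : M))
    (by
      intro s hs
      obtain ⟨y, hy, rfl⟩ := Finset.mem_image.1 hs
      exact hmem y (hF y hy).1)
    (by
      intro z
      obtain ⟨y, hy, hyw⟩ := hcov z
      refine ⟨mixedEmbedding M (y : M), hmem y hy, ?_⟩
      intro s hs
      obtain ⟨t, ht, rfl⟩ := Finset.mem_image.1 hs
      apply mem_convexBodyLT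
      intro w
      have e : z - (mixedEmbedding M (y : M) - mixedEmbedding M (t : M)) =
          (z - mixedEmbedding M (y : M)) + mixedEmbedding M (t : M) := by abel
      rw [e]
      have h1 := normAtPlace_add_le w (z - mixedEmbedding M (y : M)) (mixedEmbedding M (t : M))
      rw [normAtPlace_apply] at h1
      have h2 := hyw w
      have h3 := (hF t ht).2 w
      have h4 : ((r : ℝ≥0) : ℝ) = 2 * B := rfl
      rw [h4]
      linarith)
  rw [Finset.card_image_of_injective _ hinj] at key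
  have hfin : volume (convexBodyLT M (fun _ => r)) ≠ ⊤ := by
    rw [convexBodyLT_volume]
    exact ENNReal.mul_ne_top ENNReal.coe_ne_top ENNReal.coe_ne_top
  have key2 := ENNReal.toReal_mono hfin key
  rw [ENNReal.toReal_mul, vol_fd M 𝔟 hb I hI, ENNReal.toReal_natCast] at key2
  have key3 := key2.trans (vol_cube M r)
  rw [hD] at key3
  have h4 : ((r : ℝ≥0) : ℝ) = 2 * B := rfl
  rw [h4] at key3
  have h5 : nrComplexPlaces M ≤ D := by
    have := card_add_two_mul_card_eq_rank M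
    omega
  have h6 : (1 : ℝ) ≤ 2 ^ D * (2 : ℝ)⁻¹ ^ nrComplexPlaces M := by
    rw [inv_pow, ← div_eq_mul_inv, one_le_div (by positivity)]
    exact pow_le_pow_right₀ (by norm_num) h5
  have h7 : (0 : ℝ) ≤ (F.card : ℝ) * (Real.sqrt ((|discr M| : ℤ) : ℝ) * (Ideal.absNorm 𝔟 : ℝ)) := by
    positivity
  calc (F.card : ℝ) * (Real.sqrt ((|discr M| : ℤ) : ℝ) * (Ideal.absNorm 𝔟 : ℝ))
      ≤ (2 ^ D * (2 : ℝ)⁻¹ ^ nrComplexPlaces M) *
        ((F.card : ℝ) * (Real.sqrt ((|discr M| : ℤ) : ℝ) * (Ideal.absNorm 𝔟 : ℝ))) :=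
        le_mul_of_one_le_left h7 h6
    _ = 2 ^ D * ((F.card : ℝ) * ((Ideal.absNorm 𝔟 : ℝ) * ((2 : ℝ)⁻¹ ^ nrComplexPlaces M *
        Real.sqrt ((|discr M| : ℤ) : ℝ)))) := by ring
    _ ≤ 2 ^ D * (4 ^ D * (2 * B) ^ D) := mul_le_mul_of_nonneg_left key3 (by positivity)
    _ = 16 ^ D * B ^ D := by
        rw [← mul_pow, ← mul_pow, ← mul_pow]
        congr 1
        ring

end Pool.Agent.Q258.LQ.LatC

namespace Pool.Agent.Q258.LQ

open Pool.Agent.TH444.ML NumberField.mixedEmbedding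

theorem latCount (h : Cover) : LatCount := by
  classical
  intro D
  obtain ⟨C0, A, hC0, hcov⟩ := h D
  refine ⟨max C0 (16 ^ D), A, le_max_of_le_left hC0, ?_⟩
  intro M _ _ hD 𝔟 hb B hB hBD
  have hDpos : 0 < D := hD ▸ Module.finrank_pos
  set S : Set (𝓞 M) := {y : 𝓞 M | y ∈ 𝔟 ∧ ∀ w : InfinitePlace M, w (y : M) < B} with hS
  have hfin : S.Finite := by
    have h1 := NumberField.Embeddings.finite_of_norm_le M ℂ B
    refine Set.Finite.of_finite_image (f := fun y : 𝓞 M => (y : M)) (h1.subset ?_)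
      (fun a _ c _ hac => RingOfIntegers.ext hac)
    rintro _ ⟨y, hy, rfl⟩
    refine ⟨y.isIntegral_coe, ?_⟩
    exact (InfinitePlace.le_iff_le _ _).1 fun w => (hy.2 w).le
  refine ⟨hfin, ?_⟩
  have hd : (0 : ℝ) ≤ ((|discr M| : ℤ) : ℝ) := by positivity
  have hX : (0 : ℝ) ≤ C0 * ((|discr M| : ℤ) : ℝ) ^ A * (Ideal.absNorm 𝔟 : ℝ) := by
    have : (0 : ℝ) ≤ C0 := by linarith
    positivity
  have hr : (C0 * ((|discr M| : ℤ) : ℝ) ^ A * (Ideal.absNorm 𝔟 : ℝ)) ^ ((1 : ℝ) / D) ≤ B := by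
    have h1 : C0 * ((|discr M| : ℤ) : ℝ) ^ A * (Ideal.absNorm 𝔟 : ℝ) ≤ B ^ D := by
      refine le_trans ?_ hBD
      refine mul_le_mul_of_nonneg_right ?_ (by positivity)
      exact mul_le_mul_of_nonneg_right (le_max_left _ _) (by positivity)
    calc (C0 * ((|discr M| : ℤ) : ℝ) ^ A * (Ideal.absNorm 𝔟 : ℝ)) ^ ((1 : ℝ) / D)
        ≤ (B ^ D) ^ ((1 : ℝ) / D) := Real.rpow_le_rpow hX h1 (by positivity)
      _ = B := by
          rw [one_div]
          exact Real.pow_rpow_inv_natCast hB.le hDpos.ne'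
  have h2 := LatC.count hD 𝔟 hb B hB hfin.toFinset (fun y hy => by
      have := hfin.mem_toFinset.1 hy
      exact this) (fun z => by
      obtain ⟨y, hy, hyw⟩ := hcov M hD 𝔟 hb z
      exact ⟨y, hy, fun w => (hyw w).trans hr⟩)
  rw [Set.ncard_eq_toFinset_card S hfin]
  refine h2.trans (mul_le_mul_of_nonneg_right (le_max_right _ _) (by positivity))

end Pool.Agent.Q258.LQ
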