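import Pool.Agent.Q258.LQ.Stm2
import Pool.Agent.Q258.LQ.LatC

/-!
# Many lattice points in a cube
-/

set_option autoImplicit false

open NumberField Filter Topology

namespace Pool.Agent.Q258.LQ.MPts

open MeasureTheory Module Submodule ZSpan NumberField.mixedEmbedding NumberField.InfinitePlace
  ENNReal NNReal
open scoped Pointwise

/-- Averaging: many differences of elements of `R` are lattice points. -/
lemma exists_many {E ι : Type} [NormedAddCommGroup E] [NormedSpace ℝ E] [FiniteDimensional ℝ E]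
    [Finite ι] [MeasurableSpace E] [BorelSpace E] (μ : Measure E) [μ.IsAddHaarMeasure]
    (b : Basis ι ℝ E) (R : Set E) (hR : MeasurableSet R) (m : ℕ)
    (hm : (m : ℝ≥0∞) * μ (fundamentalDomain b) < μ R) :
    ∃ T : Finset E, m < T.card ∧ ∀ s ∈ T, s ∈ span ℤ (Set.range b) ∧
      ∃ x ∈ R, ∃ y ∈ R, s = x - y := by
  classical
  have hfd := ZSpan.isAddFundamentalDomain' b μ
  have hc : Countable (span ℤ (Set.range b)).toAddSubgroup := by
    change Countable (span ℤ (Set.range b))
    infer_instance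
  rw [hfd.measure_eq_tsum R] at hm
  have e1 : ∀ g : (span ℤ (Set.range b)).toAddSubgroup,
      μ ((g +ᵥ R) ∩ fundamentalDomain b) =
        ∫⁻ z in fundamentalDomain b, (g +ᵥ R).indicator (fun _ => (1 : ℝ≥0∞)) z ∂μ := by
    intro g
    have hm : MeasurableSet (g +ᵥ R) := hR.const_vadd g
    rw [lintegral_indicator hm, setLIntegral_one, Measure.restrict_apply hm]
  simp_rw [e1] at hm
  rw [← lintegral_tsum (fun g => (measurable_const.indicator (hR.const_vadd g)).aemeasurable)] at hm
  rw [← setLIntegral_const] at hm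
  obtain ⟨z, hz⟩ : ∃ z : E, (m : ℝ≥0∞) <
      ∑' g : (span ℤ (Set.range b)).toAddSubgroup,
        (g +ᵥ R).indicator (fun _ => (1 : ℝ≥0∞)) z := by
    by_contra hcon
    push Not at hcon
    exact absurd hm (not_lt.2 (lintegral_mono fun z => hcon z))
  rw [ENNReal.tsum_eq_iSup_sum, lt_iSup_iff] at hz
  obtain ⟨G, hG⟩ := hz
  set T₀ : Finset (span ℤ (Set.range b)).toAddSubgroup := G.filter fun g => z ∈ g +ᵥ R with hT₀
  have h1 : ∑ g ∈ G, (g +ᵥ R).indicator (fun _ => (1 : ℝ≥0∞)) z = (T₀.card : ℝ≥0∞) := by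
    rw [hT₀, Finset.card_filter, Nat.cast_sum]
    refine Finset.sum_congr rfl fun g _ => ?_
    by_cases hgz : z ∈ g +ᵥ R
    · simp [hgz]
    · simp [hgz]
  rw [h1] at hG
  have h2 : m < T₀.card := by exact_mod_cast hG
  have h3 : T₀.Nonempty := Finset.card_pos.1 (by omega)
  obtain ⟨g₀, hg₀⟩ := h3
  refine ⟨T₀.image fun g : (span ℤ (Set.range b)).toAddSubgroup => (g₀ : E) - (g : E), ?_, ?_⟩
  · rw [Finset.card_image_of_injective]
    · exact h2
    · intro g g' h
      exact Subtype.ext (sub_right_injective (b := (g₀ : E)) h)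
  · intro s hs
    obtain ⟨g, hg, rfl⟩ := Finset.mem_image.1 hs
    refine ⟨(span ℤ (Set.range b)).sub_mem g₀.2 g.2, ?_⟩
    obtain ⟨x, hx, hxz⟩ := (Finset.mem_filter.1 hg).2
    obtain ⟨y, hy, hyz⟩ := (Finset.mem_filter.1 hg₀).2
    refine ⟨x, hx, y, hy, ?_⟩
    have h5 : (g : E) + x = z := hxz
    have h6 : (g₀ : E) + y = z := hyz
    have h7 : (g₀ : E) + y = (g : E) + x := h6.trans h5.symm
    rw [sub_eq_sub_iff_add_eq_add, h7]
    abel

variable {M : Type} [Field M] [NumberField M]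

omit [NumberField M] in
open scoped Classical in
lemma normAtPlace_lt (r : ℝ≥0) (x : mixedSpace M) (hx : x ∈ convexBodyLT M (fun _ => r))
    (w : InfinitePlace M) : normAtPlace w x < r := by
  obtain ⟨h1, h2⟩ := Set.mem_prod.1 hx
  rcases isReal_or_isComplex w with hw | hw
  · rw [normAtPlace_apply_of_isReal hw x]
    have := h1 ⟨w, hw⟩ (Set.mem_univ _)
    rwa [mem_ball_zero_iff] at this
  · rw [normAtPlace_apply_of_isComplex hw x]
    have := h2 ⟨w, hw⟩ (Set.mem_univ _)
    rwa [mem_ball_zero_iff] at this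

variable (M) in
open scoped Classical in
/-- the volume of the cube from below -/
lemma le_vol_cube (r : ℝ≥0) :
    (r : ℝ) ^ Module.finrank ℚ M ≤ (volume (convexBodyLT M (fun _ => r))).toReal := by
  rw [convexBodyLT_volume]
  rw [Finset.prod_pow_eq_pow_sum, sum_mult_eq]
  rw [ENNReal.toReal_mul, ENNReal.coe_toReal, ENNReal.coe_toReal, NNReal.coe_pow]
  refine le_mul_of_one_le_left (by positivity) ?_
  have h1 : ((convexBodyLTFactor M : ℝ≥0) : ℝ) =
      2 ^ nrRealPlaces M * Real.pi ^ nrComplexPlaces M := by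
    simp [convexBodyLTFactor]
  rw [h1]
  have h2 : (1 : ℝ) ≤ Real.pi := by linarith [Real.pi_gt_three]
  exact one_le_mul_of_one_le_of_one_le (one_le_pow₀ (by norm_num)) (one_le_pow₀ h2)

end Pool.Agent.Q258.LQ.MPts

namespace Pool.Agent.Q258.LQ

open Pool.Agent.TH444.ML NumberField.mixedEmbedding MeasureTheory Module Submodule ZSpan
open scoped NNReal ENNReal

theorem manyPts : ManyPts := by
  classical
  intro D
  refine ⟨1 / 2, by norm_num, ?_⟩
  intro M _ _ hD R hR
  have hbot : (⊤ : Ideal (𝓞 M)) ≠ ⊥ := top_ne_bot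
  set I : (FractionalIdeal (nonZeroDivisors (𝓞 M)) M)ˣ :=
    FractionalIdeal.mk0 M ⟨⊤, mem_nonZeroDivisors_of_ne_zero hbot⟩ with hI
  have hvol := LatC.vol_fd M ⊤ hbot I hI
  set V : ℝ := (volume (fundamentalDomain (fractionalIdealLatticeBasis M I))).toReal with hV
  have hd1 : (1 : ℝ) ≤ Real.sqrt ((|discr M| : ℤ) : ℝ) := by
    rw [Real.one_le_sqrt]
    exact_mod_cast Int.one_le_abs (discr_ne_zero M)
  set s : ℝ := Real.sqrt ((|discr M| : ℤ) : ℝ) with hs
  have hVs : V ≤ s := by
    rw [hvol, Ideal.absNorm_top, Nat.cast_one, one_mul]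
    refine mul_le_of_le_one_left (by positivity) ?_
    exact pow_le_one₀ (by positivity) (by norm_num)
  have hV0 : 0 < V := by
    rw [hvol, Ideal.absNorm_top, Nat.cast_one, one_mul]
    positivity
  set r : ℝ≥0 := ⟨R, hR.le⟩ with hr
  set W : ℝ := (volume (convexBodyLT M (fun _ => r))).toReal with hW
  have hRW : R ^ D ≤ W := by
    have := MPts.le_vol_cube M r
    rw [hD] at this
    exact this
  have hfin : volume (convexBodyLT M (fun _ => r)) ≠ ⊤ := by
    rw [convexBodyLT_volume]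
    exact ENNReal.mul_ne_top ENNReal.coe_ne_top ENNReal.coe_ne_top
  have hfin2 : volume (fundamentalDomain (fractionalIdealLatticeBasis M I)) ≠ ⊤ := by
    intro h
    rw [hV, h] at hV0
    simp at hV0
  -- take `m` with `m V < W`
  have hW0 : 0 < W := lt_of_lt_of_le (by positivity) hRW
  set m : ℕ := ⌈W / V⌉₊ - 1 with hm
  have hceil : 0 < ⌈W / V⌉₊ := Nat.ceil_pos.2 (by positivity)
  have hmV : (m : ℝ) * V < W := by
    rw [← lt_div_iff₀ hV0]
    exact Nat.lt_ceil.1 (by omega)
  have hlt : (m : ℝ≥0∞) * volume (fundamentalDomain (fractionalIdealLatticeBasis M I)) <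
      volume (convexBodyLT M (fun _ => r)) := by
    rw [← ENNReal.toReal_lt_toReal (ENNReal.mul_ne_top (ENNReal.natCast_ne_top m) hfin2) hfin,
      ENNReal.toReal_mul, ENNReal.toReal_natCast]
    exact hmV
  have hRm : MeasurableSet (convexBodyLT M (fun _ => r)) :=
    (MeasurableSet.univ_pi fun _ => measurableSet_ball).prod
      (MeasurableSet.univ_pi fun _ => measurableSet_ball)
  obtain ⟨T, hT, hTs⟩ := MPts.exists_many (volume : Measure (mixedSpace M))
    (fractionalIdealLatticeBasis M I) (convexBodyLT M (fun _ => r)) hRm m hlt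
  have hpre : ∀ t ∈ T, ∃ x : 𝓞 M, mixedEmbedding M (x : M) = t := by
    intro t ht
    have h1 := (hTs t ht).1
    rw [mem_span_fractionalIdealLatticeBasis] at h1
    obtain ⟨y, hy, hyt⟩ := h1
    rw [hI, FractionalIdeal.coe_mk0] at hy
    obtain ⟨x, _, hx⟩ := (FractionalIdeal.mem_coeIdeal _).1 hy
    refine ⟨x, ?_⟩
    rw [← hyt, ← hx]
  choose! f hf using hpre
  have hinj : Set.InjOn f T := by
    intro a ha c hc hac
    rw [← hf a ha, ← hf c hc, hac]
  refine ⟨T.image f, ?_, ?_⟩
  · intro x hx w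
    obtain ⟨t, ht, rfl⟩ := Finset.mem_image.1 hx
    obtain ⟨_, a, ha, c, hc, hac⟩ := hTs t ht
    rw [← normAtPlace_apply w (f t : M), hf t ht, hac]
    have h1 := normAtPlace_add_le w a (-c)
    rw [normAtPlace_neg] at h1
    have h2 := MPts.normAtPlace_lt r a ha w
    have h3 := MPts.normAtPlace_lt r c hc w
    have h4 : ((r : ℝ≥0) : ℝ) = R := rfl
    rw [h4] at h2 h3
    rw [sub_eq_add_neg]
    linarith
  · rw [Finset.card_image_of_injOn hinj]
    have h1 : W / V ≤ T.card := by
      refine (Nat.le_ceil _).trans ?_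
      exact_mod_cast (by omega : ⌈W / V⌉₊ ≤ T.card)
    rw [div_le_iff₀ hV0] at h1
    have h2 : (T.card : ℝ) * V ≤ T.card * s := mul_le_mul_of_nonneg_left hVs (by positivity)
    have h3 : 0 ≤ R ^ D := by positivity
    linarith

end Pool.Agent.Q258.LQ
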