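import Pool.Agent.Q258.LQ.Stm2

/-!
# Sum of `k ^ #S` over sets of primes (helper299)
-/

set_option autoImplicit false

open NumberField Filter Topology

namespace Pool.Agent.Q258.LQ

theorem omegaSum (h : IdealSum) : OmegaSum := by
  classical
  intro D k ε hε
  obtain ⟨C1, hC1, hC⟩ := h D ε hε
  refine ⟨Real.exp (k * C1), Real.exp_pos _, ?_⟩
  intro M _ _ hD Z hZ 𝒮 h𝒮
  have hZ0 : 0 < Z := by linarith
  set T : Finset (Ideal (𝓞 M)) := 𝒮.biUnion id with hT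
  have hTp : ∀ p ∈ T, p.IsPrime ∧ p ≠ ⊥ := by
    intro p hp
    obtain ⟨S, hS, hpS⟩ := Finset.mem_biUnion.1 hp
    exact (h𝒮 S hS).1 p hpS
  have hN : ∀ p : Ideal (𝓞 M), p ≠ ⊥ → 0 < (Ideal.absNorm p : ℝ) := by
    intro p hp
    have : Ideal.absNorm p ≠ 0 := by
      rw [Ne, Ideal.absNorm_eq_zero_iff]
      exact hp
    exact_mod_cast Nat.pos_of_ne_zero this
  set f : Ideal (𝓞 M) → ℝ := fun p => k * (Ideal.absNorm p : ℝ) ^ (-(1 + ε)) with hf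
  have hf0 : ∀ p, 0 ≤ f p := fun p =>
    mul_nonneg (Nat.cast_nonneg k) (Real.rpow_nonneg (Nat.cast_nonneg _) _)
  have h1 : ∀ S ∈ 𝒮, (k : ℝ) ^ S.card ≤ Z ^ (1 + ε) * ∏ p ∈ S, f p := by
    intro S hS
    obtain ⟨hSp, hSZ⟩ := h𝒮 S hS
    have hP : 0 < ∏ p ∈ S, (Ideal.absNorm p : ℝ) := Finset.prod_pos fun p hp => hN p (hSp p hp).2
    have e1 : ∏ p ∈ S, f p = (k : ℝ) ^ S.card * (∏ p ∈ S, (Ideal.absNorm p : ℝ)) ^ (-(1 + ε)) := by
      rw [hf, Finset.prod_mul_distrib, Finset.prod_const,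
        Real.finsetProd_rpow S _ (fun p hp => (hN p (hSp p hp).2).le)]
    rw [e1]
    have e2 : 1 ≤ Z ^ (1 + ε) * (∏ p ∈ S, (Ideal.absNorm p : ℝ)) ^ (-(1 + ε)) := by
      rw [Real.rpow_neg hP.le, ← div_eq_mul_inv, one_le_div (Real.rpow_pos_of_pos hP _)]
      exact Real.rpow_le_rpow hP.le hSZ (by linarith)
    have hk : (0 : ℝ) ≤ (k : ℝ) ^ S.card := by positivity
    calc (k : ℝ) ^ S.card = (k : ℝ) ^ S.card * 1 := (mul_one _).symm
      _ ≤ (k : ℝ) ^ S.card * (Z ^ (1 + ε) * (∏ p ∈ S, (Ideal.absNorm p : ℝ)) ^ (-(1 + ε))) :=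
          mul_le_mul_of_nonneg_left e2 hk
      _ = _ := by ring
  have hsub : 𝒮 ⊆ T.powerset := fun S hS =>
    Finset.mem_powerset.2 (Finset.subset_biUnion_of_mem id hS)
  have hZe : 0 ≤ Z ^ (1 + ε) := Real.rpow_nonneg hZ0.le _
  calc ∑ S ∈ 𝒮, (k : ℝ) ^ S.card ≤ ∑ S ∈ 𝒮, Z ^ (1 + ε) * ∏ p ∈ S, f p := Finset.sum_le_sum h1
    _ ≤ ∑ S ∈ T.powerset, Z ^ (1 + ε) * ∏ p ∈ S, f p :=
        Finset.sum_le_sum_of_subset_of_nonneg hsub fun S _ _ =>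
          mul_nonneg hZe (Finset.prod_nonneg fun p _ => hf0 p)
    _ = Z ^ (1 + ε) * ∏ p ∈ T, (1 + f p) := by rw [← Finset.mul_sum, ← Finset.prod_one_add]
    _ ≤ Z ^ (1 + ε) * Real.exp (∑ p ∈ T, f p) := by
        refine mul_le_mul_of_nonneg_left ?_ hZe
        rw [Real.exp_sum]
        refine Finset.prod_le_prod (fun p _ => by linarith [hf0 p]) fun p _ => ?_
        linarith [Real.add_one_le_exp (f p)]
    _ ≤ Z ^ (1 + ε) * Real.exp (k * C1) := by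
        refine mul_le_mul_of_nonneg_left (Real.exp_le_exp.2 ?_) hZe
        rw [hf, ← Finset.mul_sum]
        exact mul_le_mul_of_nonneg_left (hC M hD T fun p hp => (hTp p hp).2) (Nat.cast_nonneg k)
    _ = _ := mul_comm _ _

end Pool.Agent.Q258.LQ
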