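import Pool.Agent.Q258.LQ.Stm
import Pool.Agent.TH55.J3092

/-!
# Project LQ: Prc (uniform count of the principal ideals divisible by a given ideal)
-/

set_option autoImplicit false

open NumberField Filter Topology

namespace Pool.Agent.Q258.LQ

open Pool.Agent.TH444.ML

namespace Prc

/-- the set of the ideals counted -/
def SS (M : Type) [Field M] [NumberField M] (𝔟 : Ideal (𝓞 M)) (Y : ℝ) : Set (Ideal (𝓞 M)) :=
  {I : Ideal (𝓞 M) | I ≠ ⊥ ∧ 𝔟 ∣ I ∧ (∃ x, I = Ideal.span {x}) ∧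
        (Ideal.absNorm I : ℝ) ≤ Ideal.absNorm 𝔟 * Y}

theorem fin_norm (M : Type) [Field M] [NumberField M] (Z : ℝ) :
    {I : Ideal (𝓞 M) | (Ideal.absNorm I : ℝ) ≤ Z}.Finite := by
  refine (Ideal.finite_setOfPred_absNorm_le (S := 𝓞 M) ⌊Z⌋₊).subset ?_
  intro I hI
  exact Nat.le_floor hI

theorem SS_fin (M : Type) [Field M] [NumberField M] (𝔟 : Ideal (𝓞 M)) (Y : ℝ) : (SS M 𝔟 Y).Finite :=
  (fin_norm M (Ideal.absNorm 𝔟 * Y)).subset fun _ hI => hI.2.2.2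

theorem norm_pos {M : Type} [Field M] [NumberField M] {I : Ideal (𝓞 M)} (h : I ≠ ⊥) :
    0 < (Ideal.absNorm I : ℝ) := by
  have : Ideal.absNorm I ≠ 0 := by
    rw [Ne, Ideal.absNorm_eq_zero_iff]; exact h
  exact_mod_cast Nat.pos_of_ne_zero this

theorem small (M : Type) [Field M] [NumberField M] (𝔟 : Ideal (𝓞 M)) (h𝔟 : 𝔟 ≠ ⊥) (Y : ℝ)
    (hfin : {I : Ideal (𝓞 M) | I ≠ ⊥ ∧ (Ideal.absNorm I : ℝ) ≤ Y}.Finite) :
    (SS M 𝔟 Y).ncard ≤ {I : Ideal (𝓞 M) | I ≠ ⊥ ∧ (Ideal.absNorm I : ℝ) ≤ Y}.ncard := by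
  have h1 : SS M 𝔟 Y ⊆ (fun J => 𝔟 * J) '' {I : Ideal (𝓞 M) | I ≠ ⊥ ∧ (Ideal.absNorm I : ℝ) ≤ Y} := by
    rintro I ⟨h0, ⟨J, rfl⟩, -, hN⟩
    refine ⟨J, ⟨?_, ?_⟩, rfl⟩
    · rintro rfl
      exact h0 (Ideal.mul_bot 𝔟)
    · rw [map_mul, Nat.cast_mul] at hN
      exact le_of_mul_le_mul_left hN (norm_pos h𝔟)
  exact (Set.ncard_le_ncard h1 (hfin.image _)).trans (Set.ncard_image_le hfin)

theorem big (M : Type) [Field M] [NumberField M] (D : ℕ) (hD : Module.finrank ℚ M = D) (C2 : ℝ) (A2 : ℕ)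
    (hL : ∀ 𝔟 : Ideal (𝓞 M), 𝔟 ≠ ⊥ → ∀ B : ℝ, 0 < B →
      C2 * ((|discr M| : ℤ) : ℝ) ^ A2 * (Ideal.absNorm 𝔟 : ℝ) ≤ B ^ D →
      {y : 𝓞 M | y ∈ 𝔟 ∧ ∀ w : InfinitePlace M, w (y : M) < B}.Finite ∧
      (Set.ncard {y : 𝓞 M | y ∈ 𝔟 ∧ ∀ w : InfinitePlace M, w (y : M) < B} : ℝ) *
        (Real.sqrt ((|discr M| : ℤ) : ℝ) * (Ideal.absNorm 𝔟 : ℝ)) ≤ C2 * B ^ D)
    (𝔟 : Ideal (𝓞 M)) (h𝔟 : 𝔟 ≠ ⊥) (Y : ℝ) (hY : 1 ≤ Y) (hY2 : C2 * ((|discr M| : ℤ) : ℝ) ^ A2 ≤ Y) :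
    ∃ T : Finset (Ideal (𝓞 M)), (∀ J ∈ T, J ≠ ⊥ ∧
        (Ideal.absNorm J : ℝ) ≤ 2 ^ (D + 1) * Real.sqrt ((|discr M| : ℤ) : ℝ)) ∧
      ((SS M 𝔟 Y).ncard : ℝ) ≤ ∑ J ∈ T, C2 * 2 ^ (D + 1) * Y / (Ideal.absNorm J : ℝ) := by
  classical
  set d : ℝ := ((|discr M| : ℤ) : ℝ) with hd
  have hd1 : 1 ≤ d := by
    rw [hd]
    have h := discr_ne_zero M
    have : (1 : ℤ) ≤ |discr M| := Int.one_le_abs h
    exact_mod_cast this
  have hsd1 : 1 ≤ Real.sqrt d := Real.one_le_sqrt.mpr hd1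
  have hDpos : 0 < D := by rw [← hD]; exact Module.finrank_pos
  have hDR : (0 : ℝ) < D := by exact_mod_cast hDpos
  set C1 : ℝ := 2 ^ (D + 1) * Real.sqrt d with hC1
  have hC1lt : 2 ^ (Module.finrank ℚ M) * Real.sqrt ((|discr M| : ℤ) : ℝ) < C1 := by
    rw [hD, hC1, ← hd, pow_succ]
    have : (0 : ℝ) < 2 ^ D * Real.sqrt d := by positivity
    linarith
  have hC1pos : 0 < C1 := by positivity
  set N𝔟 : ℝ := (Ideal.absNorm 𝔟 : ℝ) with hN𝔟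
  have hN𝔟pos : 0 < N𝔟 := norm_pos h𝔟
  set B : ℝ := (C1 * (N𝔟 * Y)) ^ ((1 : ℝ) / (D : ℝ)) with hB
  have hBpos : 0 < B := Real.rpow_pos_of_pos (by positivity) _
  have hBD : B ^ D = C1 * (N𝔟 * Y) := by
    rw [hB, ← Real.rpow_natCast, ← Real.rpow_mul (by positivity), one_div,
      inv_mul_cancel₀ hDR.ne', Real.rpow_one]
  have hTfin : {J : Ideal (𝓞 M) | J ≠ ⊥ ∧ (Ideal.absNorm J : ℝ) ≤ C1}.Finite :=
    (fin_norm M C1).subset fun _ hI => hI.2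
  have hch : ∀ I : Ideal (𝓞 M), ∃ q : 𝓞 M × 𝓞 M, I ∈ SS M 𝔟 Y → q.1 ≠ 0 ∧ q.2 ≠ 0 ∧
      I = Ideal.span {q.1} ∧ (Ideal.absNorm (Ideal.span {q.2}) : ℝ) ≤ C1 ∧
      ∀ w : InfinitePlace M, w ((q.2 * q.1 : 𝓞 M) : M) < B := by
    intro I
    by_cases hI : I ∈ SS M 𝔟 Y
    · obtain ⟨h0, hdv, ⟨x, hx⟩, hN⟩ := hI
      have hx0 : x ≠ 0 := by
        rintro rfl
        apply h0
        rw [hx]; simp
      obtain ⟨β, hβ0, hβN, hβ⟩ := Pool.Agent.TH55.J3092.balance M C1 hC1lt x hx0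
      refine ⟨(x, β), fun _ => ⟨hx0, hβ0, hx, hβN, fun w => lt_of_lt_of_le (hβ w) ?_⟩⟩
      rw [hD, hB]
      apply Real.rpow_le_rpow (by positivity) _ (by positivity)
      rw [hx] at hN
      exact mul_le_mul_of_nonneg_left hN (by linarith)
    · exact ⟨(0, 0), fun h => absurd h hI⟩
  choose q hq using hch
  refine ⟨hTfin.toFinset, fun J hJ => hTfin.mem_toFinset.1 hJ, ?_⟩
  have hmaps : ∀ I ∈ (SS_fin M 𝔟 Y).toFinset, Ideal.span {(q I).2} ∈ hTfin.toFinset := by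
    intro I hI
    rw [Set.Finite.mem_toFinset] at hI ⊢
    refine ⟨?_, (hq I hI).2.2.2.1⟩
    intro h
    exact (hq I hI).2.1 (Ideal.span_singleton_eq_bot.mp h)
  rw [Set.ncard_eq_toFinset_card _ (SS_fin M 𝔟 Y), Finset.card_eq_sum_card_fiberwise hmaps, Nat.cast_sum]
  apply Finset.sum_le_sum
  intro J hJ
  obtain ⟨hJ0, hJN⟩ := hTfin.mem_toFinset.1 hJ
  have hNJ : 0 < (Ideal.absNorm J : ℝ) := norm_pos hJ0
  have hJb : J * 𝔟 ≠ ⊥ := by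
    intro h
    rcases Ideal.mul_eq_bot.1 h with h | h
    · exact hJ0 h
    · exact h𝔟 h
  have hcond : C2 * d ^ A2 * (Ideal.absNorm (J * 𝔟) : ℝ) ≤ B ^ D := by
    rw [hBD, map_mul, Nat.cast_mul, ← hN𝔟]
    have e1 : (Ideal.absNorm J : ℝ) * N𝔟 ≤ C1 * N𝔟 := mul_le_mul_of_nonneg_right hJN hN𝔟pos.le
    calc C2 * d ^ A2 * ((Ideal.absNorm J : ℝ) * N𝔟) ≤ Y * (C1 * N𝔟) :=
          mul_le_mul hY2 e1 (by positivity) (by linarith)
      _ = C1 * (N𝔟 * Y) := by ring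
  obtain ⟨hcf, hcc⟩ := hL (J * 𝔟) hJb B hBpos hcond
  have hle : ((SS_fin M 𝔟 Y).toFinset.filter fun I => Ideal.span {(q I).2} = J).card ≤
      Set.ncard {y : 𝓞 M | y ∈ J * 𝔟 ∧ ∀ w : InfinitePlace M, w (y : M) < B} := by
    rw [← Set.ncard_coe_finset]
    apply Set.ncard_le_ncard_of_injOn (fun I => (q I).2 * (q I).1) _ _ hcf
    · intro I hI
      rw [Finset.mem_coe, Finset.mem_filter, Set.Finite.mem_toFinset] at hI
      obtain ⟨hI, hIJ⟩ := hI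
      refine ⟨?_, (hq I hI).2.2.2.2⟩
      apply Ideal.mul_mem_mul
      · rw [← hIJ]
        exact Ideal.mem_span_singleton_self _
      · have h5 : I ≤ 𝔟 := Ideal.dvd_iff_le.mp hI.2.1
        have h6 := (hq I hI).2.2.1
        have h7 : (q I).1 ∈ Ideal.span {(q I).1} := Ideal.mem_span_singleton_self _
        rw [← h6] at h7
        exact h5 h7
    · intro I hI I' hI' hII
      rw [Finset.mem_coe, Finset.mem_filter, Set.Finite.mem_toFinset] at hI hI'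
      obtain ⟨hI, hIJ⟩ := hI
      obtain ⟨hI', hIJ'⟩ := hI'
      have hII2 : (q I).2 * (q I).1 = (q I').2 * (q I').1 := hII
      have hsp : Ideal.span {(q I).2} = Ideal.span {(q I').2} := by rw [hIJ, hIJ']
      have e1 : Ideal.span {(q I).2} * Ideal.span {(q I).1} =
          Ideal.span {(q I).2} * Ideal.span {(q I').1} := by
        rw [Ideal.span_singleton_mul_span_singleton, hII2, hsp,
          Ideal.span_singleton_mul_span_singleton]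
      have hne : Ideal.span {(q I).2} ≠ 0 := by
        intro h
        exact (hq I hI).2.1 (Ideal.span_singleton_eq_bot.mp h)
      have e2 := mul_left_cancel₀ hne e1
      rw [(hq I hI).2.2.1, (hq I' hI').2.2.1, e2]
  have hle2 : (((SS_fin M 𝔟 Y).toFinset.filter fun I => Ideal.span {(q I).2} = J).card : ℝ) ≤
      (Set.ncard {y : 𝓞 M | y ∈ J * 𝔟 ∧ ∀ w : InfinitePlace M, w (y : M) < B} : ℝ) := by
    exact_mod_cast hle
  refine hle2.trans ?_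
  rw [le_div_iff₀ hNJ]
  rw [hBD, map_mul, Nat.cast_mul, ← hN𝔟] at hcc
  have hs0 : 0 < Real.sqrt d * N𝔟 := by positivity
  refine le_of_mul_le_mul_right ?_ hs0
  calc _ = (Set.ncard {y : 𝓞 M | y ∈ J * 𝔟 ∧ ∀ w : InfinitePlace M, w (y : M) < B} : ℝ) *
        (Real.sqrt d * ((Ideal.absNorm J : ℝ) * N𝔟)) := by ring
    _ ≤ C2 * (C1 * (N𝔟 * Y)) := hcc
    _ = C2 * 2 ^ (D + 1) * Y * (Real.sqrt d * N𝔟) := by rw [hC1]; ring

end Prc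

open Prc in
theorem princUnif2 (h1 : LatCount) (h2 : IdealSum) (h3 : IdealUnif2) : PrincUnif2 := by
  intro D ε hε
  obtain ⟨C2, A2, hC2, hL⟩ := h1 D
  obtain ⟨C4, hC4, hS⟩ := h2 D ε hε
  obtain ⟨C3, hC3, hU⟩ := h3 D (ε / (A2 + 1)) (by positivity)
  have hC20 : 0 < C2 := by linarith
  have hP1 : 0 < C3 * C2 ^ (ε / (A2 + 1)) := mul_pos hC3 (Real.rpow_pos_of_pos hC20 _)
  have hP2 : 0 < C2 * 2 ^ (D + 1) * ((2 ^ (D + 1) : ℝ) ^ ε * C4) := by positivity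
  refine ⟨C3 * C2 ^ (ε / (A2 + 1)) + C2 * 2 ^ (D + 1) * ((2 ^ (D + 1) : ℝ) ^ ε * C4), by positivity, ?_⟩
  intro M _ _ hD 𝔟 h𝔟 Y hY
  refine ⟨SS_fin M 𝔟 Y, ?_⟩
  change ((SS M 𝔟 Y).ncard : ℝ) ≤ _
  have hd1 : (1 : ℝ) ≤ ((|discr M| : ℤ) : ℝ) := by
    have h := discr_ne_zero M
    have : (1 : ℤ) ≤ |discr M| := Int.one_le_abs h
    exact_mod_cast this
  set d : ℝ := ((|discr M| : ℤ) : ℝ) with hd
  have hd0 : 0 < d := by linarith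
  have hdε : 1 ≤ d ^ ε := Real.one_le_rpow hd1 hε.le
  have hY0 : 0 < Y := by linarith
  rcases le_total Y (C2 * d ^ A2) with hY2 | hY2
  · obtain ⟨hf, hc⟩ := hU M hD Y hY
    have e1 : ((SS M 𝔟 Y).ncard : ℝ) ≤ C3 * Y ^ (1 + ε / (A2 + 1)) :=
      (Nat.cast_le.2 (small M 𝔟 h𝔟 Y hf)).trans hc
    have e2 : Y ^ (ε / (A2 + 1)) ≤ C2 ^ (ε / (A2 + 1)) * d ^ ε := by
      calc Y ^ (ε / (A2 + 1)) ≤ (C2 * d ^ A2) ^ (ε / (A2 + 1)) :=
            Real.rpow_le_rpow hY0.le hY2 (by positivity)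
        _ = C2 ^ (ε / (A2 + 1)) * d ^ ((A2 : ℝ) * (ε / (A2 + 1))) := by
            rw [Real.mul_rpow hC20.le (by positivity), Real.rpow_mul hd0.le, Real.rpow_natCast]
        _ ≤ C2 ^ (ε / (A2 + 1)) * d ^ ε := by
            apply mul_le_mul_of_nonneg_left _ (Real.rpow_nonneg hC20.le _)
            apply Real.rpow_le_rpow_of_exponent_le hd1
            rw [mul_div_assoc', div_le_iff₀ (by positivity)]
            nlinarith
    calc ((SS M 𝔟 Y).ncard : ℝ) ≤ C3 * Y ^ (1 + ε / (A2 + 1)) := e1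
      _ = C3 * (Y * Y ^ (ε / (A2 + 1))) := by rw [Real.rpow_add hY0, Real.rpow_one]
      _ ≤ C3 * (Y * (C2 ^ (ε / (A2 + 1)) * d ^ ε)) := by
          apply mul_le_mul_of_nonneg_left _ hC3.le
          exact mul_le_mul_of_nonneg_left e2 hY0.le
      _ = C3 * C2 ^ (ε / (A2 + 1)) * d ^ ε * Y := by ring
      _ ≤ (C3 * C2 ^ (ε / (A2 + 1)) + C2 * 2 ^ (D + 1) * ((2 ^ (D + 1) : ℝ) ^ ε * C4)) * d ^ ε * Y := by
          apply mul_le_mul_of_nonneg_right _ hY0.le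
          apply mul_le_mul_of_nonneg_right _ (by positivity)
          linarith
  · obtain ⟨T, hT, hle⟩ := big M D hD C2 A2 (hL M hD) 𝔟 h𝔟 Y hY hY2
    have e3 : ∀ J ∈ T, C2 * 2 ^ (D + 1) * Y / (Ideal.absNorm J : ℝ) ≤
        C2 * 2 ^ (D + 1) * Y * ((2 ^ (D + 1) : ℝ) ^ ε * d ^ ε) * (Ideal.absNorm J : ℝ) ^ (-(1 + ε)) := by
      intro J hJ
      obtain ⟨hJ0, hJN⟩ := hT J hJ
      have hNJ : 0 < (Ideal.absNorm J : ℝ) := norm_pos hJ0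
      have hJN2 : (Ideal.absNorm J : ℝ) ≤ 2 ^ (D + 1) * d := by
        refine hJN.trans ?_
        apply mul_le_mul_of_nonneg_left _ (by positivity)
        rw [Real.sqrt_le_left hd0.le]
        nlinarith
      have e4 : (Ideal.absNorm J : ℝ) ^ ε ≤ (2 ^ (D + 1) : ℝ) ^ ε * d ^ ε := by
        rw [← Real.mul_rpow (by positivity) hd0.le]
        exact Real.rpow_le_rpow hNJ.le hJN2 hε.le
      have e5 : 1 / (Ideal.absNorm J : ℝ) =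
          (Ideal.absNorm J : ℝ) ^ ε * (Ideal.absNorm J : ℝ) ^ (-(1 + ε)) := by
        rw [← Real.rpow_add hNJ]
        have : ε + -(1 + ε) = -1 := by ring
        rw [this, Real.rpow_neg_one, one_div]
      calc C2 * 2 ^ (D + 1) * Y / (Ideal.absNorm J : ℝ) =
            C2 * 2 ^ (D + 1) * Y * (1 / (Ideal.absNorm J : ℝ)) := by ring
        _ = C2 * 2 ^ (D + 1) * Y * (Ideal.absNorm J : ℝ) ^ ε * (Ideal.absNorm J : ℝ) ^ (-(1 + ε)) := by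
            rw [e5]; ring
        _ ≤ _ := by
            apply mul_le_mul_of_nonneg_right _ (Real.rpow_nonneg hNJ.le _)
            exact mul_le_mul_of_nonneg_left e4 (by positivity)
    have e6 := hS M hD T (fun J hJ => (hT J hJ).1)
    calc ((SS M 𝔟 Y).ncard : ℝ) ≤ ∑ J ∈ T, C2 * 2 ^ (D + 1) * Y / (Ideal.absNorm J : ℝ) := hle
      _ ≤ ∑ J ∈ T, C2 * 2 ^ (D + 1) * Y * ((2 ^ (D + 1) : ℝ) ^ ε * d ^ ε) *
            (Ideal.absNorm J : ℝ) ^ (-(1 + ε)) := Finset.sum_le_sum e3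
      _ = C2 * 2 ^ (D + 1) * Y * ((2 ^ (D + 1) : ℝ) ^ ε * d ^ ε) *
            ∑ J ∈ T, (Ideal.absNorm J : ℝ) ^ (-(1 + ε)) := by rw [Finset.mul_sum]
      _ ≤ C2 * 2 ^ (D + 1) * Y * ((2 ^ (D + 1) : ℝ) ^ ε * d ^ ε) * C4 :=
          mul_le_mul_of_nonneg_left e6 (by positivity)
      _ = C2 * 2 ^ (D + 1) * ((2 ^ (D + 1) : ℝ) ^ ε * C4) * d ^ ε * Y := by ring
      _ ≤ (C3 * C2 ^ (ε / (A2 + 1)) + C2 * 2 ^ (D + 1) * ((2 ^ (D + 1) : ℝ) ^ ε * C4)) * d ^ ε * Y := by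
          apply mul_le_mul_of_nonneg_right _ hY0.le
          apply mul_le_mul_of_nonneg_right _ (by positivity)
          linarith

end Pool.Agent.Q258.LQ
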