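import Pool.Agent.Q258.LQ.Stm2

/-!
# Project LQ (helper258), job RKum: ramification in Kummer extensions
-/

set_option autoImplicit false
set_option linter.deprecated false

open NumberField Filter Topology Pool.Agent.TH444.ML

namespace Pool.Agent.Q258.LQ

namespace RKum

theorem tower (A B D : Type) [Field A] [Field B] [Field D] [Algebra A B] [Algebra A D]
    [Algebra B D] [IsScalarTower A B D] : IsScalarTower (𝓞 A) (𝓞 B) (𝓞 D) := by
  refine IsScalarTower.of_algebraMap_eq fun x => ?_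
  apply RingOfIntegers.ext
  exact IsScalarTower.algebraMap_apply A B D (x : A)

theorem count_pow {M : Type} [Field M] [NumberField M] {Q I J : Ideal (𝓞 M)} {n : ℕ}
    (h : I = J ^ n) : vP Q I = n * vP Q J := by
  unfold vP
  rw [h, UniqueFactorizationMonoid.normalizedFactors_pow, Multiset.count_nsmul]

theorem em {M : Type} [Field M] [NumberField M] {Q I : Ideal (𝓞 M)} (hQ : Q.IsPrime)
    (hQ0 : Q ≠ ⊥) (hI : I ≠ ⊥) : emultiplicity Q I = (vP Q I : ℕ∞) := by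
  classical
  have h1 : Irreducible Q := (Ideal.prime_of_isPrime hQ0 hQ).irreducible
  rw [UniqueFactorizationMonoid.emultiplicity_eq_count_normalizedFactors h1 hI]
  simp only [normalize_eq]
  unfold vP
  congr

end RKum

open RKum in
theorem ramKum : RamKum := by
  intro ℓ hℓ F F' L L' _ _ _ _ _ _ _ _ _ _ _ _ _ _ _ hdeg α β hα hβ P hP hP0 hv
  haveI := hP
  haveI hPmax : P.IsMaximal := hP.isMaximal hP0
  haveI t1 : IsScalarTower (𝓞 F) (𝓞 F') (𝓞 L') := tower F F' L'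
  haveI t2 : IsScalarTower (𝓞 F) (𝓞 L) (𝓞 L') := tower F L L'
  obtain ⟨Q', hQ'max, hQ'over⟩ :=
    Ideal.exists_maximal_ideal_liesOver_of_isIntegral (S := 𝓞 L') P
  haveI := hQ'max
  haveI := hQ'over
  haveI hQ'p : Q'.IsPrime := hQ'max.isPrime
  have hQ'0 : Q' ≠ ⊥ := Ideal.ne_bot_of_liesOver_of_ne_bot hP0 Q'
  obtain ⟨Q, hQdef⟩ : ∃ Q : Ideal (𝓞 L), Q = Q'.under (𝓞 L) := ⟨_, rfl⟩
  haveI hQover : Q'.LiesOver Q := ⟨hQdef⟩
  haveI hQp : Q.IsPrime := by rw [hQdef]; exact Ideal.IsPrime.under _ _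
  obtain ⟨p, hpdef⟩ : ∃ p : Ideal (𝓞 F), p = P.under (𝓞 F) := ⟨_, rfl⟩
  haveI hpover : P.LiesOver p := ⟨hpdef⟩
  haveI hpp : p.IsPrime := by rw [hpdef]; exact Ideal.IsPrime.under _ _
  have hp0 : p ≠ ⊥ := by
    rw [hpdef]
    exact Ideal.under_ne_bot (𝓞 F) hP0
  haveI hQ'p' : Q'.LiesOver p := Ideal.LiesOver.trans Q' P p
  haveI hQp' : Q.LiesOver p := by
    refine ⟨?_⟩
    rw [hQ'p'.over, hQdef, Ideal.under_under]
  have hQ0 : Q ≠ ⊥ := Ideal.ne_bot_of_liesOver_of_ne_bot hp0 Q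
  haveI hQmax : Q.IsMaximal := hQp.isMaximal hQ0
  -- the two towers
  have e1 : p.ramificationIdx' Q' = p.ramificationIdx' P * P.ramificationIdx' Q' :=
    Ideal.ramificationIdx'_algebra_tower' p P Q'
  have e2 : p.ramificationIdx' Q' = p.ramificationIdx' Q * Q.ramificationIdx' Q' :=
    Ideal.ramificationIdx'_algebra_tower' p Q Q'
  haveI : NoZeroSMulDivisors (𝓞 L) (𝓞 L') := ⟨fun {c x} h => by
    rw [Algebra.smul_def, mul_eq_zero] at h
    exact h.imp_left fun h => (FaithfulSMul.algebraMap_eq_zero_iff _ _).1 h⟩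
  have e3 : Q.ramificationIdx' Q' ≤ Module.finrank L L' :=
    Ideal.ramificationIdx_le_finrank (𝓞 L') L L' Q'
  have e4 : Q.ramificationIdx' Q' ≠ 0 :=
    Ideal.IsDedekindDomain.ramificationIdx'_ne_zero_of_liesOver Q' hQ0
  have e5 : p.ramificationIdx' Q ≠ 0 :=
    Ideal.IsDedekindDomain.ramificationIdx'_ne_zero_of_liesOver Q hp0
  -- the root
  have hβint : IsIntegral ℤ β := by
    have h1 : IsIntegral ℤ (β ^ ℓ) := by
      rw [hβ]
      exact (RingOfIntegers.isIntegral_coe α).algebraMap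
    exact IsIntegral.of_pow hℓ.pos h1
  obtain ⟨b, hb⟩ : ∃ b : 𝓞 L', (b : L') = β := ⟨⟨β, hβint⟩, rfl⟩
  have hb' : b ^ ℓ = algebraMap (𝓞 F') (𝓞 L') α := by
    apply RingOfIntegers.ext
    show (b : L') ^ ℓ = _
    rw [hb, hβ]
    rfl
  have hα' : algebraMap (𝓞 F') (𝓞 L') α ≠ 0 := by
    intro h
    exact hα ((FaithfulSMul.algebraMap_eq_zero_iff _ _).1 h)
  have hmap : Ideal.map (algebraMap (𝓞 F') (𝓞 L')) (Ideal.span {α}) = (Ideal.span {b}) ^ ℓ := by
    rw [Ideal.map_span, Set.image_singleton, ← hb', Ideal.span_singleton_pow]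
  have hmap0 : Ideal.map (algebraMap (𝓞 F') (𝓞 L')) (Ideal.span {α}) ≠ ⊥ := by
    rw [Ideal.map_span, Set.image_singleton]
    simpa using hα'
  have hspan : (Ideal.span {α} : Ideal (𝓞 F')) ≠ ⊥ := by simpa using hα
  have e6 := Ideal.IsDedekindDomain.emultiplicity_map_eq_ramificationIdx'_mul (v := P) (w := Q')
    hspan (Ideal.prime_of_isPrime hP0 hP).irreducible
    (Ideal.prime_of_isPrime hQ'0 hQ'p).irreducible hQ'0
  rw [em hQ'p hQ'0 hmap0, em hP hP0 hspan, count_pow hmap] at e6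
  have e7 : ℓ * vP Q' (Ideal.span {b}) = P.ramificationIdx' Q' * vP P (Ideal.span {α}) := by
    exact_mod_cast e6
  have e8 : ℓ ∣ P.ramificationIdx' Q' :=
    (hℓ.dvd_mul.1 (Dvd.intro _ e7)).resolve_right hv
  have e9 : ℓ ∣ p.ramificationIdx' Q * Q.ramificationIdx' Q' := by
    rw [← e2, e1]
    exact e8.mul_left _
  have e10 : ℓ ∣ p.ramificationIdx' Q := by
    rcases hℓ.dvd_mul.1 e9 with h | h
    · exact h
    · exfalso
      have := Nat.le_of_dvd (Nat.pos_of_ne_zero e4) h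
      omega
  have e11 : ℓ ≤ p.ramificationIdx' Q := Nat.le_of_dvd (Nat.pos_of_ne_zero e5) e10
  rw [← hpdef]
  exact ⟨hpp, hp0, Q, hQp, hQ0, hQp'.over.symm, Ideal.le_pow_of_le_ramificationIdx' e11⟩

end Pool.Agent.Q258.LQ
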