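import Pool.Agent.Q258.LQ.Stm

/-!
# Primes ramified in a quadratic extension
-/

set_option autoImplicit false
set_option linter.deprecated false

open NumberField Filter Topology

namespace Pool.Agent.Q258.LQ

open Pool.Agent.TH444.ML

namespace RmA

/-- the coordinates in a quadratic extension -/
theorem coords {F L : Type} [Field F] [Field L] [Algebra F L] (hfr : Module.finrank F L = 2)
    (t : L) (a : F) (ht : t ^ 2 = algebraMap F L a) (htF : ∀ x : F, algebraMap F L x ≠ t) (q : L) :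
    2 * t * q = algebraMap F L (Algebra.trace F L q) * t +
      algebraMap F L (Algebra.trace F L (q * t)) := by
  classical
  haveI : FiniteDimensional F L := FiniteDimensional.of_finrank_eq_succ hfr
  have hli : LinearIndependent F ![(1 : L), t] := by
    rw [LinearIndependent.pair_iff]
    intro u v huv
    by_cases hv : v = 0
    · subst hv
      rw [zero_smul, add_zero, Algebra.smul_def, mul_one] at huv
      exact ⟨(map_eq_zero _).1 huv, rfl⟩
    · exfalso
      apply htF (-u / v)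
      have hv' : algebraMap F L v ≠ 0 := (map_ne_zero _).2 hv
      rw [Algebra.smul_def, Algebra.smul_def, mul_one] at huv
      rw [map_div₀, map_neg, div_eq_iff hv']
      linear_combination -huv
  let b := basisOfLinearIndependentOfCardEqFinrank hli (by rw [hfr]; rfl)
  have hb0 : b 0 = 1 := by simp [b]
  have hb1 : b 1 = t := by simp [b]
  have htr : Algebra.trace F L t = 0 := by
    rw [Algebra.trace_eq_matrix_trace b, Matrix.trace_fin_two, Algebra.leftMulMatrix_eq_repr_mul,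
      Algebra.leftMulMatrix_eq_repr_mul]
    have e0 : t * b 0 = b 1 := by rw [hb0, hb1, mul_one]
    have e1 : t * b 1 = a • b 0 := by
      rw [hb0, hb1, Algebra.smul_def, mul_one, ← ht]; ring
    rw [e0, e1, map_smul, Module.Basis.repr_self, Module.Basis.repr_self]
    simp
  have hq : q = algebraMap F L (b.repr q 0) + algebraMap F L (b.repr q 1) * t := by
    have := b.sum_repr q
    rw [Fin.sum_univ_two, hb0, hb1, Algebra.smul_def, Algebra.smul_def, mul_one] at this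
    exact this.symm
  set u := b.repr q 0 with hu
  set v := b.repr q 1 with hv
  have h1 : Algebra.trace F L q = 2 * u := by
    rw [hq, map_add, Algebra.trace_algebraMap, hfr, ← Algebra.smul_def, map_smul, htr]
    simp
  have h2 : Algebra.trace F L (q * t) = 2 * (v * a) := by
    have e : q * t = u • t + algebraMap F L (v * a) := by
      rw [hq, Algebra.smul_def, map_mul, ← ht]; ring
    rw [e, map_add, map_smul, htr, Algebra.trace_algebraMap, hfr]
    simp
  rw [h1, h2, map_mul, map_mul, map_mul, ← ht, map_ofNat]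
  nth_rewrite 1 [hq]
  ring

theorem key {F L : Type} [Field F] [NumberField F] [Field L] [NumberField L] [Algebra F L]
    (hfr : Module.finrank F L = 2) (a : 𝓞 F) (t : 𝓞 L) (ht : t ^ 2 = algebraMap (𝓞 F) (𝓞 L) a)
    (htF : ∀ x : F, algebraMap F L x ≠ t) (Q : Ideal (𝓞 L)) (hQ : Q.IsPrime) (hQ0 : Q ≠ ⊥)
    (h2 : (2 : 𝓞 L) ∉ Q) (ha : a ∉ Q.under (𝓞 F))
    (hle : Ideal.map (algebraMap (𝓞 F) (𝓞 L)) (Q.under (𝓞 F)) ≤ Q ^ 2) : False := by
  have hmem : ∀ x : 𝓞 F, x ∈ Q.under (𝓞 F) → algebraMap (𝓞 F) (𝓞 L) x ∈ Q ^ 2 :=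
    fun x hx => hle (Ideal.mem_map_of_mem _ hx)
  have hprime : Prime Q := Ideal.prime_of_isPrime hQ0 hQ
  -- `Q ^ 2` is primary
  have hprim : ∀ x y : 𝓞 L, x ∉ Q → x * y ∈ Q ^ 2 → y ∈ Q ^ 2 := by
    intro x y hx hxy
    rw [← Ideal.dvd_span_singleton] at hx hxy ⊢
    rw [← Ideal.span_singleton_mul_span_singleton] at hxy
    exact hprime.pow_dvd_of_dvd_mul_left 2 hx hxy
  have htL : (t : L) ^ 2 = algebraMap F L (a : F) := by
    have := congrArg (fun z : 𝓞 L => (z : L)) ht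
    exact this
  have htQ : t ∉ Q := by
    intro h
    apply ha
    show algebraMap (𝓞 F) (𝓞 L) a ∈ Q
    rw [← ht, pow_two]
    exact Q.mul_mem_left _ h
  have h2t : 2 * t ∉ Q := fun h => (hQ.mem_or_mem h).elim h2 htQ
  have hcoord : ∀ q : 𝓞 L, ∃ u v : 𝓞 F, 2 * t * q = algebraMap (𝓞 F) (𝓞 L) u * t +
      algebraMap (𝓞 F) (𝓞 L) v := by
    intro q
    refine ⟨⟨Algebra.trace F L (q : L), Algebra.isIntegral_trace q.isIntegral_coe⟩,
      ⟨Algebra.trace F L ((q * t : 𝓞 L) : L), Algebra.isIntegral_trace (q * t).isIntegral_coe⟩, ?_⟩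
    apply RingOfIntegers.coe_injective
    have := coords hfr (t : L) (a : F) htL htF (q : L)
    exact this
  have hsub : Q ≤ Q ^ 2 := by
    intro q hq
    obtain ⟨u, v, huv⟩ := hcoord q
    apply hprim (2 * t) q h2t
    rw [huv]
    have h3 : algebraMap (𝓞 F) (𝓞 L) u * t + algebraMap (𝓞 F) (𝓞 L) v ∈ Q := by
      rw [← huv]
      exact Q.mul_mem_left _ hq
    by_cases hu : u ∈ Q.under (𝓞 F)
    · have hv : v ∈ Q.under (𝓞 F) := by
        show algebraMap (𝓞 F) (𝓞 L) v ∈ Q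
        have h4 : algebraMap (𝓞 F) (𝓞 L) u * t ∈ Q := Q.mul_mem_right _ hu
        exact (Ideal.add_mem_iff_right Q h4).1 h3
      exact Ideal.add_mem _ (Ideal.mul_mem_right _ _ (hmem u hu)) (hmem v hv)
    · -- the class of `t` is in the residue field of `P`
      have hPp : (Q.under (𝓞 F)).IsPrime := inferInstance
      have hP0 : Q.under (𝓞 F) ≠ ⊥ := Ideal.under_ne_bot (𝓞 F) hQ0
      have hPm : (Q.under (𝓞 F)).IsMaximal := hPp.isMaximal hP0
      obtain ⟨u', w, hw, huw⟩ := hPm.exists_inv hu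
      -- `u' * u + w = 1`
      set r : 𝓞 F := -(u' * v) with hr
      have h5 : t - algebraMap (𝓞 F) (𝓞 L) r ∈ Q := by
        have e : t - algebraMap (𝓞 F) (𝓞 L) r = algebraMap (𝓞 F) (𝓞 L) u' *
            (algebraMap (𝓞 F) (𝓞 L) u * t + algebraMap (𝓞 F) (𝓞 L) v) +
            algebraMap (𝓞 F) (𝓞 L) w * t := by
          have e1 : algebraMap (𝓞 F) (𝓞 L) u' * algebraMap (𝓞 F) (𝓞 L) u +
              algebraMap (𝓞 F) (𝓞 L) w = 1 := by
            rw [← map_mul, ← map_add, huw, map_one]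
          rw [hr, map_neg, map_mul]
          linear_combination (-t) * e1
        rw [e]
        exact Ideal.add_mem _ (Q.mul_mem_left _ h3) (Q.mul_mem_right _ hw)
      have h6 : t + algebraMap (𝓞 F) (𝓞 L) r ∉ Q := by
        intro h7
        apply h2t
        have e : 2 * t = (t - algebraMap (𝓞 F) (𝓞 L) r) + (t + algebraMap (𝓞 F) (𝓞 L) r) := by
          ring
        rw [e]
        exact Ideal.add_mem _ h5 h7
      have h7 : t - algebraMap (𝓞 F) (𝓞 L) r ∈ Q ^ 2 := by
        apply hprim _ _ h6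
        have e : (t + algebraMap (𝓞 F) (𝓞 L) r) * (t - algebraMap (𝓞 F) (𝓞 L) r) =
            algebraMap (𝓞 F) (𝓞 L) (a - r ^ 2) := by
          rw [map_sub, ← ht, map_pow]; ring
        rw [e]
        apply hmem
        show algebraMap (𝓞 F) (𝓞 L) (a - r ^ 2) ∈ Q
        rw [← e]
        exact Q.mul_mem_left _ h5
      have e : algebraMap (𝓞 F) (𝓞 L) u * t + algebraMap (𝓞 F) (𝓞 L) v =
          algebraMap (𝓞 F) (𝓞 L) u * (t - algebraMap (𝓞 F) (𝓞 L) r) +
          algebraMap (𝓞 F) (𝓞 L) (u * r + v) := by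
        rw [map_add, map_mul]; ring
      rw [e]
      refine Ideal.add_mem _ (Ideal.mul_mem_left _ _ h7) (hmem _ ?_)
      show algebraMap (𝓞 F) (𝓞 L) (u * r + v) ∈ Q
      have e2 : algebraMap (𝓞 F) (𝓞 L) (u * r + v) =
          (algebraMap (𝓞 F) (𝓞 L) u * t + algebraMap (𝓞 F) (𝓞 L) v) -
          algebraMap (𝓞 F) (𝓞 L) u * (t - algebraMap (𝓞 F) (𝓞 L) r) := by
        rw [map_add, map_mul]; ring
      rw [e2]
      exact Ideal.sub_mem _ h3 (Q.mul_mem_left _ h5)
  have h3 : Q ^ 2 ∣ Q ^ 1 := by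
    rw [pow_one, Ideal.dvd_iff_le]
    exact hsub
  exact absurd ((pow_dvd_pow_iff hprime.ne_zero hprime.not_unit).1 h3) (by norm_num)

end RmA

open RmA in
theorem ramA : RamA := by
  intro F L _ _ _ _ _ hfr α s 𝔡 𝔠 hs hsF hα hsq hid Q hQ hQ0 h2 hle
  by_contra hP
  set P := Q.under (𝓞 F) with hPdef
  have hPp : P.IsPrime := inferInstance
  have hP0 : P ≠ ⊥ := Ideal.under_ne_bot (𝓞 F) hQ0
  have hprime : Prime P := Ideal.prime_of_isPrime hP0 hPp
  have hα0 : Ideal.span {α} ≠ ⊥ := by rwa [Ne, Ideal.span_singleton_eq_bot]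
  have h𝔠 : 𝔠 ≠ ⊥ := by
    rintro rfl
    apply hα0
    rw [hid, ← Ideal.zero_eq_bot, zero_pow two_ne_zero, mul_zero]
  obtain ⟨b, hb𝔠, hb0⟩ := Submodule.exists_mem_ne_zero_of_ne_bot h𝔠
  obtain ⟨𝔟, h𝔟⟩ := Ideal.dvd_span_singleton.2 hb𝔠
  have hspb : Ideal.span {b} ≠ ⊥ := by rwa [Ne, Ideal.span_singleton_eq_bot]
  have h𝔟0 : 𝔟 ≠ 0 := by
    rintro rfl
    rw [mul_zero] at h𝔟
    exact hspb h𝔟
  obtain ⟨x, hx, hxP⟩ : ∃ x ∈ 𝔟, x ∉ P * 𝔟 := by
    by_contra hcon
    push Not at hcon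
    have h3 : P * 𝔟 ∣ 1 * 𝔟 := by
      rw [one_mul, Ideal.dvd_iff_le]
      exact hcon
    exact hprime.not_unit (isUnit_of_dvd_one ((mul_dvd_mul_iff_right h𝔟0).1 h3))
  obtain ⟨𝔪, h𝔪⟩ := Ideal.dvd_span_singleton.2 hx
  have hP𝔪 : ¬ P ∣ 𝔪 := by
    rintro ⟨𝔫, rfl⟩
    apply hxP
    rw [← Ideal.dvd_span_singleton, h𝔪]
    exact ⟨𝔫, by ring⟩
  have e1 : Ideal.span {x ^ 2 * α} = Ideal.span {b ^ 2} * (𝔡 * 𝔪 ^ 2) := by
    rw [← Ideal.span_singleton_mul_span_singleton, ← Ideal.span_singleton_pow,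
      ← Ideal.span_singleton_pow, h𝔪, h𝔟, hid]
    ring
  have e2 : b ^ 2 ∣ x ^ 2 * α := by
    refine Ideal.span_singleton_le_span_singleton.1 ?_
    rw [e1]
    exact Ideal.mul_le_left (I := Ideal.span {b ^ 2}) (J := 𝔡 * 𝔪 ^ 2)
  obtain ⟨a, ha⟩ := e2
  have hb2 : Ideal.span {b ^ 2} ≠ 0 := by
    rw [Ne, Ideal.zero_eq_bot, Ideal.span_singleton_eq_bot]
    exact pow_ne_zero _ hb0
  have e3 : Ideal.span {a} = 𝔡 * 𝔪 ^ 2 := by
    rw [ha, ← Ideal.span_singleton_mul_span_singleton] at e1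
    exact mul_left_cancel₀ hb2 e1
  have haP : a ∉ P := by
    intro h
    rw [← Ideal.dvd_span_singleton, e3] at h
    rcases hprime.dvd_or_dvd h with h | h
    · exact hP h
    · exact hP𝔪 (hprime.dvd_of_dvd_pow h)
  have hx0 : x ≠ 0 := by
    rintro rfl
    exact hxP (Ideal.zero_mem _)
  have hbF : (b : F) ≠ 0 := by
    intro h
    exact hb0 (RingOfIntegers.coe_eq_zero_iff.1 h)
  have hxF : (x : F) ≠ 0 := by
    intro h
    exact hx0 (RingOfIntegers.coe_eq_zero_iff.1 h)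
  have haF : (x : F) ^ 2 * (α : F) = (b : F) ^ 2 * (a : F) := by
    have := congrArg (fun z : 𝓞 F => (z : F)) ha
    exact this
  set tL : L := algebraMap F L ((x : F) / (b : F)) * s with htL
  have ht2 : tL ^ 2 = algebraMap F L (a : F) := by
    rw [htL, mul_pow, hs, ← map_pow, ← map_mul]
    congr 1
    rw [div_pow, div_mul_eq_mul_div, haF, mul_div_assoc, mul_comm]
    field_simp
  have hint : IsIntegral ℤ tL := by
    refine IsIntegral.of_pow two_pos ?_
    rw [ht2]
    exact IsIntegral.algebraMap a.isIntegral_coe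
  refine key hfr a ⟨tL, hint⟩ ?_ ?_ Q hQ hQ0 h2 haP hle
  · apply RingOfIntegers.coe_injective
    exact ht2
  · intro y hy
    apply hsF (y * ((b : F) / (x : F)))
    have hy' : algebraMap F L y = tL := hy
    rw [map_mul, hy', htL, mul_comm, ← mul_assoc, ← map_mul, div_mul_div_comm, mul_comm (b : F),
      div_self (mul_ne_zero hxF hbF), map_one, one_mul]

end Pool.Agent.Q258.LQ
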