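import Pool.Agent.Q258.LQ.Stm

set_option autoImplicit false

open NumberField Filter Topology

namespace Pool.Agent.Q258.LQ

open Pool.Agent.TH444.ML

theorem odd_contra {S : Type} [CommRing S] [IsDedekindDomain S] (Q I R : Ideal S) (k : ℕ)
    (hQ : Prime Q) (h : I ^ 2 = Q ^ (2 * k + 1) * R) (hR : ¬ Q ∣ R) : False := by
  have h1 := congrArg (emultiplicity Q) h
  rw [emultiplicity_pow hQ, emultiplicity_mul hQ, emultiplicity_pow_self_of_prime hQ,
    emultiplicity_eq_zero.2 hR, add_zero] at h1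
  cases hm : emultiplicity Q I with
  | top =>
    rw [hm] at h1
    rw [ENat.mul_top (by simp)] at h1
    exact (ENat.natCast_ne_top _) h1.symm
  | coe n =>
    rw [hm] at h1
    have h2 : 2 * n = 2 * k + 1 := by exact_mod_cast h1
    omega

theorem ramB : RamB := by
  intro F L _ _ _ _ _ hfr α s 𝔡 𝔠 hs hα h𝔡 hI Q hQp hQ0 hPd
  set P : Ideal (𝓞 F) := Q.under (𝓞 F) with hP
  have : P.IsPrime := by rw [hP]; infer_instance
  have hP0 : P ≠ ⊥ := by
    intro h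
    exact hQ0 (Ideal.eq_bot_of_comap_eq_bot (R := 𝓞 F) h)
  have hPprime : Prime P := Ideal.prime_of_isPrime hP0 inferInstance
  have hQprime : Prime Q := Ideal.prime_of_isPrime hQ0 hQp
  have hmapdvd : ∀ J : Ideal (𝓞 F), Q ∣ Ideal.map (algebraMap (𝓞 F) (𝓞 L)) J ↔ P ∣ J := by
    intro J
    rw [Ideal.dvd_iff_le, Ideal.dvd_iff_le, Ideal.map_le_iff_le_comap]
  -- the element `s`
  have hsint : IsIntegral ℤ s := by
    have h1 : IsIntegral ℤ (s ^ 2) := by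
      rw [hs]
      exact (α.isIntegral_coe).map (IsScalarTower.toAlgHom ℤ F L)
    exact h1.of_pow (by norm_num)
  set s' : 𝓞 L := ⟨s, hsint⟩ with hs'
  have hs2 : s' ^ 2 = algebraMap (𝓞 F) (𝓞 L) α := by
    have h1 : (algebraMap (𝓞 L) L) (s' ^ 2) =
        (algebraMap (𝓞 L) L) (algebraMap (𝓞 F) (𝓞 L) α) := by
      rw [map_pow, ← IsScalarTower.algebraMap_apply (𝓞 F) (𝓞 L) L]
      exact hs
    exact RingOfIntegers.ext h1
  -- factor `𝔡` and `𝔠`
  obtain ⟨𝔡', h𝔡'⟩ := hPd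
  have hPd' : ¬ P ∣ 𝔡' := by
    rintro ⟨J, hJ⟩
    have : IsUnit P := h𝔡 P ⟨J, by rw [h𝔡', hJ, mul_assoc]⟩
    exact hPprime.not_isUnit this
  have h𝔠0 : 𝔠 ≠ 0 := by
    intro h
    rw [h] at hI
    have : Ideal.span {α} = ⊥ := by
      rw [hI]
      simp
    exact hα (Ideal.span_singleton_eq_bot.1 this)
  have hfm : FiniteMultiplicity P 𝔠 := FiniteMultiplicity.of_not_isUnit hPprime.not_isUnit h𝔠0
  obtain ⟨𝔠', h𝔠', hPc'⟩ := hfm.exists_eq_pow_mul_and_not_dvd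
  set k := multiplicity P 𝔠 with hk
  have hI2 : Ideal.span {α} = P ^ (2 * k + 1) * (𝔡' * 𝔠' ^ 2) := by
    rw [hI, h𝔡', h𝔠']
    ring
  have hPJ : ¬ P ∣ 𝔡' * 𝔠' ^ 2 := by
    intro h
    rcases hPprime.dvd_or_dvd h with h | h
    · exact hPd' h
    · exact hPc' (hPprime.dvd_of_dvd_pow h)
  have hmap : (Ideal.span {s'}) ^ 2 = (Ideal.map (algebraMap (𝓞 F) (𝓞 L)) P) ^ (2 * k + 1) *
      Ideal.map (algebraMap (𝓞 F) (𝓞 L)) (𝔡' * 𝔠' ^ 2) := by
    rw [← Ideal.map_pow, ← Ideal.map_mul, ← hI2, Ideal.map_span, Set.image_singleton,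
      Ideal.span_singleton_pow, hs2]
  -- `Q ^ 2` divides `P`
  have hQP : Q ∣ Ideal.map (algebraMap (𝓞 F) (𝓞 L)) P := (hmapdvd P).2 dvd_rfl
  have hQ2 : Q ^ 2 ∣ Ideal.map (algebraMap (𝓞 F) (𝓞 L)) P := by
    obtain ⟨J, hJ⟩ := hQP
    by_contra hcon
    have hQJ : ¬ Q ∣ J := by
      rintro ⟨J', hJ'⟩
      exact hcon ⟨J', by rw [hJ, hJ']; ring⟩
    have h5 : (Ideal.span {s'}) ^ 2 = Q ^ (2 * k + 1) * (J ^ (2 * k + 1) *
      Ideal.map (algebraMap (𝓞 F) (𝓞 L)) (𝔡' * 𝔠' ^ 2)) := by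
      rw [hmap, hJ, mul_pow, mul_assoc]
    refine odd_contra Q _ _ k hQprime h5 ?_
    intro h
    rcases hQprime.dvd_or_dvd h with h | h
    · exact hQJ (hQprime.dvd_of_dvd_pow h)
    · exact hPJ ((hmapdvd _).1 h)
  -- norms
  have hfr' : Module.finrank (𝓞 F) (𝓞 L) = 2 := by
    rw [← hfr]
    exact (IsFractionRing.finrank_eq (𝓞 F) F (𝓞 L) L).symm
  obtain ⟨J, hJ⟩ := hQ2
  have hN : Ideal.absNorm P ^ 2 = Ideal.absNorm Q ^ 2 * Ideal.absNorm J := by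
    have := congrArg Ideal.absNorm hJ
    rw [Ideal.absNorm_algebraMap, hfr', map_mul, map_pow] at this
    exact this
  have hinj : Function.Injective
      (Ideal.quotientMap Q (algebraMap (𝓞 F) (𝓞 L)) (le_of_eq hP) : 𝓞 F ⧸ P →+* 𝓞 L ⧸ Q) :=
    Ideal.quotientMap_injective' (le_of_eq hP.symm)
  have : Finite (𝓞 L ⧸ Q) := Ideal.finiteQuotientOfFreeOfNeBot Q hQ0
  have : Finite (𝓞 F ⧸ P) := Ideal.finiteQuotientOfFreeOfNeBot P hP0
  have hle : Ideal.absNorm P ≤ Ideal.absNorm Q := by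
    rw [Ideal.absNorm_apply, Ideal.absNorm_apply, Submodule.cardQuot_apply,
      Submodule.cardQuot_apply]
    exact Nat.card_le_card_of_injective _ hinj
  have hQpos : 0 < Ideal.absNorm Q := Nat.pos_of_ne_zero (Ideal.absNorm_ne_zero_iff_mem_nonZeroDivisors.2 (mem_nonZeroDivisors_of_ne_zero hQ0))
  have hPpos : 0 < Ideal.absNorm P := Nat.pos_of_ne_zero (Ideal.absNorm_ne_zero_iff_mem_nonZeroDivisors.2 (mem_nonZeroDivisors_of_ne_zero hP0))
  have hJpos : 0 < Ideal.absNorm J := by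
    rcases Nat.eq_zero_or_pos (Ideal.absNorm J) with h | h
    · rw [h, mul_zero] at hN
      have := pow_pos hPpos 2
      omega
    · exact h
  have hJ1 : Ideal.absNorm J = 1 := by
    have h1 : Ideal.absNorm P ^ 2 ≤ Ideal.absNorm Q ^ 2 := Nat.pow_le_pow_left hle 2
    have h2 : 0 < Ideal.absNorm Q ^ 2 := pow_pos hQpos 2
    by_contra hne
    have h3 : 2 ≤ Ideal.absNorm J := by omega
    nlinarith
  have hPQ : Ideal.absNorm P = Ideal.absNorm Q := by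
    rw [hJ1, mul_one] at hN
    exact Nat.pow_left_injective (by norm_num : 2 ≠ 0) hN
  have hJtop : J = ⊤ := Ideal.absNorm_eq_one_iff.1 hJ1
  have hmain : Ideal.map (algebraMap (𝓞 F) (𝓞 L)) P = Q ^ 2 := by
    rw [hJ, hJtop, Ideal.mul_top]
  refine ⟨hmain, ?_, ?_⟩
  · intro Q' hQ'p hQ'0 hQ'
    have h1 : Ideal.map (algebraMap (𝓞 F) (𝓞 L)) P ≤ Q' := by
      rw [Ideal.map_le_iff_le_comap]
      exact le_of_eq hQ'.symm
    rw [hmain] at h1
    have h2 : Q ≤ Q' := hQ'p.le_of_pow_le h1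
    have : Q.IsMaximal := Ring.DimensionLEOne.maximalOfPrime hQ0 hQp
    exact (Ideal.IsMaximal.eq_of_le inferInstance hQ'p.ne_top h2).symm
  · intro x
    have hsurj : Function.Surjective
      (Ideal.quotientMap Q (algebraMap (𝓞 F) (𝓞 L)) (le_of_eq hP) : 𝓞 F ⧸ P →+* 𝓞 L ⧸ Q) := by
      have : Nat.card (𝓞 F ⧸ P) = Nat.card (𝓞 L ⧸ Q) := by
        have := hPQ
        rw [Ideal.absNorm_apply, Ideal.absNorm_apply, Submodule.cardQuot_apply,
          Submodule.cardQuot_apply] at this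
        exact this
      exact (Nat.bijective_iff_injective_and_card _).2 ⟨hinj, this⟩ |>.2
    obtain ⟨y, hy⟩ := hsurj (Ideal.Quotient.mk Q x)
    obtain ⟨y, rfl⟩ := Ideal.Quotient.mk_surjective y
    refine ⟨y, ?_⟩
    rw [Ideal.quotientMap_mk] at hy
    exact Ideal.Quotient.eq.1 hy.symm

end Pool.Agent.Q258.LQ

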