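import Pool.Agent.Q258.LQ.Stm2

/-! # Project LQ part 2 (helper258), job STr (helper18): a short element of trace zero in a cubic extension -/

set_option autoImplicit false

open NumberField Filter Topology

namespace Pool.Agent.Q258.LQ.STr

open Pool.Agent.TH444.ML

/-- the size of the trace -/
theorem trace_le {K L : Type} [Field K] [NumberField K] [Field L] [NumberField L] [Algebra K L]
    (hKL : Module.finrank K L = 3) (x : L) (R : ℝ) (hx : ∀ w : InfinitePlace L, w x ≤ R) (v : InfinitePlace K) :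
    v (Algebra.trace K L x) ≤ 3 * R := by
  classical
  have hfd : FiniteDimensional K L := Module.finite_of_finrank_pos (by omega)
  letI : Algebra K ℂ := v.embedding.toAlgebra
  have h1 : algebraMap K ℂ (Algebra.trace K L x) = ∑ σ : L →ₐ[K] ℂ, σ x := trace_eq_sum_embeddings ℂ
  have h2 : v (Algebra.trace K L x) = ‖algebraMap K ℂ (Algebra.trace K L x)‖ := by
    rw [← InfinitePlace.norm_embedding_eq v]
    rfl
  rw [h2, h1]
  refine (norm_sum_le _ _).trans ?_
  have h3 : ∀ σ ∈ (Finset.univ : Finset (L →ₐ[K] ℂ)), ‖σ x‖ ≤ R := by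
    intro σ _
    have := hx (InfinitePlace.mk (σ : L →+* ℂ))
    rwa [InfinitePlace.apply] at this
  refine (Finset.sum_le_card_nsmul _ _ _ h3).trans ?_
  rw [Finset.card_univ, AlgHom.card, hKL, nsmul_eq_mul]
  norm_num

end Pool.Agent.Q258.LQ.STr

namespace Pool.Agent.Q258.LQ

open Pool.Agent.TH444.ML

theorem shortTrace (h : ManyPts) (h2 : LatCount) : ShortTrace := by
  classical
  intro K _ _
  obtain ⟨k, hk⟩ : ∃ k, k = Module.finrank ℚ K := ⟨_, rfl⟩
  have hk0 : 0 < k := hk ▸ Module.finrank_pos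
  obtain ⟨c, hc, hT⟩ := h (3 * k)
  obtain ⟨CK, A, hCK, hcount⟩ := h2 k
  obtain ⟨dK, hdK⟩ : ∃ dK : ℝ, dK = ((|discr K| : ℤ) : ℝ) := ⟨_, rfl⟩
  have hdK1 : 1 ≤ dK := by
    rw [hdK]
    exact_mod_cast Int.one_le_abs (discr_ne_zero K)
  -- the constant
  obtain ⟨C', hC'1, hC'2, hC'3⟩ : ∃ C' : ℝ, 1 ≤ C' ∧ CK * dK ^ A ≤ 7 * C' ∧ CK * 7 ^ k < c * C' := by
    refine ⟨max 1 (max (CK * dK ^ A) ((CK * 7 ^ k + 1) / c)), le_max_left _ _, ?_, ?_⟩
    · have h1 : CK * dK ^ A ≤ max 1 (max (CK * dK ^ A) ((CK * 7 ^ k + 1) / c)) :=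
        (le_max_left _ _).trans (le_max_right _ _)
      have h2 : 0 ≤ CK * dK ^ A := by positivity
      linarith
    · have h1 : (CK * 7 ^ k + 1) / c ≤ max 1 (max (CK * dK ^ A) ((CK * 7 ^ k + 1) / c)) :=
        (le_max_right _ _).trans (le_max_right _ _)
      rw [div_le_iff₀ hc] at h1
      linarith
  refine ⟨4 * C', by linarith, ?_⟩
  intro L _ _ _ hKL
  have hfd : FiniteDimensional K L := Module.finite_of_finrank_pos (by omega)
  have hL : Module.finrank ℚ L = 3 * k := by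
    rw [hk, mul_comm, ← hKL]
    exact (Module.finrank_mul_finrank ℚ K L).symm
  obtain ⟨dL, hdL⟩ : ∃ dL : ℝ, dL = ((|discr L| : ℤ) : ℝ) := ⟨_, rfl⟩
  have hdL1 : 1 ≤ dL := by
    rw [hdL]
    exact_mod_cast Int.one_le_abs (discr_ne_zero L)
  obtain ⟨e, he⟩ : ∃ e : ℝ, e = dL ^ ((1 : ℝ) / (4 * (k : ℝ))) := ⟨_, rfl⟩
  have he1 : 1 ≤ e := he ▸ Real.one_le_rpow hdL1 (by positivity)
  have he2 : e ^ (2 * k) = Real.sqrt dL := by
    rw [he, ← Real.rpow_natCast, ← Real.rpow_mul (by linarith), Real.sqrt_eq_rpow]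
    congr 1
    have : (k : ℝ) ≠ 0 := by positivity
    push_cast
    field_simp
    norm_num
  have hR : 0 < C' * e := by positivity
  have hR1 : 1 ≤ C' * e := by nlinarith
  obtain ⟨T, hT1, hT2⟩ := hT L hL (C' * e) hR
  rw [← hdL, ← he2] at hT2
  -- the possible traces
  have hB : CK * dK ^ A * (Ideal.absNorm (⊤ : Ideal (𝓞 K)) : ℝ) ≤ (7 * (C' * e)) ^ k := by
    rw [Ideal.absNorm_top, Nat.cast_one, mul_one]
    calc CK * dK ^ A ≤ 7 * C' := hC'2
      _ ≤ 7 * (C' * e) := by nlinarith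
      _ ≤ (7 * (C' * e)) ^ k := le_self_pow₀ (by linarith) hk0.ne'
  rw [hdK] at hB
  obtain ⟨hfin, hcard⟩ := hcount K hk.symm ⊤ top_ne_bot (7 * (C' * e)) (by positivity) hB
  rw [Ideal.absNorm_top, Nat.cast_one, mul_one, ← hdK] at hcard
  obtain ⟨U, hU⟩ : ∃ U : Finset (𝓞 K), U = hfin.toFinset := ⟨_, rfl⟩
  have hUcard : (U.card : ℝ) ≤ CK * (7 * (C' * e)) ^ k := by
    have h1 : ((U.card : ℕ) : ℝ) * Real.sqrt dK ≤ CK * (7 * (C' * e)) ^ k := by
      rw [hU, ← Set.ncard_eq_toFinset_card _ hfin]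
      exact hcard
    have h3 : 1 ≤ Real.sqrt dK := Real.one_le_sqrt.2 hdK1
    have h4 : (0 : ℝ) ≤ U.card := Nat.cast_nonneg _
    nlinarith
  let f : 𝓞 L → 𝓞 K := fun x => ⟨Algebra.trace K L (x : L), Algebra.isIntegral_trace x.isIntegral_coe⟩
  have hf : ∀ x ∈ T, f x ∈ U := by
    intro x hx
    rw [hU, Set.Finite.mem_toFinset]
    refine ⟨Submodule.mem_top, fun v => ?_⟩
    have := STr.trace_le hKL (x : L) (2 * (C' * e)) (hT1 x hx) v
    calc v (f x : K) = v (Algebra.trace K L (x : L)) := rfl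
      _ ≤ 3 * (2 * (C' * e)) := this
      _ < 7 * (C' * e) := by linarith
  have hlt : U.card < T.card := by
    have h1 : (U.card : ℝ) < T.card := by
      refine lt_of_mul_lt_mul_right (a := e ^ (2 * k)) ?_ (by positivity)
      calc (U.card : ℝ) * e ^ (2 * k) ≤ CK * (7 * (C' * e)) ^ k * e ^ (2 * k) := by gcongr
        _ = (CK * 7 ^ k) * (C' ^ k * e ^ (3 * k)) := by rw [mul_pow, mul_pow]; ring
        _ < (c * C') * (C' ^ k * e ^ (3 * k)) := by gcongr
        _ ≤ (c * C' ^ (2 * k)) * (C' ^ k * e ^ (3 * k)) := by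
            gcongr
            exact le_self_pow₀ hC'1 (by omega)
        _ = c * (C' * e) ^ (3 * k) := by rw [mul_pow]; ring
        _ ≤ T.card * e ^ (2 * k) := hT2
    exact_mod_cast h1
  obtain ⟨x, hx, y, hy, hxy, hfxy⟩ := Finset.exists_ne_map_eq_of_card_lt_of_maps_to hlt hf
  refine ⟨x - y, sub_ne_zero.2 hxy, ?_, fun w => ?_⟩
  · have h1 : Algebra.trace K L (x : L) = Algebra.trace K L (y : L) := congrArg (fun z : 𝓞 K => (z : K)) hfxy
    have h3 : ((x - y : 𝓞 L) : L) = (x : L) - (y : L) := rfl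
    rw [h3, map_sub, h1, sub_self]
  · have h3 : ((x - y : 𝓞 L) : L) = (x : L) - (y : L) := rfl
    rw [h3, ← hk, ← hdL, ← he]
    have h4 : w ((x : L) - (y : L)) ≤ w (x : L) + w (y : L) := by
      rw [← InfinitePlace.norm_embedding_eq, ← InfinitePlace.norm_embedding_eq, ← InfinitePlace.norm_embedding_eq,
        map_sub]
      exact norm_sub_le _ _
    have h5 := hT1 x hx w
    have h6 := hT1 y hy w
    linarith

end Pool.Agent.Q258.LQ
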