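import Pool.Agent.Q258.LQ.Stm2

/-!
# Schmidt's bound for the cubic extensions
-/

set_option autoImplicit false

open NumberField Filter Topology Pool.Agent.TH444.ML

namespace Pool.Agent.Q258.LQ.Sch

open Polynomial Module

/-- integers of bounded size -/
def Bx (K : Type) [Field K] [NumberField K] (B : ℝ) : Set (𝓞 K) :=
  {a | ∀ φ : K →+* ℂ, ‖φ a‖ ≤ B}

lemma coord_bd (K : Type) [Field K] [NumberField K] :
    ∃ M : ℝ, 1 ≤ M ∧ ∀ (i : Module.Free.ChooseBasisIndex ℤ (𝓞 K)) (v : (K →+* ℂ) → ℂ),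
      ‖(canonicalEmbedding.latticeBasis K).repr v i‖ ≤ M * ‖v‖ := by
  classical
  set f : Module.Free.ChooseBasisIndex ℤ (𝓞 K) → (((K →+* ℂ) → ℂ) →L[ℂ] ℂ) := fun i =>
    LinearMap.toContinuousLinearMap ((canonicalEmbedding.latticeBasis K).coord i) with hf
  refine ⟨1 + ∑ i, ‖f i‖, ?_, ?_⟩
  · have : 0 ≤ ∑ i, ‖f i‖ := Finset.sum_nonneg fun i _ => (f i).opNorm_nonneg
    linarith
  · intro i v
    have h1 : ‖f i v‖ ≤ ‖f i‖ * ‖v‖ := (f i).le_opNorm v
    have h2 : ‖f i‖ ≤ 1 + ∑ i, ‖f i‖ := by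
      have := Finset.single_le_sum (f := fun i => ‖f i‖) (fun i _ => (f i).opNorm_nonneg)
        (Finset.mem_univ i)
      linarith
    have h3 : f i v = (canonicalEmbedding.latticeBasis K).repr v i := rfl
    rw [← h3]
    exact h1.trans (mul_le_mul_of_nonneg_right h2 (norm_nonneg _))

lemma box (K : Type) [Field K] [NumberField K] :
    ∃ C : ℝ, 1 ≤ C ∧ ∀ B : ℝ, 1 ≤ B →
      (Bx K B).Finite ∧ ((Bx K B).ncard : ℝ) ≤ C * B ^ (finrank ℚ K) := by
  classical
  obtain ⟨M, hM, hMb⟩ := coord_bd K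
  refine ⟨(3 * M) ^ finrank ℚ K, one_le_pow₀ (by linarith), ?_⟩
  intro B hB
  have hMB : 1 ≤ M * B := by nlinarith
  set N : ℤ := ⌊M * B⌋ with hN
  set g : 𝓞 K → (Module.Free.ChooseBasisIndex ℤ (𝓞 K)) → ℤ :=
    fun a i => (RingOfIntegers.basis K).repr a i with hg0
  have hg : Function.Injective g := by
    intro a b hab
    apply (RingOfIntegers.basis K).repr.injective
    ext i
    exact congrFun hab i
  set T : Finset (Module.Free.ChooseBasisIndex ℤ (𝓞 K) → ℤ) :=
    Fintype.piFinset fun _ => Finset.Icc (-N) N with hT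
  have hmaps : ∀ a ∈ Bx K B, g a ∈ T := by
    intro a ha
    rw [hT, Fintype.mem_piFinset]
    intro i
    rw [Finset.mem_Icc, ← abs_le]
    have h1 : ‖canonicalEmbedding K (a : K)‖ ≤ B := by
      rw [pi_norm_le_iff_of_nonneg (by linarith)]
      intro φ
      exact ha φ
    have h2 := hMb i (canonicalEmbedding K (a : K))
    rw [canonicalEmbedding.integralBasis_repr_apply] at h2
    have h3 : (integralBasis K).repr (a : K) i = (((RingOfIntegers.basis K).repr a i : ℤ) : ℚ) :=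
      integralBasis_repr_apply K a i
    rw [h3] at h2
    have h4 : ‖(((((RingOfIntegers.basis K).repr a i : ℤ) : ℚ)) : ℂ)‖ = ((|g a i| : ℤ) : ℝ) := by
      simp [hg0]
    rw [h4] at h2
    rw [hN, Int.le_floor]
    exact h2.trans (mul_le_mul_of_nonneg_left h1 (by linarith))
  have hN1 : 1 ≤ N := by rw [hN, Int.le_floor]; exact_mod_cast hMB
  have hcard : (T.card : ℝ) ≤ (3 * M) ^ finrank ℚ K * B ^ (finrank ℚ K) := by
    rw [hT, Fintype.card_piFinset, Finset.prod_const, Finset.card_univ, Int.card_Icc]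
    rw [← finrank_eq_card_chooseBasisIndex, RingOfIntegers.rank, ← mul_pow]
    push_cast
    refine pow_le_pow_left₀ (by positivity) ?_ _
    have e : (((N + 1 - -N).toNat : ℕ) : ℝ) = 2 * N + 1 := by
      have h5 : (((N + 1 - -N).toNat : ℕ) : ℤ) = 2 * N + 1 := by
        rw [Int.toNat_of_nonneg (by omega)]; ring
      exact_mod_cast h5
    rw [e]
    have h6 : (N : ℝ) ≤ M * B := Int.floor_le _
    linarith
  have hfin : (Bx K B).Finite :=
    Set.Finite.of_injOn (f := g) (t := (T : Set _)) (fun a ha => hmaps a ha) hg.injOn T.finite_toSet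
  refine ⟨hfin, le_trans ?_ hcard⟩
  have : (Bx K B).ncard ≤ (T : Set _).ncard :=
    Set.ncard_le_ncard_of_injOn g (fun a ha => hmaps a ha) hg.injOn T.finite_toSet
  rw [Set.ncard_coe_finset] at this
  exact_mod_cast this

/-- the minimal polynomial of an element of trace zero -/
lemma gen {K Ω : Type} [Field K] [NumberField K] [Field Ω] [Algebra K Ω]
    (L : IntermediateField K Ω) (hL : Module.finrank K L = 3) [NumberField L] (x : 𝓞 L) (hx : x ≠ 0)
    (ht : Algebra.trace K L (x : L) = 0) (R : ℝ) (hR : ∀ w : InfinitePlace L, w (x : L) ≤ R) :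
    ∃ a b : 𝓞 K, (∀ φ : K →+* ℂ, ‖φ a‖ ≤ 3 * R ^ 2) ∧ (∀ φ : K →+* ℂ, ‖φ b‖ ≤ R ^ 3) ∧
      (((x : L) : Ω) ^ 3 + algebraMap K Ω a * ((x : L) : Ω) + algebraMap K Ω b = 0) ∧
      L = IntermediateField.adjoin K {((x : L) : Ω)} := by
  have hfd : FiniteDimensional K L := FiniteDimensional.of_finrank_pos (by omega)
  have hint : IsIntegral K (x : L) := .of_finite K _
  have hx0 : (x : L) ≠ 0 := by
    intro h0
    exact hx (RingOfIntegers.ext h0)
  -- x is not in K
  have hnot : (x : L) ∉ (⊥ : IntermediateField K L) := by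
    intro hmem
    obtain ⟨y, hy⟩ := IntermediateField.mem_bot.1 hmem
    rw [← hy, Algebra.trace_algebraMap, hL] at ht
    have hy0 : y = 0 := by
      have h3 : (3 : K) ≠ 0 := by norm_num
      rw [nsmul_eq_mul] at ht
      exact (mul_eq_zero.1 ht).resolve_left (by exact_mod_cast h3)
    rw [hy0, map_zero] at hy
    exact hx0 hy.symm
  have htop : IntermediateField.adjoin K {(x : L)} = ⊤ := by
    have h1 : Module.finrank K (IntermediateField.adjoin K {(x : L)}) ∣ 3 := by
      rw [← hL]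
      exact ⟨_, (Module.finrank_mul_finrank K (IntermediateField.adjoin K {(x : L)}) L).symm⟩
    rcases (Nat.dvd_prime Nat.prime_three).1 h1 with h2 | h2
    · exfalso
      rw [IntermediateField.finrank_adjoin_simple_eq_one_iff] at h2
      exact hnot h2
    · apply IntermediateField.eq_of_le_of_finrank_le le_top
      rw [IntermediateField.finrank_top', hL, h2]
  have hdeg : (minpoly K (x : L)).natDegree = 3 := by
    rw [← IntermediateField.adjoin.finrank hint, htop, IntermediateField.finrank_top', hL]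
  have hnext : (minpoly K (x : L)).nextCoeff = 0 := by
    rw [trace_eq_finrank_mul_minpoly_nextCoeff, htop] at ht
    have h1 : Module.finrank (⊤ : IntermediateField K L) L = 1 :=
      IntermediateField.finrank_top
    rw [h1] at ht
    simpa using ht
  have hc2 : (minpoly K (x : L)).coeff 2 = 0 := by
    rw [Polynomial.nextCoeff_of_natDegree_pos (by omega), hdeg] at hnext
    exact hnext
  have hmon : (minpoly K (x : L)).Monic := minpoly.monic hint
  have hc3 : (minpoly K (x : L)).coeff 3 = 1 := by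
    have := hmon.coeff_natDegree
    rwa [hdeg] at this
  -- integrality of the coefficients
  have hintO : IsIntegral (𝓞 K) (x : L) := by
    obtain ⟨p, hp, hpx⟩ : IsIntegral ℤ (x : L) := x.isIntegral_coe
    refine ⟨p.map (algebraMap ℤ (𝓞 K)), hp.map _, ?_⟩
    rw [Polynomial.eval₂_map]
    have e : ((algebraMap (𝓞 K) L).comp (algebraMap ℤ (𝓞 K))) = algebraMap ℤ L :=
      RingHom.ext_int _ _
    rw [e]
    exact hpx
  have hmap : minpoly K (x : L) = (minpoly (𝓞 K) (x : L)).map (algebraMap (𝓞 K) K) :=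
    minpoly.isIntegrallyClosed_eq_field_fractions K L hintO
  have hroots : ∀ φ : K →+* ℂ, ∀ z ∈ ((minpoly K (x : L)).map φ).roots, ‖z‖ ≤ R := by
    intro φ z hz
    let _ : Algebra K ℂ := φ.toAlgebra
    have hz' : z ∈ (minpoly K (x : L)).rootSet ℂ := by
      rw [Polynomial.rootSet, Finset.mem_coe, Multiset.mem_toFinset]
      exact hz
    rw [← Algebra.IsAlgebraic.range_eval_eq_rootSet_minpoly ℂ (x : L)] at hz'
    obtain ⟨ψ, rfl⟩ := hz'
    exact hR (InfinitePlace.mk ψ.toRingHom)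
  have hcoef : ∀ (φ : K →+* ℂ) (i : ℕ), ‖φ ((minpoly K (x : L)).coeff i)‖ ≤
      R ^ (3 - i) * (Nat.choose 3 i : ℕ) := by
    intro φ i
    have := Polynomial.coeff_le_of_roots_le (f := φ) i hmon (IsAlgClosed.splits _) (hroots φ)
    rw [hdeg, Polynomial.coeff_map] at this
    exact this
  refine ⟨(minpoly (𝓞 K) (x : L)).coeff 1, (minpoly (𝓞 K) (x : L)).coeff 0, ?_, ?_, ?_, ?_⟩
  · intro φ
    have h1 := hcoef φ 1
    rw [hmap, Polynomial.coeff_map] at h1
    have e : R ^ (3 - 1) * ((Nat.choose 3 1 : ℕ) : ℝ) = 3 * R ^ 2 := by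
      norm_num; ring
    rw [e] at h1
    exact h1
  · intro φ
    have h1 := hcoef φ 0
    rw [hmap, Polynomial.coeff_map] at h1
    have e : R ^ (3 - 0) * ((Nat.choose 3 0 : ℕ) : ℝ) = R ^ 3 := by
      norm_num
    rw [e] at h1
    exact h1
  · have h1 : Polynomial.aeval (x : L) (minpoly K (x : L)) = 0 := minpoly.aeval K _
    rw [Polynomial.aeval_eq_sum_range, hdeg, Finset.sum_range_succ, Finset.sum_range_succ,
      Finset.sum_range_succ, Finset.sum_range_one, hc2, hc3] at h1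
    have h2 : (x : L) ^ 3 + algebraMap K L ((minpoly K (x : L)).coeff 1) * (x : L) +
        algebraMap K L ((minpoly K (x : L)).coeff 0) = 0 := by
      rw [Algebra.smul_def, Algebra.smul_def] at h1
      rw [← h1]
      simp
      ring
    have h3 := congrArg (algebraMap L Ω) h2
    rw [map_add, map_add, map_mul, map_pow, map_zero, ← IsScalarTower.algebraMap_apply K L Ω,
      ← IsScalarTower.algebraMap_apply K L Ω, hmap, Polynomial.coeff_map, Polynomial.coeff_map] at h3
    exact h3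
  · have h1 : (IntermediateField.adjoin K {(x : L)}).map L.val = L := by
      rw [htop]
      ext y
      constructor
      · rintro ⟨z, -, rfl⟩
        exact z.2
      · intro hy
        exact ⟨⟨y, hy⟩, trivial, rfl⟩
    rw [IntermediateField.adjoin_map] at h1
    rw [Set.image_singleton] at h1
    exact h1.symm

/-- the fields generated by the roots of `T ^ 3 + a T + b` -/
def Fd (K Ω : Type) [Field K] [NumberField K] [Field Ω] [Algebra K Ω] (a b : 𝓞 K) :
    Set (IntermediateField K Ω) :=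
  {L | ∃ z : Ω, z ^ 3 + algebraMap K Ω a * z + algebraMap K Ω b = 0 ∧
    L = IntermediateField.adjoin K {z}}

lemma Fd_card (K Ω : Type) [Field K] [NumberField K] [Field Ω] [Algebra K Ω] (a b : 𝓞 K) :
    (Fd K Ω a b).Finite ∧ (Fd K Ω a b).ncard ≤ 3 := by
  classical
  set p : Polynomial Ω := X ^ 3 + (C (algebraMap K Ω a) * X + C (algebraMap K Ω b)) with hp
  have hdeg : p.natDegree = 3 := by
    rw [hp]
    compute_degree!
  have hp0 : p ≠ 0 := by
    intro h0
    rw [h0] at hdeg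
    simp at hdeg
  have hsub : Fd K Ω a b ⊆ (fun z : Ω => IntermediateField.adjoin K {z}) '' (p.roots.toFinset : Set Ω) := by
    rintro L ⟨z, hz, rfl⟩
    refine ⟨z, ?_, rfl⟩
    rw [Finset.mem_coe, Multiset.mem_toFinset, Polynomial.mem_roots hp0, Polynomial.IsRoot.def]
    rw [hp]
    simp only [eval_add, eval_mul, eval_pow, eval_X, eval_C]
    rw [← hz]; ring
  have hfin : ((fun z : Ω => IntermediateField.adjoin K {z}) '' (p.roots.toFinset : Set Ω)).Finite :=
    (Finset.finite_toSet _).image _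
  refine ⟨hfin.subset hsub, ?_⟩
  calc (Fd K Ω a b).ncard ≤ _ := Set.ncard_le_ncard hsub hfin
    _ ≤ (p.roots.toFinset : Set Ω).ncard := Set.ncard_image_le (Finset.finite_toSet _)
    _ = p.roots.toFinset.card := Set.ncard_coe_finset _
    _ ≤ p.roots.card := Multiset.toFinset_card_le _
    _ ≤ p.natDegree := Polynomial.card_roots' p
    _ = 3 := hdeg

lemma ncard_biUnion_le' {α β : Type*} (s : Finset α) (f : α → Set β) (n : ℕ)
    (hf : ∀ a ∈ s, (f a).Finite) (hn : ∀ a ∈ s, (f a).ncard ≤ n) :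
    (⋃ a ∈ s, f a).Finite ∧ (⋃ a ∈ s, f a).ncard ≤ s.card * n := by
  classical
  induction s using Finset.induction_on with
  | empty => simp
  | insert a s ha ih =>
    have h1 := ih (fun b hb => hf b (Finset.mem_insert_of_mem hb))
      (fun b hb => hn b (Finset.mem_insert_of_mem hb))
    rw [Finset.set_biUnion_insert]
    refine ⟨(hf a (Finset.mem_insert_self _ _)).union h1.1, ?_⟩
    calc (f a ∪ ⋃ x ∈ s, f x).ncard ≤ (f a).ncard + (⋃ x ∈ s, f x).ncard :=
          Set.ncard_union_le _ _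
      _ ≤ n + s.card * n := Nat.add_le_add (hn a (Finset.mem_insert_self _ _)) h1.2
      _ = (insert a s).card * n := by rw [Finset.card_insert_of_notMem ha]; ring

theorem main (h : ShortTrace) : SchmidtCubic := by
  classical
  intro K Ω _ _ _ _ _
  obtain ⟨C, hC, hS⟩ := h K
  obtain ⟨C1, hC1, hbox⟩ := box K
  set k : ℕ := Module.finrank ℚ K with hk
  have hk0 : 0 < k := Module.finrank_pos
  have hkR : (0 : ℝ) < (k : ℝ) := by exact_mod_cast hk0
  set D : ℝ := max C 1 with hD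
  have hD1 : 1 ≤ D := le_max_right _ _
  have hDC : C ≤ D := le_max_left _ _
  refine ⟨3 * (C1 * (3 * D ^ 2) ^ k) * (C1 * (D ^ 3) ^ k), by positivity, ?_⟩
  intro X hX
  set R : ℝ := D * X ^ ((1 : ℝ) / (4 * (k : ℝ))) with hR
  have hXr : 1 ≤ X ^ ((1 : ℝ) / (4 * (k : ℝ))) := Real.one_le_rpow hX (by positivity)
  have hR1 : 1 ≤ R := by
    rw [hR]; nlinarith
  have hA := hbox (3 * R ^ 2) (by nlinarith)
  have hB := hbox (R ^ 3) (one_le_pow₀ hR1)
  set TA := hA.1.toFinset with hTA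
  set TB := hB.1.toFinset with hTB
  have hsub : {L : IntermediateField K Ω | Module.finrank K L = 3 ∧ dsc L ≤ X} ⊆
      ⋃ q ∈ TA ×ˢ TB, Fd K Ω q.1 q.2 := by
    rintro L ⟨hL, hdL⟩
    have hfd : FiniteDimensional K L := FiniteDimensional.of_finrank_pos (by omega)
    have hnf : NumberField L := NumberField.of_module_finite K L
    obtain ⟨x, hx0, hxt, hxw⟩ := hS L hL
    have hw : ∀ w : InfinitePlace L, w (x : L) ≤ R := by
      intro w
      refine (hxw w).trans ?_
      have e : ((|discr L| : ℤ) : ℝ) ≤ X := by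
        rw [← dsc_eq L]; exact hdL
      have h0 : (0 : ℝ) ≤ ((|discr L| : ℤ) : ℝ) := by positivity
      have h1 : ((|discr L| : ℤ) : ℝ) ^ ((1 : ℝ) / (4 * (k : ℝ))) ≤
          X ^ ((1 : ℝ) / (4 * (k : ℝ))) := Real.rpow_le_rpow h0 e (by positivity)
      have h2 : 0 ≤ ((|discr L| : ℤ) : ℝ) ^ ((1 : ℝ) / (4 * (k : ℝ))) := Real.rpow_nonneg h0 _
      exact mul_le_mul hDC h1 h2 (by linarith)
    obtain ⟨a, b, ha, hb, hab, hLx⟩ := gen L hL x hx0 hxt R hw
    rw [Set.mem_iUnion₂]
    refine ⟨(a, b), ?_, ?_⟩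
    · rw [Finset.mem_product, hTA, hTB, Set.Finite.mem_toFinset, Set.Finite.mem_toFinset]
      exact ⟨ha, hb⟩
    · exact ⟨((x : L) : Ω), hab, hLx⟩
  have hU := ncard_biUnion_le' (TA ×ˢ TB) (fun q => Fd K Ω q.1 q.2) 3
    (fun q _ => (Fd_card K Ω q.1 q.2).1) (fun q _ => (Fd_card K Ω q.1 q.2).2)
  refine ⟨hU.1.subset hsub, ?_⟩
  have hAc : (TA.card : ℝ) ≤ C1 * (3 * R ^ 2) ^ k := by
    have := hA.2
    rwa [Set.ncard_eq_toFinset_card _ hA.1] at this
  have hBc : (TB.card : ℝ) ≤ C1 * (R ^ 3) ^ k := by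
    have := hB.2
    rwa [Set.ncard_eq_toFinset_card _ hB.1] at this
  have h1 : ((Set.ncard {L : IntermediateField K Ω | Module.finrank K L = 3 ∧ dsc L ≤ X} : ℕ) : ℝ) ≤
      (TA.card : ℝ) * TB.card * 3 := by
    have h2 := (Set.ncard_le_ncard hsub hU.1).trans hU.2
    rw [Finset.card_product] at h2
    exact_mod_cast h2
  have hpow : ∀ m : ℕ, (X ^ ((1 : ℝ) / (4 * (k : ℝ)))) ^ (m * k) = X ^ ((m : ℝ) / 4) := by
    intro m
    rw [← Real.rpow_natCast, ← Real.rpow_mul (by linarith)]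
    congr 1
    push_cast
    field_simp
  have e2 : (3 * R ^ 2) ^ k = (3 * D ^ 2) ^ k * X ^ ((2 : ℝ) / 4) := by
    have := hpow 2
    rw [show ((2 : ℕ) : ℝ) = 2 by norm_num] at this
    rw [← this, hR, mul_pow, pow_mul, ← mul_pow]
    ring
  have e3 : (R ^ 3) ^ k = (D ^ 3) ^ k * X ^ ((3 : ℝ) / 4) := by
    have := hpow 3
    rw [show ((3 : ℕ) : ℝ) = 3 by norm_num] at this
    rw [← this, hR]
    generalize X ^ ((1 : ℝ) / (4 * (k : ℝ))) = y
    ring
  have e4 : X ^ ((2 : ℝ) / 4) * X ^ ((3 : ℝ) / 4) = X ^ (5 / 4 : ℝ) := by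
    rw [← Real.rpow_add (by linarith)]
    norm_num
  calc _ ≤ (TA.card : ℝ) * TB.card * 3 := h1
    _ ≤ (C1 * (3 * R ^ 2) ^ k) * (C1 * (R ^ 3) ^ k) * 3 := by
        refine mul_le_mul_of_nonneg_right ?_ (by norm_num)
        exact mul_le_mul hAc hBc (by positivity) (by positivity)
    _ = 3 * (C1 * (3 * D ^ 2) ^ k) * (C1 * (D ^ 3) ^ k) *
        (X ^ ((2 : ℝ) / 4) * X ^ ((3 : ℝ) / 4)) := by rw [e2, e3]; ring
    _ = _ := by rw [e4]

end Pool.Agent.Q258.LQ.Sch

namespace Pool.Agent.Q258.LQ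

theorem schmidtCubic (h : ShortTrace) : SchmidtCubic := Sch.main h

end Pool.Agent.Q258.LQ
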