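import Pool.Agent.Q258.LQ.Stm2

/-!
# Project LQ (helper258), job SelF: Selmer group bound (by helper83)
-/

set_option autoImplicit false

open NumberField Filter Topology Pool.Agent.TH444.ML

namespace Pool.Agent.Q258.LQ

namespace SelF

open UniqueFactorizationMonoid

section units

variable (M : Type) [Field M] [NumberField M] (ℓ : ℕ)

/-- the exponents of a unit modulo `ℓ` -/
theorem exists_par : ∃ par : (𝓞 M)ˣ → ZMod ℓ × (Fin (Units.rank M) → ZMod ℓ),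
    ∀ u u' : (𝓞 M)ˣ, par u = par u' → ∃ v : (𝓞 M)ˣ, u' = v ^ ℓ * u := by
  classical
  obtain ⟨g, hg⟩ := IsCyclic.exists_generator (α := Units.torsion M)
  have h1 : ∀ u : (𝓞 M)ˣ, ∃ (m : ℤ) (e : Fin (Units.rank M) → ℤ),
      u = (g : (𝓞 M)ˣ) ^ m * ∏ i, (Units.fundSystem M i) ^ (e i) := by
    intro u
    obtain ⟨⟨ζ, e⟩, hu, -⟩ := Units.exist_unique_eq_mul_prod M u
    obtain ⟨m, hm⟩ := Subgroup.mem_zpowers_iff.1 (hg ζ)
    refine ⟨m, e, ?_⟩
    rw [hu, ← hm]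
    simp
  choose m e hme using h1
  refine ⟨fun u => ((m u : ZMod ℓ), fun i => (e u i : ZMod ℓ)), ?_⟩
  intro u u' h
  rw [Prod.mk.injEq] at h
  obtain ⟨h2, h3⟩ := h
  have h4 : (ℓ : ℤ) ∣ m u' - m u := (ZMod.intCast_eq_intCast_iff_dvd_sub _ _ _).1 h2
  have h5 : ∀ i, (ℓ : ℤ) ∣ e u' i - e u i := fun i =>
    (ZMod.intCast_eq_intCast_iff_dvd_sub _ _ _).1 (congrFun h3 i)
  obtain ⟨a, ha⟩ := h4
  choose b hb using h5
  refine ⟨(g : (𝓞 M)ˣ) ^ a * ∏ i, (Units.fundSystem M i) ^ (b i), ?_⟩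
  rw [hme u', hme u, mul_pow, ← Finset.prod_pow]
  have e1 : (g : (𝓞 M)ˣ) ^ m u' = ((g : (𝓞 M)ˣ) ^ a) ^ ℓ * (g : (𝓞 M)ˣ) ^ m u := by
    rw [← zpow_natCast, ← zpow_mul, ← zpow_add]
    congr 1
    linarith
  have e2 : ∏ i, (Units.fundSystem M i) ^ (e u' i) =
      (∏ i, ((Units.fundSystem M i) ^ (b i)) ^ ℓ) * ∏ i, (Units.fundSystem M i) ^ (e u i) := by
    rw [← Finset.prod_mul_distrib]
    refine Finset.prod_congr rfl fun i _ => ?_
    rw [← zpow_natCast, ← zpow_mul, ← zpow_add]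
    congr 1
    linarith [hb i]
  rw [e1, e2]
  exact mul_mul_mul_comm _ _ _ _

theorem rank_lt : Units.rank M + 1 ≤ Module.finrank ℚ M := by
  have h1 := InfinitePlace.card_eq_nrRealPlaces_add_nrComplexPlaces (K := M)
  have h2 := InfinitePlace.card_add_two_mul_card_eq_rank (K := M)
  have h3 : 0 < Fintype.card (InfinitePlace M) := Fintype.card_pos
  unfold Units.rank
  omega

end units

section ideals

variable {M : Type} [Field M] [NumberField M] (ℓ : ℕ)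

open Classical in
/-- the multiset of the primes of `I` with the exponents divided by `ℓ` -/
noncomputable def dm (I : Ideal (𝓞 M)) : Multiset (Ideal (𝓞 M)) :=
  ∑ Q ∈ (normalizedFactors I).toFinset, ((normalizedFactors I).count Q / ℓ) • {Q}

open Classical in
theorem count_dm (I P : Ideal (𝓞 M)) : (dm ℓ I).count P = (normalizedFactors I).count P / ℓ := by
  unfold dm
  rw [Multiset.count_sum']
  simp only [Multiset.count_nsmul, Multiset.count_singleton]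
  by_cases h : P ∈ (normalizedFactors I).toFinset
  · rw [Finset.sum_eq_single P]
    · simp
    · intro b _ hb
      rw [if_neg (fun h => hb h.symm), mul_zero]
    · intro h'
      exact absurd h h'
  · rw [Finset.sum_eq_zero]
    · rw [Multiset.mem_toFinset] at h
      rw [Multiset.count_eq_zero_of_notMem h, Nat.zero_div]
    · intro Q hQ
      rw [if_neg (fun h' => h (by rw [h']; exact hQ)), mul_zero]

theorem prime_dm {I P : Ideal (𝓞 M)} (h : P ∈ dm ℓ I) : Prime P := by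
  classical
  have h1 : 0 < (dm ℓ I).count P := Multiset.count_pos.2 h
  rw [count_dm] at h1
  have h2 : 0 < (normalizedFactors I).count P := by
    by_contra h3
    rw [Nat.eq_zero_of_not_pos h3, Nat.zero_div] at h1
    exact lt_irrefl _ h1
  exact prime_of_normalized_factor _ (Multiset.count_pos.1 h2)

/-- the ideal with the exponents divided by `ℓ` -/
noncomputable def J (I : Ideal (𝓞 M)) : Ideal (𝓞 M) := (dm ℓ I).prod

theorem nf_J (I : Ideal (𝓞 M)) : normalizedFactors (J ℓ I) = dm ℓ I :=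
  normalizedFactors_prod_of_prime fun _ h => prime_dm ℓ h

theorem J_ne (I : Ideal (𝓞 M)) : J ℓ I ≠ 0 := by
  unfold J
  rw [Ne, Multiset.prod_eq_zero_iff]
  intro h
  exact (prime_dm ℓ h).ne_zero rfl

theorem mul_J {I I' : Ideal (𝓞 M)} (hI : I ≠ 0) (hI' : I' ≠ 0)
    (h : ∀ P : Ideal (𝓞 M), P.IsPrime → P ≠ ⊥ → vP P I ≡ vP P I' [MOD ℓ]) :
    I * J ℓ I' ^ ℓ = I' * J ℓ I ^ ℓ := by
  classical
  have h1 : normalizedFactors (I * J ℓ I' ^ ℓ) = normalizedFactors (I' * J ℓ I ^ ℓ) := by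
    rw [normalizedFactors_mul hI (pow_ne_zero _ (J_ne ℓ _)),
      normalizedFactors_mul hI' (pow_ne_zero _ (J_ne ℓ _)), normalizedFactors_pow,
      normalizedFactors_pow, nf_J, nf_J]
    ext P
    rw [Multiset.count_add, Multiset.count_add, Multiset.count_nsmul, Multiset.count_nsmul, count_dm,
      count_dm]
    have h2 : (normalizedFactors I).count P % ℓ = (normalizedFactors I').count P % ℓ := by
      by_cases hP : Prime P
      · exact h P (Ideal.isPrime_of_prime hP) hP.ne_zero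
      · rw [Multiset.count_eq_zero_of_notMem (fun h' => hP (prime_of_normalized_factor _ h')),
          Multiset.count_eq_zero_of_notMem (fun h' => hP (prime_of_normalized_factor _ h'))]
    have h3 := Nat.div_add_mod ((normalizedFactors I).count P) ℓ
    have h4 := Nat.div_add_mod ((normalizedFactors I').count P) ℓ
    omega
  rw [← Ideal.prod_normalizedFactors_eq_self (mul_ne_zero hI (pow_ne_zero ℓ (J_ne ℓ I'))), h1,
    Ideal.prod_normalizedFactors_eq_self (mul_ne_zero hI' (pow_ne_zero ℓ (J_ne ℓ I)))]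

/-- the class -/
noncomputable def cl (I : Ideal (𝓞 M)) : ClassGroup (𝓞 M) :=
  ClassGroup.mk0 ⟨J ℓ I, mem_nonZeroDivisors_iff_ne_zero.2 (J_ne ℓ I)⟩

theorem exists_unit {a b : 𝓞 M} (ha : a ≠ 0) (hb : b ≠ 0)
    (h : ∀ P : Ideal (𝓞 M), P.IsPrime → P ≠ ⊥ →
      vP P (Ideal.span {a}) ≡ vP P (Ideal.span {b}) [MOD ℓ])
    (hcl : cl ℓ (Ideal.span {a}) = cl ℓ (Ideal.span {b})) :
    ∃ (u : (𝓞 M)ˣ) (x y : 𝓞 M), x ≠ 0 ∧ y ≠ 0 ∧ a * x ^ ℓ = u * b * y ^ ℓ := by
  have ha' : Ideal.span {a} ≠ 0 := by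
    rw [Ne, Ideal.zero_eq_bot, Ideal.span_singleton_eq_bot]
    exact ha
  have hb' : Ideal.span {b} ≠ 0 := by
    rw [Ne, Ideal.zero_eq_bot, Ideal.span_singleton_eq_bot]
    exact hb
  have h1 := mul_J ℓ ha' hb' h
  obtain ⟨x, y, hx, hy, hxy⟩ := ClassGroup.mk0_eq_mk0_iff.1 hcl
  change Ideal.span {x} * J ℓ (Ideal.span {a}) = Ideal.span {y} * J ℓ (Ideal.span {b}) at hxy
  have h2 : Ideal.span {a * x ^ ℓ} * (J ℓ (Ideal.span {b}) * J ℓ (Ideal.span {a})) ^ ℓ =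
      Ideal.span {b * y ^ ℓ} * (J ℓ (Ideal.span {b}) * J ℓ (Ideal.span {a})) ^ ℓ := by
    rw [← Ideal.span_singleton_mul_span_singleton, ← Ideal.span_singleton_mul_span_singleton,
      ← Ideal.span_singleton_pow, ← Ideal.span_singleton_pow]
    calc Ideal.span {a} * Ideal.span {x} ^ ℓ * (J ℓ (Ideal.span {b}) * J ℓ (Ideal.span {a})) ^ ℓ
        = (Ideal.span {a} * J ℓ (Ideal.span {b}) ^ ℓ) *
          (Ideal.span {x} * J ℓ (Ideal.span {a})) ^ ℓ := by
            rw [mul_pow, mul_pow]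
            ring
      _ = (Ideal.span {b} * J ℓ (Ideal.span {a}) ^ ℓ) *
          (Ideal.span {y} * J ℓ (Ideal.span {b})) ^ ℓ := by rw [h1, hxy]
      _ = _ := by
            rw [mul_pow, mul_pow]
            ring
  have h3 : Ideal.span {a * x ^ ℓ} = Ideal.span {b * y ^ ℓ} :=
    mul_right_cancel₀ (pow_ne_zero ℓ (mul_ne_zero (J_ne ℓ _) (J_ne ℓ _))) h2
  obtain ⟨u, hu⟩ := (Ideal.span_singleton_eq_span_singleton.1 h3).symm
  refine ⟨u, x, y, hx, hy, ?_⟩
  rw [← hu]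
  ring

end ideals

end SelF

theorem selFib : SelFib := by
  classical
  intro ℓ hℓ M _ _ A hA0 hA hne
  have _ : NeZero ℓ := ⟨hℓ.ne_zero⟩
  obtain ⟨par, hpar⟩ := SelF.exists_par M ℓ
  -- representatives
  have hrep : ∃ ρ : ClassGroup (𝓞 M) → 𝓞 M, ∀ a ∈ A, ρ (SelF.cl ℓ (Ideal.span {a})) ∈ A ∧
      SelF.cl ℓ (Ideal.span {ρ (SelF.cl ℓ (Ideal.span {a}))}) = SelF.cl ℓ (Ideal.span {a}) := by
    refine ⟨fun C => if h : ∃ a ∈ A, SelF.cl ℓ (Ideal.span {a}) = C then h.choose else 0, ?_⟩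
    intro a ha
    have h : ∃ b ∈ A, SelF.cl ℓ (Ideal.span {b}) = SelF.cl ℓ (Ideal.span {a}) := ⟨a, ha, rfl⟩
    dsimp only
    rw [dif_pos h]
    exact h.choose_spec
  obtain ⟨ρ, hρ⟩ := hrep
  have hw : ∀ a : 𝓞 M, ∃ u : (𝓞 M)ˣ, a ∈ A → ∃ x y : 𝓞 M, x ≠ 0 ∧ y ≠ 0 ∧
      a * x ^ ℓ = u * ρ (SelF.cl ℓ (Ideal.span {a})) * y ^ ℓ := by
    intro a
    by_cases ha : a ∈ A
    · obtain ⟨h1, h2⟩ := hρ a ha
      obtain ⟨u, x, y, hx, hy, h⟩ := SelF.exists_unit ℓ (hA0 a ha) (hA0 _ h1) (hA a ha _ h1) h2.symm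
      exact ⟨u, fun _ => ⟨x, y, hx, hy, h⟩⟩
    · exact ⟨1, fun h => absurd h ha⟩
  choose w hw using hw
  let Φ : 𝓞 M → ClassGroup (𝓞 M) × ZMod ℓ × (Fin (Units.rank M) → ZMod ℓ) :=
    fun a => (SelF.cl ℓ (Ideal.span {a}), par (w a))
  have hinj : Set.InjOn Φ (A : Set (𝓞 M)) := by
    intro a ha b hb hab
    by_contra hcon
    obtain ⟨h1, h2⟩ := Prod.mk.inj hab
    obtain ⟨v, hv⟩ := hpar _ _ h2
    obtain ⟨x, y, hx, hy, e1⟩ := hw a ha
    obtain ⟨x', y', hx', hy', e2⟩ := hw b hb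
    rw [← h1, hv] at e2
    set r := ρ (SelF.cl ℓ (Ideal.span {a})) with hr
    apply hne a ha b hb hcon
    have inj : ∀ z : 𝓞 M, z ≠ 0 → (z : M) ≠ 0 := fun z hz h => hz (RingOfIntegers.ext h)
    have hxM := inj x hx
    have hyM := inj y hy
    have hxM' := inj x' hx'
    have hyM' := inj y' hy'
    have hvM : ((v : 𝓞 M) : M) ≠ 0 := inj _ (Units.ne_zero v)
    refine ⟨(y : M) * x' / (x * ((v : 𝓞 M) * y')), by positivity, ?_⟩
    have E1 : (a : M) * (x : M) ^ ℓ = ((w a : 𝓞 M) : M) * (r : M) * (y : M) ^ ℓ := by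
      have h := congrArg (fun z : 𝓞 M => (z : M)) e1
      simpa using h
    have E2 : (b : M) * (x' : M) ^ ℓ =
        ((v : 𝓞 M) : M) ^ ℓ * ((w a : 𝓞 M) : M) * (r : M) * (y' : M) ^ ℓ := by
      have h := congrArg (fun z : 𝓞 M => (z : M)) e2
      simpa using h
    rw [div_pow, mul_div_assoc', eq_div_iff (pow_ne_zero ℓ (mul_ne_zero hxM (mul_ne_zero hvM hyM')))]
    calc (a : M) * ((x : M) * (((v : 𝓞 M) : M) * y')) ^ ℓ
        = (a : M) * (x : M) ^ ℓ * (((v : 𝓞 M) : M) ^ ℓ * (y' : M) ^ ℓ) := by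
          rw [mul_pow, mul_pow]; ring
      _ = (b : M) * (x' : M) ^ ℓ * (y : M) ^ ℓ := by rw [E1, E2]; ring
      _ = (b : M) * ((y : M) * x') ^ ℓ := by rw [mul_pow]; ring
  have hcard := Finset.card_le_card_of_injOn Φ (s := A) (t := Finset.univ)
    (fun _ _ => Finset.mem_coe.2 (Finset.mem_univ _)) hinj
  rw [Finset.card_univ, Fintype.card_prod, Fintype.card_prod, Fintype.card_fun, ZMod.card,
    Fintype.card_fin, ← pow_succ'] at hcard
  rw [Nat.card_eq_fintype_card]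
  refine hcard.trans (Nat.mul_le_mul_left _ (Nat.pow_le_pow_right hℓ.pos ?_))
  have := SelF.rank_lt M
  omega

end Pool.Agent.Q258.LQ
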