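import Pool.Agent.Q258.LQ.Stm
import Pool.Agent.TH713.J3096

/-!
The sieve with the totally split primes not above `2` (adapted from `TH713.J3096`).
-/

set_option autoImplicit false

open NumberField Filter Topology

namespace Pool.Agent.Q258.LQ

open Pool.Agent.TH444.ML

namespace Sieve

open Ideal Pool.Agent.TH713.J3096

section main

variable (K M : Type) [Field K] [NumberField K] [Field M] [NumberField M] [Algebra K M]

/-- the totally split primes not above `2` -/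
abbrev Spl2 : Type := {p : Ideal (𝓞 K) // p.IsPrime ∧ p ≠ ⊥ ∧ (2 : 𝓞 K) ∉ p ∧
      Set.ncard (p.primesOver (𝓞 M)) = Module.finrank K M}

/-- the underlying totally split prime -/
def toSpl (p : Spl2 K M) : Spl K M := ⟨p.1, p.2.1, p.2.2.1, p.2.2.2.2⟩

/-- the sieve over a finite set of primes -/
theorem sieveFin (κ : ℝ) (hκ : Dens (Set.univ : Set (Ideal (𝓞 M))) κ) (c0 : ℝ)
    (hc0 : c0 = (Module.finrank K M : ℝ) * (1/2) ^ Module.finrank K M) (Ps : Finset (Spl2 K M)) :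
    ∃ (A : Set (Ideal (𝓞 M))) (d : ℝ), bad2 K M ⊆ A ∧ Dens A d ∧
      d ≤ κ * Real.exp (- (c0 * ∑ p ∈ Ps, 1 / (absNorm p.1 : ℝ))) ∧
      ∀ P : Ideal (𝓞 M), P.IsPrime → P ≠ ⊥ → (∀ p ∈ Ps, P ∉ p.1.primesOver (𝓞 M)) → Inv A P := by
  classical
  induction Ps using Finset.induction_on with
  | empty =>
    refine ⟨Set.univ, κ, Set.subset_univ _, hκ, by simp, ?_⟩
    intro P _ _ _ I _
    simp
  | insert p Ps hp ih =>
    obtain ⟨A, d, hbad, hd, hdle, hinv⟩ := ih
    obtain ⟨h, hh⟩ : ∃ h : ℕ, h = Module.finrank K M := ⟨_, rfl⟩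
    have hpp := p.2.1
    have hp0 := p.2.2.1
    obtain ⟨W, hW⟩ : ∃ W : Finset (Ideal (𝓞 M)), W = IsDedekindDomain.primesOverFinset p.1 (𝓞 M) :=
      ⟨_, rfl⟩
    have hmem : ∀ P, P ∈ W ↔ P ∈ p.1.primesOver (𝓞 M) := by
      intro P
      have : p.1.IsMaximal := hpp.isMaximal hp0
      rw [hW]
      exact IsDedekindDomain.mem_primesOverFinset_iff hp0 (𝓞 M)
    have hWc : W.card = h := by
      have : p.1.IsMaximal := hpp.isMaximal hp0
      have h1 := p.2.2.2.2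
      rw [← IsDedekindDomain.coe_primesOverFinset hp0 (𝓞 M), Set.ncard_coe_finset] at h1
      rw [hW, hh]
      exact h1
    have hq2 := two_le K p.1 hpp hp0
    obtain ⟨q, hq⟩ : ∃ q : ℝ, q = (absNorm p.1 : ℝ) := ⟨_, rfl⟩
    have hq2' : (2 : ℝ) ≤ q := by rw [hq]; exact_mod_cast hq2
    have hN : ∀ P ∈ W, (absNorm P : ℝ) = q := by
      intro P hP
      rw [hq, absNorm_split K M (toSpl K M p) P ((hmem P).mp hP)]
      rfl
    have hWp : ∀ P ∈ W, P.IsPrime ∧ P ≠ ⊥ ∧ ∀ p' ∈ Ps, P ∉ p'.1.primesOver (𝓞 M) := by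
      intro P hP
      have hP' := (hmem P).mp hP
      refine ⟨hP'.1, ?_, ?_⟩
      · rintro rfl
        have h1 := hN ⊥ hP
        rw [Ideal.absNorm_bot, Nat.cast_zero] at h1
        linarith
      · intro p' hp' hP''
        have h1 : p.1 = p'.1 := by
          rw [hP'.2.over, hP''.2.over]
        exact hp (by rw [Subtype.ext h1]; exact hp')
    obtain ⟨G, hGA, hG1, hG2, hG3⟩ := step1 A d hd
      (fun P => ∀ p' ∈ Ps, P ∉ p'.1.primesOver (𝓞 M)) hinv W hWp
    have hstep := step2 A G d _ hd hG1 hGA W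
      (fun P hP => ⟨(hWp P hP).1, (hWp P hP).2.1, hinv P (hWp P hP).1 (hWp P hP).2.1
        (hWp P hP).2.2⟩) hG3 W subset_rfl
    refine ⟨_, _, ?_, hstep, ?_, ?_⟩
    · intro 𝔡 h𝔡
      refine ⟨hbad h𝔡, ?_⟩
      simp only [Set.mem_iUnion, not_exists]
      rintro P hP ⟨J, hJ, hJ0, rfl⟩
      apply h𝔡.2 p.1 hpp hp0 p.2.2.2.1 p.2.2.2.2
      refine ⟨P, ⟨(hmem P).mp hP, dvd_mul_right P J⟩, ?_⟩
      rintro Q ⟨hQ, hQd⟩
      by_contra hne
      have hQW := (hmem Q).mpr hQ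
      rcases (prime_of Q (hWp Q hQW).1 (hWp Q hQW).2.1).dvd_or_dvd hQd with h3 | h3
      · exact not_dvd Q P (hWp Q hQW).1 (hWp Q hQW).2.1 (hWp P hP).1 (hWp P hP).2.1 hne h3
      · exact hG3 J hJ hJ0 Q hQW h3
    · have hd0 := dens_nonneg hd
      have e1 : ∏ P ∈ W, (1 - 1 / (absNorm P : ℝ)) = (1 - 1 / q) ^ h := by
        rw [Finset.prod_congr rfl (fun P hP => by rw [hN P hP]), Finset.prod_const, hWc]
      have e2 : ∑ P ∈ W, d * (∏ P ∈ W, (1 - 1 / (absNorm P : ℝ))) / (absNorm P : ℝ) =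
          h * (d * (1 - 1 / q) ^ h / q) := by
        rw [Finset.sum_congr rfl (fun P hP => by rw [hN P hP, e1]), Finset.sum_const, hWc,
          nsmul_eq_mul]
      rw [e2, Finset.sum_insert hp, ← hq]
      rw [← hh] at hc0
      obtain ⟨c, hc⟩ : ∃ c : ℝ, c = (h : ℝ) * (1 - 1 / q) ^ h / q := ⟨_, rfl⟩
      have hq0 : 0 < q := by linarith
      have h1q : 1 / q ≤ 1 / 2 := one_div_le_one_div_of_le (by norm_num) hq2'
      have hcge : (h : ℝ) * (1/2) ^ h * (1 / q) ≤ c := by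
        rw [hc]
        have h4 : ((1:ℝ)/2) ^ h ≤ (1 - 1 / q) ^ h :=
          pow_le_pow_left₀ (by norm_num) (by linarith) h
        rw [mul_one_div]
        apply div_le_div_of_nonneg_right _ hq0.le
        exact mul_le_mul_of_nonneg_left h4 (Nat.cast_nonneg h)
      have e3 : d - h * (d * (1 - 1 / q) ^ h / q) = d * (1 - c) := by
        rw [hc]; ring
      rw [e3]
      calc d * (1 - c) ≤ d * Real.exp (-c) := by
            apply mul_le_mul_of_nonneg_left _ hd0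
            have := Real.add_one_le_exp (-c)
            linarith
        _ ≤ d * Real.exp (-((h : ℝ) * (1/2) ^ h * (1 / q))) := by
            apply mul_le_mul_of_nonneg_left _ hd0
            exact Real.exp_le_exp.mpr (by linarith)
        _ ≤ (κ * Real.exp (- (c0 * ∑ p ∈ Ps, 1 / (absNorm p.1 : ℝ)))) *
            Real.exp (-((h : ℝ) * (1/2) ^ h * (1 / q))) :=
            mul_le_mul_of_nonneg_right hdle (Real.exp_pos _).le
        _ = κ * Real.exp (- (c0 * (1 / q + ∑ p ∈ Ps, 1 / (absNorm p.1 : ℝ)))) := by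
            rw [mul_assoc, ← Real.exp_add, ← hc0]
            congr 2
            ring
    · intro P hP hP0 hPn
      have h1 : ∀ p' ∈ Ps, P ∉ p'.1.primesOver (𝓞 M) :=
        fun p' hp' => hPn p' (Finset.mem_insert_of_mem hp')
      have h2 : P ∉ W := fun h => hPn p (Finset.mem_insert_self p Ps) ((hmem P).mp h)
      refine inv_diff (hinv P hP hP0 h1) (inv_iUnion hP hP0 (hG2 P hP hP0 h1 h2) W ?_)
      intro Q hQ
      refine ⟨(hWp Q hQ).1, (hWp Q hQ).2.1, ?_⟩
      rintro rfl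
      exact h2 hQ

end main

end Sieve

open Ideal Pool.Agent.TH713.J3096 Sieve in
theorem sieve2 (h : SplitSum2) : Sieve2 := by
  intro K M _ _ _ _ _
  obtain ⟨κ, hκ⟩ := dens_univ (M := M)
  have hκ0 := dens_nonneg hκ
  obtain ⟨c, hc⟩ : ∃ c : ℝ, c = (Module.finrank K M : ℝ) * (1/2) ^ Module.finrank K M := ⟨_, rfl⟩
  have hfr : 0 < Module.finrank K M := Module.finrank_pos
  have hc0 : 0 < c := by
    rw [hc]
    have : (0:ℝ) < Module.finrank K M := by exact_mod_cast hfr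
    positivity
  have hns := h K M
  rw [Metric.tendsto_atTop]
  intro ε hε
  have hex : ∃ Ps : Finset (Spl2 K M), κ / ε / c < ∑ p ∈ Ps, 1 / (absNorm p.1 : ℝ) := by
    by_contra hcon
    push Not at hcon
    exact hns (summable_of_sum_le (fun p => by positivity) hcon)
  obtain ⟨Ps, hPs⟩ := hex
  obtain ⟨A, d, hbad, hd, hdle, -⟩ := sieveFin K M κ hκ c hc Ps
  obtain ⟨S, hS⟩ : ∃ S : ℝ, S = ∑ p ∈ Ps, 1 / (absNorm p.1 : ℝ) := ⟨_, rfl⟩
  rw [← hS] at hdle hPs
  have hdε : d < ε := by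
    have h1 : κ / ε < c * S := by
      rw [div_lt_iff₀ hc0] at hPs
      linarith
    have h2 : κ < ε * (1 + c * S) := by
      rw [div_lt_iff₀ hε] at h1
      nlinarith
    have h3 : 1 + c * S ≤ Real.exp (c * S) := by
      have := Real.add_one_le_exp (c * S)
      linarith
    have h4 : κ < ε * Real.exp (c * S) := lt_of_lt_of_le h2 (mul_le_mul_of_nonneg_left h3 hε.le)
    refine lt_of_le_of_lt hdle ?_
    rw [Real.exp_neg, ← div_eq_mul_inv, div_lt_iff₀ (Real.exp_pos _)]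
    exact h4
  have hev : ∀ᶠ Z : ℝ in atTop, (cnt A Z : ℝ) / Z < ε := hd.eventually (gt_mem_nhds hdε)
  obtain ⟨Z0, hZ0⟩ := Filter.eventually_atTop.mp (hev.and (eventually_gt_atTop 0))
  refine ⟨Z0, fun Z hZ => ?_⟩
  obtain ⟨h1, h2⟩ := hZ0 Z hZ
  rw [Real.dist_eq, sub_zero, abs_of_nonneg (by positivity)]
  refine lt_of_le_of_lt ?_ h1
  apply div_le_div_of_nonneg_right _ h2.le
  unfold cnt
  apply Nat.cast_le.mpr
  apply Set.ncard_le_ncard _ (fin A Z)
  rintro 𝔡 ⟨h3, h4⟩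
  exact ⟨hbad h3, h3.1.ne_zero, h4⟩

end Pool.Agent.Q258.LQ
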