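import Pool.Agent.Q258.LQ.Stm2

/-!
# Project LQ: SolvT (solvable Galois steps are composed of Galois steps of prime degree)
-/

set_option autoImplicit false

open NumberField Filter Topology

namespace Pool.Agent.Q258.LQ

open Pool.Agent.TH444.ML

namespace SolvT

theorem exists_normal_prime (G : Type) [Group G] [Finite G] [Group.IsSolvable G] [Nontrivial G] :
    ∃ N : Subgroup G, N.Normal ∧ N.index.Prime := by
  have h1 : commutator G < ⊤ := Group.IsSolvable.commutator_lt_top_of_nontrivial G
  have h2 : Nontrivial (Abelianization G) := by
    by_contra h
    rw [not_nontrivial_iff_subsingleton] at h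
    apply h1.ne
    have h3 : Subsingleton (G ⧸ commutator G) := h
    exact QuotientGroup.subgroup_eq_top_of_subsingleton _ h3
  have h3 : Finite (Abelianization G) := inferInstanceAs (Finite (G ⧸ commutator G))
  have h4 : Nontrivial (Subgroup (Abelianization G)) := inferInstance
  obtain ⟨B, hB⟩ := IsCoatomic.exists_coatom (Subgroup (Abelianization G))
  have h5 : IsSimpleOrder ↑(Set.Ici B) := Set.isSimpleOrder_Ici_iff_isCoatom.2 hB
  have e : Subgroup (Abelianization G ⧸ B) ≃o ↑(Set.Ici B) := QuotientGroup.comapMk'OrderIso B
  have h6 : IsSimpleOrder (Subgroup (Abelianization G ⧸ B)) := e.isSimpleOrder_iff.2 h5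
  have h7 : IsSimpleGroup (Abelianization G ⧸ B) :=
    { toNontrivial := (Subgroup.nontrivial_iff).1 h6.toNontrivial
      eq_bot_or_eq_top_of_normal := fun H _ => IsSimpleOrder.eq_bot_or_eq_top H }
  refine ⟨B.comap Abelianization.of, inferInstance, ?_⟩
  have hs : Function.Surjective (Abelianization.of : G →* Abelianization G) := fun x =>
    Quotient.inductionOn' x fun g => ⟨g, rfl⟩
  rw [Subgroup.index_comap_of_surjective _ hs]
  exact CommGroup.is_simple_iff_prime_card.1 h7

section

variable {K Ω : Type} [Field K] [Field Ω] [Algebra K Ω]

theorem le1 {F L : IntermediateField K Ω} {h : F ≤ L} (M : IntermediateField F (IntermediateField.extendScalars h)) :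
    F ≤ (IntermediateField.lift M).restrictScalars K := fun x hx =>
  (IntermediateField.lift M).algebraMap_mem (⟨x, hx⟩ : F)

theorem le2 {F L : IntermediateField K Ω} {h : F ≤ L} (M : IntermediateField F (IntermediateField.extendScalars h)) :
    (IntermediateField.lift M).restrictScalars K ≤ L := fun _ hx =>
  IntermediateField.lift_le M hx

theorem ext1 {F L : IntermediateField K Ω} {h : F ≤ L} (M : IntermediateField F (IntermediateField.extendScalars h)) :
    IntermediateField.extendScalars (le1 M) = IntermediateField.lift M := by
  ext x
  rw [IntermediateField.mem_extendScalars, IntermediateField.mem_restrictScalars]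

/-- the ring isomorphism of the lower fields -/
noncomputable def ff {F L : IntermediateField K Ω} {h : F ≤ L}
    (M : IntermediateField F (IntermediateField.extendScalars h)) :
    M ≃+* ((IntermediateField.lift M).restrictScalars K : IntermediateField K Ω) :=
  (IntermediateField.liftAlgEquiv M).toRingEquiv

/-- the ring isomorphism of the upper fields -/
noncomputable def gg {F L : IntermediateField K Ω} {h : F ≤ L}
    (M : IntermediateField F (IntermediateField.extendScalars h)) :
    (IntermediateField.extendScalars h) ≃+* (IntermediateField.extendScalars (le2 M)) where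
  toFun x := ⟨(x : Ω), x.2⟩
  invFun x := ⟨(x : Ω), x.2⟩
  left_inv _ := rfl
  right_inv _ := rfl
  map_mul' _ _ := rfl
  map_add' _ _ := rfl

theorem comp1 {F L : IntermediateField K Ω} {h : F ≤ L}
    (M : IntermediateField F (IntermediateField.extendScalars h)) :
    (algebraMap ((IntermediateField.lift M).restrictScalars K : IntermediateField K Ω)
      (IntermediateField.extendScalars (le2 M))).comp (ff M : M →+* _) =
    (gg M : _ →+* _).comp (algebraMap M (IntermediateField.extendScalars h)) :=
  RingHom.ext fun _ => Subtype.ext rfl

/-- restriction of the base field of automorphisms -/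
noncomputable def res {F L : IntermediateField K Ω} {h : F ≤ L}
    (M : IntermediateField F (IntermediateField.extendScalars h)) :
    ((IntermediateField.extendScalars (le2 M)) ≃ₐ[((IntermediateField.lift M).restrictScalars K :
      IntermediateField K Ω)] (IntermediateField.extendScalars (le2 M))) →*
    ((IntermediateField.extendScalars h) ≃ₐ[F] (IntermediateField.extendScalars h)) where
  toFun τ := AlgEquiv.ofRingEquiv (f := ((gg M).trans τ.toRingEquiv).trans (gg M).symm) (by
    intro r
    have e : gg M (algebraMap F (IntermediateField.extendScalars h) r) =
        algebraMap ((IntermediateField.lift M).restrictScalars K : IntermediateField K Ω)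
          (IntermediateField.extendScalars (le2 M)) ⟨(r : Ω), le1 M r.2⟩ := rfl
    show (gg M).symm (τ (gg M (algebraMap F (IntermediateField.extendScalars h) r))) = _
    rw [e, τ.commutes, ← e, RingEquiv.symm_apply_apply])
  map_one' := by
    ext x
    rfl
  map_mul' τ τ' := by
    ext x
    show _ = (((gg M).symm (τ (gg M ((gg M).symm (τ' (gg M x)))))) : Ω)
    rw [RingEquiv.apply_symm_apply]
    rfl

theorem res_inj {F L : IntermediateField K Ω} {h : F ≤ L}
    (M : IntermediateField F (IntermediateField.extendScalars h)) : Function.Injective (res M) := by
  intro τ τ' hh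
  apply AlgEquiv.ext
  intro x
  have h1 := congrArg (fun t : ((IntermediateField.extendScalars h) ≃ₐ[F]
    (IntermediateField.extendScalars h)) => t ((gg M).symm x)) hh
  have h2 : (gg M).symm (τ (gg M ((gg M).symm x))) = (gg M).symm (τ' (gg M ((gg M).symm x))) := h1
  rw [RingEquiv.apply_symm_apply] at h2
  exact (gg M).symm.injective h2

theorem main (𝓕 : Set (IntermediateField K Ω)) (n : ℕ) :
    ∀ (F L : IntermediateField K Ω) (h : F ≤ L), PTow 𝓕 F →
    FiniteDimensional F (IntermediateField.extendScalars h) →
    IsGalois F (IntermediateField.extendScalars h) →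
    Group.IsSolvable ((IntermediateField.extendScalars h) ≃ₐ[F] (IntermediateField.extendScalars h)) →
    Module.finrank F (IntermediateField.extendScalars h) ≤ n → PTow 𝓕 L := by
  induction n with
  | zero =>
    intro F L h hF hfd _ _ hn
    have h0 : 0 < Module.finrank F (IntermediateField.extendScalars h) := Module.finrank_pos
    omega
  | succ n ih =>
    intro F L h hF hfd hgal hsol hn
    by_cases h1 : Module.finrank F (IntermediateField.extendScalars h) = 1
    · have h2 := IntermediateField.finrank_eq_one_iff.1 h1
      have h3 : L = F := by
        apply le_antisymm _ h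
        intro x hx
        have h4 : x ∈ IntermediateField.extendScalars h := hx
        rw [h2, IntermediateField.mem_bot] at h4
        obtain ⟨y, rfl⟩ := h4
        exact y.2
      rw [h3]
      exact hF
    · have h0 : 0 < Module.finrank F (IntermediateField.extendScalars h) := Module.finrank_pos
      have hcard := IsGalois.card_aut_eq_finrank F (IntermediateField.extendScalars h)
      have hnt : Nontrivial ((IntermediateField.extendScalars h) ≃ₐ[F]
          (IntermediateField.extendScalars h)) := by
        rw [← Finite.one_lt_card_iff_nontrivial, hcard]
        omega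
      obtain ⟨N, hN, hNp⟩ := exists_normal_prime
        ((IntermediateField.extendScalars h) ≃ₐ[F] (IntermediateField.extendScalars h))
      obtain ⟨M, hM⟩ : ∃ M : IntermediateField F (IntermediateField.extendScalars h),
        M = IntermediateField.fixedField N := ⟨_, rfl⟩
      have hMgal : IsGalois F M := by
        rw [hM]
        exact IsGalois.of_fixedField_normal_subgroup N
      have hMdeg : Module.finrank F M = N.index := by
        rw [IntermediateField.finrank_eq_fixingSubgroup_index, hM,
          IntermediateField.fixingSubgroup_fixedField]
      have hstep : PTow 𝓕 ((IntermediateField.lift M).restrictScalars K) := by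
        refine PTow.step hF (le1 M) ?_ ?_
        · rw [ext1]
          exact IsGalois.of_algEquiv (IntermediateField.liftAlgEquiv M)
        · rw [ext1, ← (IntermediateField.liftAlgEquiv M).toLinearEquiv.finrank_eq, hMdeg]
          exact hNp
      have hgal2 : IsGalois M (IntermediateField.extendScalars h) :=
        IsGalois.tower_top_intermediateField M
      have hdeg := Algebra.finrank_eq_of_equiv_equiv (ff M) (gg M) (comp1 M)
      have hmul := Module.finrank_mul_finrank F M (IntermediateField.extendScalars h)
      refine ih _ L (le2 M) hstep ?_ ?_ ?_ ?_
      · exact Module.Finite.of_equiv_equiv (ff M) (gg M) (comp1 M)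
      · exact IsGalois.of_equiv_equiv (f := ff M) (g := gg M) (comp1 M)
      · exact Group.isSolvable_of_isSolvable_injective (res_inj M)
      · rw [← hdeg]
        rw [hMdeg] at hmul
        have h5 := Nat.mul_le_mul_right (Module.finrank M (IntermediateField.extendScalars h)) hNp.two_le
        have h6 : 0 < Module.finrank M (IntermediateField.extendScalars h) := Module.finrank_pos
        omega

end

end SolvT

theorem solvTow : SolvTow := by
  intro K Ω _ _ _ 𝓕 F L h hF hfd hgal hsol
  exact SolvT.main 𝓕 _ F L h hF hfd hgal hsol le_rfl

end Pool.Agent.Q258.LQ
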