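import Pool.Agent.Q258.LQ.Stm2

set_option autoImplicit false

open NumberField Filter Topology

namespace Pool.Agent.Q258.LQ.SumC2

open Pool.Agent.TH444.ML

theorem one_le_dsc {K Ω : Type} [Field K] [Field Ω] [Algebra K Ω]
    (M : IntermediateField K Ω) : 1 ≤ dsc M := by
  unfold dsc
  split_ifs with h
  · have h1 : (discr M) ≠ 0 := discr_ne_zero M
    have h2 : (1 : ℤ) ≤ |discr M| := Int.one_le_abs h1
    exact_mod_cast h2
  · exact le_rfl

theorem summable_of_count {ι : Type} (f : ι → ℝ) (C θ s : ℝ) (hθ : 0 < θ) (hs : θ < s)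
    (hf : ∀ i, 1 ≤ f i)
    (h : ∀ X : ℝ, 1 ≤ X → {i | f i ≤ X}.Finite ∧ (Set.ncard {i | f i ≤ X} : ℝ) ≤ C * X ^ θ) :
    Summable (fun i => (f i) ^ (-s)) := by
  classical
  set g : ι → ℕ := fun i => Nat.log 2 ⌊f i⌋₊ with hg
  have hg1 : ∀ i, (2 : ℝ) ^ (g i) ≤ f i := by
    intro i
    have h1 : ⌊f i⌋₊ ≠ 0 := by
      have := (Nat.one_le_floor_iff (f i)).2 (hf i)
      omega
    have h2 : 2 ^ (Nat.log 2 ⌊f i⌋₊) ≤ ⌊f i⌋₊ := Nat.pow_log_le_self 2 h1
    calc (2 : ℝ) ^ (g i) = ((2 ^ (Nat.log 2 ⌊f i⌋₊) : ℕ) : ℝ) := by simp [hg]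
      _ ≤ (⌊f i⌋₊ : ℝ) := by exact_mod_cast h2
      _ ≤ f i := Nat.floor_le (by linarith [hf i])
  have hg2 : ∀ i, f i ≤ (2 : ℝ) ^ (g i + 1) := by
    intro i
    have h2 : ⌊f i⌋₊ < 2 ^ (Nat.log 2 ⌊f i⌋₊ + 1) := Nat.lt_pow_succ_log_self (by norm_num) _
    have h3 : f i < (⌊f i⌋₊ : ℝ) + 1 := Nat.lt_floor_add_one _
    have h4 : ((⌊f i⌋₊ + 1 : ℕ) : ℝ) ≤ ((2 ^ (Nat.log 2 ⌊f i⌋₊ + 1) : ℕ) : ℝ) := by
      exact_mod_cast h2
    push_cast at h4
    simp only [hg]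
    linarith
  set q : ℝ := (2 : ℝ) ^ (θ - s) with hq
  have hq0 : 0 ≤ q := by positivity
  have hq1 : q < 1 := Real.rpow_lt_one_of_one_lt_of_neg (by norm_num) (by linarith)
  have hC : 0 ≤ C := by
    have := (h 1 le_rfl).2
    rw [Real.one_rpow, mul_one] at this
    have h0 : (0 : ℝ) ≤ (Set.ncard {i | f i ≤ 1} : ℝ) := by positivity
    linarith
  have hpow : ∀ k : ℕ, ((2 : ℝ) ^ (k + 1)) ^ θ * (((2 : ℝ) ^ k) ^ (-s)) = 2 ^ θ * q ^ k := by
    intro k
    rw [hq, ← Real.rpow_natCast (2 : ℝ) k, ← Real.rpow_natCast ((2 : ℝ) ^ (θ - s)) k,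
      ← Real.rpow_natCast (2 : ℝ) (k + 1),
      ← Real.rpow_mul (by norm_num), ← Real.rpow_mul (by norm_num), ← Real.rpow_mul (by norm_num),
      ← Real.rpow_add (by norm_num), ← Real.rpow_add (by norm_num)]
    congr 1
    push_cast
    ring
  refine summable_of_sum_le (c := ∑' k : ℕ, C * (2 ^ θ * q ^ k)) (fun i => by
    have := hf i
    positivity) ?_
  intro t
  have hsum : Summable (fun k : ℕ => C * (2 ^ θ * q ^ k)) :=
    ((summable_geometric_of_lt_one hq0 hq1).mul_left _).mul_left C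
  calc ∑ i ∈ t, (f i) ^ (-s)
      ≤ ∑ i ∈ t, ((2 : ℝ) ^ (g i)) ^ (-s) := by
        refine Finset.sum_le_sum fun i _ => ?_
        exact Real.rpow_le_rpow_of_nonpos (by positivity) (hg1 i) (by linarith)
    _ = ∑ k ∈ t.image g, (t.filter (fun i => g i = k)).card • (((2 : ℝ) ^ k) ^ (-s)) := by
        rw [Finset.sum_comp (fun k : ℕ => ((2 : ℝ) ^ k) ^ (-s)) g]
    _ ≤ ∑ k ∈ t.image g, C * (2 ^ θ * q ^ k) := by
        refine Finset.sum_le_sum fun k _ => ?_
        rw [nsmul_eq_mul]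
        obtain ⟨hfin, hcard⟩ := h ((2 : ℝ) ^ (k + 1)) (one_le_pow₀ (by norm_num))
        have h1 : ((t.filter (fun i => g i = k)).card : ℝ) ≤ C * ((2 : ℝ) ^ (k + 1)) ^ θ := by
          refine le_trans ?_ hcard
          have h2 : (↑(t.filter (fun i => g i = k)) : Set ι) ⊆ {i | f i ≤ (2 : ℝ) ^ (k + 1)} := by
            intro i hi
            have hi' : i ∈ t.filter (fun i => g i = k) := hi
            have hi2 : g i = k := (Finset.mem_filter.1 hi').2
            have := hg2 i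
            rw [hi2] at this
            exact this
          have h3 := Set.ncard_le_ncard h2 hfin
          rw [Set.ncard_coe_finset] at h3
          exact_mod_cast h3
        calc _ ≤ (C * ((2 : ℝ) ^ (k + 1)) ^ θ) * (((2 : ℝ) ^ k) ^ (-s)) := by
              apply mul_le_mul_of_nonneg_right h1 (by positivity)
          _ = C * (2 ^ θ * q ^ k) := by rw [mul_assoc, hpow]
    _ ≤ ∑' k : ℕ, C * (2 ^ θ * q ^ k) := hsum.sum_le_tsum _ (fun k _ => by positivity)

end Pool.Agent.Q258.LQ.SumC2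

namespace Pool.Agent.Q258.LQ

open Pool.Agent.TH444.ML

theorem sumOfCount2 : SumOfCount2 := by
  intro K Ω _ _ _ 𝓖 C θ s hθ hs h
  refine SumC2.summable_of_count (fun L : 𝓖 => dsc L.1) C θ s hθ hs
    (fun L => SumC2.one_le_dsc _) ?_
  intro X hX
  obtain ⟨h1, h2⟩ := h X hX
  have e : {L : IntermediateField K Ω | L ∈ 𝓖 ∧ dsc L ≤ X} =
      Subtype.val '' {L : 𝓖 | dsc L.1 ≤ X} := by
    ext L
    simp only [Set.mem_ofPred_eq, Set.mem_image, Subtype.exists, exists_and_right, exists_eq_right]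
    constructor
    · rintro ⟨a, b⟩
      exact ⟨a, b⟩
    · rintro ⟨a, b⟩
      exact ⟨a, b⟩
  constructor
  · have := h1
    rw [e] at this
    exact Set.Finite.of_finite_image this Subtype.val_injective.injOn
  · rw [e, Set.ncard_image_of_injective _ Subtype.val_injective] at h2
    exact h2

end Pool.Agent.Q258.LQ
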