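import Pool.Agent.Q258.LQ.Stm2

/-!
# Two Galois extensions of prime degree (job LQ-TwoS, helper90)
-/

set_option autoImplicit false

open NumberField Filter Topology Pool.Agent.TH444.ML

namespace Pool.Agent.Q258.LQ

/-- Two Galois extensions of degree `ℓ` inside an extension of degree `ℓ e`, `e < ℓ`, are equal. -/
theorem twoSub : TwoSub := by
  intro ℓ e hℓ he heℓ F E _ _ _ N L₁ L₂ hN h1 h2 hd1 hd2 hg1 hg2
  have hℓ0 : 0 < ℓ := hℓ.pos
  have : FiniteDimensional F L₁ := Module.finite_of_finrank_pos (by omega)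
  have : FiniteDimensional F L₂ := Module.finite_of_finrank_pos (by omega)
  have : FiniteDimensional F N := Module.finite_of_finrank_pos (by rw [hN]; positivity)
  by_contra hne
  have hinf : L₁ ⊓ L₂ = ⊥ := by
    have hle : L₁ ⊓ L₂ ≤ L₁ := inf_le_left
    have hdvd : Module.finrank F (L₁ ⊓ L₂ : IntermediateField F E) ∣ ℓ := by
      rw [← hd1]
      exact IntermediateField.finrank_dvd_of_le_right hle
    rcases (Nat.dvd_prime hℓ).1 hdvd with h | h
    · exact IntermediateField.finrank_eq_one_iff.1 h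
    · exfalso
      apply hne
      have e1 : L₁ ⊓ L₂ = L₁ := IntermediateField.eq_of_le_of_finrank_eq inf_le_left (by rw [h, hd1])
      have e2 : L₁ ⊓ L₂ = L₂ := IntermediateField.eq_of_le_of_finrank_eq inf_le_right (by rw [h, hd2])
      exact e1.symm.trans e2
  have hld : L₁.LinearDisjoint L₂ := IntermediateField.LinearDisjoint.of_inf_eq_bot hinf
  have hsup := hld.finrank_sup
  rw [hd1, hd2] at hsup
  have hdvd : Module.finrank F (L₁ ⊔ L₂ : IntermediateField F E) ∣ Module.finrank F N :=
    IntermediateField.finrank_dvd_of_le_right (sup_le h1 h2)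
  rw [hsup, hN] at hdvd
  have h3 : ℓ ∣ e := Nat.dvd_of_mul_dvd_mul_left hℓ0 hdvd
  exact absurd (Nat.le_of_dvd he h3) (by omega)

end Pool.Agent.Q258.LQ
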