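import Pool.Agent.Q258.LQ.Stm

/-!
# A second subfield of index two makes the discriminant bad

Lemma job LQ-Uniq of project LQ (helper258).
-/

set_option autoImplicit false

open NumberField Filter Topology Pool.Agent.TH444.ML

namespace Pool.Agent.Q258.LQ

namespace Uniq

open Ideal

section split

variable {K M : Type} [Field K] [NumberField K] [Field M] [NumberField M] [Algebra K M]

/-- totally split: ramification indices and residue degrees are one -/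
theorem split_ef {p : Ideal (𝓞 K)} (hp : p.IsPrime) (hp0 : p ≠ ⊥)
    (hcard : Set.ncard (p.primesOver (𝓞 M)) = Module.finrank K M) (P : Ideal (𝓞 M))
    (hP : P ∈ p.primesOver (𝓞 M)) : ramificationIdx' p P = 1 ∧ inertiaDeg' p P = 1 := by
  have := hp
  have : p.IsMaximal := hp.isMaximal hp0
  have hsum := sum_ramification_inertia (𝓞 M) K M hp0
  have hc : (IsDedekindDomain.primesOverFinset p (𝓞 M)).card = Module.finrank K M := by
    rw [← hcard, ← IsDedekindDomain.coe_primesOverFinset hp0 (𝓞 M), Set.ncard_coe_finset]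
  have hone : ∀ Q ∈ IsDedekindDomain.primesOverFinset p (𝓞 M),
      1 ≤ ramificationIdx' p Q * inertiaDeg' p Q := by
    intro Q hQ
    have hQ' := (IsDedekindDomain.mem_primesOverFinset_iff hp0 (𝓞 M)).mp hQ
    have : Q.IsPrime := hQ'.1
    have : Q.LiesOver p := hQ'.2
    refine Right.one_le_mul ?_ ?_
    · exact Nat.pos_iff_ne_zero.mpr <| IsDedekindDomain.ramificationIdx'_ne_zero_of_liesOver _ hp0
    · exact Nat.pos_iff_ne_zero.mpr <| inertiaDeg'_ne_zero p Q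
  have hPf : P ∈ IsDedekindDomain.primesOverFinset p (𝓞 M) :=
    (IsDedekindDomain.mem_primesOverFinset_iff hp0 (𝓞 M)).mpr hP
  have heq : ramificationIdx' p P * inertiaDeg' p P = 1 := by
    by_contra hcon
    have h2 : 1 < ramificationIdx' p P * inertiaDeg' p P :=
      lt_of_le_of_ne (hone P hPf) (Ne.symm hcon)
    have h3 : ∑ Q ∈ IsDedekindDomain.primesOverFinset p (𝓞 M), 1 <
        ∑ Q ∈ IsDedekindDomain.primesOverFinset p (𝓞 M),
          ramificationIdx' p Q * inertiaDeg' p Q :=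
      Finset.sum_lt_sum hone ⟨P, hPf, h2⟩
    rw [hsum, Finset.sum_const, smul_eq_mul, mul_one, hc] at h3
    exact lt_irrefl _ h3
  exact ⟨Nat.eq_one_of_mul_eq_one_right heq, Nat.eq_one_of_mul_eq_one_left heq⟩

theorem split_sq {p : Ideal (𝓞 K)} (hp : p.IsPrime) (hp0 : p ≠ ⊥)
    (hcard : Set.ncard (p.primesOver (𝓞 M)) = Module.finrank K M) (P : Ideal (𝓞 M))
    (hP : P ∈ p.primesOver (𝓞 M)) : ¬ p.map (algebraMap (𝓞 K) (𝓞 M)) ≤ P ^ 2 := by
  classical
  intro hle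
  have h1 := (split_ef hp hp0 hcard P hP).1
  by_cases h : ∃ n, ∀ k, p.map (algebraMap (𝓞 K) (𝓞 M)) ≤ P ^ k → k ≤ n
  · rw [ramificationIdx'_eq_find h] at h1
    have h2 := Nat.find_spec h 2 hle
    omega
  · push Not at h
    rw [ramificationIdx'_eq_zero (fun n => by
      obtain ⟨k, hk1, hk2⟩ := h n
      exact ⟨k, hk1, hk2⟩)] at h1
    omega

attribute [local instance] Ideal.Quotient.field

theorem split_res {p : Ideal (𝓞 K)} (hp : p.IsPrime) (hp0 : p ≠ ⊥)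
    (hcard : Set.ncard (p.primesOver (𝓞 M)) = Module.finrank K M) (P : Ideal (𝓞 M))
    (hP : P ∈ p.primesOver (𝓞 M)) (y : 𝓞 M) :
    ∃ z : 𝓞 K, y - algebraMap (𝓞 K) (𝓞 M) z ∈ P := by
  have h1 := (split_ef hp hp0 hcard P hP).2
  have := hp
  have : p.IsMaximal := hp.isMaximal hp0
  have : P.IsPrime := hP.1
  have : P.LiesOver p := hP.2
  rw [inertiaDeg'_algebraMap] at h1
  have h2 : (1 : 𝓞 M ⧸ P) ≠ 0 := by
    have : Nontrivial (𝓞 M ⧸ P) := Ideal.Quotient.nontrivial_iff.2 (IsPrime.ne_top hP.1)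
    exact one_ne_zero
  obtain ⟨c, hc⟩ := (finrank_eq_one_iff_of_nonzero' (K := 𝓞 K ⧸ p) (1 : 𝓞 M ⧸ P) h2).1 h1
    (Ideal.Quotient.mk P y)
  obtain ⟨z, rfl⟩ := Ideal.Quotient.mk_surjective c
  refine ⟨z, ?_⟩
  have h3 : (Ideal.Quotient.mk p z) • (1 : 𝓞 M ⧸ P) =
      Ideal.Quotient.mk P (algebraMap (𝓞 K) (𝓞 M) z) := by
    rw [Algebra.smul_def, mul_one]
    rfl
  rw [h3] at hc
  exact Ideal.Quotient.eq.1 hc.symm

end split

section aut

variable {K L : Type} [Field K] [NumberField K] [Field L] [NumberField L] [Algebra K L]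

theorem exists_aut (F : IntermediateField K L)
    (h : Module.finrank K L = 2 * Module.finrank K F) :
    ∃ σ : L ≃ₐ[K] L, σ ≠ 1 ∧ ∀ x, σ x = x ↔ x ∈ F := by
  have hpos : 0 < Module.finrank K F := Module.finrank_pos
  have hmul : Module.finrank K F * Module.finrank F L = Module.finrank K L :=
    Module.finrank_mul_finrank K F L
  have hfin : Module.finrank F L = 2 := by
    rw [h] at hmul
    exact Nat.eq_of_mul_eq_mul_left hpos (by rw [hmul]; ring)
  have hq : Algebra.IsQuadraticExtension F L := ⟨hfin⟩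
  have hG : IsGalois F L := inferInstance
  have hc : Nat.card (L ≃ₐ[F] L) = 2 := by rw [IsGalois.card_aut_eq_finrank, hfin]
  obtain ⟨g, hg, huniq⟩ := (Nat.card_eq_two_iff' (1 : L ≃ₐ[F] L)).1 hc
  refine ⟨g.restrictScalars K, ?_, ?_⟩
  · intro h1
    apply hg
    ext x
    have := congrArg (fun f : L ≃ₐ[K] L => f x) h1
    simpa using this
  · intro x
    constructor
    · intro hx
      have hx' : g x = x := hx
      have : x ∈ Set.range (algebraMap F L) := by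
        rw [IsGalois.mem_range_algebraMap_iff_fixed]
        intro f
        by_cases hf : f = 1
        · rw [hf]; rfl
        · rw [huniq f hf]; exact hx'
      obtain ⟨y, rfl⟩ := this
      exact y.2
    · intro hx
      exact g.commutes ⟨x, hx⟩

end aut

section core

variable {K F L : Type} [Field K] [NumberField K] [Field F] [NumberField F] [Field L]
  [NumberField L] [Algebra K F] [Algebra F L] [Algebra K L] [IsScalarTower K F L]

theorem ne_bot_of_over {p : Ideal (𝓞 K)} (hp0 : p ≠ ⊥) (P : Ideal (𝓞 F))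
    (hP : P ∈ p.primesOver (𝓞 F)) : P ≠ ⊥ := by
  rintro rfl
  apply hp0
  rw [hP.2.over]
  rw [Ideal.under_def, Ideal.comap_bot_of_injective]
  exact FaithfulSMul.algebraMap_injective (𝓞 K) (𝓞 F)

theorem cofactor {p : Ideal (𝓞 K)} (hp : p.IsPrime) (hp0 : p ≠ ⊥)
    (hcard : Set.ncard (p.primesOver (𝓞 F)) = Module.finrank K F) (P : Ideal (𝓞 F))
    (hP : P ∈ p.primesOver (𝓞 F)) :
    ∃ R : Ideal (𝓞 F), p.map (algebraMap (𝓞 K) (𝓞 F)) = P * R ∧ ¬ R ≤ P := by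
  have h1 : p.map (algebraMap (𝓞 K) (𝓞 F)) ≤ P := by
    rw [Ideal.map_le_iff_le_comap]
    exact hP.2.over.le
  obtain ⟨R, hR⟩ := Ideal.dvd_iff_le.2 h1
  refine ⟨R, hR, fun hle => ?_⟩
  apply split_sq hp hp0 hcard P hP
  rw [hR, pow_two]
  exact Ideal.mul_mono_right hle

theorem cancel {Q I J : Ideal (𝓞 L)} (hQ : Q.IsPrime) (hQ0 : Q ≠ ⊥) (n : ℕ) (h : I * J ≤ Q ^ n)
    (hJ : ¬ J ≤ Q) : I ≤ Q ^ n := by
  rw [← Ideal.dvd_iff_le] at h hJ ⊢
  exact (Ideal.prime_of_isPrime hQ0 hQ).pow_dvd_of_dvd_mul_right n hJ h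

theorem core (hA : RamA) (hB : RamB) (hfin : Module.finrank F L = 2) (α : 𝓞 F) (s : L)
    (𝔡 𝔠 : Ideal (𝓞 F)) (hs : s ^ 2 = algebraMap F L (α : F))
    (hsF : ∀ x : F, algebraMap F L x ≠ s) (hα : α ≠ 0) (hsq : Squarefree 𝔡)
    (hspan : Ideal.span {α} = 𝔡 * 𝔠 ^ 2) {p : Ideal (𝓞 K)} (hp : p.IsPrime) (hp0 : p ≠ ⊥)
    (h2p : (2 : 𝓞 K) ∉ p)
    (hcard : Set.ncard (p.primesOver (𝓞 F)) = Module.finrank K F) (P : Ideal (𝓞 F))
    (hP : P ∈ p.primesOver (𝓞 F)) (hPd : P ∣ 𝔡)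
    (huniq : ∀ P' : Ideal (𝓞 F), P' ∈ p.primesOver (𝓞 F) → P' ∣ 𝔡 → P' = P) :
    ∃ Q : Ideal (𝓞 L), Q.IsPrime ∧ Q ≠ ⊥ ∧
      ¬ (Ideal.map (algebraMap (𝓞 K) (𝓞 L)) (Q.under (𝓞 K)) ≤ Q ^ 3) ∧
      ∀ σ : L ≃ₐ[K] L, ∀ x y : 𝓞 L, (y : L) = σ (x : L) → y - x ∈ Q := by
  have hPprime : P.IsPrime := hP.1
  have hP0 : P ≠ ⊥ := ne_bot_of_over hp0 P hP
  have hPmax : P.IsMaximal := hPprime.isMaximal hP0
  obtain ⟨Q, hQmax, hQover⟩ := exists_maximal_ideal_liesOver_of_isIntegral (S := 𝓞 L) P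
  have hQ : Q.IsPrime := hQmax.isPrime
  have hQP : Q.under (𝓞 F) = P := hQover.over.symm
  have hQ0 : Q ≠ ⊥ := by
    rintro rfl
    apply hP0
    rw [← hQP, Ideal.under_def, Ideal.comap_bot_of_injective]
    exact FaithfulSMul.algebraMap_injective (𝓞 F) (𝓞 L)
  have hQp : Q.under (𝓞 K) = p := by
    rw [← Ideal.under_under (B := 𝓞 F) Q, hQP]
    exact hP.2.over.symm
  obtain ⟨hB1, hB2, hB3⟩ := hB F L hfin α s 𝔡 𝔠 hs hα hsq hspan Q hQ hQ0 (by rw [hQP]; exact hPd)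
  rw [hQP] at hB1 hB2
  -- the ideal `p O_L`
  have hmap : ∀ I : Ideal (𝓞 K), I.map (algebraMap (𝓞 K) (𝓞 L)) =
      (I.map (algebraMap (𝓞 K) (𝓞 F))).map (algebraMap (𝓞 F) (𝓞 L)) := by
    intro I
    rw [Ideal.map_map, ← IsScalarTower.algebraMap_eq]
  -- the ramification index is two
  have h3 : ¬ (Ideal.map (algebraMap (𝓞 K) (𝓞 L)) (Q.under (𝓞 K)) ≤ Q ^ 3) := by
    intro hle
    rw [hQp, hmap] at hle
    obtain ⟨R, hR, hRP⟩ := cofactor hp hp0 hcard P hP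
    rw [hR, Ideal.map_mul, hB1] at hle
    have hRQ : ¬ R.map (algebraMap (𝓞 F) (𝓞 L)) ≤ Q := by
      intro h
      apply hRP
      rw [Ideal.map_le_iff_le_comap] at h
      rw [← hQP]
      exact h
    have h4 := cancel hQ hQ0 3 hle hRQ
    rw [← Ideal.dvd_iff_le] at h4
    have hQp' := Ideal.prime_of_isPrime hQ0 hQ
    rw [pow_dvd_pow_iff hQp'.ne_zero hQp'.not_unit] at h4
    omega
  -- characterisation of `Q`
  have hchar : ∀ Q' : Ideal (𝓞 L), Q'.IsPrime → Q' ≠ ⊥ → Q'.under (𝓞 K) = p →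
      Ideal.map (algebraMap (𝓞 K) (𝓞 L)) p ≤ Q' ^ 2 → Q' = Q := by
    intro Q' hQ' hQ'0 hQ'p hle
    have hP' : Q'.under (𝓞 F) ∈ p.primesOver (𝓞 F) := by
      refine ⟨inferInstance, ⟨?_⟩⟩
      rw [Ideal.under_under, hQ'p]
    by_cases hPP : Q'.under (𝓞 F) = P
    · exact hB2 Q' hQ' hQ'0 hPP
    · exfalso
      apply hPP
      apply huniq _ hP'
      apply hA F L hfin α s 𝔡 𝔠 hs hsF hα hsq hspan Q' hQ' hQ'0
      · intro h
        apply h2p
        rw [← hQ'p, Ideal.under_def, Ideal.mem_comap]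
        have h2 : algebraMap (𝓞 K) (𝓞 L) 2 = 2 := map_ofNat _ 2
        rw [h2]
        exact h
      · obtain ⟨R, hR, hRP⟩ := cofactor hp hp0 hcard _ hP'
        rw [hmap, hR, Ideal.map_mul] at hle
        refine cancel hQ' hQ'0 2 hle ?_
        intro h
        apply hRP
        rw [Ideal.map_le_iff_le_comap] at h
        exact h
  have hple : Ideal.map (algebraMap (𝓞 K) (𝓞 L)) p ≤ Q ^ 2 := by
    obtain ⟨R, hR, -⟩ := cofactor hp hp0 hcard P hP
    rw [hmap, hR, Ideal.map_mul, hB1]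
    exact Ideal.mul_le_left
  -- residues
  have hres : ∀ x : 𝓞 L, ∃ z : 𝓞 K, x - algebraMap (𝓞 K) (𝓞 L) z ∈ Q := by
    intro x
    obtain ⟨y, hy⟩ := hB3 x
    obtain ⟨z, hz⟩ := split_res hp hp0 hcard P hP y
    refine ⟨z, ?_⟩
    have h4 : algebraMap (𝓞 F) (𝓞 L) (y - algebraMap (𝓞 K) (𝓞 F) z) ∈ Q := by
      rw [← hQP, Ideal.under_def, Ideal.mem_comap] at hz
      exact hz
    rw [map_sub, ← IsScalarTower.algebraMap_apply] at h4
    have h5 := Q.add_mem hy h4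
    have h6 : x - algebraMap (𝓞 K) (𝓞 L) z = x - algebraMap (𝓞 F) (𝓞 L) y +
        (algebraMap (𝓞 F) (𝓞 L) y - algebraMap (𝓞 K) (𝓞 L) z) := by ring
    rw [h6]
    exact h5
  refine ⟨Q, hQ, hQ0, h3, ?_⟩
  intro σ x y hxy
  set g : 𝓞 L ≃ₐ[𝓞 K] 𝓞 L := galRestrict (𝓞 K) K L (𝓞 L) σ with hg
  have hgx : g x = y := by
    apply RingOfIntegers.ext
    rw [hxy]
    exact algebraMap_galRestrict_apply (𝓞 K) σ x
  -- `g` fixes `Q`
  have hcomap : Q.comap g = Q := by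
    apply hchar
    · exact Ideal.comap_isPrime _ _
    · intro h
      apply hQ0
      rw [eq_bot_iff]
      intro w hw
      have h4 : g.symm w ∈ Q.comap g := by
        rw [Ideal.mem_comap, AlgEquiv.apply_symm_apply]
        exact hw
      rw [h, Ideal.mem_bot] at h4
      have h5 := congrArg g h4
      rw [AlgEquiv.apply_symm_apply, map_zero] at h5
      rw [h5]
      exact Ideal.zero_mem _
    · rw [← hQp]
      ext z
      rw [Ideal.under_def, Ideal.under_def, Ideal.mem_comap, Ideal.mem_comap, Ideal.mem_comap,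
        AlgEquiv.commutes]
    · have h4 : (Q.comap g) ^ 2 = (Q ^ 2).comap g := by
        have h5 : ∀ I : Ideal (𝓞 L), I.comap g = I.map g.symm := by
          intro I
          exact Ideal.comap_symm g.symm.toRingEquiv |>.trans rfl
        rw [h5, h5, Ideal.map_pow]
      rw [h4, Ideal.map_le_iff_le_comap]
      intro z hz
      rw [Ideal.mem_comap, Ideal.mem_comap, AlgEquiv.commutes]
      rw [Ideal.map_le_iff_le_comap] at hple
      exact hple hz
  obtain ⟨z, hz⟩ := hres x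
  have h4 : g (x - algebraMap (𝓞 K) (𝓞 L) z) ∈ Q := by
    rw [← Ideal.mem_comap, hcomap]
    exact hz
  rw [map_sub, AlgEquiv.commutes, hgx] at h4
  have h5 := Q.sub_mem h4 hz
  have h6 : y - x = y - algebraMap (𝓞 K) (𝓞 L) z - (x - algebraMap (𝓞 K) (𝓞 L) z) := by ring
  rw [h6]
  exact h5

end core

end Uniq

theorem uniqBad (h1 : RamA) (h2 : RamB) (h3 : InertiaTwo) : UniqBad := by
  intro K L _ _ _ _ _ F F' hF hF' hne α s 𝔡 𝔠 hs hsF hα hsq hspan
  refine ⟨hsq, fun p hp hp0 h2p hcard => ?_⟩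
  rintro ⟨P, ⟨hPp, hPd⟩, huniq⟩
  have hpos : 0 < Module.finrank K F := Module.finrank_pos
  have hmul : Module.finrank K F * Module.finrank F L = Module.finrank K L :=
    Module.finrank_mul_finrank K F L
  have hfin : Module.finrank F L = 2 := by
    rw [hF] at hmul
    exact Nat.eq_of_mul_eq_mul_left hpos (by rw [hmul]; ring)
  obtain ⟨Q, hQ, hQ0, hQ3, hQσ⟩ := Uniq.core (K := K) h1 h2 hfin α s 𝔡 𝔠 hs
    (fun x hx => hsF (by rw [← hx]; exact x.2)) hα hsq hspan hp hp0 h2p hcard P hPp hPd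
    (fun P' hP' hd => huniq P' ⟨hP', hd⟩)
  obtain ⟨σ, hσ1, hσ⟩ := Uniq.exists_aut F hF
  obtain ⟨τ, hτ1, hτ⟩ := Uniq.exists_aut F' (by rw [hF, hF'])
  have hστ : σ = τ := h3 K L Q hQ hQ0 hQ3 σ τ hσ1 hτ1 (hQσ σ) (hQσ τ)
  apply hne
  ext x
  rw [← hτ, ← hσ, hστ]

end Pool.Agent.Q258.LQ
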