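import Pool.Agent.Q258.LQ.Asm3
import Pool.Agent.Q258.LQ.BadS
import Pool.Agent.Q258.LQ.Cover
import Pool.Agent.Q258.LQ.ISum
import Pool.Agent.Q258.LQ.Inert
import Pool.Agent.Q258.LQ.LatC
import Pool.Agent.Q258.LQ.Prc
import Pool.Agent.Q258.LQ.RmA
import Pool.Agent.Q258.LQ.RmB
import Pool.Agent.Q258.LQ.Sieve
import Pool.Agent.Q258.LQ.Split
import Pool.Agent.Q258.LQ.Uniq
import Pool.Agent.Q258.LQ.ClN
import Pool.Agent.Q258.LQ.CycU
import Pool.Agent.Q258.LQ.DscR
import Pool.Agent.Q258.LQ.DscZ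
import Pool.Agent.Q258.LQ.ExC
import Pool.Agent.Q258.LQ.KumE
import Pool.Agent.Q258.LQ.MPts
import Pool.Agent.Q258.LQ.OmS
import Pool.Agent.Q258.LQ.QU3
import Pool.Agent.Q258.LQ.RKum
import Pool.Agent.Q258.LQ.STr
import Pool.Agent.Q258.LQ.Sch
import Pool.Agent.Q258.LQ.SelF
import Pool.Agent.Q258.LQ.SolvT
import Pool.Agent.Q258.LQ.SumC2
import Pool.Agent.Q258.LQ.TwoS
import Pool.Agent.TH938.J3088
import Pool.Agent.TH370.J3089
import Pool.Agent.TH626.J3090
import Pool.Agent.TH89.J3091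
import Pool.Agent.TH55.J3092
import Pool.Agent.TH293.J3093
import Pool.Agent.TH858.J3094

/-!
# The inputs
-/

set_option autoImplicit false

open NumberField Filter Topology

namespace Pool.Agent.Q258.LQ

open Pool.Agent.TH444.ML

theorem latCount' : LatCount := latCount cover

theorem inp : Inp where
  ql := Pool.Agent.TH626.J3090.quadLim Pool.Agent.TH263.J3086.discQuad
    Pool.Agent.TH914.J3087.kumP Pool.Agent.TH938.J3088.coneFacts
    (Pool.Agent.TH370.J3089.coneSqf Pool.Agent.TH938.J3088.coneFacts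
      Pool.Agent.TH938.J3088.coneDens)
  qp := Pool.Agent.TH858.J3094.quadPos Pool.Agent.TH263.J3086.discQuad
    Pool.Agent.TH914.J3087.kumP
    (Pool.Agent.TH293.J3093.quadUnif Pool.Agent.TH263.J3086.discQuad Pool.Agent.TH914.J3087.kumP
      Pool.Agent.TH89.J3091.idealUnif Pool.Agent.TH55.J3092.princUnif)
  qu := quadUnif3 idealUnif2 (princUnif2 latCount' idealSum idealUnif2)
  bs := badSmall2 (uniqBad ramA ramB inertiaTwo) (sieve2 splitSum2)
  sc := sumOfCount2
  cu := cycUnif (classNum idealUnif2) (omegaSum idealSum) selFib discZeta (kum ramKum) twoSub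
    discRam
  dr := discRam

theorem cubicBound : SchmidtCubic := schmidtCubic (shortTrace manyPts latCount')

end Pool.Agent.Q258.LQ
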