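import Pool.Agent.Q258.LQ.Asm

/-!
# Towers of quadratic extensions : iteration
-/

set_option autoImplicit false
set_option linter.unusedSectionVars false

open NumberField Filter Topology

namespace Pool.Agent.Q258.LQ

open Pool.Agent.TH444.ML

section

variable {K Ω : Type} [Field K] [NumberField K] [Field Ω] [Algebra K Ω] [IsAlgClosure K Ω]

theorem UX_mono (𝓕 : Set (IntermediateField K Ω)) {X Y : ℝ} (h : X ≤ Y) : UX 𝓕 X ⊆ UX 𝓕 Y :=
  fun _ hL => ⟨hL.1, hL.2.trans h⟩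

/-- a linear bound from the limit -/
theorem linear_of_tendsto (S : ℝ → Set (IntermediateField K Ω))
    (hmono : ∀ X Y : ℝ, X ≤ Y → S X ⊆ S Y) (hfin : ∀ X : ℝ, 0 < X → (S X).Finite) (c : ℝ)
    (hlim : Tendsto (fun X : ℝ => (Set.ncard (S X) : ℝ) / X) atTop (𝓝 c)) :
    ∃ C : ℝ, 0 < C ∧ ∀ X : ℝ, 1 ≤ X → (Set.ncard (S X) : ℝ) ≤ C * X := by
  have h1 : ∀ᶠ X : ℝ in atTop, (Set.ncard (S X) : ℝ) / X < c + 1 :=
    hlim.eventually (gt_mem_nhds (by linarith))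
  obtain ⟨X0, hX0⟩ := (h1.and (eventually_ge_atTop (1 : ℝ))).exists_forall_of_atTop
  have hX0' : (1 : ℝ) ≤ X0 := (hX0 X0 le_rfl).2
  refine ⟨|c + 1| + Set.ncard (S X0) + 1, by positivity, ?_⟩
  intro X hX
  have hXp : 0 < X := by linarith
  have hn : (0 : ℝ) ≤ Set.ncard (S X0) := Nat.cast_nonneg _
  rcases le_total X0 X with h | h
  · have h2 := (hX0 X h).1
    rw [div_lt_iff₀ hXp] at h2
    refine h2.le.trans ?_
    refine mul_le_mul_of_nonneg_right ?_ hXp.le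
    have := le_abs_self (c + 1)
    linarith
  · have h2 : Set.ncard (S X) ≤ Set.ncard (S X0) :=
      Set.ncard_le_ncard (hmono X X0 h) (hfin X0 (by linarith))
    have h3 : (Set.ncard (S X) : ℝ) ≤ Set.ncard (S X0) := by exact_mod_cast h2
    have h4 : (0 : ℝ) ≤ |c + 1| := abs_nonneg _
    nlinarith

theorem step_nonempty (𝓕 : Set (IntermediateField K Ω)) (c : ℝ) (hc : 0 < c)
    (h : Tendsto (fun X : ℝ => (Set.ncard (UX 𝓕 X) : ℝ) / X) atTop (𝓝 c)) :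
    (Up 𝓕).Nonempty := by
  by_contra hne
  rw [Set.not_nonempty_iff_eq_empty] at hne
  have h0 : ∀ X : ℝ, UX 𝓕 X = ∅ := by
    intro X
    rw [Set.eq_empty_iff_forall_notMem]
    intro L hL
    have : L ∈ Up 𝓕 := hL.1
    rw [hne] at this
    exact this
  have h1 : (fun X : ℝ => (Set.ncard (UX 𝓕 X) : ℝ) / X) = fun _ => (0 : ℝ) := by
    funext X
    rw [h0]
    simp
  rw [h1] at h
  have := tendsto_nhds_unique h tendsto_const_nhds
  linarith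

theorem up_degree {𝓕 : Set (IntermediateField K Ω)} {m : ℕ}
    (hF : ∀ F ∈ 𝓕, Module.finrank K F = m) :
    ∀ L ∈ Up 𝓕, Module.finrank K L = 2 * m := by
  rintro L ⟨F, h1, -, h3⟩
  rw [h3, hF F h1]

/-- One step, with the summability for the next step. -/
theorem step2 (hl : QuadLim) (hp : QuadPos) (hu : QuadUnif2) (hb : BadSmall2) (hs : SumOfCount)
    (𝓕 : Set (IntermediateField K Ω)) (m : ℕ) (hm : 0 < m)
    (hF : ∀ F ∈ 𝓕, Module.finrank K F = m) (hne : 𝓕.Nonempty)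
    (hsum : Summable (fun F : 𝓕 => (dsc F.1) ^ (-(5 / 4) : ℝ))) :
    (∃ c : ℝ, 0 < c ∧ Tendsto (fun X : ℝ => (Set.ncard (UX 𝓕 X) : ℝ) / X) atTop (𝓝 c)) ∧
    (Up 𝓕).Nonempty ∧ Summable (fun F : Up 𝓕 => (dsc F.1) ^ (-(5 / 4) : ℝ)) := by
  obtain ⟨hfin, c, hc, hlim⟩ := step hl hp hu hb 𝓕 m hm hF hne hsum
  obtain ⟨C, hC0, hC⟩ := linear_of_tendsto (UX 𝓕) (fun X Y h => UX_mono 𝓕 h) hfin c hlim
  refine ⟨⟨c, hc, hlim⟩, step_nonempty 𝓕 c hc hlim, ?_⟩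
  refine hs K Ω (Up 𝓕) C ?_
  intro X hX
  exact ⟨hfin X (by linarith), hC X hX⟩

/-- towers of `r` quadratic extensions above the members of `𝓕` -/
def QTower {K Ω : Type} [Field K] [Field Ω] [Algebra K Ω] (𝓕 : Set (IntermediateField K Ω)) :
    ℕ → Set (IntermediateField K Ω)
  | 0 => 𝓕
  | r + 1 => Up (QTower 𝓕 r)

theorem qtower (hl : QuadLim) (hp : QuadPos) (hu : QuadUnif2) (hb : BadSmall2) (hs : SumOfCount)
    (𝓕 : Set (IntermediateField K Ω)) (m : ℕ) (hm : 0 < m)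
    (hF : ∀ F ∈ 𝓕, Module.finrank K F = m) (hne : 𝓕.Nonempty)
    (hsum : Summable (fun F : 𝓕 => (dsc F.1) ^ (-(5 / 4) : ℝ))) (r : ℕ) :
    (∀ L ∈ QTower 𝓕 r, Module.finrank K L = m * 2 ^ r) ∧ (QTower 𝓕 r).Nonempty ∧
      Summable (fun F : QTower 𝓕 r => (dsc F.1) ^ (-(5 / 4) : ℝ)) := by
  induction r with
  | zero => exact ⟨by simpa [QTower] using hF, hne, hsum⟩
  | succ r ih =>
    obtain ⟨h1, h2, h3⟩ := ih
    have h := step2 hl hp hu hb hs (QTower 𝓕 r) (m * 2 ^ r) (by positivity) h1 h2 h3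
    refine ⟨?_, h.2.1, h.2.2⟩
    intro L hL
    rw [up_degree h1 L hL, pow_succ]
    ring

theorem qtower_count (hl : QuadLim) (hp : QuadPos) (hu : QuadUnif2) (hb : BadSmall2)
    (hs : SumOfCount) (𝓕 : Set (IntermediateField K Ω)) (m : ℕ) (hm : 0 < m)
    (hF : ∀ F ∈ 𝓕, Module.finrank K F = m) (hne : 𝓕.Nonempty)
    (hsum : Summable (fun F : 𝓕 => (dsc F.1) ^ (-(5 / 4) : ℝ))) (r : ℕ) (hr : 1 ≤ r) :
    ∃ c : ℝ, 0 < c ∧ Tendsto (fun X : ℝ =>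
      (Set.ncard {L : IntermediateField K Ω | L ∈ QTower 𝓕 r ∧ dsc L ≤ X} : ℝ) / X)
        atTop (𝓝 c) := by
  obtain ⟨r, rfl⟩ : ∃ s, r = s + 1 := ⟨r - 1, by omega⟩
  obtain ⟨h1, h2, h3⟩ := qtower hl hp hu hb hs 𝓕 m hm hF hne hsum r
  exact (step2 hl hp hu hb hs (QTower 𝓕 r) (m * 2 ^ r) (by positivity) h1 h2 h3).1

end

end Pool.Agent.Q258.LQ
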