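import Pool.Agent.TH444.ML.Tr

/-!
# Towers of quadratic extensions : statements

Project LQ (helper258): for a number field `K` and every `r ≥ 1` the number of the extensions `L` of
`K` of degree `2 ^ r` which are towers of quadratic extensions, with `|d_L| ≤ X`, is `~ c X`; more
generally for towers of quadratic extensions above the members of a family `𝓕` with
`∑ |d_F| ^ (-5/4) < ∞`.
-/

set_option autoImplicit false

open NumberField Filter Topology

namespace Pool.Agent.Q258.LQ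

open Pool.Agent.TH444.ML

/-- The sum of `N(I) ^ (-(1 + ε))` over ideals, uniformly in the field (of degree `D`).
Proof: as in `Pool.Agent.TH89.J3091.idealUnif` (use `exists_index`, `prod_co_le`, `co_inj`, `co_pos` of
that file): `I ↦ (Φ I i)_i` is injective into the `D`-tuples of positive integers, `∏ Φ I i ≤ N(I)`, so
the sum is at most `(∑ n ^ (-(1 + ε))) ^ D`. -/
def IdealSum : Prop :=
  ∀ (D : ℕ) (ε : ℝ), 0 < ε → ∃ C : ℝ, 0 < C ∧ ∀ (M : Type) [Field M] [NumberField M],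
    Module.finrank ℚ M = D → ∀ F : Finset (Ideal (𝓞 M)), (∀ I ∈ F, I ≠ ⊥) →
      ∑ I ∈ F, (Ideal.absNorm I : ℝ) ^ (-(1 + ε)) ≤ C

/-- The number of ideals of norm at most `Z` (immediate from `IdealSum`). -/
def IdealUnif2 : Prop :=
  ∀ (D : ℕ) (ε : ℝ), 0 < ε → ∃ C : ℝ, 0 < C ∧ ∀ (M : Type) [Field M] [NumberField M],
    Module.finrank ℚ M = D → ∀ Z : ℝ, 1 ≤ Z →
      {I : Ideal (𝓞 M) | I ≠ ⊥ ∧ (Ideal.absNorm I : ℝ) ≤ Z}.Finite ∧
      (Set.ncard {I : Ideal (𝓞 M) | I ≠ ⊥ ∧ (Ideal.absNorm I : ℝ) ≤ Z} : ℝ) ≤ C * Z ^ (1 + ε)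

/-- Every point of the mixed space is close to a point of the lattice of the ideal `𝔟`: at distance at
most `(C |d| ^ A N(𝔟)) ^ (1 / D)` at all places.
Proof. Minkowski (`exists_ne_zero_mem_ideal_lt`, compare `Pool.Agent.TH55.J3092.mink`) gives
`a ∈ 𝔟`, `a ≠ 0`, with `w a < (2 ^ (D + 1) √d N(𝔟)) ^ (1 / D)` for all `w`. Mathlib's
`exists_primitive_element_lt_of_isReal` and `exists_primitive_element_lt_of_isComplex` give an integer
`t` with `ℚ(t) = M` and `w t < max B 1` for all `w`, where `B` is a constant times `√d`. The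
elements `c i = a t ^ i`, `i < D`, of `𝔟` form a basis of `M` over `ℚ`; their images span the mixed space
over `ℝ` (all elements of `M` are rational combinations, and the images of `M` span, as
`latticeBasis` is a basis consisting of such images). So `z = ∑ r i • c i`; take
`y = ∑ ⌊r i⌋ c i`. -/
def Cover : Prop :=
  ∀ D : ℕ, ∃ (C : ℝ) (A : ℕ), 1 ≤ C ∧ ∀ (M : Type) [Field M] [NumberField M],
    Module.finrank ℚ M = D → ∀ 𝔟 : Ideal (𝓞 M), 𝔟 ≠ ⊥ → ∀ z : mixedEmbedding.mixedSpace M,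
      ∃ y ∈ 𝔟, ∀ w : InfinitePlace M,
        mixedEmbedding.normAtPlace w (z - mixedEmbedding M (y : M)) ≤
          (C * ((|discr M| : ℤ) : ℝ) ^ A * (Ideal.absNorm 𝔟 : ℝ)) ^ ((1 : ℝ) / D)

/-- Points of an ideal in a large cube: at most a constant times volume / covolume.
Proof from `Cover`. Let `S` be the set, `P` the fundamental domain
`ZSpan.fundamentalDomain (fractionalIdealLatticeBasis M 𝔟)` of the lattice `Λ` of `𝔟`, of volume
`N(𝔟) 2 ^ (-r₂) √d` (`volume_fundamentalDomain_fractionalIdealLatticeBasis`,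
`volume_fundamentalDomain_latticeBasis`), and `R` the set of the points with all
`normAtPlace w x < 2 B`. `IsAddFundamentalDomain.measure_eq_tsum` gives
`vol R = ∑ over g in Λ of vol ((g + R) ∩ P) = ∫ over P of #{g ∈ Λ : z - g ∈ R} dz`. For every `z`
take `y` with `z - y` of size `≤ B` at all places (`Cover`; this is the condition on `B`): then
`z - (y - s) ∈ R` for all `s ∈ S`, so the integrand is at least `#S`, and `#S vol P ≤ vol R ≤
(8 B) ^ D`-ish (`convexBodyLT_volume`). (Finiteness of `S` also follows, or see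
`NumberField.Embeddings.finite_of_norm_le`.) -/
def LatCount : Prop :=
  ∀ D : ℕ, ∃ (C : ℝ) (A : ℕ), 1 ≤ C ∧ ∀ (M : Type) [Field M] [NumberField M],
    Module.finrank ℚ M = D → ∀ 𝔟 : Ideal (𝓞 M), 𝔟 ≠ ⊥ → ∀ B : ℝ, 0 < B →
      C * ((|discr M| : ℤ) : ℝ) ^ A * (Ideal.absNorm 𝔟 : ℝ) ≤ B ^ D →
      {y : 𝓞 M | y ∈ 𝔟 ∧ ∀ w : InfinitePlace M, w (y : M) < B}.Finite ∧
      (Set.ncard {y : 𝓞 M | y ∈ 𝔟 ∧ ∀ w : InfinitePlace M, w (y : M) < B} : ℝ) *
        (Real.sqrt ((|discr M| : ℤ) : ℝ) * (Ideal.absNorm 𝔟 : ℝ)) ≤ C * B ^ D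

/-- Uniform count of the principal ideals divisible by `𝔟`.
Proof from `LatCount`, `IdealSum`, `IdealUnif2`. Let `d = |discr M|`, `C1 = 2 ^ (D + 1) √d`, and
let `C2, A2` be the constants of `LatCount`.
Case `Y ≤ C2 d ^ A2`: `I = 𝔟 J` with `N J ≤ Y`; use `IdealUnif2` with `ε / (A2 + 1)`.
Case `Y > C2 d ^ A2`: for `I = (x)` in the set take `β` from `Pool.Agent.TH55.J3092.balance`:
`N(β) ≤ C1` and `w (β x) < (C1 N(x)) ^ (1/D) ≤ B := (C1 N(𝔟) Y) ^ (1/D)`. The map
`I ↦ ((β), β x)` is injective (see the proof of `Pool.Agent.TH55.J3092.princUnif`), and `β x` is in the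
ideal `(β) 𝔟` and in the cube of `LatCount`; the condition holds as `N(β) ≤ C1` and
`C2 d ^ A2 ≤ Y`. So the number is at most the sum over the principal ideals `(β) ≠ 0` of norm
`≤ C1` of `C2 B ^ D / (√d N(β) N(𝔟)) = C2 2 ^ (D + 1) Y / N(β)`, and
`∑ 1 / N(β) ≤ C1 ^ ε' ∑ N(β) ^ (-(1 + ε')) ≤ C C1 ^ ε'` by `IdealSum`. -/
def PrincUnif2 : Prop :=
  ∀ (D : ℕ) (ε : ℝ), 0 < ε → ∃ C : ℝ, 0 < C ∧ ∀ (M : Type) [Field M] [NumberField M],
    Module.finrank ℚ M = D → ∀ (𝔟 : Ideal (𝓞 M)), 𝔟 ≠ ⊥ → ∀ Y : ℝ, 1 ≤ Y →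
      {I : Ideal (𝓞 M) | I ≠ ⊥ ∧ 𝔟 ∣ I ∧ (∃ x, I = Ideal.span {x}) ∧
        (Ideal.absNorm I : ℝ) ≤ Ideal.absNorm 𝔟 * Y}.Finite ∧
      (Set.ncard {I : Ideal (𝓞 M) | I ≠ ⊥ ∧ 𝔟 ∣ I ∧ (∃ x, I = Ideal.span {x}) ∧
        (Ideal.absNorm I : ℝ) ≤ Ideal.absNorm 𝔟 * Y} : ℝ) ≤
      C * ((|discr M| : ℤ) : ℝ) ^ ε * Y

/-- Quadratic extensions: uniform upper bound with the exponent `3/4` (in `QuadUnif` it is `7/4`).
Proof: adapt `Pool.Agent.TH293.J3093` (`quadUnif`): the class number is at most a constant times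
`d ^ ((1 + ε) / 2)` (`IdealUnif2` at the Minkowski bound) and the number of the principal ideals is at
most `C d ^ ε Y` (`PrincUnif2`); take `ε = 1/6`. -/
def QuadUnif2 : Prop :=
  ∀ D : ℕ, ∃ C : ℝ, 0 < C ∧ ∀ (M E : Type) [Field M] [NumberField M] [Field E] [Algebra M E]
    [IsAlgClosed E], Module.finrank ℚ M = D → ∀ Y : ℝ, 0 ≤ Y →
      (QS M E Y).Finite ∧
      (Set.ncard (QS M E Y) : ℝ) ≤ C * ((|discr M| : ℤ) : ℝ) ^ (3 / 4 : ℝ) * Y

/-- Totally split primes not dividing `2` are numerous, for all extensions `M / K` of number fields.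
Proof: `Pool.Agent.TH857.J3095.splitSum` for the Galois extension `N / K`, `N` the normal closure of `M`
in an algebraic closure: a prime totally split in `N` is totally split in `M` (in the count
`∑ e f = [M : K]`, all `e`, `f` are one, as they divide those of `N`); only finitely many primes
contain `2`. -/
def SplitSum2 : Prop :=
  ∀ (K M : Type) [Field K] [NumberField K] [Field M] [NumberField M] [Algebra K M],
    ¬ Summable (fun p : {p : Ideal (𝓞 K) // p.IsPrime ∧ p ≠ ⊥ ∧ (2 : 𝓞 K) ∉ p ∧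
      Set.ncard (p.primesOver (𝓞 M)) = Module.finrank K M} => (1 : ℝ) / Ideal.absNorm p.1)

/-- squarefree ideals `𝔡` of `M` such that no totally split prime `p` of `K`, `2 ∉ p`, has exactly one
prime above `p` dividing `𝔡` -/
def bad2 (K M : Type) [Field K] [NumberField K] [Field M] [NumberField M] [Algebra K M] :
    Set (Ideal (𝓞 M)) :=
  {𝔡 | Squarefree 𝔡 ∧ ∀ p : Ideal (𝓞 K), p.IsPrime → p ≠ ⊥ → (2 : 𝓞 K) ∉ p →
    Set.ncard (p.primesOver (𝓞 M)) = Module.finrank K M →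
    ¬ ∃! P : Ideal (𝓞 M), P ∈ p.primesOver (𝓞 M) ∧ P ∣ 𝔡}

/-- The sieve. Proof: adapt `Pool.Agent.TH713.J3096` (`sieveFin` and `sieve`; everything before
`sieveFin` is general and can be used as it is), with `SplitSum2`. -/
def Sieve2 : Prop :=
  ∀ (K M : Type) [Field K] [NumberField K] [Field M] [NumberField M] [Algebra K M],
    Tendsto (fun Z : ℝ =>
      (Set.ncard {𝔡 : Ideal (𝓞 M) | 𝔡 ∈ bad2 K M ∧ (Ideal.absNorm 𝔡 : ℝ) ≤ Z} : ℝ) / Z)
      atTop (𝓝 0)

/-- The inertia group of a prime `P` of `L` with ramification index at most two over `K` has at most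
two elements: two automorphisms `σ, τ ≠ 1` of `L / K` which act trivially modulo `P` are equal.
Proof: let `I` be the subgroup of the automorphisms of `L / K` which act trivially modulo `P` and `E` its
fixed field. `L / E` is Galois with group `I`, and the inertia group of `P` in it is everything, so
`#I = e(P | E) ≤ e(P | K) ≤ 2` by `Ideal.card_inertia_eq_ramificationIdxIn` and the multiplicativity of
the ramification index (`Ideal.ramificationIdx_algebra_tower`). -/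
def InertiaTwo : Prop :=
  ∀ (K L : Type) [Field K] [NumberField K] [Field L] [NumberField L] [Algebra K L]
    (P : Ideal (𝓞 L)), P.IsPrime → P ≠ ⊥ →
    ¬ (Ideal.map (algebraMap (𝓞 K) (𝓞 L)) (P.under (𝓞 K)) ≤ P ^ 3) →
    ∀ σ τ : L ≃ₐ[K] L, σ ≠ 1 → τ ≠ 1 →
    (∀ x y : 𝓞 L, (y : L) = σ (x : L) → y - x ∈ P) →
    (∀ x y : 𝓞 L, (y : L) = τ (x : L) → y - x ∈ P) → σ = τ

/-- A prime `Q` of `L`, not above `2`, ramified over the prime `P` of `F`, `L = F(s)`, `s ^ 2 = α`,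
`(α) = 𝔡 𝔠 ^ 2`: then `P ∣ 𝔡`.
Proof: otherwise `v_P(α)` is even and there is `c` in `F`, `c ≠ 0`, such that `α' = c ^ 2 α` is integral
and not in `P` (for instance: `c = x / y` with `x`, `y` integral; `v_P(α) = 2 k`; take `y` in `P ^ k`,
not in `P ^ (k+1)`, and `x` in the ideal `J` with `(y) = P ^ k J`, not in `P`; then `c ^ 2 α` is integral
as `J`, times the square of anything, clears it: or work with `α' = c ^ 2 α` in the localization). Then
`s' = c s` is an integer of `L` with `s' ^ 2 = α'`. The nontrivial automorphism `σ` of `L / F` fixes `Q`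
(`e = 2`, so `Q` is the only prime above `P`) and acts trivially modulo `Q` (`f = 1`: every class
contains an element of `O_F`), so `- s' = σ s' ≡ s'`, `2 s' ∈ Q`, and `s' ∈ Q`, `α' ∈ P`, a
contradiction. -/
def RamA : Prop :=
  ∀ (F L : Type) [Field F] [NumberField F] [Field L] [NumberField L] [Algebra F L],
    Module.finrank F L = 2 → ∀ (α : 𝓞 F) (s : L) (𝔡 𝔠 : Ideal (𝓞 F)),
    s ^ 2 = algebraMap F L (α : F) → (∀ x : F, algebraMap F L x ≠ s) → α ≠ 0 →
    Squarefree 𝔡 → Ideal.span {α} = 𝔡 * 𝔠 ^ 2 →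
    ∀ Q : Ideal (𝓞 L), Q.IsPrime → Q ≠ ⊥ → (2 : 𝓞 L) ∉ Q →
      Ideal.map (algebraMap (𝓞 F) (𝓞 L)) (Q.under (𝓞 F)) ≤ Q ^ 2 → Q.under (𝓞 F) ∣ 𝔡

/-- A prime `P` of `F` dividing `𝔡` is ramified in `L = F(s)`, `s ^ 2 = α`, `(α) = 𝔡 𝔠 ^ 2`, and then
there is one prime `Q` above `P`, of residue degree one.
Proof: `v_Q(α) = 2 v_Q(s) = e(Q|P) v_P(α)` and `v_P(α)` is odd, so `e(Q|P)` is even, so it is `2`, and
`∑ e f = 2`. -/
def RamB : Prop :=
  ∀ (F L : Type) [Field F] [NumberField F] [Field L] [NumberField L] [Algebra F L],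
    Module.finrank F L = 2 → ∀ (α : 𝓞 F) (s : L) (𝔡 𝔠 : Ideal (𝓞 F)),
    s ^ 2 = algebraMap F L (α : F) → α ≠ 0 →
    Squarefree 𝔡 → Ideal.span {α} = 𝔡 * 𝔠 ^ 2 →
    ∀ Q : Ideal (𝓞 L), Q.IsPrime → Q ≠ ⊥ → Q.under (𝓞 F) ∣ 𝔡 →
      Ideal.map (algebraMap (𝓞 F) (𝓞 L)) (Q.under (𝓞 F)) = Q ^ 2 ∧
      (∀ Q' : Ideal (𝓞 L), Q'.IsPrime → Q' ≠ ⊥ → Q'.under (𝓞 F) = Q.under (𝓞 F) → Q' = Q) ∧
      ∀ x : 𝓞 L, ∃ y : 𝓞 F, x - algebraMap (𝓞 F) (𝓞 L) y ∈ Q

/-- If the quadratic extension `L = F(√α)` of `F` has a second subfield `F' ≠ F` of index two above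
`K`, then the squarefree part `𝔡` of `α` is bad.
Proof. Let `p` be a prime of `K` with `2 ∉ p`, totally split in `F`, with exactly one prime `P` of `F`
above `p` dividing `𝔡`. Then `P` is ramified in `L`, `P O_L = Q ^ 2`, and the other primes of `F` above
`p` are unramified in `L` (they do not divide `2 𝔡`); so `Q` is the only prime `Q'` of `L` above `p`
with `p O_L ≤ Q' ^ 2`, and `p O_L` is not `≤ Q ^ 3`. Its residue field is that of `p` (`f(P|p) = 1`
and `f(Q|P) = 1`). Let `σ`, `τ` be the involutions of `L` over `F`, `F'`. Both fix `Q` (by the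
characterisation of `Q`, or as it is the only prime over `P`), and so act trivially modulo `Q` (every
class modulo `Q` contains an element of `O_K`). By `InertiaTwo` `σ = τ`, so `F = F'`. (`RamA`: a prime
of `L` above `p` with `p O_L ≤ Q' ^ 2` lies above `P`; `RamB` for `P`.) -/
def UniqBad : Prop :=
  ∀ (K L : Type) [Field K] [NumberField K] [Field L] [NumberField L] [Algebra K L]
    (F F' : IntermediateField K L), Module.finrank K L = 2 * Module.finrank K F →
    Module.finrank K F' = Module.finrank K F → F' ≠ F →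
    ∀ (α : 𝓞 F) (s : L) (𝔡 𝔠 : Ideal (𝓞 F)), s ^ 2 = ((α : F) : L) → s ∉ F → α ≠ 0 →
      Squarefree 𝔡 → Ideal.span {α} = 𝔡 * 𝔠 ^ 2 → 𝔡 ∈ bad2 K F

/-- The quadratic extensions `L` of `F` with a second subfield of index two are few.
Proof: adapt `Pool.Agent.TH521.J3102` (`data`, `count`, `badSmall`), using `UniqBad` for the
extension `L / K` in place of `NotFull`, `SqBad`, and `Sieve2` in place of `Sieve`. -/
def BadSmall2 : Prop :=
  ∀ (K Ω : Type) [Field K] [NumberField K] [Field Ω] [Algebra K Ω] [IsAlgClosure K Ω]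
    (F : IntermediateField K Ω) [FiniteDimensional K F],
    Tendsto (fun Y : ℝ => (Set.ncard {L : IntermediateField K Ω | F ≤ L ∧
      Module.finrank K L = 2 * Module.finrank K F ∧
      (∃ F' : IntermediateField K Ω, F' ≤ L ∧ F' ≠ F ∧
        Module.finrank K F' = Module.finrank K F) ∧ dsc L ≤ Y * dsc F ^ 2} : ℝ) / Y)
      atTop (𝓝 0)

/-- the quadratic extensions of the members of `𝓕` -/
def Up {K Ω : Type} [Field K] [Field Ω] [Algebra K Ω] (𝓕 : Set (IntermediateField K Ω)) :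
    Set (IntermediateField K Ω) :=
  {L | ∃ F ∈ 𝓕, F ≤ L ∧ Module.finrank K L = 2 * Module.finrank K F}

/-- From a linear bound for the counting function to the convergence of the sum. -/
def SumOfCount : Prop :=
  ∀ (K Ω : Type) [Field K] [Field Ω] [Algebra K Ω] (𝓖 : Set (IntermediateField K Ω)) (C : ℝ),
    (∀ X : ℝ, 1 ≤ X → {L : IntermediateField K Ω | L ∈ 𝓖 ∧ dsc L ≤ X}.Finite ∧
      (Set.ncard {L : IntermediateField K Ω | L ∈ 𝓖 ∧ dsc L ≤ X} : ℝ) ≤ C * X) →
    Summable (fun L : 𝓖 => (dsc L.1) ^ (-(5 / 4) : ℝ))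

end Pool.Agent.Q258.LQ
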